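import Mathlib

/-!
# An explicit arrow matrix with eigenvalues `0, 2, …, 2r` and legs `1, 3, …, 2r-1`
-/

set_option autoImplicit false

namespace Pool.Agent.Q104.Arrow

open Finset Polynomial

lemma signprod (K t : ℕ) (f : ℕ → ℝ) (ht : t ≤ K) (h1 : ∀ i, i < K → i < t → 0 < f i)
    (h2 : ∀ i, i < K → t ≤ i → f i < 0) : 0 < (-1 : ℝ) ^ (K - t) * ∏ i ∈ range K, f i := by
  induction K with
  | zero =>
    simp
  | succ K ih =>
    rcases Nat.lt_or_ge K t with h | h
    · have : t = K + 1 := by omega
      subst this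
      rw [Nat.sub_self, pow_zero, one_mul]
      apply Finset.prod_pos
      intro i hi
      have := Finset.mem_range.1 hi
      exact h1 i this this
    · have ih' := ih h (fun i hi ht => h1 i (by omega) ht) (fun i hi ht => h2 i (by omega) ht)
      rw [Finset.prod_range_succ, show K + 1 - t = (K - t) + 1 by omega, pow_succ]
      have h3 := h2 K (by omega) h
      have : (-1 : ℝ) ^ (K - t) * -1 * ((∏ i ∈ range K, f i) * f K) =
          ((-1 : ℝ) ^ (K - t) * ∏ i ∈ range K, f i) * (- f K) := by ring
      rw [this]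
      exact mul_pos ih' (by linarith)

lemma arrow (r : ℕ) : ∃ (a : ℝ) (c : ℕ → ℝ), (∀ j, j < r → 0 < c j) ∧
    ∀ t : ℕ, t ≤ r → ∑ j ∈ range r, c j / (2 * (t : ℝ) - (2 * (j : ℝ) + 1)) + a = 2 * (t : ℝ) := by
  classical
  set v : ℕ → ℝ := fun j => 2 * (j : ℝ) + 1 with hv
  set P : ℝ[X] := Lagrange.nodal (range r) v with hP
  set z : ℕ → ℝ := fun j => 2 * (j : ℝ) with hz
  set Z : ℝ[X] := Lagrange.nodal (range (r + 1)) z with hZ
  have hvinj : Set.InjOn v (range r) := by
    intro i _ j _ h
    simp only [hv] at h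
    have : (i : ℝ) = j := by linarith
    exact_mod_cast this
  have hPm : P.Monic := Lagrange.nodal_monic
  have hZm : Z.Monic := Lagrange.nodal_monic
  have hPd : P.natDegree = r := by rw [hP, Lagrange.natDegree_nodal, card_range]
  have hZd : Z.natDegree = r + 1 := by rw [hZ, Lagrange.natDegree_nodal, card_range]
  set D : ℝ[X] := Z - X * P with hD
  have hXP : (X * P).Monic := monic_X.mul hPm
  have hXPd : (X * P).natDegree = r + 1 := by
    rw [natDegree_mul X_ne_zero hPm.ne_zero, natDegree_X, hPd]; ring
  have hDcoeff : ∀ n, r < n → D.coeff n = 0 := by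
    intro n hn
    rw [hD, coeff_sub]
    rcases Nat.lt_or_ge (r + 1) n with h | h
    · rw [coeff_eq_zero_of_natDegree_lt (by omega), coeff_eq_zero_of_natDegree_lt (by omega)]
      ring
    · have hn' : n = r + 1 := by omega
      have e1 : Z.coeff n = 1 := by
        rw [hn', ← hZd]; exact hZm.coeff_natDegree
      have e2 : (X * P).coeff n = 1 := by
        rw [hn', ← hXPd]; exact hXP.coeff_natDegree
      rw [e1, e2]; ring
  set q : ℝ := D.coeff r with hq
  set R : ℝ[X] := D - C q * P with hR
  have hRdeg : R.degree < ((range r).card : ℕ) := by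
    rw [card_range, degree_lt_iff_coeff_zero]
    intro n hn
    rw [hR, coeff_sub, coeff_C_mul]
    rcases Nat.lt_or_ge r n with h | h
    · rw [hDcoeff n h, coeff_eq_zero_of_natDegree_lt (by omega)]; ring
    · have hn' : n = r := by omega
      have e2 : P.coeff n = 1 := by
        rw [hn', ← hPd]; exact hPm.coeff_natDegree
      rw [e2, hn']; ring
  have hZeq : ∀ x, Z.eval x = (x + q) * P.eval x + R.eval x := by
    intro x
    rw [hR, hD]
    simp only [eval_sub, eval_mul, eval_X, eval_C]
    ring
  have hRint : R = Lagrange.interpolate (range r) v (fun j => Z.eval (v j)) := by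
    apply Lagrange.eq_interpolate_of_eval_eq _ hvinj hRdeg
    intro i hi
    have h1 := hZeq (v i)
    have h2 : P.eval (v i) = 0 := Lagrange.eval_nodal_at_node hi
    rw [h2] at h1
    linarith
  refine ⟨-q, fun j => - (Z.eval (v j) * Lagrange.nodalWeight (range r) v j), ?_, ?_⟩
  · intro j hj
    have h1 : 0 < (-1 : ℝ) ^ (r + 1 - (j + 1)) * ∏ i ∈ range (r + 1), (v j - z i) := by
      apply signprod (r + 1) (j + 1) _ (by omega)
      · intro i _ hi
        simp only [hv, hz]
        have : (i : ℝ) ≤ j := by exact_mod_cast (by omega : i ≤ j)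
        linarith
      · intro i _ hi
        simp only [hv, hz]
        have : (j : ℝ) + 1 ≤ i := by exact_mod_cast hi
        linarith
    have h2 : 0 < (-1 : ℝ) ^ (r - (j + 1)) *
        ∏ i ∈ range r, (if i = j then 1 else (v j - v i)) := by
      apply signprod r (j + 1) _ (by omega)
      · intro i _ hi
        by_cases hij : i = j
        · rw [if_pos hij]; exact one_pos
        · rw [if_neg hij]
          simp only [hv]
          have : (i : ℝ) + 1 ≤ j := by exact_mod_cast (by omega : i + 1 ≤ j)
          linarith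
      · intro i _ hi
        rw [if_neg (by omega)]
        simp only [hv]
        have : (j : ℝ) + 1 ≤ i := by exact_mod_cast hi
        linarith
    have h3 : ∏ i ∈ range r, (if i = j then 1 else (v j - v i)) =
        ∏ i ∈ (range r).erase j, (v j - v i) := by
      rw [← Finset.mul_prod_erase (range r) _ (Finset.mem_range.2 hj), if_pos rfl, one_mul]
      apply Finset.prod_congr rfl
      intro i hi
      rw [if_neg (Finset.mem_erase.1 hi).1]
    have h4 : Z.eval (v j) = ∏ i ∈ range (r + 1), (v j - z i) := by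
      rw [hZ, Lagrange.eval_nodal]
    have h5 : Lagrange.nodalWeight (range r) v j = (∏ i ∈ (range r).erase j, (v j - v i))⁻¹ := by
      unfold Lagrange.nodalWeight
      rw [Finset.prod_inv_distrib]
    rw [← h3] at h5
    rw [← h4] at h1
    set a := Z.eval (v j)
    set b := ∏ i ∈ range r, (if i = j then (1 : ℝ) else (v j - v i))
    simp only
    rw [h5]
    have hb0 : b ≠ 0 := by
      intro h0
      rw [h0, mul_zero] at h2
      exact lt_irrefl _ h2
    have h6 : 0 < ((-1 : ℝ) ^ (r + 1 - (j + 1)) * a) * ((-1 : ℝ) ^ (r - (j + 1)) * b) :=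
      mul_pos h1 h2
    have h7 : ((-1 : ℝ) ^ (r + 1 - (j + 1)) * a) * ((-1 : ℝ) ^ (r - (j + 1)) * b) = - (a * b) := by
      have : r + 1 - (j + 1) = (r - (j + 1)) + 1 := by omega
      rw [this, pow_succ]
      have h8 : (-1 : ℝ) ^ (r - (j + 1)) * (-1 : ℝ) ^ (r - (j + 1)) = 1 := by
        rw [← mul_pow]; norm_num
      linear_combination (- (a * b)) * h8
    rw [h7] at h6
    have h9 : -(a * b⁻¹) = (-(a * b)) * (b⁻¹ * b⁻¹) := by
      field_simp
    rw [h9]
    exact mul_pos h6 (mul_self_pos.2 (inv_ne_zero hb0))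
  · intro t ht
    have hne : ∀ i ∈ range r, z t ≠ v i := by
      intro i _ h
      simp only [hz, hv] at h
      have h1 : (2 * (t : ℤ) : ℤ) = 2 * (i : ℤ) + 1 := by
        have : (2 * (t : ℝ)) = 2 * (i : ℝ) + 1 := h
        exact_mod_cast this
      omega
    have h1 : Z.eval (z t) = 0 :=
      Lagrange.eval_nodal_at_node (Finset.mem_range.2 (by omega))
    have h2 := hZeq (z t)
    rw [h1] at h2
    have h3 : P.eval (z t) ≠ 0 := Lagrange.eval_nodal_not_at_node hne
    have h4 : R.eval (z t) = P.eval (z t) * ∑ i ∈ range r,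
        Lagrange.nodalWeight (range r) v i * (z t - v i)⁻¹ * Z.eval (v i) := by
      rw [hRint, Lagrange.eval_interpolate_not_at_node _ hne]
    have h5 : P.eval (z t) * ((z t + q) + ∑ i ∈ range r,
        Lagrange.nodalWeight (range r) v i * (z t - v i)⁻¹ * Z.eval (v i)) = 0 := by
      rw [h4] at h2
      linear_combination -h2
    have h6 : (z t + q) + ∑ i ∈ range r,
        Lagrange.nodalWeight (range r) v i * (z t - v i)⁻¹ * Z.eval (v i) = 0 := by
      rcases mul_eq_zero.1 h5 with h | h
      · exact absurd h h3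
      · exact h
    have h7 : ∑ j ∈ range r, -(Z.eval (v j) * Lagrange.nodalWeight (range r) v j) /
        (2 * (t : ℝ) - (2 * (j : ℝ) + 1)) = - ∑ i ∈ range r,
        Lagrange.nodalWeight (range r) v i * (z t - v i)⁻¹ * Z.eval (v i) := by
      rw [← Finset.sum_neg_distrib]
      apply Finset.sum_congr rfl
      intro i _
      rw [div_eq_mul_inv]
      simp only [hz, hv]
      ring
    rw [h7]
    have : z t = 2 * (t : ℝ) := rfl
    linarith

end Pool.Agent.Q104.Arrow
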