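import Mathlib

/-!
# Signed complete graphs whose Laplacian has small spread
-/

set_option autoImplicit false

namespace Q104.Bal

open Matrix Finset

/-- a symmetric matrix with zero diagonal and entries in `{-1, 0, 1}` whose row sums are
congruent to `n - 1` modulo `2` -/
structure Good {n : ℕ} (S : Fin n → Fin n → ℤ) : Prop where
  symm : ∀ i j, S i j = S j i
  diag : ∀ i, S i i = 0
  lo : ∀ i j, -1 ≤ S i j
  hi : ∀ i j, S i j ≤ 1
  par : ∀ i, (2 : ℤ) ∣ (∑ j, S i j) - (n - 1)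

variable {n : ℕ} (S : Fin n → Fin n → ℤ)

/-- the signed Laplacian -/
noncomputable def N : Matrix (Fin n) (Fin n) ℝ :=
  Matrix.of fun i j => (if i = j then ((∑ l, S i l : ℤ) : ℝ) else 0) - (S i j : ℝ)

/-- bounds of the quadratic form on the vectors of sum zero -/
structure Bd (a b : ℝ) : Prop where
  lo : ∀ x : Fin n → ℝ, ∑ i, x i = 0 → a * (x ⬝ᵥ x) ≤ x ⬝ᵥ (N S *ᵥ x)
  hi : ∀ x : Fin n → ℝ, ∑ i, x i = 0 → x ⬝ᵥ (N S *ᵥ x) ≤ b * (x ⬝ᵥ x)

variable {S}

lemma N_symm (hS : Good S) (i j : Fin n) : N S i j = N S j i := by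
  simp only [N, Matrix.of_apply]
  rw [hS.symm i j]
  by_cases h : i = j
  · subst h; rfl
  · rw [if_neg h, if_neg (Ne.symm h)]

lemma N_diag (hS : Good S) (i : Fin n) : N S i i = ((∑ l, S i l : ℤ) : ℝ) := by
  simp [N, hS.diag]

lemma N_off {i j : Fin n} (h : i ≠ j) : N S i j = -(S i j : ℝ) := by
  simp [N, h]

lemma N_one : N S *ᵥ (fun _ => (1 : ℝ)) = 0 := by
  ext i
  simp [N, Matrix.mulVec, dotProduct, Finset.sum_sub_distrib]

lemma dot_symm (hS : Good S) (x y : Fin n → ℝ) : x ⬝ᵥ (N S *ᵥ y) = y ⬝ᵥ (N S *ᵥ x) := by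
  have hT : (N S)ᵀ = N S := by
    ext i j; rw [Matrix.transpose_apply, N_symm hS]
  rw [dotProduct_mulVec, ← mulVec_transpose, hT, dotProduct_comm]

lemma one_dot (hS : Good S) (x : Fin n → ℝ) : (fun _ => (1 : ℝ)) ⬝ᵥ (N S *ᵥ x) = 0 := by
  rw [dot_symm hS, N_one, dotProduct_zero]

/-- the basis vector -/
noncomputable abbrev e (p : Fin n) : Fin n → ℝ := Pi.single p (1 : ℝ)

lemma B_single (p q : Fin n) : e p ⬝ᵥ (N S *ᵥ e q) = N S p q := by
  simp

/-- the row sum bound -/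
lemma row_bound (hS : Good S) {a b : ℝ} (h : Bd S a b) (hn : 2 ≤ n) (i : Fin n) :
    a * (n - 1) ≤ n * ((∑ l, S i l : ℤ) : ℝ) ∧ n * ((∑ l, S i l : ℤ) : ℝ) ≤ b * (n - 1) := by
  set x : Fin n → ℝ := (n : ℝ) • e i - (fun _ => (1 : ℝ)) with hx
  have hn0 : (0 : ℝ) < n := by exact_mod_cast (by omega : 0 < n)
  have hsum : ∑ k, x k = 0 := by
    simp [hx, Finset.sum_sub_distrib, Pi.single_apply]
  have hxx : x ⬝ᵥ x = n * (n - 1) := by
    simp only [hx, sub_dotProduct, dotProduct_sub, smul_dotProduct, dotProduct_smul, smul_eq_mul,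
      single_dotProduct, dotProduct_single]
    simp [dotProduct]
  have hF : x ⬝ᵥ (N S *ᵥ x) = n ^ 2 * ((∑ l, S i l : ℤ) : ℝ) := by
    have h1 : N S *ᵥ x = (n : ℝ) • (N S *ᵥ e i) := by
      rw [hx, Matrix.mulVec_sub, N_one, sub_zero, Matrix.mulVec_smul]
    rw [h1, hx, sub_dotProduct, dotProduct_smul, dotProduct_smul, one_dot hS, smul_dotProduct,
      B_single, N_diag hS]
    simp only [smul_eq_mul]
    ring
  have h1 := h.lo x hsum
  have h2 := h.hi x hsum
  rw [hxx, hF] at h1 h2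
  constructor
  · have : n * (a * (n - 1)) ≤ n * (n * ((∑ l, S i l : ℤ) : ℝ)) := by nlinarith
    exact le_of_mul_le_mul_left this hn0
  · have : n * (n * ((∑ l, S i l : ℤ) : ℝ)) ≤ n * (b * (n - 1)) := by nlinarith
    exact le_of_mul_le_mul_left this hn0

lemma rows_le (hS : Good S) {a b : ℝ} (h : Bd S a b) (hab : b - a ≤ 2) (hn : 2 ≤ n)
    (i j : Fin n) : (∑ l, S i l) ≤ ∑ l, S j l := by
  by_contra hlt
  push Not at hlt
  have h1 := (row_bound hS h hn i).2
  have h2 := (row_bound hS h hn j).1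
  have hn0 : (2 : ℝ) ≤ n := by exact_mod_cast hn
  have hp : (2 : ℤ) ∣ (∑ l, S i l) - ∑ l, S j l := by
    have := dvd_sub (hS.par i) (hS.par j)
    simpa using this
  have h3 : (∑ l, S j l) + 2 ≤ ∑ l, S i l := by omega
  have h4 : ((∑ l, S j l : ℤ) : ℝ) + 2 ≤ ((∑ l, S i l : ℤ) : ℝ) := by exact_mod_cast h3
  nlinarith

lemma rows_eq (hS : Good S) {a b : ℝ} (h : Bd S a b) (hab : b - a ≤ 2) (hn : 2 ≤ n)
    (i j : Fin n) : (∑ l, S i l) = ∑ l, S j l :=
  le_antisymm (rows_le hS h hab hn i j) (rows_le hS h hab hn j i)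

/-- the form on vectors supported on three points -/
lemma three (hS : Good S) (r : ℤ) (hr : ∀ i, ∑ l, S i l = r) {p q l : Fin n} (hpq : p ≠ q)
    (hpl : p ≠ l) (hql : q ≠ l) (u v w : ℝ) :
    (u • e p + v • e q + w • e l) ⬝ᵥ (N S *ᵥ (u • e p + v • e q + w • e l))
      = r * (u ^ 2 + v ^ 2 + w ^ 2) - 2 * (S p q * (u * v) + S p l * (u * w) + S q l * (v * w)) ∧
    (u • e p + v • e q + w • e l) ⬝ᵥ (u • e p + v • e q + w • e l) = u ^ 2 + v ^ 2 + w ^ 2 ∧
    ∑ i, (u • e p + v • e q + w • e l) i = u + v + w := by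
  refine ⟨?_, ?_, ?_⟩
  · simp only [Matrix.mulVec_add, Matrix.mulVec_smul, add_dotProduct, dotProduct_add,
      smul_dotProduct, dotProduct_smul, smul_eq_mul, B_single]
    rw [N_diag hS, N_diag hS, N_diag hS, N_off hpq, N_off hpl, N_off hql, N_off hpq.symm,
      N_off hpl.symm, N_off hql.symm, hS.symm q p, hS.symm l p, hS.symm l q, hr, hr, hr]
    ring
  · simp only [add_dotProduct, dotProduct_add, smul_dotProduct, dotProduct_smul, smul_eq_mul]
    simp only [dotProduct_single, single_dotProduct, Pi.single_apply, if_neg hpq, if_neg hpl,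
      if_neg hql, if_neg hpq.symm, if_neg hpl.symm, if_neg hql.symm, if_true, mul_one, mul_zero]
    ring
  · simp only [Pi.add_apply, Pi.smul_apply, smul_eq_mul, Finset.sum_add_distrib, ← Finset.mul_sum,
      Finset.sum_pi_single', Finset.mem_univ, if_true, mul_one]

/-- the form on the difference of two basis vectors -/
lemma two (hS : Good S) (r : ℤ) (hr : ∀ i, ∑ l, S i l = r) {a b : ℝ} (h : Bd S a b)
    {p q : Fin n} (hpq : p ≠ q) : a ≤ r + S p q ∧ (r : ℝ) + S p q ≤ b := by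
  have h1 : (e p - e q) ⬝ᵥ (N S *ᵥ (e p - e q)) = 2 * (r + S p q) := by
    simp only [Matrix.mulVec_sub, sub_dotProduct, dotProduct_sub, B_single]
    rw [N_diag hS, N_diag hS, N_off hpq, N_off hpq.symm, hS.symm q p, hr, hr]
    ring
  have h2 : (e p - e q) ⬝ᵥ (e p - e q) = 2 := by
    have z1 : e q p = 0 := Pi.single_eq_of_ne hpq 1
    have z2 : e p q = 0 := Pi.single_eq_of_ne hpq.symm 1
    simp only [dotProduct_sub, dotProduct_single, mul_one, Pi.sub_apply]
    have z3 : e p p = 1 := Pi.single_eq_same p 1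
    have z4 : e q q = 1 := Pi.single_eq_same q 1
    rw [z1, z2, z3, z4]
    norm_num
  have h3 : ∑ i, (e p - e q) i = 0 := by
    simp [Finset.sum_sub_distrib]
  have h4 := h.lo _ h3
  have h5 := h.hi _ h3
  rw [h1, h2] at h4 h5
  constructor <;> linarith

/-- if the top value `r + 1` is attained at `e p - e q`, rows `p` and `q` agree elsewhere -/
lemma agree (hS : Good S) (r : ℤ) (hr : ∀ i, ∑ l, S i l = r) {a b : ℝ} (h : Bd S a b)
    (hb : b ≤ r + 1) {p q l : Fin n} (hpq : p ≠ q) (hpl : p ≠ l) (hql : q ≠ l)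
    (hs : S p q = 1) : S p l = S q l := by
  have key : ∀ t : ℝ, 0 ≤ 2 * t * ((1 - S p l) * t + (S p l - S q l)) := by
    intro t
    obtain ⟨h1, h2, h3⟩ := three hS r hr hpq hpl hql (1 - t) (-1) t
    have h4 := h.hi _ (h3.trans (by ring))
    rw [h1, h2, hs] at h4
    push_cast at h4
    have h5 : b * ((1 - t) ^ 2 + (-1) ^ 2 + t ^ 2)
        ≤ (r + 1) * ((1 - t) ^ 2 + (-1) ^ 2 + t ^ 2) := by
      apply mul_le_mul_of_nonneg_right hb
      positivity
    nlinarith
  have l1 := hS.lo p l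
  have l2 := hS.lo q l
  have u1 := hS.hi p l
  have u2 := hS.hi q l
  by_contra hne
  rcases lt_or_gt_of_ne hne with hlt | hgt
  · have h1 := key (1 / 4)
    have h2 : (S p l : ℝ) + 1 ≤ S q l := by exact_mod_cast hlt
    have h3 : (-1 : ℝ) ≤ S p l := by exact_mod_cast l1
    nlinarith
  · have h1 := key (-1 / 4)
    have h2 : (S q l : ℝ) + 1 ≤ S p l := by exact_mod_cast hgt
    have h3 : (-1 : ℝ) ≤ S q l := by exact_mod_cast l2
    nlinarith

lemma good_neg (hS : Good S) : Good (fun i j => -S i j) := by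
  refine ⟨fun i j => by rw [hS.symm i j], fun i => by simp [hS.diag], ?_, ?_, ?_⟩
  · intro i j; have := hS.hi i j; omega
  · intro i j; have := hS.lo i j; omega
  · intro i
    have := hS.par i
    rw [Finset.sum_neg_distrib]
    omega

lemma N_neg : N (fun i j => -S i j) = -N S := by
  ext i j
  simp only [N, Matrix.of_apply, Matrix.neg_apply, Finset.sum_neg_distrib]
  split_ifs <;> push_cast <;> ring

lemma bd_neg {a b : ℝ} (h : Bd S a b) : Bd (fun i j => -S i j) (-b) (-a) := by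
  constructor
  · intro x hx
    rw [N_neg, Matrix.neg_mulVec, dotProduct_neg]
    linarith [h.hi x hx]
  · intro x hx
    rw [N_neg, Matrix.neg_mulVec, dotProduct_neg]
    linarith [h.lo x hx]

/-- both signs cannot occur -/
lemma not_both (hS : Good S) (r : ℤ) (hr : ∀ i, ∑ l, S i l = r) {a b : ℝ} (h : Bd S a b)
    (hab : b - a ≤ 2) {i j k m : Fin n} (hij : S i j = 1) (hkm : S k m = -1) : False := by
  have hne : i ≠ j := by rintro rfl; rw [hS.diag] at hij; norm_num at hij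
  have hne' : k ≠ m := by rintro rfl; rw [hS.diag] at hkm; norm_num at hkm
  have h1 := two hS r hr h hne
  have h2 := two hS r hr h hne'
  rw [hij] at h1
  rw [hkm] at h2
  push_cast at h1 h2
  have hb : b ≤ r + 1 := by linarith [h1.1, h1.2, h2.1, h2.2]
  have ha : (r : ℝ) - 1 ≤ a := by linarith [h1.1, h1.2, h2.1, h2.2]
  have ag1 : ∀ {p q l : Fin n}, p ≠ q → p ≠ l → q ≠ l → S p q = 1 → S p l = S q l :=
    fun hpq hpl hql hs => agree hS r hr h hb hpq hpl hql hs
  have hr' : ∀ i, ∑ l, (fun i j => -S i j) i l = -r := by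
    intro i; simp only [Finset.sum_neg_distrib, hr]
  have ag2 : ∀ {p q l : Fin n}, p ≠ q → p ≠ l → q ≠ l → S p q = -1 → S p l = S q l := by
    intro p q l hpq hpl hql hs
    have := agree (good_neg hS) (-r) hr' (bd_neg h) (by push_cast; linarith) hpq hpl hql
      (by rw [hs]; norm_num)
    simpa using this
  -- no mixed signs at a vertex
  have mix : ∀ p q l : Fin n, S p q = 1 → S p l = -1 → False := by
    intro p q l h3 h4
    have hpq : p ≠ q := by rintro rfl; rw [hS.diag] at h3; norm_num at h3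
    have hpl : p ≠ l := by rintro rfl; rw [hS.diag] at h4; norm_num at h4
    have hql : q ≠ l := by rintro rfl; rw [h3] at h4; norm_num at h4
    have h5 := ag1 hpq hpl hql h3
    have h6 := ag2 hpl hpq hql.symm h4
    rw [h4] at h5
    rw [h3, hS.symm l q, ← h5] at h6
    norm_num at h6
  have r1 : 1 ≤ r := by
    rw [← hr i, ← hij]
    refine Finset.single_le_sum (f := fun l => S i l) (fun l _ => ?_) (mem_univ j)
    have := hS.lo i l
    have : S i l ≠ -1 := fun h => mix i j l hij h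
    change 0 ≤ S i l
    omega
  have r2 : r ≤ -1 := by
    have : ∑ l, -S k l = -r := hr' k
    have h3 : -S k m ≤ ∑ l, -S k l := by
      refine Finset.single_le_sum (f := fun l => -S k l) (fun l _ => ?_) (mem_univ m)
      have := hS.hi k l
      have : S k l ≠ 1 := fun h => mix k l m h hkm
      change 0 ≤ -S k l
      omega
    rw [this, hkm] at h3
    omega
  omega

/-- the second-moment inequality -/
lemma moment (hS : Good S) (r : ℤ) (hr : ∀ i, ∑ l, S i l = r) {a b : ℝ} (h : Bd S a b)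
    (hab : b - a ≤ 2) (hn : 2 ≤ n) (i : Fin n) (k : ℤ) (hk : ∑ l, S i l ^ 2 = k)
    (hrk : r ^ 2 = k ^ 2) : (n : ℤ) * k * (n - 1 - k) ≤ (n - 1) ^ 2 := by
  set m : ℝ := (a + b) / 2 with hm
  set x : Fin n → ℝ := (n : ℝ) • e i - (fun _ => (1 : ℝ)) with hx
  have hn0 : (2 : ℝ) ≤ n := by exact_mod_cast hn
  have hsum : ∑ k, x k = 0 := by
    simp [hx, Finset.sum_sub_distrib, Pi.single_apply]
  have hxx : x ⬝ᵥ x = n * (n - 1) := by
    simp only [hx, sub_dotProduct, dotProduct_sub, smul_dotProduct, dotProduct_smul, smul_eq_mul,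
      single_dotProduct, dotProduct_single]
    simp [dotProduct]
  have hNx : N S *ᵥ x = (n : ℝ) • (N S *ᵥ e i) := by
    rw [hx, Matrix.mulVec_sub, N_one, sub_zero, Matrix.mulVec_smul]
  have hF : x ⬝ᵥ (N S *ᵥ x) = n ^ 2 * r := by
    rw [hNx, hx, sub_dotProduct, dotProduct_smul, dotProduct_smul, one_dot hS, smul_dotProduct,
      B_single, N_diag hS, hr]
    simp only [smul_eq_mul]
    ring
  have hNN : (N S *ᵥ x) ⬝ᵥ (N S *ᵥ x) = n ^ 2 * (r ^ 2 + k) := by
    rw [hNx, smul_dotProduct, dotProduct_smul]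
    have h1 : (N S *ᵥ e i) ⬝ᵥ (N S *ᵥ e i) = r ^ 2 + k := by
      have h2 : N S *ᵥ e i = fun l => N S i l := by
        ext l
        simp [N_symm hS l i]
      rw [h2]
      simp only [dotProduct]
      rw [← Finset.sum_erase_add _ _ (mem_univ i), N_diag hS, hr]
      have h3 : ∑ l ∈ univ.erase i, N S i l * N S i l = ∑ l ∈ univ.erase i, (S i l : ℝ) ^ 2 := by
        refine Finset.sum_congr rfl fun l hl => ?_
        rw [N_off (Ne.symm (Finset.ne_of_mem_erase hl))]
        ring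
      have h4 : ∑ l ∈ univ.erase i, (S i l : ℝ) ^ 2 = k := by
        have h5 := Finset.sum_erase_add univ (fun l => (S i l : ℝ) ^ 2) (mem_univ i)
        rw [hS.diag, Int.cast_zero] at h5
        rw [← hk]
        push_cast
        rw [← h5]
        norm_num
      rw [h3, h4]
      ring
    rw [h1]
    simp only [smul_eq_mul]
    ring
  set z : Fin n → ℝ := N S *ᵥ x - m • x with hz
  have hzs : ∑ l, z l = 0 := by
    have h1 : ∑ l, z l = (fun _ => (1 : ℝ)) ⬝ᵥ z := by simp [dotProduct]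
    rw [h1, hz, dotProduct_sub, one_dot hS, dotProduct_smul]
    have h2 : (fun _ => (1 : ℝ)) ⬝ᵥ x = ∑ l, x l := by simp [dotProduct]
    rw [h2, hsum]
    simp
  have hzz : z ⬝ᵥ z = n ^ 2 * (r ^ 2 + k) - 2 * m * (n ^ 2 * r) + m ^ 2 * (n * (n - 1)) := by
    rw [hz]
    simp only [sub_dotProduct, dotProduct_sub, smul_dotProduct, dotProduct_smul, smul_eq_mul]
    rw [hNN, hxx, hF, dotProduct_comm (N S *ᵥ x) x, hF]
    ring
  have hxz : x ⬝ᵥ z = n ^ 2 * r - m * (n * (n - 1)) := by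
    rw [hz, dotProduct_sub, dotProduct_smul, hF, hxx]
    simp
  have hzNx : z ⬝ᵥ (N S *ᵥ x) = z ⬝ᵥ z + m * (x ⬝ᵥ z) := by
    have h1 : N S *ᵥ x = z + m • x := by rw [hz]; simp
    rw [h1, dotProduct_add, dotProduct_smul, dotProduct_comm z x]
    simp
  have p1 := h.hi (x + z) (by simp [Finset.sum_add_distrib, hsum, hzs])
  have p2 := h.lo (x - z) (by simp [Finset.sum_sub_distrib, hsum, hzs])
  simp only [Matrix.mulVec_add, Matrix.mulVec_sub, add_dotProduct, dotProduct_add, sub_dotProduct,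
    dotProduct_sub] at p1 p2
  rw [dot_symm hS x z] at p1 p2
  rw [dotProduct_comm z x] at p1 p2
  set A := x ⬝ᵥ (N S *ᵥ x)
  set Z := z ⬝ᵥ (N S *ᵥ z)
  set B := z ⬝ᵥ (N S *ᵥ x)
  have hbm : b ≤ m + 1 := by rw [hm]; linarith
  have ham : m - 1 ≤ a := by rw [hm]; linarith
  have pos1 : 0 ≤ x ⬝ᵥ x + x ⬝ᵥ z + (x ⬝ᵥ z + z ⬝ᵥ z) := by
    have : (x + z) ⬝ᵥ (x + z) = x ⬝ᵥ x + x ⬝ᵥ z + (x ⬝ᵥ z + z ⬝ᵥ z) := by
      simp only [add_dotProduct, dotProduct_add, dotProduct_comm z x]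
    rw [← this]
    exact Finset.sum_nonneg fun i _ => mul_self_nonneg _
  have pos2 : 0 ≤ x ⬝ᵥ x - x ⬝ᵥ z - (x ⬝ᵥ z - z ⬝ᵥ z) := by
    have : (x - z) ⬝ᵥ (x - z) = x ⬝ᵥ x - x ⬝ᵥ z - (x ⬝ᵥ z - z ⬝ᵥ z) := by
      simp only [sub_dotProduct, dotProduct_sub, dotProduct_comm z x]
    rw [← this]
    exact Finset.sum_nonneg fun i _ => mul_self_nonneg _
  have q1 : b * (x ⬝ᵥ x + x ⬝ᵥ z + (x ⬝ᵥ z + z ⬝ᵥ z))
      ≤ (m + 1) * (x ⬝ᵥ x + x ⬝ᵥ z + (x ⬝ᵥ z + z ⬝ᵥ z)) := mul_le_mul_of_nonneg_right hbm pos1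
  have q2 : (m - 1) * (x ⬝ᵥ x - x ⬝ᵥ z - (x ⬝ᵥ z - z ⬝ᵥ z))
      ≤ a * (x ⬝ᵥ x - x ⬝ᵥ z - (x ⬝ᵥ z - z ⬝ᵥ z)) := mul_le_mul_of_nonneg_right ham pos2
  have q3 : z ⬝ᵥ z ≤ x ⬝ᵥ x := by linarith
  rw [hzz, hxx] at q3
  have hrk' : (r : ℝ) ^ 2 = (k : ℝ) ^ 2 := by exact_mod_cast hrk
  have q4 : (n : ℝ) * ((r : ℝ) ^ 2 + k) - 2 * m * (n * r) + m ^ 2 * (n - 1) ≤ n - 1 := by
    have h0 : (0 : ℝ) < n := by linarith
    have : (n : ℝ) * ((n : ℝ) * ((r : ℝ) ^ 2 + k) - 2 * m * (n * r) + m ^ 2 * (n - 1))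
        ≤ n * (n - 1) := by nlinarith
    exact le_of_mul_le_mul_left this h0
  have q5 : (n : ℝ) * k * (n - 1 - k) ≤ (n - 1) ^ 2 := by
    have h1 : (0 : ℝ) ≤ n - 1 := by linarith
    have h2 := mul_le_mul_of_nonneg_right q4 h1
    nlinarith [sq_nonneg (m * (n - 1) - n * r)]
  exact_mod_cast q5

/-- the case of nonnegative entries -/
lemma one_sign (hS : Good S) (r : ℤ) (hr : ∀ i, ∑ l, S i l = r) {a b : ℝ} (h : Bd S a b)
    (hab : b - a ≤ 2) (hn : 2 ≤ n) (hpos : ∀ i j, 0 ≤ S i j) :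
    (∃ c : ℤ, ∀ i j, i ≠ j → S i j = c) ∨ (2 ∣ n ∧ 4 ≤ n ∧ 2 ≤ b - a ∧ r = 1) := by
  have i0 : Fin n := ⟨0, by omega⟩
  have h01 : ∀ i j, S i j = 0 ∨ S i j = 1 := by
    intro i j
    have := hpos i j
    have := hS.hi i j
    omega
  have hsq : ∑ l, S i0 l ^ 2 = r := by
    rw [← hr i0]
    refine Finset.sum_congr rfl fun l _ => ?_
    rcases h01 i0 l with h | h <;> rw [h] <;> norm_num
  have hmom := moment hS r hr h hab hn i0 r hsq rfl
  have hr0 : 0 ≤ r := by rw [← hr i0]; exact Finset.sum_nonneg fun l _ => hpos i0 l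
  -- an entry bound
  have hsub : ∀ i, ∑ l ∈ univ.erase i, S i l = r := by
    intro i
    have := Finset.sum_erase_add univ (fun l => S i l) (mem_univ i)
    rw [hS.diag, add_zero, hr] at this
    exact this
  have hcard : ∀ i : Fin n, ((univ.erase i).card : ℤ) = n - 1 := by
    intro i
    rw [Finset.card_erase_of_mem (mem_univ i), Finset.card_univ, Fintype.card_fin]
    have : 1 ≤ n := by omega
    push_cast [this]
    ring
  have hrn : r ≤ n - 1 := by
    rw [← hsub i0, ← hcard i0]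
    calc ∑ l ∈ univ.erase i0, S i0 l ≤ ∑ _l ∈ univ.erase i0, (1 : ℤ) :=
          Finset.sum_le_sum fun l _ => hS.hi i0 l
      _ = _ := by simp
  by_cases hz : r = 0
  · left
    refine ⟨0, fun i j _ => ?_⟩
    have h1 := (Finset.sum_eq_zero_iff_of_nonneg (fun l _ => hpos i l)).mp ((hr i).trans hz)
    exact h1 j (mem_univ j)
  by_cases hfull : r = n - 1
  · left
    refine ⟨1, fun i j hij => ?_⟩
    have h1 : ∑ l ∈ univ.erase i, (1 - S i l) = 0 := by
      rw [Finset.sum_sub_distrib, hsub, hfull]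
      simp only [Finset.sum_const, smul_eq_mul, nsmul_eq_mul, mul_one]
      rw [hcard]; ring
    have h2 := (Finset.sum_eq_zero_iff_of_nonneg (fun l _ => by
      have := hS.hi i l; omega)).mp h1
    have := h2 j (Finset.mem_erase.mpr ⟨hij.symm, mem_univ j⟩)
    omega
  right
  have hpar := hS.par i0
  rw [hr] at hpar
  have hr3 : r ≤ n - 3 := by omega
  have hr1 : r = 1 := by
    by_contra hne
    have hr2 : 2 ≤ r := by omega
    have h1 : 2 * ((n : ℤ) - 3) ≤ r * (n - 1 - r) := by nlinarith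
    have h2 : (n : ℤ) * (2 * (n - 3)) ≤ n * (r * (n - 1 - r)) :=
      mul_le_mul_of_nonneg_left h1 (by positivity)
    have h3 : (5 : ℤ) ≤ n := by omega
    nlinarith
  subst hr1
  refine ⟨?_, by omega, ?_, rfl⟩
  · have : (2 : ℤ) ∣ n := by omega
    exact_mod_cast this
  -- the matching
  have hn4 : 4 ≤ n := by omega
  have hex : ∀ i, ∃ j, S i j = 1 := by
    intro i
    by_contra hcon
    push Not at hcon
    have : ∑ l, S i l = 0 := Finset.sum_eq_zero fun l _ => (h01 i l).resolve_right (hcon l)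
    rw [hr i] at this
    norm_num at this
  have huniq : ∀ i j k, S i j = 1 → k ≠ j → S i k = 0 := by
    intro i j k hij hkj
    by_contra hne
    have hik := (h01 i k).resolve_left hne
    have h1 : ∑ l ∈ ({j, k} : Finset (Fin n)), S i l ≤ ∑ l, S i l :=
      Finset.sum_le_sum_of_subset_of_nonneg (Finset.subset_univ _) fun l _ _ => hpos i l
    rw [Finset.sum_pair hkj.symm, hij, hik, hr i] at h1
    norm_num at h1
  obtain ⟨j, hij⟩ := hex i0
  have hne : i0 ≠ j := by rintro rfl; rw [hS.diag] at hij; norm_num at hij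
  obtain ⟨k, hk⟩ : ∃ k : Fin n, k ∉ ({i0, j} : Finset (Fin n)) := by
    by_contra hcon
    push Not at hcon
    have h1 : (univ : Finset (Fin n)) ⊆ {i0, j} := fun k _ => hcon k
    have h2 := Finset.card_le_card h1
    rw [Finset.card_univ, Fintype.card_fin, Finset.card_pair hne] at h2
    omega
  rw [Finset.mem_insert, Finset.mem_singleton, not_or] at hk
  obtain ⟨m, hkm⟩ := hex k
  have hkm' : k ≠ m := by rintro rfl; rw [hS.diag] at hkm; norm_num at hkm
  have hik : S i0 k = 0 := huniq i0 j k hij hk.2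
  have hji : S j i0 = 1 := by rw [hS.symm]; exact hij
  have hjk : S j k = 0 := huniq j i0 k hji hk.1
  have hmi : m ≠ i0 := by
    rintro rfl; rw [hS.symm, hik] at hkm; norm_num at hkm
  have hmj : m ≠ j := by
    rintro rfl; rw [hS.symm, hjk] at hkm; norm_num at hkm
  have him : S i0 m = 0 := huniq i0 j m hij hmj
  have hjm : S j m = 0 := huniq j i0 m hji hmi
  have h1 : (e i0 + e j - e k - e m) ⬝ᵥ (N S *ᵥ (e i0 + e j - e k - e m)) = 0 := by
    simp only [Matrix.mulVec_add, Matrix.mulVec_sub, add_dotProduct, dotProduct_add,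
      sub_dotProduct, dotProduct_sub, B_single]
    rw [N_diag hS, N_diag hS, N_diag hS, N_diag hS, N_off hne, N_off hne.symm, N_off hk.1,
      N_off (Ne.symm hk.1), N_off hk.2, N_off (Ne.symm hk.2), N_off hkm', N_off hkm'.symm,
      N_off hmi, N_off hmi.symm, N_off hmj, N_off hmj.symm, hr, hr, hr, hr, hij, hji, hik,
      hS.symm k i0, hik, hjk, hS.symm k j, hjk, hkm, hS.symm m k, hkm, him, hS.symm m i0, him,
      hjm, hS.symm m j, hjm]
    norm_num
  have h2 : (e i0 + e j - e k - e m) ⬝ᵥ (e i0 + e j - e k - e m) = 4 := by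
    have s1 : ∀ p : Fin n, e p p = 1 := fun p => Pi.single_eq_same p 1
    have s2 : ∀ p q : Fin n, q ≠ p → e p q = 0 := fun p q h => Pi.single_eq_of_ne h 1
    simp only [dotProduct_sub, dotProduct_add, dotProduct_single, mul_one, Pi.sub_apply,
      Pi.add_apply]
    rw [s1, s1, s1, s1, s2 i0 j hne.symm, s2 j i0 hne, s2 i0 k hk.1, s2 k i0 (Ne.symm hk.1),
      s2 j k hk.2, s2 k j (Ne.symm hk.2), s2 m i0 hmi.symm, s2 i0 m hmi, s2 m j hmj.symm,
      s2 j m hmj, s2 m k hkm', s2 k m hkm'.symm]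
    norm_num
  have h3 : ∑ i, (e i0 + e j - e k - e m) i = 0 := by
    simp [Finset.sum_sub_distrib, Finset.sum_add_distrib]
  have h4 := h.lo _ h3
  rw [h1, h2] at h4
  have h5 := (two hS 1 hr h hne).2
  rw [hij] at h5
  push_cast at h5
  linarith

/-- **Classification of the case of spread at most two.** -/
theorem classify (hS : Good S) {a b : ℝ} (h : Bd S a b) (hab : b - a ≤ 2) (hn : 2 ≤ n) :
    (∃ c : ℤ, ∀ i j, i ≠ j → S i j = c) ∨
      (2 ∣ n ∧ 4 ≤ n ∧ 2 ≤ b - a ∧ ((∀ i, ∑ l, S i l = 1) ∨ (∀ i, ∑ l, S i l = -1))) := by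
  have i0 : Fin n := ⟨0, by omega⟩
  obtain ⟨r, hr⟩ : ∃ r, ∀ i, ∑ l, S i l = r :=
    ⟨∑ l, S i0 l, fun i => rows_eq hS h hab hn i i0⟩
  by_cases hpos : ∀ i j, 0 ≤ S i j
  · rcases one_sign hS r hr h hab hn hpos with h1 | ⟨h1, h2, h3, h4⟩
    · exact Or.inl h1
    · exact Or.inr ⟨h1, h2, h3, Or.inl fun i => (hr i).trans h4⟩
  · push Not at hpos
    obtain ⟨k, m, hkm⟩ := hpos
    have hkm1 : S k m = -1 := by have := hS.lo k m; omega
    have hneg : ∀ i j, 0 ≤ -S i j := by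
      intro i j
      by_contra hcon
      have := hS.hi i j
      exact not_both hS r hr h hab (i := i) (j := j) (by omega) hkm1
    have hr' : ∀ i, ∑ l, (fun i j => -S i j) i l = -r := by
      intro i; simp only [Finset.sum_neg_distrib, hr]
    rcases one_sign (good_neg hS) (-r) hr' (bd_neg h) (by linarith) hn hneg with h1 | ⟨h1, h2, h3, h4⟩
    · obtain ⟨c, hc⟩ := h1
      exact Or.inl ⟨-c, fun i j hij => by have := hc i j hij; omega⟩
    · exact Or.inr ⟨h1, h2, by linarith, Or.inr fun i => by rw [hr i]; omega⟩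

end Q104.Bal
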