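import Pool.Agent.Q104.Lam2

/-!
# Chains of vertices of degree two in a connected graph
-/

set_option autoImplicit false

namespace Pool.Agent.Q104.Chain

open Finset

variable {V : Type} [Fintype V] [DecidableEq V] (G : SimpleGraph V) [DecidableRel G.Adj]

open Classical in
/-- a neighbour of `v` other than `u` -/
noncomputable def oth (v u : V) : V := if h : ∃ w, G.Adj v w ∧ w ≠ u then h.choose else v

/-- number of vertices of degree two met from `v` on when walking away from `u`, at most `n` -/
noncomputable def T : ℕ → V → V → ℕ
  | 0, _, _ => 0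
  | n + 1, v, u => if G.degree v = 2 then T n (oth G v u) v + 1 else 0

/-- the walk -/
noncomputable def q (v u : V) : ℕ → V × V
  | 0 => (v, u)
  | i + 1 => (oth G (q v u i).1 (q v u i).2, (q v u i).1)

lemma T_le (n : ℕ) : ∀ v u, T G n v u ≤ n := by
  induction n with
  | zero => intro v u; exact le_rfl
  | succ n ih =>
    intro v u
    simp only [T]
    split_ifs
    · have := ih (oth G v u) v; omega
    · omega

variable {G}

lemma oth_spec {v u : V} (hv : 2 ≤ G.degree v) : G.Adj v (oth G v u) ∧ oth G v u ≠ u := by
  have h : ∃ w, G.Adj v w ∧ w ≠ u := by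
    rw [← SimpleGraph.card_neighborFinset_eq_degree] at hv
    obtain ⟨a, ha, b, hb, hab⟩ := Finset.one_lt_card.1 hv
    rw [SimpleGraph.mem_neighborFinset] at ha hb
    by_cases h : a = u
    · exact ⟨b, hb, fun hb' => hab (h.trans hb'.symm)⟩
    · exact ⟨a, ha, h⟩
  unfold oth
  rw [dif_pos h]
  exact h.choose_spec

lemma nbr_two {v u : V} (hv : G.degree v = 2) (huv : G.Adj v u) (w : V) (hw : G.Adj v w) :
    w = u ∨ w = oth G v u := by
  obtain ⟨h1, h2⟩ := oth_spec (u := u) (G := G) hv.ge
  by_contra hcon
  push Not at hcon
  have hsub : ({w, u, oth G v u} : Finset V) ⊆ G.neighborFinset v := by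
    intro x hx
    rw [SimpleGraph.mem_neighborFinset]
    simp only [Finset.mem_insert, Finset.mem_singleton] at hx
    rcases hx with rfl | rfl | rfl
    · exact hw
    · exact huv
    · exact h1
  have h3 : ({w, u, oth G v u} : Finset V).card = 3 := by
    rw [Finset.card_eq_three]
    exact ⟨w, u, oth G v u, hcon.1, hcon.2, h2.symm, rfl⟩
  have := Finset.card_le_card hsub
  rw [h3, SimpleGraph.card_neighborFinset_eq_degree, hv] at this
  omega

lemma q_shift (v u : V) (i : ℕ) : q G v u (i + 1) = q G (oth G v u) v i := by
  induction i with
  | zero => rfl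
  | succ i ih =>
    show (oth G (q G v u (i + 1)).1 (q G v u (i + 1)).2, (q G v u (i + 1)).1) = _
    rw [ih]
    rfl

lemma deg_chain (n : ℕ) : ∀ v u, ∀ i < T G n v u, G.degree (q G v u i).1 = 2 := by
  induction n with
  | zero => intro v u i hi; exact absurd hi (Nat.not_lt_zero _)
  | succ n ih =>
    intro v u i hi
    simp only [T] at hi
    split_ifs at hi with hv
    · rcases i with _ | i
      · exact hv
      · rw [q_shift]
        exact ih _ _ i (by omega)
    · exact absurd hi (Nat.not_lt_zero _)

section

variable (hG : ∀ v, 2 ≤ G.degree v)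
include hG

lemma q_adj {v u : V} (huv : G.Adj v u) (i : ℕ) : G.Adj (q G v u i).1 (q G v u i).2 := by
  induction i with
  | zero => exact huv
  | succ i _ =>
    show G.Adj (oth G (q G v u i).1 (q G v u i).2) (q G v u i).1
    exact (oth_spec (hG _)).1.symm

lemma q_succ_adj (v u : V) (i : ℕ) : G.Adj (q G v u i).1 (q G v u (i + 1)).1 :=
  (oth_spec (hG _)).1

lemma q_ne (v u : V) (i : ℕ) : (q G v u (i + 1)).1 ≠ (q G v u i).2 :=
  (oth_spec (hG _)).2

lemma q_nbr {v u : V} (huv : G.Adj v u) {i : ℕ} (hi : G.degree (q G v u i).1 = 2) {w : V}
    (hw : G.Adj (q G v u i).1 w) : w = (q G v u i).2 ∨ w = (q G v u (i + 1)).1 :=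
  nbr_two hi (q_adj hG huv i) w hw

/-- the vertices of degree two on the walk are distinct -/
lemma chain_inj (hc : G.Connected) {v u : V} (huv : G.Adj v u) {n : ℕ}
    (hn : n ≤ Fintype.card V) : ∀ j < T G n v u, ∀ i < j, (q G v u i).1 ≠ (q G v u j).1 := by
  set t := T G n v u with ht
  have htn : t ≤ n := T_le G n v u
  have hdeg := deg_chain (G := G) n v u
  intro j
  induction j using Nat.strong_induction_on with
  | _ j ih =>
    intro hj i hij heq
    have hi2 := hdeg i (by omega)
    have hj2 := hdeg j hj
    -- `j ≥ 1`
    obtain ⟨j', rfl⟩ : ∃ j', j = j' + 1 := ⟨j - 1, by omega⟩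
    have hpred : (q G v u (j' + 1)).2 = (q G v u j').1 := rfl
    have hadj : G.Adj (q G v u i).1 (q G v u j').1 := by
      rw [heq]
      exact (q_succ_adj (G := G) hG v u j').symm
    rcases q_nbr hG huv hi2 hadj with h | h
    · -- the predecessor of `i`
      rcases i with _ | i
      · -- closed walk
        have hu : (q G v u j').1 = u := h
        set C : Finset V := (Finset.range (j' + 1)).image (fun k => (q G v u k).1) with hC
        have hmem : ∀ k, k ≤ j' → (q G v u k).1 ∈ C := fun k hk =>
          Finset.mem_image.2 ⟨k, Finset.mem_range.2 (by omega), rfl⟩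
        have hclosed : ∀ x ∈ C, ∀ y, G.Adj x y → y ∈ C := by
          intro x hx y hxy
          rw [hC, Finset.mem_image] at hx
          obtain ⟨k, hk, rfl⟩ := hx
          rw [Finset.mem_range] at hk
          have hk2 := hdeg k (by omega)
          rcases q_nbr hG huv hk2 hxy with h1 | h1
          · rcases k with _ | k
            · rw [h1]
              show u ∈ C
              rw [← hu]
              exact hmem j' le_rfl
            · rw [h1]
              exact hmem k (by omega)
          · rw [h1]
            rcases Nat.lt_or_ge k j' with h2 | h2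
            · exact hmem (k + 1) (by omega)
            · have : k = j' := by omega
              subst this
              rw [← heq]
              exact hmem 0 (Nat.zero_le _)
        have hall : ∀ y, y ∈ C := by
          intro y
          have hr := hc.preconnected v y
          obtain ⟨w⟩ := hr
          have : ∀ (a b : V) (w : G.Walk a b), a ∈ C → b ∈ C := by
            intro a b w
            induction w with
            | nil => exact fun h => h
            | cons hab _ ih => exact fun h => ih (hclosed _ h _ hab)
          exact this _ _ w (hmem 0 (Nat.zero_le _))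
        have h1 : Fintype.card V ≤ C.card := by
          rw [← Finset.card_univ]
          exact Finset.card_le_card (fun y _ => hall y)
        have h2 : C.card ≤ j' + 1 := by
          calc C.card ≤ (Finset.range (j' + 1)).card := Finset.card_image_le
            _ = j' + 1 := Finset.card_range _
        omega
      · have h1 : (q G v u i).1 = (q G v u j').1 := h.symm
        exact ih j' (by omega) (by omega) i (by omega) h1
    · -- the successor of `i`
      rcases Nat.lt_trichotomy (i + 1) j' with h1 | h1 | h1
      · exact ih j' (by omega) (by omega) (i + 1) h1 h.symm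
      · subst h1
        -- `p (i + 2) = p i`
        exact q_ne hG v u (i + 1) heq.symm
      · have : i = j' := by omega
        subst this
        exact G.ne_of_adj hadj rfl

end

end Pool.Agent.Q104.Chain
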