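import Pool.Agent.Q104.SSPDef

/-!
# The 4-cycle with pendant paths of lengths 1 and 3 at adjacent vertices is in `𝒢^SSP`
-/

set_option autoImplicit false
set_option linter.unusedVariables false
set_option linter.unusedSimpArgs false

namespace Pool.Agent.Q104.SSP

open Finset Matrix

/-- the graph: the path `0 - 1 - ... - 7` together with the edge `{1,4}`, that is a 4-cycle
`1,2,3,4` with the pendant vertex `0` at `1` and the pendant path `5,6,7` at `4` -/
def G13 : SimpleGraph (Fin 8) where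
  Adj i j := i.val + 1 = j.val ∨ j.val + 1 = i.val ∨ (i.val = 1 ∧ j.val = 4) ∨
    (i.val = 4 ∧ j.val = 1)
  symm := ⟨by
    intro i j h
    rcases h with h | h | h | h
    · exact Or.inr (Or.inl h)
    · exact Or.inl h
    · exact Or.inr (Or.inr (Or.inr ⟨h.2, h.1⟩))
    · exact Or.inr (Or.inr (Or.inl ⟨h.2, h.1⟩))⟩
  loopless := ⟨by
    intro i h
    rcases h with h | h | h | h <;> omega⟩

instance : DecidableRel G13.Adj := fun i j =>
  inferInstanceAs (Decidable (i.val + 1 = j.val ∨ j.val + 1 = i.val ∨ (i.val = 1 ∧ j.val = 4) ∨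
    (i.val = 4 ∧ j.val = 1)))

/-- the key elimination -/
lemma key13 {b s t s' b5 b6 b7 e d0 d1 d2 d3 d5 d6 d7 xi eta x02 x13 : ℝ}
    {x5 x6 x7 y5 y6 y7 z5 z6 z7 w5 w6 w7 : ℝ}
    (hb : b ≠ 0) (hs : s ≠ 0) (ht : t ≠ 0) (hs' : s' ≠ 0) (hb5 : b5 ≠ 0) (hb6 : b6 ≠ 0)
    (hb7 : b7 ≠ 0) (he : e ≠ 0)
    (e01 : 0 = x02 * s + eta * e) (e12 : b * x02 + e * xi = x13 * t) (e23 : s * x13 = xi * s')
    (e45 : e * x5 + s' * z5 = 0) (e46 : e * x6 + s' * z6 = 0) (e47 : e * x7 + s' * z7 = 0)
    (e35 : t * y5 + d3 * z5 = z5 * d5 + z6 * b6)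
    (e36 : t * y6 + d3 * z6 = z5 * b6 + z6 * d6 + z7 * b7)
    (e37 : t * y7 + d3 * z7 = z6 * b7 + z7 * d7)
    (e25 : s * x5 + d2 * y5 + t * z5 = xi * b5 + y5 * d5 + y6 * b6)
    (e26 : s * x6 + d2 * y6 + t * z6 = y5 * b6 + y6 * d6 + y7 * b7)
    (e27 : s * x7 + d2 * y7 + t * z7 = y6 * b7 + y7 * d7)
    (e15 : b * w5 + d1 * x5 + s * y5 = x5 * d5 + x6 * b6)
    (e16 : b * w6 + d1 * x6 + s * y6 = x5 * b6 + x6 * d6 + x7 * b7)
    (e17 : b * w7 + d1 * x7 + s * y7 = x6 * b7 + x7 * d7)
    (e05 : d0 * w5 + b * x5 = eta * b5 + w5 * d5 + w6 * b6)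
    (e06 : d0 * w6 + b * x6 = w5 * b6 + w6 * d6 + w7 * b7)
    (e07 : d0 * w7 + b * x7 = w6 * b7 + w7 * d7) : xi = 0 := by
  by_contra hxi
  -- the vector `A' x`
  set X5 := d5 * x5 + b6 * x6 with hX5
  set X6 := b6 * x5 + d6 * x6 + b7 * x7 with hX6
  set X7 := b7 * x6 + d7 * x7 with hX7
  set Y5 := d5 * X5 + b6 * X6 with hY5
  set Y6 := b6 * X5 + d6 * X6 + b7 * X7 with hY6
  set Y7 := b7 * X6 + d7 * X7 with hY7
  -- `t s' y = -e (X - d3 x)`
  have hz5 : s' * z5 = -e * x5 := by linarith
  have hz6 : s' * z6 = -e * x6 := by linarith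
  have hz7 : s' * z7 = -e * x7 := by linarith
  have hy5 : t * s' * y5 = -e * (X5 - d3 * x5) := by
    linear_combination s' * e35 + (d5 - d3) * hz5 + b6 * hz6
  have hy6 : t * s' * y6 = -e * (X6 - d3 * x6) := by
    linear_combination s' * e36 + (d6 - d3) * hz6 + b6 * hz5 + b7 * hz7
  have hy7 : t * s' * y7 = -e * (X7 - d3 * x7) := by
    linear_combination s' * e37 + (d7 - d3) * hz7 + b7 * hz6
  -- `F`: e * Y = ...
  have F5 : e * Y5 = e * (d2 + d3) * X5 + (e * t ^ 2 - t * s' * s - e * d2 * d3) * x5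
      + t * s' * b5 * xi := by
    linear_combination (t * s') * e25 - (d2 - d5) * hy5 + b6 * hy6 - t ^ 2 * hz5
  have F6 : e * Y6 = e * (d2 + d3) * X6 + (e * t ^ 2 - t * s' * s - e * d2 * d3) * x6 := by
    linear_combination (t * s') * e26 - (d2 - d6) * hy6 + b6 * hy5 + b7 * hy7 - t ^ 2 * hz6
  have F7 : e * Y7 = e * (d2 + d3) * X7 + (e * t ^ 2 - t * s' * s - e * d2 * d3) * x7 := by
    linear_combination (t * s') * e27 - (d2 - d7) * hy7 + b7 * hy6 - t ^ 2 * hz7
  -- `w`
  have hw5 : b * t * s' * w5 = (t * s' + s * e) * X5 - (s * e * d3 + t * s' * d1) * x5 := by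
    linear_combination (t * s') * e15 - s * hy5
  have hw6 : b * t * s' * w6 = (t * s' + s * e) * X6 - (s * e * d3 + t * s' * d1) * x6 := by
    linear_combination (t * s') * e16 - s * hy6
  have hw7 : b * t * s' * w7 = (t * s' + s * e) * X7 - (s * e * d3 + t * s' * d1) * x7 := by
    linear_combination (t * s') * e17 - s * hy7
  have heta : b * e * eta = - (t * s' - s * e) * xi := by
    linear_combination (-b) * e01 - s * e12 - t * e23
  set c1 := t * s' + s * e with hc1
  set c2 := s * e * d3 + t * s' * d1 with hc2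
  set f := e * t ^ 2 - t * s' * s - e * d2 * d3 with hf
  set u := c1 * e * (d2 + d3) - e * (d0 * c1 + c2) with hu
  set v := c1 * f - e * b ^ 2 * t * s' + e * d0 * c2 with hv
  set c' := -2 * s * e * t * s' * b5 * xi with hc'
  have L5 : u * X5 + v * x5 = c' := by
    rw [hu, hv, hc']
    linear_combination (-c1) * F5 - (b * t * s' * e) * e05 - (e * (d5 - d0)) * hw5
      - (e * b6) * hw6 - (t * s' * b5) * heta
  have L6 : u * X6 + v * x6 = 0 := by
    rw [hu, hv]
    linear_combination (-c1) * F6 - (b * t * s' * e) * e06 - (e * (d6 - d0)) * hw6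
      - (e * b6) * hw5 - (e * b7) * hw7
  have L7 : u * X7 + v * x7 = 0 := by
    rw [hu, hv]
    linear_combination (-c1) * F7 - (b * t * s' * e) * e07 - (e * (d7 - d0)) * hw7
      - (e * b7) * hw6
  have hc0 : c' ≠ 0 := by
    rw [hc']
    refine mul_ne_zero (mul_ne_zero (mul_ne_zero (mul_ne_zero (mul_ne_zero (mul_ne_zero ?_ hs) he)
      ht) hs') hb5) hxi
    norm_num
  by_cases hu0 : u = 0
  · rw [hu0, zero_mul, zero_add] at L5 L6 L7
    have hv0 : v ≠ 0 := by
      intro h
      rw [h, zero_mul] at L5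
      exact hc0 L5.symm
    have h6 : x6 = 0 := by
      rcases mul_eq_zero.1 L6 with h | h
      · exact absurd h hv0
      · exact h
    have h7 : x7 = 0 := by
      rcases mul_eq_zero.1 L7 with h | h
      · exact absurd h hv0
      · exact h
    have hX7' : X7 = 0 := by rw [hX7, h6, h7]; ring
    have hX6' : X6 = b6 * x5 := by rw [hX6, h6, h7]; ring
    have hF : e * (b7 * (b6 * x5)) = 0 := by
      have := F7
      rw [hY7, hX7', hX6', h7] at this
      linarith
    have h5 : x5 = 0 := by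
      rcases mul_eq_zero.1 hF with h | h
      · exact absurd h he
      · rcases mul_eq_zero.1 h with h | h
        · exact absurd h hb7
        · rcases mul_eq_zero.1 h with h | h
          · exact absurd h hb6
          · exact h
    rw [h5, mul_zero] at L5
    exact hc0 L5.symm
  · set kap := u ^ 2 * f - v * e * (u * (d2 + d3) + v) with hkap
    have K6 : kap * x6 = u * e * b6 * c' := by
      rw [hkap]
      linear_combination (u * e * b6) * L5 + (u * e * d6) * L6 + (u * e * b7) * L7
        - u ^ 2 * F6 - (e * (u * (d2 + d3) + v)) * L6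
    have K7 : kap * x7 = 0 := by
      rw [hkap]
      linear_combination (u * e * b7) * L6 + (u * e * d7) * L7
        - u ^ 2 * F7 - (e * (u * (d2 + d3) + v)) * L7
    have hne : u * e * b6 * c' ≠ 0 := mul_ne_zero (mul_ne_zero (mul_ne_zero hu0 he) hb6) hc0
    have hk0 : kap ≠ 0 := by
      intro h
      rw [h, zero_mul] at K6
      exact hne K6.symm
    have h7 : x7 = 0 := by
      rcases mul_eq_zero.1 K7 with h | h
      · exact absurd h hk0
      · exact h
    have h8 : X7 = 0 := by
      rw [h7, mul_zero, add_zero] at L7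
      rcases mul_eq_zero.1 L7 with h | h
      · exact absurd h hu0
      · exact h
    have h6 : x6 = 0 := by
      rw [hX7, h7, mul_zero, add_zero] at h8
      rcases mul_eq_zero.1 h8 with h | h
      · exact absurd h hb7
      · exact h
    rw [h6, mul_zero] at K6
    exact hne K6.symm


/-- **The 4-cycle with pendant paths of lengths 1 and 3 at adjacent vertices is in `𝒢^SSP`.** -/
theorem G13_GSSP : GSSP G13 := by
  intro A hA X hXs hAX hX0 hc
  have hA0 : ∀ i j : Fin 8, i ≠ j → ¬ G13.Adj i j → A i j = 0 := by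
    intro i j hij h
    by_contra hne
    exact h ((hA.2 i j hij).1 hne)
  have hA1 : ∀ i j : Fin 8, i ≠ j → G13.Adj i j → A i j ≠ 0 := fun i j hij h => (hA.2 i j hij).2 h
  have hXA : ∀ i j : Fin 8, i ≠ j → G13.Adj i j → X i j = 0 := by
    intro i j hij h
    rcases mul_eq_zero.1 (hAX i j) with h' | h'
    · exact absurd h' (hA1 i j hij h)
    · exact h'
  have x01 : X 0 1 = 0 := hXA 0 1 (by decide) (by decide)
  have a02 : A 0 2 = 0 := hA0 0 2 (by decide) (by decide)
  have a03 : A 0 3 = 0 := hA0 0 3 (by decide) (by decide)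
  have a04 : A 0 4 = 0 := hA0 0 4 (by decide) (by decide)
  have a05 : A 0 5 = 0 := hA0 0 5 (by decide) (by decide)
  have a06 : A 0 6 = 0 := hA0 0 6 (by decide) (by decide)
  have a07 : A 0 7 = 0 := hA0 0 7 (by decide) (by decide)
  have x10 : X 1 0 = 0 := hXA 1 0 (by decide) (by decide)
  have x12 : X 1 2 = 0 := hXA 1 2 (by decide) (by decide)
  have a13 : A 1 3 = 0 := hA0 1 3 (by decide) (by decide)
  have x14 : X 1 4 = 0 := hXA 1 4 (by decide) (by decide)
  have a15 : A 1 5 = 0 := hA0 1 5 (by decide) (by decide)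
  have a16 : A 1 6 = 0 := hA0 1 6 (by decide) (by decide)
  have a17 : A 1 7 = 0 := hA0 1 7 (by decide) (by decide)
  have a20 : A 2 0 = 0 := hA0 2 0 (by decide) (by decide)
  have x21 : X 2 1 = 0 := hXA 2 1 (by decide) (by decide)
  have x23 : X 2 3 = 0 := hXA 2 3 (by decide) (by decide)
  have a24 : A 2 4 = 0 := hA0 2 4 (by decide) (by decide)
  have a25 : A 2 5 = 0 := hA0 2 5 (by decide) (by decide)
  have a26 : A 2 6 = 0 := hA0 2 6 (by decide) (by decide)
  have a27 : A 2 7 = 0 := hA0 2 7 (by decide) (by decide)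
  have a30 : A 3 0 = 0 := hA0 3 0 (by decide) (by decide)
  have a31 : A 3 1 = 0 := hA0 3 1 (by decide) (by decide)
  have x32 : X 3 2 = 0 := hXA 3 2 (by decide) (by decide)
  have x34 : X 3 4 = 0 := hXA 3 4 (by decide) (by decide)
  have a35 : A 3 5 = 0 := hA0 3 5 (by decide) (by decide)
  have a36 : A 3 6 = 0 := hA0 3 6 (by decide) (by decide)
  have a37 : A 3 7 = 0 := hA0 3 7 (by decide) (by decide)
  have a40 : A 4 0 = 0 := hA0 4 0 (by decide) (by decide)
  have x41 : X 4 1 = 0 := hXA 4 1 (by decide) (by decide)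
  have a42 : A 4 2 = 0 := hA0 4 2 (by decide) (by decide)
  have x43 : X 4 3 = 0 := hXA 4 3 (by decide) (by decide)
  have x45 : X 4 5 = 0 := hXA 4 5 (by decide) (by decide)
  have a46 : A 4 6 = 0 := hA0 4 6 (by decide) (by decide)
  have a47 : A 4 7 = 0 := hA0 4 7 (by decide) (by decide)
  have a50 : A 5 0 = 0 := hA0 5 0 (by decide) (by decide)
  have a51 : A 5 1 = 0 := hA0 5 1 (by decide) (by decide)
  have a52 : A 5 2 = 0 := hA0 5 2 (by decide) (by decide)
  have a53 : A 5 3 = 0 := hA0 5 3 (by decide) (by decide)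
  have x54 : X 5 4 = 0 := hXA 5 4 (by decide) (by decide)
  have x56 : X 5 6 = 0 := hXA 5 6 (by decide) (by decide)
  have a57 : A 5 7 = 0 := hA0 5 7 (by decide) (by decide)
  have a60 : A 6 0 = 0 := hA0 6 0 (by decide) (by decide)
  have a61 : A 6 1 = 0 := hA0 6 1 (by decide) (by decide)
  have a62 : A 6 2 = 0 := hA0 6 2 (by decide) (by decide)
  have a63 : A 6 3 = 0 := hA0 6 3 (by decide) (by decide)
  have a64 : A 6 4 = 0 := hA0 6 4 (by decide) (by decide)
  have x65 : X 6 5 = 0 := hXA 6 5 (by decide) (by decide)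
  have x67 : X 6 7 = 0 := hXA 6 7 (by decide) (by decide)
  have a70 : A 7 0 = 0 := hA0 7 0 (by decide) (by decide)
  have a71 : A 7 1 = 0 := hA0 7 1 (by decide) (by decide)
  have a72 : A 7 2 = 0 := hA0 7 2 (by decide) (by decide)
  have a73 : A 7 3 = 0 := hA0 7 3 (by decide) (by decide)
  have a74 : A 7 4 = 0 := hA0 7 4 (by decide) (by decide)
  have a75 : A 7 5 = 0 := hA0 7 5 (by decide) (by decide)
  have x76 : X 7 6 = 0 := hXA 7 6 (by decide) (by decide)
  have E : ∀ i j : Fin 8, ∑ k, A i k * X k j = ∑ k, X i k * A k j := by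
    intro i j
    have := congrFun (congrFun hc i) j
    rwa [Matrix.mul_apply, Matrix.mul_apply] at this
  simp only [Fin.sum_univ_eight] at E
  have e01 : 0 = X 0 2 * A 1 2 + X 0 4 * A 1 4 := by
    have := E 0 1
    simp only [a02, a03, a04, a05, a06, a07, a31, a51, a61, a71, hA.1 2 1, hA.1 4 1, hX0 0, hX0 1, hXs 3 1, hXs 5 1, hXs 6 1, hXs 7 1, x01, x21, x41, mul_zero, zero_mul, add_zero, zero_add] at this
    linear_combination this
  have e02 : A 0 0 * X 0 2 = X 0 2 * A 2 2 + X 0 3 * A 2 3 := by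
    have := E 0 2
    simp only [a02, a03, a04, a05, a06, a07, a42, a52, a62, a72, hA.1 3 2, hX0 0, hX0 2, hXs 4 2, hXs 5 2, hXs 6 2, hXs 7 2, x01, x12, x32, mul_zero, zero_mul, add_zero, zero_add] at this
    linear_combination this
  have e03 : A 0 0 * X 0 3 + A 0 1 * X 1 3 = X 0 2 * A 2 3 + X 0 3 * A 3 3 + X 0 4 * A 3 4 := by
    have := E 0 3
    simp only [a02, a03, a04, a05, a06, a07, a13, a53, a63, a73, hA.1 4 3, hX0 0, hX0 3, hXs 5 3, hXs 6 3, hXs 7 3, x01, x23, x43, mul_zero, zero_mul, add_zero, zero_add] at this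
    linear_combination this
  have e04 : A 0 0 * X 0 4 = X 0 3 * A 3 4 + X 0 4 * A 4 4 + X 0 5 * A 4 5 := by
    have := E 0 4
    simp only [a02, a03, a04, a05, a06, a07, a24, a64, a74, hA.1 5 4, hX0 0, hX0 4, hXs 6 4, hXs 7 4, x01, x14, x34, x54, mul_zero, zero_mul, add_zero, zero_add] at this
    linear_combination this
  have e05 : A 0 0 * X 0 5 + A 0 1 * X 1 5 = X 0 4 * A 4 5 + X 0 5 * A 5 5 + X 0 6 * A 5 6 := by
    have := E 0 5
    simp only [a02, a03, a04, a05, a06, a07, a15, a25, a35, a75, hA.1 6 5, hX0 0, hX0 5, hXs 7 5, x01, x45, x65, mul_zero, zero_mul, add_zero, zero_add] at this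
    linear_combination this
  have e06 : A 0 0 * X 0 6 + A 0 1 * X 1 6 = X 0 5 * A 5 6 + X 0 6 * A 6 6 + X 0 7 * A 6 7 := by
    have := E 0 6
    simp only [a02, a03, a04, a05, a06, a07, a16, a26, a36, a46, hA.1 7 6, hX0 0, hX0 6, x01, x56, x76, mul_zero, zero_mul, add_zero, zero_add] at this
    linear_combination this
  have e07 : A 0 0 * X 0 7 + A 0 1 * X 1 7 = X 0 6 * A 6 7 + X 0 7 * A 7 7 := by
    have := E 0 7
    simp only [a02, a03, a04, a05, a06, a07, a17, a27, a37, a47, a57, hX0 0, hX0 7, x01, x67, mul_zero, zero_mul, add_zero, zero_add] at this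
    linear_combination this
  have e12 : A 0 1 * X 0 2 + A 1 4 * X 2 4 = X 1 3 * A 2 3 := by
    have := E 1 2
    simp only [a02, a13, a15, a16, a17, a42, a52, a62, a72, hA.1 1 0, hA.1 3 2, hX0 1, hX0 2, hXs 4 2, hXs 5 2, hXs 6 2, hXs 7 2, x10, x12, x14, x32, mul_zero, zero_mul, add_zero, zero_add] at this
    linear_combination this
  have e13 : A 0 1 * X 0 3 + A 1 1 * X 1 3 = X 1 3 * A 3 3 := by
    have := E 1 3
    simp only [a03, a13, a15, a16, a17, a53, a63, a73, hA.1 1 0, hA.1 4 3, hX0 1, hX0 3, hXs 5 3, hXs 6 3, hXs 7 3, x10, x12, x14, x23, x43, mul_zero, zero_mul, add_zero, zero_add] at this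
    linear_combination this
  have e14 : A 0 1 * X 0 4 + A 1 2 * X 2 4 = X 1 3 * A 3 4 + X 1 5 * A 4 5 := by
    have := E 1 4
    simp only [a04, a13, a15, a16, a17, a24, a64, a74, hA.1 1 0, hA.1 5 4, hX0 1, hX0 4, hXs 6 4, hXs 7 4, x10, x12, x14, x34, x54, mul_zero, zero_mul, add_zero, zero_add] at this
    linear_combination this
  have e15 : A 0 1 * X 0 5 + A 1 1 * X 1 5 + A 1 2 * X 2 5 = X 1 5 * A 5 5 + X 1 6 * A 5 6 := by
    have := E 1 5
    simp only [a05, a13, a15, a16, a17, a25, a35, a75, hA.1 1 0, hA.1 6 5, hX0 1, hX0 5, hXs 7 5, x10, x12, x14, x45, x65, mul_zero, zero_mul, add_zero, zero_add] at this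
    linear_combination this
  have e16 : A 0 1 * X 0 6 + A 1 1 * X 1 6 + A 1 2 * X 2 6 + A 1 4 * X 4 6 = X 1 5 * A 5 6 + X 1 6 * A 6 6 + X 1 7 * A 6 7 := by
    have := E 1 6
    simp only [a06, a13, a15, a16, a17, a26, a36, a46, hA.1 1 0, hA.1 7 6, hX0 1, hX0 6, x10, x12, x14, x56, x76, mul_zero, zero_mul, add_zero, zero_add] at this
    linear_combination this
  have e17 : A 0 1 * X 0 7 + A 1 1 * X 1 7 + A 1 2 * X 2 7 + A 1 4 * X 4 7 = X 1 6 * A 6 7 + X 1 7 * A 7 7 := by
    have := E 1 7
    simp only [a07, a13, a15, a16, a17, a27, a37, a47, a57, hA.1 1 0, hX0 1, hX0 7, x10, x12, x14, x67, mul_zero, zero_mul, add_zero, zero_add] at this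
    linear_combination this
  have e23 : A 1 2 * X 1 3 = X 2 4 * A 3 4 := by
    have := E 2 3
    simp only [a03, a13, a20, a24, a25, a26, a27, a53, a63, a73, hA.1 2 1, hA.1 4 3, hX0 2, hX0 3, hXs 2 0, hXs 5 3, hXs 6 3, hXs 7 3, x21, x23, x43, mul_zero, zero_mul, add_zero, zero_add] at this
    linear_combination this
  have e24 : A 2 2 * X 2 4 = X 2 4 * A 4 4 + X 2 5 * A 4 5 := by
    have := E 2 4
    simp only [a04, a20, a24, a25, a26, a27, a64, a74, hA.1 2 1, hA.1 5 4, hX0 2, hX0 4, hXs 2 0, hXs 6 4, hXs 7 4, x14, x21, x23, x34, x54, mul_zero, zero_mul, add_zero, zero_add] at this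
    linear_combination this
  have e25 : A 1 2 * X 1 5 + A 2 2 * X 2 5 + A 2 3 * X 3 5 = X 2 4 * A 4 5 + X 2 5 * A 5 5 + X 2 6 * A 5 6 := by
    have := E 2 5
    simp only [a05, a15, a20, a24, a25, a26, a27, a35, a75, hA.1 2 1, hA.1 6 5, hX0 2, hX0 5, hXs 2 0, hXs 7 5, x21, x23, x45, x65, mul_zero, zero_mul, add_zero, zero_add] at this
    linear_combination this
  have e26 : A 1 2 * X 1 6 + A 2 2 * X 2 6 + A 2 3 * X 3 6 = X 2 5 * A 5 6 + X 2 6 * A 6 6 + X 2 7 * A 6 7 := by
    have := E 2 6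
    simp only [a06, a16, a20, a24, a25, a26, a27, a36, a46, hA.1 2 1, hA.1 7 6, hX0 2, hX0 6, hXs 2 0, x21, x23, x56, x76, mul_zero, zero_mul, add_zero, zero_add] at this
    linear_combination this
  have e27 : A 1 2 * X 1 7 + A 2 2 * X 2 7 + A 2 3 * X 3 7 = X 2 6 * A 6 7 + X 2 7 * A 7 7 := by
    have := E 2 7
    simp only [a07, a17, a20, a24, a25, a26, a27, a37, a47, a57, hA.1 2 1, hX0 2, hX0 7, hXs 2 0, x21, x23, x67, mul_zero, zero_mul, add_zero, zero_add] at this
    linear_combination this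
  have e34 : A 2 3 * X 2 4 = X 1 3 * A 1 4 + X 3 5 * A 4 5 := by
    have := E 3 4
    simp only [a04, a24, a30, a31, a35, a36, a37, a64, a74, hA.1 3 2, hA.1 5 4, hX0 3, hX0 4, hXs 3 0, hXs 3 1, hXs 6 4, hXs 7 4, x14, x32, x34, x54, mul_zero, zero_mul, add_zero, zero_add] at this
    linear_combination this
  have e35 : A 2 3 * X 2 5 + A 3 3 * X 3 5 = X 3 5 * A 5 5 + X 3 6 * A 5 6 := by
    have := E 3 5
    simp only [a05, a15, a25, a30, a31, a35, a36, a37, a75, hA.1 3 2, hA.1 6 5, hX0 3, hX0 5, hXs 3 0, hXs 3 1, hXs 7 5, x32, x34, x45, x65, mul_zero, zero_mul, add_zero, zero_add] at this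
    linear_combination this
  have e36 : A 2 3 * X 2 6 + A 3 3 * X 3 6 + A 3 4 * X 4 6 = X 3 5 * A 5 6 + X 3 6 * A 6 6 + X 3 7 * A 6 7 := by
    have := E 3 6
    simp only [a06, a16, a26, a30, a31, a35, a36, a37, a46, hA.1 3 2, hA.1 7 6, hX0 3, hX0 6, hXs 3 0, hXs 3 1, x32, x34, x56, x76, mul_zero, zero_mul, add_zero, zero_add] at this
    linear_combination this
  have e37 : A 2 3 * X 2 7 + A 3 3 * X 3 7 + A 3 4 * X 4 7 = X 3 6 * A 6 7 + X 3 7 * A 7 7 := by
    have := E 3 7
    simp only [a07, a17, a27, a30, a31, a35, a36, a37, a47, a57, hA.1 3 2, hX0 3, hX0 7, hXs 3 0, hXs 3 1, x32, x34, x67, mul_zero, zero_mul, add_zero, zero_add] at this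
    linear_combination this
  have e45 : A 1 4 * X 1 5 + A 3 4 * X 3 5 = X 4 6 * A 5 6 := by
    have := E 4 5
    simp only [a05, a15, a25, a35, a40, a42, a46, a47, a75, hA.1 4 1, hA.1 4 3, hA.1 6 5, hX0 4, hX0 5, hXs 4 0, hXs 4 2, hXs 7 5, x41, x43, x45, x65, mul_zero, zero_mul, add_zero, zero_add] at this
    linear_combination this
  have e46 : A 1 4 * X 1 6 + A 3 4 * X 3 6 + A 4 4 * X 4 6 = X 4 6 * A 6 6 + X 4 7 * A 6 7 := by
    have := E 4 6
    simp only [a06, a16, a26, a36, a40, a42, a46, a47, hA.1 4 1, hA.1 4 3, hA.1 7 6, hX0 4, hX0 6, hXs 4 0, hXs 4 2, x41, x43, x45, x56, x76, mul_zero, zero_mul, add_zero, zero_add] at this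
    linear_combination this
  have e47 : A 1 4 * X 1 7 + A 3 4 * X 3 7 + A 4 4 * X 4 7 + A 4 5 * X 5 7 = X 4 6 * A 6 7 + X 4 7 * A 7 7 := by
    have := E 4 7
    simp only [a07, a17, a27, a37, a40, a42, a46, a47, a57, hA.1 4 1, hA.1 4 3, hX0 4, hX0 7, hXs 4 0, hXs 4 2, x41, x43, x45, x67, mul_zero, zero_mul, add_zero, zero_add] at this
    linear_combination this
  have e56 : A 4 5 * X 4 6 = X 5 7 * A 6 7 := by
    have := E 5 6
    simp only [a06, a16, a26, a36, a46, a50, a51, a52, a53, a57, hA.1 5 4, hA.1 7 6, hX0 5, hX0 6, hXs 5 0, hXs 5 1, hXs 5 2, hXs 5 3, x54, x56, x76, mul_zero, zero_mul, add_zero, zero_add] at this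
    linear_combination this
  have e57 : A 4 5 * X 4 7 + A 5 5 * X 5 7 = X 5 7 * A 7 7 := by
    have := E 5 7
    simp only [a07, a17, a27, a37, a47, a50, a51, a52, a53, a57, hA.1 5 4, hX0 5, hX0 7, hXs 5 0, hXs 5 1, hXs 5 2, hXs 5 3, x54, x56, x67, mul_zero, zero_mul, add_zero, zero_add] at this
    linear_combination this
  have e67 : A 5 6 * X 5 7 = 0 := by
    have := E 6 7
    simp only [a07, a17, a27, a37, a47, a57, a60, a61, a62, a63, a64, hA.1 6 5, hX0 6, hX0 7, hXs 6 0, hXs 6 1, hXs 6 2, hXs 6 3, hXs 6 4, x65, x67, mul_zero, zero_mul, add_zero, zero_add] at this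
    linear_combination this
  have n01 : A 0 1 ≠ 0 := hA1 0 1 (by decide) (by decide)
  have n12 : A 1 2 ≠ 0 := hA1 1 2 (by decide) (by decide)
  have n14 : A 1 4 ≠ 0 := hA1 1 4 (by decide) (by decide)
  have n23 : A 2 3 ≠ 0 := hA1 2 3 (by decide) (by decide)
  have n34 : A 3 4 ≠ 0 := hA1 3 4 (by decide) (by decide)
  have n45 : A 4 5 ≠ 0 := hA1 4 5 (by decide) (by decide)
  have n56 : A 5 6 ≠ 0 := hA1 5 6 (by decide) (by decide)
  have n67 : A 6 7 ≠ 0 := hA1 6 7 (by decide) (by decide)
  have z57 : X 5 7 = 0 := by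
    have h := e67
    have h' : A 5 6 * X 5 7 = 0 := by
      first | linear_combination h | linear_combination -h
    exact (mul_eq_zero.1 h').resolve_left n56
  have z46 : X 4 6 = 0 := by
    have h := e56
    simp only [z57, mul_zero, zero_mul, add_zero, zero_add] at h
    have h' : A 4 5 * X 4 6 = 0 := by
      first | linear_combination h | linear_combination -h
    exact (mul_eq_zero.1 h').resolve_left n45
  have z47 : X 4 7 = 0 := by
    have h := e57
    simp only [z57, mul_zero, zero_mul, add_zero, zero_add] at h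
    have h' : A 4 5 * X 4 7 = 0 := by
      first | linear_combination h | linear_combination -h
    exact (mul_eq_zero.1 h').resolve_left n45
  have z24 : X 2 4 = 0 := by
    have h45 := e45
    have h46 := e46
    have h47 := e47
    have h16 := e16
    have h17 := e17
    have h36 := e36
    have h37 := e37
    simp only [z46, z47, z57, mul_zero, zero_mul, add_zero, zero_add] at h45 h46 h47 h16 h17 h36 h37
    exact key13 (eta := X 0 4) (x02 := X 0 2) (x13 := X 1 3) (x5 := X 1 5) (x6 := X 1 6) (x7 := X 1 7)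
      (y5 := X 2 5) (y6 := X 2 6) (y7 := X 2 7) (z5 := X 3 5) (z6 := X 3 6) (z7 := X 3 7)
      (w5 := X 0 5) (w6 := X 0 6) (w7 := X 0 7) (b := A 0 1) (s := A 1 2) (t := A 2 3) (s' := A 3 4)
      (b5 := A 4 5) (b6 := A 5 6) (b7 := A 6 7) (e := A 1 4) (d0 := A 0 0) (d1 := A 1 1) (d2 := A 2 2)
      (d3 := A 3 3) (d5 := A 5 5) (d6 := A 6 6) (d7 := A 7 7)
      n01 n12 n23 n34 n45 n56 n67 n14 e01 e12 e23 h45 h46 h47 e35 h36 h37 e25 e26 e27 e15 h16 h17
      e05 e06 e07
  have z13 : X 1 3 = 0 := by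
    have h := e23
    simp only [z24, mul_zero, zero_mul, add_zero, zero_add] at h
    have h' : A 1 2 * X 1 3 = 0 := by
      first | linear_combination h | linear_combination -h
    exact (mul_eq_zero.1 h').resolve_left n12
  have z02 : X 0 2 = 0 := by
    have h := e12
    simp only [z24, z13, mul_zero, zero_mul, add_zero, zero_add] at h
    have h' : A 0 1 * X 0 2 = 0 := by
      first | linear_combination h | linear_combination -h
    exact (mul_eq_zero.1 h').resolve_left n01
  have z04 : X 0 4 = 0 := by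
    have h := e01
    simp only [z02, mul_zero, zero_mul, add_zero, zero_add] at h
    have h' : A 1 4 * X 0 4 = 0 := by
      first | linear_combination h | linear_combination -h
    exact (mul_eq_zero.1 h').resolve_left n14
  have z03 : X 0 3 = 0 := by
    have h := e02
    simp only [z02, mul_zero, zero_mul, add_zero, zero_add] at h
    have h' : A 2 3 * X 0 3 = 0 := by
      first | linear_combination h | linear_combination -h
    exact (mul_eq_zero.1 h').resolve_left n23
  have z15 : X 1 5 = 0 := by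
    have h := e14
    simp only [z04, z24, z13, mul_zero, zero_mul, add_zero, zero_add] at h
    have h' : A 4 5 * X 1 5 = 0 := by
      first | linear_combination h | linear_combination -h
    exact (mul_eq_zero.1 h').resolve_left n45
  have z25 : X 2 5 = 0 := by
    have h := e24
    simp only [z24, mul_zero, zero_mul, add_zero, zero_add] at h
    have h' : A 4 5 * X 2 5 = 0 := by
      first | linear_combination h | linear_combination -h
    exact (mul_eq_zero.1 h').resolve_left n45
  have z35 : X 3 5 = 0 := by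
    have h := e34
    simp only [z24, z13, mul_zero, zero_mul, add_zero, zero_add] at h
    have h' : A 4 5 * X 3 5 = 0 := by
      first | linear_combination h | linear_combination -h
    exact (mul_eq_zero.1 h').resolve_left n45
  have z05 : X 0 5 = 0 := by
    have h := e04
    simp only [z03, z04, mul_zero, zero_mul, add_zero, zero_add] at h
    have h' : A 4 5 * X 0 5 = 0 := by
      first | linear_combination h | linear_combination -h
    exact (mul_eq_zero.1 h').resolve_left n45
  have z16 : X 1 6 = 0 := by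
    have h := e15
    simp only [z05, z15, z25, mul_zero, zero_mul, add_zero, zero_add] at h
    have h' : A 5 6 * X 1 6 = 0 := by
      first | linear_combination h | linear_combination -h
    exact (mul_eq_zero.1 h').resolve_left n56
  have z26 : X 2 6 = 0 := by
    have h := e25
    simp only [z15, z25, z35, z24, mul_zero, zero_mul, add_zero, zero_add] at h
    have h' : A 5 6 * X 2 6 = 0 := by
      first | linear_combination h | linear_combination -h
    exact (mul_eq_zero.1 h').resolve_left n56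
  have z36 : X 3 6 = 0 := by
    have h := e35
    simp only [z25, z35, mul_zero, zero_mul, add_zero, zero_add] at h
    have h' : A 5 6 * X 3 6 = 0 := by
      first | linear_combination h | linear_combination -h
    exact (mul_eq_zero.1 h').resolve_left n56
  have z06 : X 0 6 = 0 := by
    have h := e05
    simp only [z05, z15, z04, mul_zero, zero_mul, add_zero, zero_add] at h
    have h' : A 5 6 * X 0 6 = 0 := by
      first | linear_combination h | linear_combination -h
    exact (mul_eq_zero.1 h').resolve_left n56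
  have z17 : X 1 7 = 0 := by
    have h := e16
    simp only [z06, z16, z26, z46, z15, mul_zero, zero_mul, add_zero, zero_add] at h
    have h' : A 6 7 * X 1 7 = 0 := by
      first | linear_combination h | linear_combination -h
    exact (mul_eq_zero.1 h').resolve_left n67
  have z27 : X 2 7 = 0 := by
    have h := e26
    simp only [z16, z26, z36, z25, mul_zero, zero_mul, add_zero, zero_add] at h
    have h' : A 6 7 * X 2 7 = 0 := by
      first | linear_combination h | linear_combination -h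
    exact (mul_eq_zero.1 h').resolve_left n67
  have z37 : X 3 7 = 0 := by
    have h := e36
    simp only [z26, z36, z46, z35, mul_zero, zero_mul, add_zero, zero_add] at h
    have h' : A 6 7 * X 3 7 = 0 := by
      first | linear_combination h | linear_combination -h
    exact (mul_eq_zero.1 h').resolve_left n67
  have z07 : X 0 7 = 0 := by
    have h := e06
    simp only [z06, z16, z05, mul_zero, zero_mul, add_zero, zero_add] at h
    have h' : A 6 7 * X 0 7 = 0 := by
      first | linear_combination h | linear_combination -h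
    exact (mul_eq_zero.1 h').resolve_left n67
  have hall : ∀ i j : Fin 8, i < j → X i j = 0 := by
    intro i j hij
    fin_cases i <;> fin_cases j <;> first | (exfalso; revert hij; decide) | assumption
  ext i j
  rw [Matrix.zero_apply]
  rcases lt_trichotomy i j with h | h | h
  · exact hall i j h
  · rw [h]; exact hX0 j
  · rw [hXs]; exact hall j i h

end Pool.Agent.Q104.SSP
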