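import Pool.Agent.Q104.TadGraph
import Pool.Agent.Q104.G13

/-!
# A path with one chord is unicyclic; the graph `G13`
-/

set_option autoImplicit false
set_option linter.unusedVariables false

namespace Pool.Agent.Q104.SSP

open Finset SimpleGraph

/-- the path on `N` vertices with the additional edge `{a,b}` -/
def chord (N a b : ℕ) : SimpleGraph (Fin N) where
  Adj i j := i ≠ j ∧ (i.val + 1 = j.val ∨ j.val + 1 = i.val ∨
    (i.val = a ∧ j.val = b) ∨ (i.val = b ∧ j.val = a))
  symm := ⟨by
    intro i j h
    refine ⟨h.1.symm, ?_⟩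
    rcases h.2 with h | h | h | h
    · exact Or.inr (Or.inl h)
    · exact Or.inl h
    · exact Or.inr (Or.inr (Or.inr ⟨h.2, h.1⟩))
    · exact Or.inr (Or.inr (Or.inl ⟨h.2, h.1⟩))⟩
  loopless := ⟨by
    intro i h
    exact h.1 rfl⟩

variable {N a b : ℕ}

/-- the edges of the cycle -/
def ccyc (hab : a + 2 ≤ b) (hb : b < N) (i : Fin (b - a + 1)) : Sym2 (Fin N) :=
  if h : i.val < b - a then s(⟨a + i.val, by omega⟩, ⟨a + i.val + 1, by omega⟩)
  else s(⟨a, by omega⟩, ⟨b, by omega⟩)

lemma ccyc_inj (hab : a + 2 ≤ b) (hb : b < N) : Function.Injective (ccyc (N := N) hab hb) := by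
  intro i j h
  have hi := i.isLt
  have hj := j.isLt
  unfold ccyc at h
  apply Fin.ext
  split_ifs at h <;> simp only [Sym2.eq_iff, Fin.mk.injEq] at h <;> omega

lemma chord_connected (hab : a + 2 ≤ b) (hb : b < N) : (chord N a b).Connected := by
  have hpos : 0 < N := by omega
  have key : ∀ c : ℕ, ∀ i : Fin N, i.val = c → (chord N a b).Reachable ⟨0, hpos⟩ i := by
    intro c
    induction c with
    | zero =>
      intro i hi
      rw [show i = ⟨0, hpos⟩ from Fin.ext hi]
    | succ c ih =>
      intro i hi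
      have h1 := ih ⟨c, by have := i.isLt; omega⟩ rfl
      refine h1.trans (SimpleGraph.Adj.reachable ?_)
      refine ⟨fun h => ?_, Or.inl ?_⟩
      · rw [← h] at hi; simp at hi
      · simp only; omega
  have : Nonempty (Fin N) := ⟨⟨0, hpos⟩⟩
  refine SimpleGraph.Connected.mk ?_
  intro u v
  exact (key u.val u rfl).symm.trans (key v.val v rfl)

lemma chord_bridge (hab : a + 2 ≤ b) (hb : b < N) {u : Fin N} (p : (chord N a b).Walk u u)
    (hp : p.IsCycle) (c d : Fin N) (hcd : c.val + 1 = d.val) (hc : c.val < a ∨ b ≤ c.val) :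
    s(c, d) ∉ p.edges := by
  have h1 := crossings_one (G := chord N a b) (fun x => x.val ≤ c.val) s(c, d) (by
    intro x y hxy
    have hx := x.isLt
    have hy := y.isLt
    obtain ⟨_, hxy⟩ := hxy
    simp only [Sym2.eq_iff, Fin.ext_iff]
    omega) p hp.edges_nodup
  have h2 := (crossings_parity (fun x : Fin N => x.val ≤ c.val) p).1 Iff.rfl
  intro h3
  rw [if_pos h3] at h1
  omega

lemma ccyc_mem (hab : a + 2 ≤ b) (hb : b < N) {u : Fin N} (p : (chord N a b).Walk u u)
    (hp : p.IsCycle) (x y c d : Fin N) (hxy : x.val + 1 = y.val) (hx : a ≤ x.val) (hx' : x.val < b)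
    (hc : c.val = a) (hd : d.val = b) : s(x, y) ∈ p.edges ↔ s(c, d) ∈ p.edges := by
  have h1 := crossings_le (G := chord N a b) (fun z => z.val ≤ x.val) s(x, y) s(c, d)
    (by
      intro h
      simp only [Sym2.eq_iff, Fin.ext_iff] at h
      omega)
    (by
      intro z w hzw
      have hz := z.isLt
      have hw := w.isLt
      obtain ⟨_, hzw⟩ := hzw
      simp only [Sym2.eq_iff, Fin.ext_iff]
      omega) p hp.edges_nodup
  have h2 := (crossings_parity (fun z : Fin N => z.val ≤ x.val) p).1 Iff.rfl
  rw [h1] at h2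
  by_cases h3 : s(x, y) ∈ p.edges
  · by_cases h4 : s(c, d) ∈ p.edges
    · exact ⟨fun _ => h4, fun _ => h3⟩
    · rw [if_pos h3, if_neg h4] at h2; omega
  · by_cases h4 : s(c, d) ∈ p.edges
    · rw [if_neg h3, if_pos h4] at h2; omega
    · exact ⟨fun h => absurd h h3, fun h => absurd h h4⟩

lemma chord_cycle_edges (hab : a + 2 ≤ b) (hb : b < N) {u : Fin N} (p : (chord N a b).Walk u u)
    (hp : p.IsCycle) (e : Sym2 (Fin N)) : e ∈ p.edges ↔ ∃ i, ccyc (N := N) hab hb i = e := by
  obtain ⟨c, hc⟩ : ∃ c : Fin N, c.val = a := ⟨⟨a, by omega⟩, rfl⟩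
  obtain ⟨d, hd⟩ : ∃ d : Fin N, d.val = b := ⟨⟨b, by omega⟩, rfl⟩
  have hshape : ∀ x y : Fin N, s(x, y) ∈ p.edges → (∃ x' y' : Fin N,
      s(x, y) = s(x', y') ∧ x'.val + 1 = y'.val ∧ a ≤ x'.val ∧ x'.val < b) ∨ s(x, y) = s(c, d) := by
    intro x y hxy
    have hadj := SimpleGraph.Walk.adj_of_mem_edges p hxy
    obtain ⟨_, hadj⟩ := hadj
    rcases hadj with h | h | h | h
    · left
      refine ⟨x, y, rfl, h, ?_⟩
      by_contra hcon
      exact chord_bridge hab hb p hp x y h (by omega) hxy
    · left
      refine ⟨y, x, Sym2.eq_swap, h, ?_⟩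
      by_contra hcon
      rw [Sym2.eq_swap] at hxy
      exact chord_bridge hab hb p hp y x h (by omega) hxy
    · right
      rw [show x = c from Fin.ext (by omega), show y = d from Fin.ext (by omega)]
    · right
      rw [show y = c from Fin.ext (by omega), show x = d from Fin.ext (by omega), Sym2.eq_swap]
  have hcd : s(c, d) ∈ p.edges := by
    have hne : p.edges ≠ [] := by
      intro h
      have := hp.three_le_length
      rw [← SimpleGraph.Walk.length_edges, h] at this
      simp at this
    obtain ⟨e, he⟩ := List.exists_mem_of_ne_nil _ hne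
    induction e using Sym2.ind with
    | _ x y =>
      rcases hshape x y he with ⟨x', y', h1, h2, h3, h4⟩ | h
      · rw [h1] at he
        exact (ccyc_mem hab hb p hp x' y' c d h2 h3 h4 hc hd).1 he
      · rw [← h]; exact he
  constructor
  · intro he
    induction e using Sym2.ind with
    | _ x y =>
      rcases hshape x y he with ⟨x', y', h1, h2, h3, h4⟩ | h
      · have hb' := y'.isLt
        refine ⟨⟨x'.val - a, by omega⟩, ?_⟩
        rw [h1]
        unfold ccyc
        rw [dif_pos (by simp only; omega)]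
        simp only [Sym2.eq_iff, Fin.ext_iff]
        omega
      · refine ⟨⟨b - a, by omega⟩, ?_⟩
        rw [h]
        unfold ccyc
        rw [dif_neg (by simp only; omega)]
        simp only [Sym2.eq_iff, Fin.ext_iff]
        omega
  · rintro ⟨i, rfl⟩
    have hi := i.isLt
    unfold ccyc
    split_ifs with h
    · exact (ccyc_mem hab hb p hp _ _ c d (by simp only) (by simp only; omega) (by simp only; omega)
        hc hd).2 hcd
    · have : (s(⟨a, by omega⟩, ⟨b, by omega⟩) : Sym2 (Fin N)) = s(c, d) := by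
        simp only [Sym2.eq_iff, Fin.ext_iff]
        omega
      rw [this]; exact hcd

lemma chord_exists_cycle (hab : a + 2 ≤ b) (hb : b < N) :
    ∃ (u : Fin N) (p : (chord N a b).Walk u u), p.IsCycle := by
  obtain ⟨c, hc⟩ : ∃ c : Fin N, c.val = a := ⟨⟨a, by omega⟩, rfl⟩
  obtain ⟨d, hd⟩ : ∃ d : Fin N, d.val = b := ⟨⟨b, by omega⟩, rfl⟩
  have hadj : (chord N a b).Adj c d := by
    refine ⟨fun h => ?_, Or.inr (Or.inr (Or.inl ⟨hc, hd⟩))⟩
    rw [h] at hc; omega
  have hreach : ((chord N a b).deleteEdges {s(c, d)}).Reachable c d := by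
    have key : ∀ k : ℕ, ∀ i : Fin N, i.val = a + k →
        ((chord N a b).deleteEdges {s(c, d)}).Reachable c i := by
      intro k
      induction k with
      | zero =>
        intro i hi
        rw [show i = c from Fin.ext (by omega)]
      | succ k ih =>
        intro i hi
        have hil := i.isLt
        have h1 := ih ⟨a + k, by omega⟩ rfl
        refine h1.trans (SimpleGraph.Adj.reachable ?_)
        rw [SimpleGraph.deleteEdges_adj]
        refine ⟨⟨fun h => ?_, Or.inl ?_⟩, ?_⟩
        · rw [← h] at hi; simp at hi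
        · simp only; omega
        · intro h
          simp only [Set.mem_singleton_iff, Sym2.eq_iff, Fin.ext_iff] at h
          omega
    exact key (b - a) d (by omega)
  obtain ⟨u, p, hp, _⟩ :=
    (SimpleGraph.adj_and_reachable_delete_edges_iff_exists_cycle (G := chord N a b)).1
      ⟨hadj, hreach⟩
  exact ⟨u, p, hp⟩

theorem chord_unicyclic (hab : a + 2 ≤ b) (hb : b < N) : Unicyclic (chord N a b) := by
  refine ⟨chord_connected hab hb, chord_exists_cycle hab hb, ?_⟩
  intro u v p q hp hq e
  rw [chord_cycle_edges hab hb p hp, chord_cycle_edges hab hb q hq]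

theorem chord_girth (hab : a + 2 ≤ b) (hb : b < N) : (chord N a b).girth = b - a + 1 := by
  classical
  have hna : ¬ (chord N a b).IsAcyclic := by
    obtain ⟨u, p, hp⟩ := chord_exists_cycle (N := N) hab hb
    intro h
    exact h p hp
  obtain ⟨u, p, hp, hlen⟩ := SimpleGraph.exists_girth_eq_length.2 hna
  rw [hlen, ← SimpleGraph.Walk.length_edges, ← List.toFinset_card_of_nodup hp.edges_nodup]
  have : p.edges.toFinset = univ.image (ccyc (N := N) hab hb) := by
    ext e
    rw [List.mem_toFinset, chord_cycle_edges hab hb p hp]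
    simp
  rw [this, Finset.card_image_of_injective _ (ccyc_inj hab hb), Finset.card_univ, Fintype.card_fin]

lemma G13_eq : G13 = chord 8 1 4 := by
  ext i j
  show (i.val + 1 = j.val ∨ j.val + 1 = i.val ∨ (i.val = 1 ∧ j.val = 4) ∨
    (i.val = 4 ∧ j.val = 1)) ↔ (i ≠ j ∧ (i.val + 1 = j.val ∨ j.val + 1 = i.val ∨
    (i.val = 1 ∧ j.val = 4) ∨ (i.val = 4 ∧ j.val = 1)))
  constructor
  · intro h
    exact ⟨fun h' => by rw [h'] at h; omega, h⟩
  · exact fun h => h.2

theorem G13_unicyclic : Unicyclic G13 := by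
  rw [G13_eq]; exact chord_unicyclic (by norm_num) (by norm_num)

theorem G13_girth : G13.girth = 4 := by
  rw [G13_eq, chord_girth (by norm_num) (by norm_num)]

/-- in a tadpole every vertex other than the end of the path has two neighbours -/
lemma tadpole_two_nbrs {m n : ℕ} (hm : 3 ≤ m) (i : Fin (n + m)) (hi : i.val ≠ 0) :
    ∃ j k : Fin (n + m), j ≠ k ∧ (tadpole m n).Adj i j ∧ (tadpole m n).Adj i k := by
  have hil := i.isLt
  by_cases h : i.val + 1 = n + m
  · refine ⟨⟨i.val - 1, by omega⟩, ⟨n, by omega⟩, ?_, ⟨?_, ?_⟩, ⟨?_, ?_⟩⟩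
    · intro h'
      have := congrArg Fin.val h'
      simp only at this
      omega
    · intro h'
      have := congrArg Fin.val h'
      simp only at this
      omega
    · simp only; omega
    · intro h'
      have := congrArg Fin.val h'
      simp only at this
      omega
    · right; right; right
      exact ⟨rfl, h⟩
  · refine ⟨⟨i.val - 1, by omega⟩, ⟨i.val + 1, by omega⟩, ?_, ⟨?_, ?_⟩, ⟨?_, ?_⟩⟩
    · intro h'
      have := congrArg Fin.val h'
      simp only at this
      omega
    · intro h'
      have := congrArg Fin.val h'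
      simp only at this
      omega
    · simp only; omega
    · intro h'
      have := congrArg Fin.val h'
      simp only at this
      omega
    · left; rfl

lemma G13_leaf (x : Fin 8) (hx : x = 0 ∨ x = 7) (j k : Fin 8) (hj : G13.Adj x j)
    (hk : G13.Adj x k) : j = k := by
  rcases hx with rfl | rfl <;> revert hj hk <;> revert j k <;> decide

theorem G13_not_tadpole {m n : ℕ} (hm : 3 ≤ m) : IsEmpty (G13 ≃g tadpole m n) := by
  refine ⟨fun f => ?_⟩
  have key : ∀ x : Fin 8, (x = 0 ∨ x = 7) → (f x).val = 0 := by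
    intro x hx
    by_contra h0
    obtain ⟨j, k, hjk, hj, hk⟩ := tadpole_two_nbrs hm (f x) h0
    have hj' : G13.Adj x (f.symm j) := by
      have := f.symm.map_rel_iff.2 hj
      rwa [RelIso.symm_apply_apply] at this
    have hk' : G13.Adj x (f.symm k) := by
      have := f.symm.map_rel_iff.2 hk
      rwa [RelIso.symm_apply_apply] at this
    exact hjk (f.symm.injective (G13_leaf x hx _ _ hj' hk'))
  have h0 := key 0 (Or.inl rfl)
  have h7 := key 7 (Or.inr rfl)
  have : f 0 = f 7 := Fin.ext (h0.trans h7.symm)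
  have h07 : (0 : Fin 8) = 7 := f.injective this
  exact absurd h07 (by decide)

end Pool.Agent.Q104.SSP
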