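import Pool.Agent.Q104.DiamMax

/-!
# A diameter-maximal 6-regular graph of diameter 4 and girth 3

The vertices are: two roots `0`, `1`; the six vertices of `K_6` in two copies, `2, …, 7` (adjacent
to `0`) and `8, …, 13` (adjacent to `1`); and the fifteen edges `14, …, 28` of `K_6`.  An edge is
adjacent to both copies of its two ends, and to the two other edges of its factor in a
1-factorization of `K_6` (the factors are `14, 15, 16`; `17, 18, 19`; …; `26, 27, 28`).
-/

set_option autoImplicit false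

namespace Pool.Agent.Q104.DiamEven

open Matrix Finset Pool.Agent.Q104.DiamMax Pool.Agent.Q104.Lam2

/-- the neighbours of the vertices -/
def tabl : List (List (Fin 29)) := [
  [2, 3, 4, 5, 6, 7],
  [8, 9, 10, 11, 12, 13],
  [0, 14, 18, 22, 25, 27],
  [0, 15, 17, 21, 25, 28],
  [0, 16, 18, 20, 24, 28],
  [0, 16, 19, 21, 23, 27],
  [0, 15, 19, 22, 24, 26],
  [0, 14, 17, 20, 23, 26],
  [1, 14, 18, 22, 25, 27],
  [1, 15, 17, 21, 25, 28],
  [1, 16, 18, 20, 24, 28],
  [1, 16, 19, 21, 23, 27],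
  [1, 15, 19, 22, 24, 26],
  [1, 14, 17, 20, 23, 26],
  [2, 7, 8, 13, 15, 16],
  [3, 6, 9, 12, 14, 16],
  [4, 5, 10, 11, 14, 15],
  [3, 7, 9, 13, 18, 19],
  [2, 4, 8, 10, 17, 19],
  [5, 6, 11, 12, 17, 18],
  [4, 7, 10, 13, 21, 22],
  [3, 5, 9, 11, 20, 22],
  [2, 6, 8, 12, 20, 21],
  [5, 7, 11, 13, 24, 25],
  [4, 6, 10, 12, 23, 25],
  [2, 3, 8, 9, 23, 24],
  [6, 7, 12, 13, 27, 28],
  [2, 5, 8, 11, 26, 28],
  [3, 4, 9, 10, 26, 27]]

/-- the list of the neighbours of `a` -/
def nb (a : Fin 29) : List (Fin 29) := tabl.getD a.val []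

/-- the graph -/
def G : SimpleGraph (Fin 29) where
  Adj u v := (nb u).contains v = true
  symm := ⟨by
    have h : ∀ u v : Fin 29, (nb u).contains v = true → (nb v).contains u = true := by
      decide +kernel
    exact h⟩
  loopless := ⟨by
    have h : ∀ u : Fin 29, ¬ (nb u).contains u = true := by decide +kernel
    exact h⟩

instance : DecidableRel G.Adj := fun u v => inferInstanceAs (Decidable ((nb u).contains v = true))

lemma reg : ∀ u, G.degree u = 6 := by decide +kernel

/-- the distances -/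
def dtab : List ℕ := [
  44212144260192780962533984, 44212144260191524387403460, 41756439884104845769647129,
  24831542988836107677409433, 24864607608657838141408409, 41793692957383835712496793,
  43905116507678958449403033, 43909321354300434204402841, 41756439884104845736092811,
  24831542988836107408974987, 24864607608657835993932939, 41793692957383818532693131,
  43905116507678821010973835, 43909321354299334696969355, 63559689107670308829602898,
  46630587365811362225005202, 44552228435584319746512018, 46634791886528314379674258,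
  44514975051917603902133330, 63592737150318427500749970, 46667689659242848895702162,
  44519004712955594291061394, 63555389722123653091763282, 63511349289084994623939730,
  46582191164410520788079762, 44433506486394834802778706, 21884804770851761967932562,
  19736119934687261718258770, 2807099165297341899543186]

/-- the distances, as a function -/
def T (u v : Fin 29) : ℕ := ((dtab.getD u 0) >>> (3 * v.val)) % 8

lemma T_zero : ∀ u v, T u v = 0 → u = v := by decide +kernel

lemma T_step : ∀ u v, T u v = 0 ∨ ∃ w, G.Adj u w ∧ T w v + 1 = T u v := by decide +kernel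

lemma T_le : ∀ u v, T u v ≤ 4 := by decide +kernel

lemma T_lip : ∀ u w, G.Adj u w → T u 1 ≤ T w 1 + 1 := by decide +kernel

lemma conn_diam : G.Connected ∧ G.diam = 4 := by
  apply diam_eq G T T_zero _ T_le (fun u => T u 1) T_lip (a := 0) (b := 1)
    (by decide +kernel)
  intro u v k hk
  rcases T_step u v with h | ⟨w, hw, h⟩
  · omega
  · exact ⟨w, hw, by omega⟩

lemma nb_eq : ∀ u, G.neighborFinset u = (nb u).toFinset ∧ (nb u).Nodup := by decide +kernel

lemma nb_sum (v : Fin 29 → ℝ) (u : Fin 29) :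
    ∑ b ∈ G.neighborFinset u, v b = ((nb u).map v).sum := by
  rw [(nb_eq u).1, List.sum_toFinset v (nb_eq u).2]

lemma s6 : √(6:ℝ) ^ 2 = 6 := Real.sq_sqrt (by norm_num)

lemma s6_gt : 2.4 < √(6:ℝ) := by
  rw [Real.lt_sqrt (by norm_num)]; norm_num

lemma const_of_eig (v : Fin 29 → ℝ) (x : ℝ)
    (hv : ∀ a, ∑ b ∈ G.neighborFinset a, v b = x * v a) (hx : √6 < x) : ∀ a b, v a = v b := by
  have hx1 : 2.4 < x := lt_trans s6_gt hx
  have hx2 : 6 < x ^ 2 := by nlinarith [s6, s6_gt]
  have hx6 : x ^ 2 - 6 ≠ 0 := by intro h; linarith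
  have hx0 : x ≠ 0 := by intro h; linarith
  have hx3 : x - 2 ≠ 0 := by intro h; linarith
  have hx4 : x ^ 2 + x - 8 ≠ 0 := by intro h; linarith
  have hx5 : x + 1 ≠ 0 := by intro h; linarith
  have hx7 : x ^ 2 + 4 * x - 2 ≠ 0 := by intro h; linarith
  have hL : ∀ u, ((nb u).map v).sum = x * v u := fun u => by rw [← nb_sum, hv]
  have h0 : v 2 + (v 3 + (v 4 + (v 5 + (v 6 + (v 7 + 0))))) = x * v 0 := hL 0
  have h1 : v 8 + (v 9 + (v 10 + (v 11 + (v 12 + (v 13 + 0))))) = x * v 1 := hL 1
  have h2 : v 0 + (v 14 + (v 18 + (v 22 + (v 25 + (v 27 + 0))))) = x * v 2 := hL 2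
  have h3 : v 0 + (v 15 + (v 17 + (v 21 + (v 25 + (v 28 + 0))))) = x * v 3 := hL 3
  have h4 : v 0 + (v 16 + (v 18 + (v 20 + (v 24 + (v 28 + 0))))) = x * v 4 := hL 4
  have h5 : v 0 + (v 16 + (v 19 + (v 21 + (v 23 + (v 27 + 0))))) = x * v 5 := hL 5
  have h6 : v 0 + (v 15 + (v 19 + (v 22 + (v 24 + (v 26 + 0))))) = x * v 6 := hL 6
  have h7 : v 0 + (v 14 + (v 17 + (v 20 + (v 23 + (v 26 + 0))))) = x * v 7 := hL 7
  have h8 : v 1 + (v 14 + (v 18 + (v 22 + (v 25 + (v 27 + 0))))) = x * v 8 := hL 8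
  have h9 : v 1 + (v 15 + (v 17 + (v 21 + (v 25 + (v 28 + 0))))) = x * v 9 := hL 9
  have h10 : v 1 + (v 16 + (v 18 + (v 20 + (v 24 + (v 28 + 0))))) = x * v 10 := hL 10
  have h11 : v 1 + (v 16 + (v 19 + (v 21 + (v 23 + (v 27 + 0))))) = x * v 11 := hL 11
  have h12 : v 1 + (v 15 + (v 19 + (v 22 + (v 24 + (v 26 + 0))))) = x * v 12 := hL 12
  have h13 : v 1 + (v 14 + (v 17 + (v 20 + (v 23 + (v 26 + 0))))) = x * v 13 := hL 13
  have h14 : v 2 + (v 7 + (v 8 + (v 13 + (v 15 + (v 16 + 0))))) = x * v 14 := hL 14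
  have h15 : v 3 + (v 6 + (v 9 + (v 12 + (v 14 + (v 16 + 0))))) = x * v 15 := hL 15
  have h16 : v 4 + (v 5 + (v 10 + (v 11 + (v 14 + (v 15 + 0))))) = x * v 16 := hL 16
  have h17 : v 3 + (v 7 + (v 9 + (v 13 + (v 18 + (v 19 + 0))))) = x * v 17 := hL 17
  have h18 : v 2 + (v 4 + (v 8 + (v 10 + (v 17 + (v 19 + 0))))) = x * v 18 := hL 18
  have h19 : v 5 + (v 6 + (v 11 + (v 12 + (v 17 + (v 18 + 0))))) = x * v 19 := hL 19
  have h20 : v 4 + (v 7 + (v 10 + (v 13 + (v 21 + (v 22 + 0))))) = x * v 20 := hL 20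
  have h21 : v 3 + (v 5 + (v 9 + (v 11 + (v 20 + (v 22 + 0))))) = x * v 21 := hL 21
  have h22 : v 2 + (v 6 + (v 8 + (v 12 + (v 20 + (v 21 + 0))))) = x * v 22 := hL 22
  have h23 : v 5 + (v 7 + (v 11 + (v 13 + (v 24 + (v 25 + 0))))) = x * v 23 := hL 23
  have h24 : v 4 + (v 6 + (v 10 + (v 12 + (v 23 + (v 25 + 0))))) = x * v 24 := hL 24
  have h25 : v 2 + (v 3 + (v 8 + (v 9 + (v 23 + (v 24 + 0))))) = x * v 25 := hL 25
  have h26 : v 6 + (v 7 + (v 12 + (v 13 + (v 27 + (v 28 + 0))))) = x * v 26 := hL 26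
  have h27 : v 2 + (v 5 + (v 8 + (v 11 + (v 26 + (v 28 + 0))))) = x * v 27 := hL 27
  have h28 : v 3 + (v 4 + (v 9 + (v 10 + (v 26 + (v 27 + 0))))) = x * v 28 := hL 28
  have hρ : v 1 = v 0 := by
    have e : (x ^ 2 - 6) * (v 1 - v 0) = 0 := by
      linear_combination x * h0 - x * h1 + h2 + h3 + h4 + h5 + h6 + h7 - h8 - h9 - h10 - h11 - h12 - h13
    exact sub_eq_zero.1 ((mul_eq_zero.1 e).resolve_left hx6)
  have k0 : v 8 = v 2 := by
    have e : x * (v 8 - v 2) = 0 := by linear_combination h2 - h8 + hρ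
    exact sub_eq_zero.1 ((mul_eq_zero.1 e).resolve_left hx0)
  have k1 : v 9 = v 3 := by
    have e : x * (v 9 - v 3) = 0 := by linear_combination h3 - h9 + hρ
    exact sub_eq_zero.1 ((mul_eq_zero.1 e).resolve_left hx0)
  have k2 : v 10 = v 4 := by
    have e : x * (v 10 - v 4) = 0 := by linear_combination h4 - h10 + hρ
    exact sub_eq_zero.1 ((mul_eq_zero.1 e).resolve_left hx0)
  have k3 : v 11 = v 5 := by
    have e : x * (v 11 - v 5) = 0 := by linear_combination h5 - h11 + hρ
    exact sub_eq_zero.1 ((mul_eq_zero.1 e).resolve_left hx0)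
  have k4 : v 12 = v 6 := by
    have e : x * (v 12 - v 6) = 0 := by linear_combination h6 - h12 + hρ
    exact sub_eq_zero.1 ((mul_eq_zero.1 e).resolve_left hx0)
  have k5 : v 13 = v 7 := by
    have e : x * (v 13 - v 7) = 0 := by linear_combination h7 - h13 + hρ
    exact sub_eq_zero.1 ((mul_eq_zero.1 e).resolve_left hx0)
  have t0 : (x - 2) * (v 14 + v 15 + v 16) = 2 * x * v 0 := by
    linear_combination 2 * h0 - h14 - h15 - h16 + k0 + k1 + k2 + k3 + k4 + k5
  have t1 : (x - 2) * (v 17 + v 18 + v 19) = 2 * x * v 0 := by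
    linear_combination 2 * h0 - h17 - h18 - h19 + k0 + k1 + k2 + k3 + k4 + k5
  have t2 : (x - 2) * (v 20 + v 21 + v 22) = 2 * x * v 0 := by
    linear_combination 2 * h0 - h20 - h21 - h22 + k0 + k1 + k2 + k3 + k4 + k5
  have t3 : (x - 2) * (v 23 + v 24 + v 25) = 2 * x * v 0 := by
    linear_combination 2 * h0 - h23 - h24 - h25 + k0 + k1 + k2 + k3 + k4 + k5
  have t4 : (x - 2) * (v 26 + v 27 + v 28) = 2 * x * v 0 := by
    linear_combination 2 * h0 - h26 - h27 - h28 + k0 + k1 + k2 + k3 + k4 + k5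
  set t : ℝ := v 14 + v 15 + v 16 with ht
  have r1 : v 17 + v 18 + v 19 = t := by
    apply mul_left_cancel₀ hx3
    rw [t1, ← t0]
  have r2 : v 20 + v 21 + v 22 = t := by
    apply mul_left_cancel₀ hx3
    rw [t2, ← t0]
  have r3 : v 23 + v 24 + v 25 = t := by
    apply mul_left_cancel₀ hx3
    rw [t3, ← t0]
  have r4 : v 26 + v 27 + v 28 = t := by
    apply mul_left_cancel₀ hx3
    rw [t4, ← t0]
  have w14 : (x + 1) * v 14 = 2 * (v 2 + v 7) + t := by
    linear_combination -1 * h14 + k0 + k5 - ht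
  have w15 : (x + 1) * v 15 = 2 * (v 3 + v 6) + t := by
    linear_combination -1 * h15 + k1 + k4 - ht
  have w16 : (x + 1) * v 16 = 2 * (v 4 + v 5) + t := by
    linear_combination -1 * h16 + k2 + k3 - ht
  have w17 : (x + 1) * v 17 = 2 * (v 3 + v 7) + t := by
    linear_combination -1 * h17 + k1 + k5 + r1
  have w18 : (x + 1) * v 18 = 2 * (v 2 + v 4) + t := by
    linear_combination -1 * h18 + k0 + k2 + r1
  have w19 : (x + 1) * v 19 = 2 * (v 5 + v 6) + t := by
    linear_combination -1 * h19 + k3 + k4 + r1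
  have w20 : (x + 1) * v 20 = 2 * (v 4 + v 7) + t := by
    linear_combination -1 * h20 + k2 + k5 + r2
  have w21 : (x + 1) * v 21 = 2 * (v 3 + v 5) + t := by
    linear_combination -1 * h21 + k1 + k3 + r2
  have w22 : (x + 1) * v 22 = 2 * (v 2 + v 6) + t := by
    linear_combination -1 * h22 + k0 + k4 + r2
  have w23 : (x + 1) * v 23 = 2 * (v 5 + v 7) + t := by
    linear_combination -1 * h23 + k3 + k5 + r3
  have w24 : (x + 1) * v 24 = 2 * (v 4 + v 6) + t := by
    linear_combination -1 * h24 + k2 + k4 + r3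
  have w25 : (x + 1) * v 25 = 2 * (v 2 + v 3) + t := by
    linear_combination -1 * h25 + k0 + k1 + r3
  have w26 : (x + 1) * v 26 = 2 * (v 6 + v 7) + t := by
    linear_combination -1 * h26 + k4 + k5 + r4
  have w27 : (x + 1) * v 27 = 2 * (v 2 + v 5) + t := by
    linear_combination -1 * h27 + k0 + k3 + r4
  have w28 : (x + 1) * v 28 = 2 * (v 3 + v 4) + t := by
    linear_combination -1 * h28 + k1 + k2 + r4
  have a0 : (x ^ 2 + x - 8) * v 2 = (x + 1) * v 0 + 2 * x * v 0 + 5 * t := by
    linear_combination -(x + 1) * h2 + w14 + w18 + w22 + w25 + w27 + 2 * h0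
  have a1 : (x ^ 2 + x - 8) * v 3 = (x + 1) * v 0 + 2 * x * v 0 + 5 * t := by
    linear_combination -(x + 1) * h3 + w15 + w17 + w21 + w25 + w28 + 2 * h0
  have a2 : (x ^ 2 + x - 8) * v 4 = (x + 1) * v 0 + 2 * x * v 0 + 5 * t := by
    linear_combination -(x + 1) * h4 + w16 + w18 + w20 + w24 + w28 + 2 * h0
  have a3 : (x ^ 2 + x - 8) * v 5 = (x + 1) * v 0 + 2 * x * v 0 + 5 * t := by
    linear_combination -(x + 1) * h5 + w16 + w19 + w21 + w23 + w27 + 2 * h0
  have a4 : (x ^ 2 + x - 8) * v 6 = (x + 1) * v 0 + 2 * x * v 0 + 5 * t := by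
    linear_combination -(x + 1) * h6 + w15 + w19 + w22 + w24 + w26 + 2 * h0
  have a5 : (x ^ 2 + x - 8) * v 7 = (x + 1) * v 0 + 2 * x * v 0 + 5 * t := by
    linear_combination -(x + 1) * h7 + w14 + w17 + w20 + w23 + w26 + 2 * h0
  have b1 : v 3 = v 2 := by
    apply mul_left_cancel₀ hx4
    rw [a1, a0]
  have b2 : v 4 = v 2 := by
    apply mul_left_cancel₀ hx4
    rw [a2, a0]
  have b3 : v 5 = v 2 := by
    apply mul_left_cancel₀ hx4
    rw [a3, a0]
  have b4 : v 6 = v 2 := by
    apply mul_left_cancel₀ hx4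
    rw [a4, a0]
  have b5 : v 7 = v 2 := by
    apply mul_left_cancel₀ hx4
    rw [a5, a0]
  have c15 : v 15 = v 14 := by
    apply mul_left_cancel₀ hx5
    linear_combination w15 - w14 + 2 * b1 + 2 * b4 - 2 * b5
  have c16 : v 16 = v 14 := by
    apply mul_left_cancel₀ hx5
    linear_combination w16 - w14 + 2 * b2 + 2 * b3 - 2 * b5
  have c17 : v 17 = v 14 := by
    apply mul_left_cancel₀ hx5
    linear_combination w17 - w14 + 2 * b1 + 2 * b5 - 2 * b5
  have c18 : v 18 = v 14 := by
    apply mul_left_cancel₀ hx5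
    linear_combination w18 - w14 + 2 * b2 - 2 * b5
  have c19 : v 19 = v 14 := by
    apply mul_left_cancel₀ hx5
    linear_combination w19 - w14 + 2 * b3 + 2 * b4 - 2 * b5
  have c20 : v 20 = v 14 := by
    apply mul_left_cancel₀ hx5
    linear_combination w20 - w14 + 2 * b2 + 2 * b5 - 2 * b5
  have c21 : v 21 = v 14 := by
    apply mul_left_cancel₀ hx5
    linear_combination w21 - w14 + 2 * b1 + 2 * b3 - 2 * b5
  have c22 : v 22 = v 14 := by
    apply mul_left_cancel₀ hx5
    linear_combination w22 - w14 + 2 * b4 - 2 * b5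
  have c23 : v 23 = v 14 := by
    apply mul_left_cancel₀ hx5
    linear_combination w23 - w14 + 2 * b3 + 2 * b5 - 2 * b5
  have c24 : v 24 = v 14 := by
    apply mul_left_cancel₀ hx5
    linear_combination w24 - w14 + 2 * b2 + 2 * b4 - 2 * b5
  have c25 : v 25 = v 14 := by
    apply mul_left_cancel₀ hx5
    linear_combination w25 - w14 + 2 * b1 - 2 * b5
  have c26 : v 26 = v 14 := by
    apply mul_left_cancel₀ hx5
    linear_combination w26 - w14 + 2 * b4 + 2 * b5 - 2 * b5
  have c27 : v 27 = v 14 := by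
    apply mul_left_cancel₀ hx5
    linear_combination w27 - w14 + 2 * b3 - 2 * b5
  have c28 : v 28 = v 14 := by
    apply mul_left_cancel₀ hx5
    linear_combination w28 - w14 + 2 * b1 + 2 * b2 - 2 * b5
  have f0 : 6 * v 2 = x * v 0 := by linear_combination h0 - b1 - b2 - b3 - b4 - b5
  have f1 : v 0 + 5 * v 14 = x * v 2 := by linear_combination h2 - c18 - c22 - c25 - c27
  have f2 : 4 * v 2 + 2 * v 14 = x * v 14 := by
    linear_combination h14 - k0 - k5 - 2 * b5 - c15 - c16
  have d1 : (x ^ 2 + 4 * x - 2) * (v 14 - v 2) = 0 := by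
    linear_combination -(x + 1) * f2 + x * f1 + f0
  have d2 : v 14 = v 2 := sub_eq_zero.1 ((mul_eq_zero.1 d1).resolve_left hx7)
  have d3 : v 2 = v 0 := by
    have e : x * (v 0 - v 2) = 0 := by linear_combination -f0 + f2 + (x - 2) * d2
    exact (sub_eq_zero.1 ((mul_eq_zero.1 e).resolve_left hx0)).symm
  have hall : ∀ a : Fin 29, v a = v 0 := by
    intro a
    fin_cases a
    exacts [rfl,
      hρ,
      d3,
      b1.trans d3,
      b2.trans d3,
      b3.trans d3,
      b4.trans d3,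
      b5.trans d3,
      k0.trans d3,
      k1.trans (b1.trans d3),
      k2.trans (b2.trans d3),
      k3.trans (b3.trans d3),
      k4.trans (b4.trans d3),
      k5.trans (b5.trans d3),
      d2.trans d3,
      c15.trans (d2.trans d3),
      c16.trans (d2.trans d3),
      c17.trans (d2.trans d3),
      c18.trans (d2.trans d3),
      c19.trans (d2.trans d3),
      c20.trans (d2.trans d3),
      c21.trans (d2.trans d3),
      c22.trans (d2.trans d3),
      c23.trans (d2.trans d3),
      c24.trans (d2.trans d3),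
      c25.trans (d2.trans d3),
      c26.trans (d2.trans d3),
      c27.trans (d2.trans d3),
      c28.trans (d2.trans d3)]
  intro a b
  rw [hall a, hall b]

/-- the eigenvector -/
noncomputable def vec (a : Fin 29) : ℝ :=
  if a = 0 then √6 else if a = 1 then -√6 else if a.val ≤ 7 then 1 else if a.val ≤ 13 then -1 else 0

lemma vec_eig (a : Fin 29) : ∑ b ∈ G.neighborFinset a, vec b = √6 * vec a := by
  rw [nb_sum]
  have h6 : √(6:ℝ) * √6 = 6 := Real.mul_self_sqrt (by norm_num)
  have e0 : vec 0 = √6 := by simp [vec]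
  have e1 : vec 1 = -√6 := by simp [vec]
  have e2 : vec 2 = 1 := by
    have h1 : ¬ ((2 : Fin 29) = 0) := by decide
    have h2 : ¬ ((2 : Fin 29) = 1) := by decide
    have h3 : (2 : Fin 29).val = 2 := by decide
    unfold vec
    rw [if_neg h1, if_neg h2, h3]; norm_num
  have e3 : vec 3 = 1 := by
    have h1 : ¬ ((3 : Fin 29) = 0) := by decide
    have h2 : ¬ ((3 : Fin 29) = 1) := by decide
    have h3 : (3 : Fin 29).val = 3 := by decide
    unfold vec
    rw [if_neg h1, if_neg h2, h3]; norm_num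
  have e4 : vec 4 = 1 := by
    have h1 : ¬ ((4 : Fin 29) = 0) := by decide
    have h2 : ¬ ((4 : Fin 29) = 1) := by decide
    have h3 : (4 : Fin 29).val = 4 := by decide
    unfold vec
    rw [if_neg h1, if_neg h2, h3]; norm_num
  have e5 : vec 5 = 1 := by
    have h1 : ¬ ((5 : Fin 29) = 0) := by decide
    have h2 : ¬ ((5 : Fin 29) = 1) := by decide
    have h3 : (5 : Fin 29).val = 5 := by decide
    unfold vec
    rw [if_neg h1, if_neg h2, h3]; norm_num
  have e6 : vec 6 = 1 := by
    have h1 : ¬ ((6 : Fin 29) = 0) := by decide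
    have h2 : ¬ ((6 : Fin 29) = 1) := by decide
    have h3 : (6 : Fin 29).val = 6 := by decide
    unfold vec
    rw [if_neg h1, if_neg h2, h3]; norm_num
  have e7 : vec 7 = 1 := by
    have h1 : ¬ ((7 : Fin 29) = 0) := by decide
    have h2 : ¬ ((7 : Fin 29) = 1) := by decide
    have h3 : (7 : Fin 29).val = 7 := by decide
    unfold vec
    rw [if_neg h1, if_neg h2, h3]; norm_num
  have e8 : vec 8 = -1 := by
    have h1 : ¬ ((8 : Fin 29) = 0) := by decide
    have h2 : ¬ ((8 : Fin 29) = 1) := by decide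
    have h3 : (8 : Fin 29).val = 8 := by decide
    unfold vec
    rw [if_neg h1, if_neg h2, h3]; norm_num
  have e9 : vec 9 = -1 := by
    have h1 : ¬ ((9 : Fin 29) = 0) := by decide
    have h2 : ¬ ((9 : Fin 29) = 1) := by decide
    have h3 : (9 : Fin 29).val = 9 := by decide
    unfold vec
    rw [if_neg h1, if_neg h2, h3]; norm_num
  have e10 : vec 10 = -1 := by
    have h1 : ¬ ((10 : Fin 29) = 0) := by decide
    have h2 : ¬ ((10 : Fin 29) = 1) := by decide
    have h3 : (10 : Fin 29).val = 10 := by decide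
    unfold vec
    rw [if_neg h1, if_neg h2, h3]; norm_num
  have e11 : vec 11 = -1 := by
    have h1 : ¬ ((11 : Fin 29) = 0) := by decide
    have h2 : ¬ ((11 : Fin 29) = 1) := by decide
    have h3 : (11 : Fin 29).val = 11 := by decide
    unfold vec
    rw [if_neg h1, if_neg h2, h3]; norm_num
  have e12 : vec 12 = -1 := by
    have h1 : ¬ ((12 : Fin 29) = 0) := by decide
    have h2 : ¬ ((12 : Fin 29) = 1) := by decide
    have h3 : (12 : Fin 29).val = 12 := by decide
    unfold vec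
    rw [if_neg h1, if_neg h2, h3]; norm_num
  have e13 : vec 13 = -1 := by
    have h1 : ¬ ((13 : Fin 29) = 0) := by decide
    have h2 : ¬ ((13 : Fin 29) = 1) := by decide
    have h3 : (13 : Fin 29).val = 13 := by decide
    unfold vec
    rw [if_neg h1, if_neg h2, h3]; norm_num
  have e14 : vec 14 = 0 := by
    have h1 : ¬ ((14 : Fin 29) = 0) := by decide
    have h2 : ¬ ((14 : Fin 29) = 1) := by decide
    have h3 : (14 : Fin 29).val = 14 := by decide
    unfold vec
    rw [if_neg h1, if_neg h2, h3]; norm_num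
  have e15 : vec 15 = 0 := by
    have h1 : ¬ ((15 : Fin 29) = 0) := by decide
    have h2 : ¬ ((15 : Fin 29) = 1) := by decide
    have h3 : (15 : Fin 29).val = 15 := by decide
    unfold vec
    rw [if_neg h1, if_neg h2, h3]; norm_num
  have e16 : vec 16 = 0 := by
    have h1 : ¬ ((16 : Fin 29) = 0) := by decide
    have h2 : ¬ ((16 : Fin 29) = 1) := by decide
    have h3 : (16 : Fin 29).val = 16 := by decide
    unfold vec
    rw [if_neg h1, if_neg h2, h3]; norm_num
  have e17 : vec 17 = 0 := by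
    have h1 : ¬ ((17 : Fin 29) = 0) := by decide
    have h2 : ¬ ((17 : Fin 29) = 1) := by decide
    have h3 : (17 : Fin 29).val = 17 := by decide
    unfold vec
    rw [if_neg h1, if_neg h2, h3]; norm_num
  have e18 : vec 18 = 0 := by
    have h1 : ¬ ((18 : Fin 29) = 0) := by decide
    have h2 : ¬ ((18 : Fin 29) = 1) := by decide
    have h3 : (18 : Fin 29).val = 18 := by decide
    unfold vec
    rw [if_neg h1, if_neg h2, h3]; norm_num
  have e19 : vec 19 = 0 := by
    have h1 : ¬ ((19 : Fin 29) = 0) := by decide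
    have h2 : ¬ ((19 : Fin 29) = 1) := by decide
    have h3 : (19 : Fin 29).val = 19 := by decide
    unfold vec
    rw [if_neg h1, if_neg h2, h3]; norm_num
  have e20 : vec 20 = 0 := by
    have h1 : ¬ ((20 : Fin 29) = 0) := by decide
    have h2 : ¬ ((20 : Fin 29) = 1) := by decide
    have h3 : (20 : Fin 29).val = 20 := by decide
    unfold vec
    rw [if_neg h1, if_neg h2, h3]; norm_num
  have e21 : vec 21 = 0 := by
    have h1 : ¬ ((21 : Fin 29) = 0) := by decide
    have h2 : ¬ ((21 : Fin 29) = 1) := by decide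
    have h3 : (21 : Fin 29).val = 21 := by decide
    unfold vec
    rw [if_neg h1, if_neg h2, h3]; norm_num
  have e22 : vec 22 = 0 := by
    have h1 : ¬ ((22 : Fin 29) = 0) := by decide
    have h2 : ¬ ((22 : Fin 29) = 1) := by decide
    have h3 : (22 : Fin 29).val = 22 := by decide
    unfold vec
    rw [if_neg h1, if_neg h2, h3]; norm_num
  have e23 : vec 23 = 0 := by
    have h1 : ¬ ((23 : Fin 29) = 0) := by decide
    have h2 : ¬ ((23 : Fin 29) = 1) := by decide
    have h3 : (23 : Fin 29).val = 23 := by decide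
    unfold vec
    rw [if_neg h1, if_neg h2, h3]; norm_num
  have e24 : vec 24 = 0 := by
    have h1 : ¬ ((24 : Fin 29) = 0) := by decide
    have h2 : ¬ ((24 : Fin 29) = 1) := by decide
    have h3 : (24 : Fin 29).val = 24 := by decide
    unfold vec
    rw [if_neg h1, if_neg h2, h3]; norm_num
  have e25 : vec 25 = 0 := by
    have h1 : ¬ ((25 : Fin 29) = 0) := by decide
    have h2 : ¬ ((25 : Fin 29) = 1) := by decide
    have h3 : (25 : Fin 29).val = 25 := by decide
    unfold vec
    rw [if_neg h1, if_neg h2, h3]; norm_num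
  have e26 : vec 26 = 0 := by
    have h1 : ¬ ((26 : Fin 29) = 0) := by decide
    have h2 : ¬ ((26 : Fin 29) = 1) := by decide
    have h3 : (26 : Fin 29).val = 26 := by decide
    unfold vec
    rw [if_neg h1, if_neg h2, h3]; norm_num
  have e27 : vec 27 = 0 := by
    have h1 : ¬ ((27 : Fin 29) = 0) := by decide
    have h2 : ¬ ((27 : Fin 29) = 1) := by decide
    have h3 : (27 : Fin 29).val = 27 := by decide
    unfold vec
    rw [if_neg h1, if_neg h2, h3]; norm_num
  have e28 : vec 28 = 0 := by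
    have h1 : ¬ ((28 : Fin 29) = 0) := by decide
    have h2 : ¬ ((28 : Fin 29) = 1) := by decide
    have h3 : (28 : Fin 29).val = 28 := by decide
    unfold vec
    rw [if_neg h1, if_neg h2, h3]; norm_num
  fin_cases a
  · show vec 2 + (vec 3 + (vec 4 + (vec 5 + (vec 6 + (vec 7 + 0))))) = √6 * vec 0
    simp only [e0, e2, e3, e4, e5, e6, e7]
    linarith
  · show vec 8 + (vec 9 + (vec 10 + (vec 11 + (vec 12 + (vec 13 + 0))))) = √6 * vec 1
    simp only [e1, e8, e9, e10, e11, e12, e13]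
    linarith
  · show vec 0 + (vec 14 + (vec 18 + (vec 22 + (vec 25 + (vec 27 + 0))))) = √6 * vec 2
    simp only [e0, e2, e14, e18, e22, e25, e27]
    linarith
  · show vec 0 + (vec 15 + (vec 17 + (vec 21 + (vec 25 + (vec 28 + 0))))) = √6 * vec 3
    simp only [e0, e3, e15, e17, e21, e25, e28]
    linarith
  · show vec 0 + (vec 16 + (vec 18 + (vec 20 + (vec 24 + (vec 28 + 0))))) = √6 * vec 4
    simp only [e0, e4, e16, e18, e20, e24, e28]
    linarith
  · show vec 0 + (vec 16 + (vec 19 + (vec 21 + (vec 23 + (vec 27 + 0))))) = √6 * vec 5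
    simp only [e0, e5, e16, e19, e21, e23, e27]
    linarith
  · show vec 0 + (vec 15 + (vec 19 + (vec 22 + (vec 24 + (vec 26 + 0))))) = √6 * vec 6
    simp only [e0, e6, e15, e19, e22, e24, e26]
    linarith
  · show vec 0 + (vec 14 + (vec 17 + (vec 20 + (vec 23 + (vec 26 + 0))))) = √6 * vec 7
    simp only [e0, e7, e14, e17, e20, e23, e26]
    linarith
  · show vec 1 + (vec 14 + (vec 18 + (vec 22 + (vec 25 + (vec 27 + 0))))) = √6 * vec 8
    simp only [e1, e8, e14, e18, e22, e25, e27]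
    linarith
  · show vec 1 + (vec 15 + (vec 17 + (vec 21 + (vec 25 + (vec 28 + 0))))) = √6 * vec 9
    simp only [e1, e9, e15, e17, e21, e25, e28]
    linarith
  · show vec 1 + (vec 16 + (vec 18 + (vec 20 + (vec 24 + (vec 28 + 0))))) = √6 * vec 10
    simp only [e1, e10, e16, e18, e20, e24, e28]
    linarith
  · show vec 1 + (vec 16 + (vec 19 + (vec 21 + (vec 23 + (vec 27 + 0))))) = √6 * vec 11
    simp only [e1, e11, e16, e19, e21, e23, e27]
    linarith
  · show vec 1 + (vec 15 + (vec 19 + (vec 22 + (vec 24 + (vec 26 + 0))))) = √6 * vec 12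
    simp only [e1, e12, e15, e19, e22, e24, e26]
    linarith
  · show vec 1 + (vec 14 + (vec 17 + (vec 20 + (vec 23 + (vec 26 + 0))))) = √6 * vec 13
    simp only [e1, e13, e14, e17, e20, e23, e26]
    linarith
  · show vec 2 + (vec 7 + (vec 8 + (vec 13 + (vec 15 + (vec 16 + 0))))) = √6 * vec 14
    simp only [e2, e7, e8, e13, e14, e15, e16]
    linarith
  · show vec 3 + (vec 6 + (vec 9 + (vec 12 + (vec 14 + (vec 16 + 0))))) = √6 * vec 15
    simp only [e3, e6, e9, e12, e14, e15, e16]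
    linarith
  · show vec 4 + (vec 5 + (vec 10 + (vec 11 + (vec 14 + (vec 15 + 0))))) = √6 * vec 16
    simp only [e4, e5, e10, e11, e14, e15, e16]
    linarith
  · show vec 3 + (vec 7 + (vec 9 + (vec 13 + (vec 18 + (vec 19 + 0))))) = √6 * vec 17
    simp only [e3, e7, e9, e13, e17, e18, e19]
    linarith
  · show vec 2 + (vec 4 + (vec 8 + (vec 10 + (vec 17 + (vec 19 + 0))))) = √6 * vec 18
    simp only [e2, e4, e8, e10, e17, e18, e19]
    linarith
  · show vec 5 + (vec 6 + (vec 11 + (vec 12 + (vec 17 + (vec 18 + 0))))) = √6 * vec 19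
    simp only [e5, e6, e11, e12, e17, e18, e19]
    linarith
  · show vec 4 + (vec 7 + (vec 10 + (vec 13 + (vec 21 + (vec 22 + 0))))) = √6 * vec 20
    simp only [e4, e7, e10, e13, e20, e21, e22]
    linarith
  · show vec 3 + (vec 5 + (vec 9 + (vec 11 + (vec 20 + (vec 22 + 0))))) = √6 * vec 21
    simp only [e3, e5, e9, e11, e20, e21, e22]
    linarith
  · show vec 2 + (vec 6 + (vec 8 + (vec 12 + (vec 20 + (vec 21 + 0))))) = √6 * vec 22
    simp only [e2, e6, e8, e12, e20, e21, e22]
    linarith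
  · show vec 5 + (vec 7 + (vec 11 + (vec 13 + (vec 24 + (vec 25 + 0))))) = √6 * vec 23
    simp only [e5, e7, e11, e13, e23, e24, e25]
    linarith
  · show vec 4 + (vec 6 + (vec 10 + (vec 12 + (vec 23 + (vec 25 + 0))))) = √6 * vec 24
    simp only [e4, e6, e10, e12, e23, e24, e25]
    linarith
  · show vec 2 + (vec 3 + (vec 8 + (vec 9 + (vec 23 + (vec 24 + 0))))) = √6 * vec 25
    simp only [e2, e3, e8, e9, e23, e24, e25]
    linarith
  · show vec 6 + (vec 7 + (vec 12 + (vec 13 + (vec 27 + (vec 28 + 0))))) = √6 * vec 26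
    simp only [e6, e7, e12, e13, e26, e27, e28]
    linarith
  · show vec 2 + (vec 5 + (vec 8 + (vec 11 + (vec 26 + (vec 28 + 0))))) = √6 * vec 27
    simp only [e2, e5, e8, e11, e26, e27, e28]
    linarith
  · show vec 3 + (vec 4 + (vec 9 + (vec 10 + (vec 26 + (vec 27 + 0))))) = √6 * vec 28
    simp only [e3, e4, e9, e10, e26, e27, e28]
    linarith

lemma vec_sum : ∑ a, vec a = 0 := by
  have h : ∀ a : Fin 29, vec a = √6 * ((if a = 0 then 1 else 0) - (if a = 1 then 1 else 0)) +
      (((if 2 ≤ a.val ∧ a.val ≤ 7 then 1 else 0) -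
        (if 8 ≤ a.val ∧ a.val ≤ 13 then 1 else 0) : ℤ) : ℝ) := by
    intro a
    unfold vec
    by_cases h0 : a = 0
    · subst h0; simp
    · by_cases h1 : a = 1
      · subst h1; simp
      · have h2 : 2 ≤ a.val := by
          have : a.val ≠ 0 := fun h => h0 (Fin.ext h)
          have : a.val ≠ 1 := fun h => h1 (Fin.ext h)
          omega
        by_cases h7 : a.val ≤ 7
        · have h8 : ¬ 8 ≤ a.val := by omega
          simp [h0, h1, h2, h7, h8]
        · have h8 : 8 ≤ a.val := by omega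
          by_cases h13 : a.val ≤ 13
          · simp [h0, h1, h7, h8, h13]
          · simp [h0, h1, h7, h13]
  have h2 : (∑ a : Fin 29, ((if 2 ≤ a.val ∧ a.val ≤ 7 then 1 else 0) -
        (if 8 ≤ a.val ∧ a.val ≤ 13 then 1 else 0) : ℤ)) = 0 := by decide +kernel
  simp only [h, Finset.sum_add_distrib, ← Finset.mul_sum, Finset.sum_sub_distrib,
    Finset.sum_ite_eq', Finset.mem_univ, if_true, sub_self, mul_zero, zero_add]
  rw [← Int.cast_sum, h2]
  simp

lemma lam2_G : lam2 G = 6 - √6 := by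
  have h := lam2_eq G (d := 6) reg (by simp) (μ := √6) vec ?_ vec_sum vec_eig const_of_eig
  · exact_mod_cast h
  · intro h
    have := congrFun h 2
    simp [vec] at this

lemma s5_pos : 0 < √(5:ℝ) := Real.sqrt_pos.2 (by norm_num)

/-- the angle -/
noncomputable def theta : ℝ := Real.arccos (√(3 / 10))

lemma s310 : √(3 / 10 : ℝ) ^ 2 = 3 / 10 := Real.sq_sqrt (by norm_num)

lemma s310_pos : 0 < √(3 / 10 : ℝ) := Real.sqrt_pos.2 (by norm_num)

lemma s310_lt : √(3 / 10 : ℝ) < 1 := by
  rw [Real.sqrt_lt' (by norm_num)]; norm_num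

lemma cos_theta : Real.cos theta = √(3 / 10) :=
  Real.cos_arccos (by linarith [s310_pos]) s310_lt.le

lemma theta_pos : 0 < theta := by
  unfold theta
  rw [Real.arccos_pos]
  exact s310_lt

lemma theta_lt : theta < Real.pi / 2 := by
  unfold theta
  rw [Real.arccos_lt_pi_div_two]
  exact s310_pos

lemma eqn_iff {φ : ℝ} (h0 : 0 < φ) (h1 : φ < Real.pi / 2) : Eqn 6 4 φ ↔
    (Real.cos (2 * φ) ≠ 0 ∧ Real.cos φ ^ 2 = 3 / 10) := by
  have hc : 0 < Real.cos φ := Real.cos_pos_of_mem_Ioo ⟨by linarith, h1⟩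
  have hs : 0 < Real.sin φ := Real.sin_pos_of_pos_of_lt_pi h0 (by linarith)
  have hev : Even 4 := by decide
  have h3 : (((4 + 1) / 2 : ℕ) : ℝ) = 2 := by norm_num
  have h4 : ((6 : ℕ) : ℝ) / (((6 : ℕ) : ℝ) - 2) = 3 / 2 := by norm_num
  unfold Eqn
  rw [if_pos hev, h3, h4]
  have e2 := Real.cos_two_mul φ
  have e3 := Real.sin_two_mul φ
  constructor
  · rintro ⟨hc2, -, htan⟩
    refine ⟨hc2, ?_⟩
    rw [Real.tan_eq_sin_div_cos, Real.tan_eq_sin_div_cos, div_eq_iff hc2, e3, e2] at htan
    have hz : Real.sin φ * (Real.cos φ ^ 2 - 3 / 10) = 0 := by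
      have h5 : 2 * Real.sin φ * Real.cos φ * Real.cos φ =
          -(3 / 2) * Real.sin φ * (2 * Real.cos φ ^ 2 - 1) := by
        rw [htan]
        field_simp
      linear_combination h5 / 5
    rcases mul_eq_zero.1 hz with h | h
    · exact absurd h hs.ne'
    · linarith
  · rintro ⟨hc2, hz⟩
    refine ⟨hc2, hc.ne', ?_⟩
    rw [Real.tan_eq_sin_div_cos, Real.tan_eq_sin_div_cos, div_eq_iff hc2, e3, e2]
    have h5 : 2 * Real.sin φ * Real.cos φ * Real.cos φ =
          -(3 / 2) * Real.sin φ * (2 * Real.cos φ ^ 2 - 1) := by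
      linear_combination (5 * Real.sin φ) * hz
    field_simp
    linear_combination 10 * hz

lemma isLeast_theta : IsLeast {θ : ℝ | 0 < θ ∧ Eqn 6 4 θ} theta := by
  constructor
  · refine ⟨theta_pos, (eqn_iff theta_pos theta_lt).2 ⟨?_, ?_⟩⟩
    · rw [Real.cos_two_mul, cos_theta, s310]
      norm_num
    · rw [cos_theta, s310]
  · rintro φ ⟨h0, h1⟩
    by_contra hlt
    push Not at hlt
    have h2 := ((eqn_iff h0 (lt_trans hlt theta_lt)).1 h1).2
    have h3 : Real.cos theta < Real.cos φ :=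
      Real.cos_lt_cos_of_nonneg_of_le_pi h0.le (by linarith [theta_lt, Real.pi_pos]) hlt
    rw [cos_theta] at h3
    nlinarith [s310, s310_pos]

lemma diameterMaximal : DiameterMaximal G 6 4 := by
  refine ⟨conn_diam.1, reg, conn_diam.2, theta, isLeast_theta, ?_⟩
  rw [lam2_G, cos_theta]
  have h4 : ((6 : ℕ) : ℝ) - 1 = 5 := by norm_num
  have h5 : ((6 : ℕ) : ℝ) = 6 := by norm_num
  rw [h4, h5, mul_assoc, ← Real.sqrt_mul (by norm_num : (0:ℝ) ≤ 5)]
  have h6 : (2:ℝ) * √(5 * (3 / 10)) = √6 := by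
    conv_rhs => rw [show (6:ℝ) = 2 ^ 2 * (5 * (3 / 10)) by norm_num,
      Real.sqrt_mul (by norm_num : (0:ℝ) ≤ 2 ^ 2), Real.sqrt_sq (by norm_num : (0:ℝ) ≤ 2)]
  rw [h6]

end Pool.Agent.Q104.DiamEven
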