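import Pool.Agent.Q104.Lam2

/-!
# Diameter-maximal regular graphs: the bound `B(d, D)` and tools for explicit graphs
-/

set_option autoImplicit false

namespace Pool.Agent.Q104.DiamMax

open Matrix Finset Q104.Spec Q104.Lam2

/-- The equation whose smallest positive root is `θ(d, D)`; here `K = ⌊(D + 1) / 2⌋`, so that
`D = 2 K` or `D = 2 K - 1`.  Both sides are required to be defined. -/
def Eqn (d D : ℕ) (θ : ℝ) : Prop :=
  Real.cos (((D + 1) / 2 : ℕ) * θ) ≠ 0 ∧
  if Even D then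
    Real.cos θ ≠ 0 ∧
    Real.tan (((D + 1) / 2 : ℕ) * θ) = -((d : ℝ) / ((d : ℝ) - 2)) * Real.tan θ
  else
    √((d : ℝ) - 1) * ((d : ℝ) - 2 * Real.cos θ ^ 2) + ((d : ℝ) - 2) * Real.cos θ ≠ 0 ∧
    Real.tan (((D + 1) / 2 : ℕ) * θ) =
      -(((2 * √((d : ℝ) - 1) * Real.cos θ + d) * Real.sin θ) /
        (√((d : ℝ) - 1) * ((d : ℝ) - 2 * Real.cos θ ^ 2) + ((d : ℝ) - 2) * Real.cos θ))

/-- `G` is a diameter-maximal `d`-regular graph of diameter `D`: its algebraic connectivity (the
second smallest Laplacian eigenvalue) is `d - 2 √(d - 1) cos θ` for the smallest positive root `θ`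
of the equation. -/
def DiameterMaximal {V : Type} [Fintype V] [DecidableEq V] (G : SimpleGraph V)
    [DecidableRel G.Adj] (d D : ℕ) : Prop :=
  G.Connected ∧ G.IsRegularOfDegree d ∧ G.diam = D ∧
    ∃ θ : ℝ, IsLeast {θ : ℝ | 0 < θ ∧ Eqn d D θ} θ ∧
      lam2 G = (d : ℝ) - 2 * √((d : ℝ) - 1) * Real.cos θ

section
variable {V : Type} [Fintype V] [DecidableEq V] (G : SimpleGraph V) [DecidableRel G.Adj]

lemma lam2_ge {t : ℝ} (hcard : 2 ≤ Fintype.card V)
    (h : ∀ (v : V → ℝ) (x : ℝ), (∀ a, (G.lapMatrix ℝ *ᵥ v) a = x * v a) → x < t →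
      ∀ a b, v a = v b) : t ≤ lam2 G := by
  classical
  set hA := G.isHermitian_lapMatrix ℝ with hAd
  apply le_csInf
  · obtain ⟨v0⟩ : Nonempty V := Fintype.card_pos_iff.1 (by omega)
    refine ⟨(univ.sup' ⟨v0, mem_univ _⟩ hA.eigenvalues), ?_⟩
    have : (univ.filter fun i => hA.eigenvalues i ≤ univ.sup' ⟨v0, mem_univ _⟩ hA.eigenvalues)
        = univ := by
      ext i
      simp only [mem_filter, mem_univ, true_and, iff_true]
      exact Finset.le_sup' _ (mem_univ i)
    show 2 ≤ (univ.filter fun i => hA.eigenvalues i ≤ _).card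
    rw [this, Finset.card_univ]
    exact hcard
  · intro s hs
    by_contra hlt
    push Not at hlt
    have hs' : 1 < (univ.filter fun i => hA.eigenvalues i ≤ s).card := hs
    obtain ⟨i, hi, j, hj, hij⟩ := Finset.one_lt_card.1 hs'
    have hc : ∀ k, hA.eigenvalues k ≤ s → ∀ a b, ev hA k a = ev hA k b := by
      intro k hk
      apply h (ev hA k) (hA.eigenvalues k) _ (lt_of_le_of_lt hk hlt)
      intro a
      have := congrFun (mulVec_ev hA k) a
      simpa using this
    have hi' := hc i (mem_filter.1 hi).2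
    have hj' := hc j (mem_filter.1 hj).2
    have h1 := ev_dot hA i j
    have h2 := ev_dot hA i i
    have h3 := ev_dot hA j j
    rw [if_neg hij] at h1
    rw [if_pos rfl] at h2 h3
    obtain ⟨v0⟩ : Nonempty V := Fintype.card_pos_iff.1 (by omega)
    have e1 : ∀ a, ev hA i a = ev hA i v0 := fun a => hi' a v0
    have e2 : ∀ a, ev hA j a = ev hA j v0 := fun a => hj' a v0
    simp only [dotProduct, e1, e2, Finset.sum_const, Finset.card_univ, nsmul_eq_mul] at h1 h2 h3
    have hn : (Fintype.card V : ℝ) ≠ 0 := by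
      have : (0 : ℝ) < Fintype.card V := by exact_mod_cast (by omega : 0 < Fintype.card V)
      exact this.ne'
    rcases mul_eq_zero.1 h1 with h | h
    · exact hn h
    · rcases mul_eq_zero.1 h with h | h
      · rw [h] at h2; simp at h2
      · rw [h] at h3; simp at h3

/-- the algebraic connectivity of a regular graph from the eigenvalues of its adjacency matrix -/
lemma lam2_eq {d : ℕ} (hd : G.IsRegularOfDegree d) (hcard : 2 ≤ Fintype.card V) {μ : ℝ}
    (f : V → ℝ) (hf : f ≠ 0) (hf0 : ∑ a, f a = 0)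
    (hfμ : ∀ a, ∑ b ∈ G.neighborFinset a, f b = μ * f a)
    (h : ∀ (v : V → ℝ) (x : ℝ), (∀ a, ∑ b ∈ G.neighborFinset a, v b = x * v a) → μ < x →
      ∀ a b, v a = v b) : lam2 G = d - μ := by
  have hlap : ∀ (v : V → ℝ) (a : V), (G.lapMatrix ℝ *ᵥ v) a =
      d * v a - ∑ b ∈ G.neighborFinset a, v b := by
    intro v a
    rw [SimpleGraph.lapMatrix_mulVec_apply, hd a]
  apply le_antisymm
  · have h1 := lam2_le G hf hf0
    rw [← lap_quad] at h1
    have h2 : f ⬝ᵥ (G.lapMatrix ℝ *ᵥ f) = (d - μ) * ∑ x, f x ^ 2 := by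
      simp only [dotProduct, hlap, hfμ, Finset.mul_sum]
      exact Finset.sum_congr rfl fun x _ => by ring
    rw [h2] at h1
    have hpos : 0 < ∑ x, f x ^ 2 := by
      obtain ⟨x, hx⟩ := Function.ne_iff.1 hf
      exact Finset.sum_pos' (fun _ _ => sq_nonneg _) ⟨x, Finset.mem_univ x, by
        have : f x ≠ 0 := hx
        positivity⟩
    exact le_of_mul_le_mul_right h1 hpos
  · apply lam2_ge G hcard
    intro v x hv hx
    apply h v (d - x) _ (by linarith)
    intro a
    have := hv a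
    rw [hlap] at this
    linarith

/-- a certified upper bound for all distances -/
lemma dist_le_of_table (T : V → V → ℕ) (h0 : ∀ u v, T u v = 0 → u = v)
    (hs : ∀ u v k, T u v = k + 1 → ∃ w, G.Adj u w ∧ T w v = k) :
    ∀ k u v, T u v = k → ∃ p : G.Walk u v, p.length = k := by
  intro k
  induction k with
  | zero =>
    intro u v h
    obtain rfl := h0 u v h
    exact ⟨SimpleGraph.Walk.nil, rfl⟩
  | succ k ih =>
    intro u v h
    obtain ⟨w, hw, hw2⟩ := hs u v k h
    obtain ⟨p, hp⟩ := ih w v hw2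
    exact ⟨SimpleGraph.Walk.cons hw p, by simp [hp]⟩

lemma level_le (ℓ : V → ℕ) (hℓ : ∀ u w, G.Adj u w → ℓ u ≤ ℓ w + 1) {u v : V}
    (p : G.Walk u v) : ℓ u ≤ ℓ v + p.length := by
  induction p with
  | nil => simp
  | cons h p ih =>
    rw [SimpleGraph.Walk.length_cons]
    have := hℓ _ _ h
    omega

lemma diam_eq [Nonempty V] {D : ℕ} (T : V → V → ℕ) (h0 : ∀ u v, T u v = 0 → u = v)
    (hs : ∀ u v k, T u v = k + 1 → ∃ w, G.Adj u w ∧ T w v = k) (hT : ∀ u v, T u v ≤ D)
    (ℓ : V → ℕ) (hℓ : ∀ u w, G.Adj u w → ℓ u ≤ ℓ w + 1) {a b : V} (hab : ℓ b + D ≤ ℓ a) :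
    G.Connected ∧ G.diam = D := by
  have hconn : G.Connected := by
    rw [SimpleGraph.connected_iff]
    refine ⟨fun u v => ?_, inferInstance⟩
    obtain ⟨p, -⟩ := dist_le_of_table G T h0 hs _ u v rfl
    exact ⟨p⟩
  refine ⟨hconn, ?_⟩
  have hle : G.ediam ≤ D := by
    rw [SimpleGraph.ediam_le_iff]
    intro u v
    obtain ⟨p, hp⟩ := dist_le_of_table G T h0 hs _ u v rfl
    have h1 := SimpleGraph.Walk.edist_le p
    rw [hp] at h1
    exact h1.trans (by exact_mod_cast hT u v)
  have hne : G.ediam ≠ ⊤ := fun h => by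
    rw [h] at hle
    exact absurd hle (by simp)
  apply le_antisymm
  · have := ENat.toNat_le_toNat hle (by simp)
    simpa [SimpleGraph.diam] using this
  · have h1 := SimpleGraph.dist_le_diam hne (u := a) (v := b)
    obtain ⟨p, hp⟩ := hconn.exists_walk_length_eq_dist a b
    have h2 := level_le G ℓ hℓ p
    omega

end

end Pool.Agent.Q104.DiamMax
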