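import Pool.Agent.Q104.DiamMax

/-!
# A diameter-maximal 4-regular graph of diameter 5 and girth 4

It is bipartite with classes of 17 vertices; `rows` lists, as binary numbers, the neighbours of the
vertices of the first class.
-/

set_option autoImplicit false

namespace Pool.Agent.Q104.DiamOdd

open Matrix Finset Pool.Agent.Q104.DiamMax Pool.Agent.Q104.Lam2

/-- the neighbourhoods of the vertices of the first class, as binary numbers -/
def rows : List ℕ := [30, 225, 1793, 14337, 114689, 67842, 16578, 41986, 22532, 33092, 66084, 36904,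
  17928, 73864, 5200, 2704, 8496]

/-- the incidences -/
def inc (x y : Fin 17) : Bool := (rows.getD x 0).testBit y

/-- adjacency -/
def adj : Fin 17 ⊕ Fin 17 → Fin 17 ⊕ Fin 17 → Bool
  | .inl x, .inr y => inc x y
  | .inr y, .inl x => inc x y
  | _, _ => false

/-- the bipartite graph -/
def G : SimpleGraph (Fin 17 ⊕ Fin 17) where
  Adj u v := adj u v = true
  symm := ⟨by
    intro u v h
    rcases u with x | x <;> rcases v with y | y <;> exact h⟩
  loopless := ⟨by
    intro u h
    rcases u with x | x <;> cases h⟩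

instance : DecidableRel G.Adj := fun u v => inferInstanceAs (Decidable (adj u v = true))

/-- the biadjacency matrix -/
def N (x y : Fin 17) : ℤ := if inc x y then 1 else 0

/-- the matrix given by the digits of a list -/
def tab (l : List ℕ) (x y : Fin 17) : ℤ :=
  (((l.getD x 0) >>> (6 * y.val)) % 64 : ℕ)

/-- `N Nᵀ` -/
def S : Fin 17 → Fin 17 → ℤ := tab [80485752395443136602948239364,
  80485747673076367927942582528, 80485454812567457976782438464, 80485747671905999236461760576,
  307028779584667777241152, 80466404786175843374907789313, 1257589806238901416134443137,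
  79247812355004566542622134273, 1257287649724735379011534849, 79247505402390412996655452225,
  80466409585788062583224275009, 79247812577518685142787555393, 1257604048260233218773491713,
  80467316276675717634564816961, 80543478602176813640360136769, 84199572439494282336251678785,
  318170235215869384970238955585]

/-- `S²` -/
def S2 : Fin 17 → Fin 17 → ℤ := tab [1287772038327090185647325221468,
  1287772009917949675729143527305, 1287770248107451616621118743497, 1287771707754412171918105441225,
  724373920760445322100977239049, 1287636609784585615842304127632, 733174895555233667914295453008,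
  1279106458044020437048880857744, 733173082614976895968789963408, 1279104314097925192211359134736,
  1287636638649128092561538876368, 1279106454215169755971730842576, 733174664535020334774340899472,
  1287640260690257918558329414672, 1288002036456201418308050813968, 1302627318281879783306357179408,
  2238509955441694885876464682000]

lemma hS : ∀ i j : Fin 17, (∑ k : Fin 17, N i k * N j k : ℤ) = (S i j : ℤ) := by decide +kernel

lemma hS2 : ∀ i j : Fin 17, (∑ k : Fin 17, S i k * S k j : ℤ) = (S2 i j : ℤ) := by decide +kernel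

lemma hP : ∀ i j, ∑ k, (S2 i k - 7 * S i k + 9 * (if i = k then 1 else 0)) *
    (S2 k j - 5 * S k j + (if k = j then 1 else 0)) = 1593 := by decide +kernel

lemma reg : ∀ u, G.degree u = 4 := by decide +kernel

lemma hrow : ∀ i : Fin 17, (∑ k : Fin 17, N i k : ℤ) = 4 := by decide +kernel

lemma hcol : ∀ j : Fin 17, (∑ k : Fin 17, N k j : ℤ) = 4 := by decide +kernel

/-- the distances -/
def dtab : List ℕ := [2173115314655892023937908427040, 2173115303904061324085846221956,
  2173109798952907872365863576596, 2170291263962340089382489366676, 727201348810083088101070668948,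
  905425953264607551203450561698, 2153308263423038229911548537106, 2012178273866550513914692052130,
  2152960103412061602666957579554, 2014658912909692186004826957970, 905464109837962983611206543506,
  2014349504488734621091237078290, 2153302833879904736168272079010, 902988824923125403496252777746,
  3440451592993055592020099875986, 2331532340153175786168993268882, 2190446399503074705052772942994,
  1448743543139049123195529302605, 1449053632738250360314654930649, 1451224268344275238565876446937,
  1448782305480358454640671307481, 2894657508984858059032367060697, 1468594104928510504825799947979,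
  2718909312335628631529182574283, 1607514254973024178394502641355, 1468860002645538729890132309595,
  1609984629952615333036185990747, 2716428002861750531424240121435, 1607166019554027592056782500571,
  2716085347801927355918954902235, 1466075309311761198746331624155, 1431412458291866442080664786651,
  1290326517641765360964444460763, 181407264801885555113337853659]

/-- the number of a vertex -/
def idx : Fin 17 ⊕ Fin 17 → ℕ
  | .inl x => x
  | .inr y => 17 + y

/-- the distances, as a function -/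
def T (u v : Fin 17 ⊕ Fin 17) : ℕ := ((dtab.getD (idx u) 0) >>> (3 * idx v)) % 8

lemma T_zero : ∀ u v, T u v = 0 → u = v := by decide +kernel

lemma T_step : ∀ u v, T u v = 0 ∨ ∃ w, G.Adj u w ∧ T w v + 1 = T u v := by decide +kernel

lemma T_le : ∀ u v, T u v ≤ 5 := by decide +kernel

lemma T_lip : ∀ u w, G.Adj u w → T u (.inr 0) ≤ T w (.inr 0) + 1 := by decide +kernel

lemma conn_diam : G.Connected ∧ G.diam = 5 := by
  apply diam_eq G T T_zero _ T_le (fun u => T u (.inr 0)) T_lip (a := .inl 0) (b := .inr 0)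
    (by decide +kernel)
  intro u v k hk
  rcases T_step u v with h | ⟨w, hw, h⟩
  · omega
  · exact ⟨w, hw, by omega⟩

/-- the eigenvalue `(1 + √13) / 2` -/
noncomputable def mu : ℝ := (1 + √13) / 2

lemma mu_sq : mu ^ 2 = mu + 3 := by
  unfold mu
  have h : √(13:ℝ) ^ 2 = 13 := Real.sq_sqrt (by norm_num)
  linear_combination h / 4

lemma mu_gt : 2.3 < mu := by
  unfold mu
  have h : (3.605 : ℝ) < √13 := by
    rw [Real.lt_sqrt (by norm_num)]
    norm_num
  linarith

lemma mu_lt : mu < 2.31 := by
  unfold mu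
  have h : √13 < (3.61 : ℝ) := by
    rw [Real.sqrt_lt' (by norm_num)]
    norm_num
  linarith

lemma nb_inl (v : Fin 17 ⊕ Fin 17 → ℝ) (i : Fin 17) :
    ∑ b ∈ G.neighborFinset (.inl i), v b = ∑ j, (N i j : ℝ) * v (.inr j) := by
  rw [← SimpleGraph.adjMatrix_mulVec_apply]
  simp only [Matrix.mulVec, dotProduct, Fintype.sum_sum_type, SimpleGraph.adjMatrix_apply]
  have h1 : ∀ j : Fin 17, ¬ G.Adj (.inl i) (.inl j) := fun j h => by cases h
  have h2 : ∀ j : Fin 17, G.Adj (.inl i) (.inr j) ↔ inc i j = true := fun j => Iff.rfl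
  simp only [h1, h2, if_false, zero_mul, Finset.sum_const_zero, zero_add, N]
  refine Finset.sum_congr rfl fun j _ => ?_
  split_ifs <;> simp

lemma nb_inr (v : Fin 17 ⊕ Fin 17 → ℝ) (j : Fin 17) :
    ∑ b ∈ G.neighborFinset (.inr j), v b = ∑ i, (N i j : ℝ) * v (.inl i) := by
  rw [← SimpleGraph.adjMatrix_mulVec_apply]
  simp only [Matrix.mulVec, dotProduct, Fintype.sum_sum_type, SimpleGraph.adjMatrix_apply]
  have h1 : ∀ i : Fin 17, ¬ G.Adj (.inr j) (.inr i) := fun j h => by cases h
  have h2 : ∀ i : Fin 17, G.Adj (.inr j) (.inl i) ↔ inc i j = true := fun j => Iff.rfl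
  simp only [h1, h2, if_false, zero_mul, Finset.sum_const_zero, add_zero, N]
  refine Finset.sum_congr rfl fun j _ => ?_
  split_ifs <;> simp

lemma hSr (i j : Fin 17) : ∑ k, (N i k : ℝ) * N j k = S i j := by
  rw [← hS i j]; push_cast; rfl

lemma hS2r (i j : Fin 17) : ∑ k, (S i k : ℝ) * S k j = S2 i j := by
  rw [← hS2 i j]; push_cast; rfl

lemma hPr (i j : Fin 17) : ∑ k, ((S2 i k : ℝ) - 7 * S i k + 9 * (if i = k then 1 else 0)) *
    (S2 k j - 5 * S k j + (if k = j then 1 else 0)) = 1593 := by
  have := hP i j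
  have h : ((∑ k, (S2 i k - 7 * S i k + 9 * (if i = k then 1 else 0)) *
    (S2 k j - 5 * S k j + (if k = j then 1 else 0)) : ℤ) : ℝ) = ((1593 : ℤ) : ℝ) := by rw [this]
  push_cast at h
  exact h

lemma const_of_eig (v : Fin 17 ⊕ Fin 17 → ℝ) (x : ℝ)
    (hv : ∀ a, ∑ b ∈ G.neighborFinset a, v b = x * v a) (hx : mu < x) : ∀ a b, v a = v b := by
  set f : Fin 17 → ℝ := fun i => v (.inl i) with hf
  set g : Fin 17 → ℝ := fun i => v (.inr i) with hg
  have h1 : ∀ i, ∑ j, (N i j : ℝ) * g j = x * f i := fun i => by rw [← hv, nb_inl]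
  have h2 : ∀ j, ∑ i, (N i j : ℝ) * f i = x * g j := fun i => by rw [← hv, nb_inr]
  have hx0 : 2.3 < x := lt_trans mu_gt hx
  have hx1 : 0 < x := by linarith
  have h3 : ∀ i, ∑ k, (S i k : ℝ) * f k = x ^ 2 * f i := by
    intro i
    simp only [← hSr, Finset.sum_mul]
    rw [Finset.sum_comm]
    have : ∀ k, ∑ j, (N i k : ℝ) * N j k * f j = x * (N i k * g k) := by
      intro k
      have := h2 k
      simp only [mul_assoc]
      rw [← Finset.mul_sum, this]; ring
    simp only [this]
    rw [← Finset.mul_sum, h1]; ring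
  have h4 : ∀ i, ∑ k, (S2 i k : ℝ) * f k = x ^ 4 * f i := by
    intro i
    simp only [← hS2r, Finset.sum_mul]
    rw [Finset.sum_comm]
    have : ∀ k, ∑ j, (S i k : ℝ) * S k j * f j = x ^ 2 * (S i k * f k) := by
      intro k
      have := h3 k
      simp only [mul_assoc]
      rw [← Finset.mul_sum, this]; ring
    simp only [this]
    rw [← Finset.mul_sum, h3]; ring
  have h5 : ∀ k, ∑ j, ((S2 k j : ℝ) - 5 * S k j + (if k = j then 1 else 0)) * f j =
      (x ^ 4 - 5 * x ^ 2 + 1) * f k := by
    intro k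
    have e : ∀ j, ((S2 k j : ℝ) - 5 * S k j + (if k = j then 1 else 0)) * f j =
        S2 k j * f j - 5 * (S k j * f j) + (if k = j then f j else 0) := by
      intro j; split_ifs <;> ring
    simp only [e, Finset.sum_add_distrib, Finset.sum_sub_distrib, ← Finset.mul_sum, h3, h4,
      Finset.sum_ite_eq, Finset.mem_univ, if_true]
    ring
  have h6 : ∀ i, ∑ k, ((S2 i k : ℝ) - 7 * S i k + 9 * (if i = k then 1 else 0)) * f k =
      (x ^ 4 - 7 * x ^ 2 + 9) * f i := by
    intro i
    have e : ∀ j, ((S2 i j : ℝ) - 7 * S i j + 9 * (if i = j then 1 else 0)) * f j =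
        S2 i j * f j - 7 * (S i j * f j) + 9 * (if i = j then f j else 0) := by
      intro j; split_ifs <;> ring
    simp only [e, Finset.sum_add_distrib, Finset.sum_sub_distrib, ← Finset.mul_sum, h3, h4,
      Finset.sum_ite_eq, Finset.mem_univ, if_true]
    ring
  have h7 : ∀ i, (x ^ 4 - 7 * x ^ 2 + 9) * (x ^ 4 - 5 * x ^ 2 + 1) * f i = 1593 * ∑ j, f j := by
    intro i
    have e1 : ∑ j, (∑ k, ((S2 i k : ℝ) - 7 * S i k + 9 * (if i = k then 1 else 0)) *
        (S2 k j - 5 * S k j + (if k = j then 1 else 0))) * f j = 1593 * ∑ j, f j := by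
      simp only [hPr, Finset.mul_sum]
    rw [← e1]
    simp only [Finset.sum_mul]
    rw [Finset.sum_comm]
    have e2 : ∀ k, ∑ j, ((S2 i k : ℝ) - 7 * S i k + 9 * (if i = k then 1 else 0)) *
        (S2 k j - 5 * S k j + (if k = j then 1 else 0)) * f j =
        (x ^ 4 - 5 * x ^ 2 + 1) *
          (((S2 i k : ℝ) - 7 * S i k + 9 * (if i = k then 1 else 0)) * f k) := by
      intro k
      simp only [mul_assoc]
      rw [← Finset.mul_sum]
      have := h5 k
      rw [this]; ring
    simp only [e2]
    rw [← Finset.mul_sum, h6]; ring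
  have hp1 : 0 < x ^ 4 - 7 * x ^ 2 + 9 := by
    have e : x ^ 4 - 7 * x ^ 2 + 9 = (x ^ 2 - x - 3) * (x ^ 2 + x - 3) := by ring
    have e1 : 0 < x ^ 2 - x - 3 := by
      have := mu_sq
      have := mu_gt
      nlinarith
    have e2 : 0 < x ^ 2 + x - 3 := by nlinarith
    rw [e]; exact mul_pos e1 e2
  have hp2 : 0 < x ^ 4 - 5 * x ^ 2 + 1 := by nlinarith [sq_nonneg (x ^ 2)]
  have hp : 0 < (x ^ 4 - 7 * x ^ 2 + 9) * (x ^ 4 - 5 * x ^ 2 + 1) := mul_pos hp1 hp2
  have h8 : ∀ i, f i = f 0 := by
    intro i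
    have := (h7 i).trans (h7 0).symm
    exact mul_left_cancel₀ hp.ne' this
  set t : ℝ := f 0 with ht
  have h9 : ∀ j, x * g j = 4 * t := by
    intro j
    rw [← h2 j]
    simp only [h8]
    rw [← Finset.sum_mul]
    have := hcol j
    have h : ((∑ k, N k j : ℤ) : ℝ) = ((4 : ℤ) : ℝ) := by rw [this]
    push_cast at h
    rw [h]
  have h10 : x * (x * t) = 16 * t := by
    have e := h1 0
    rw [← ht] at e
    rw [← e, Finset.mul_sum]
    have : ∀ j, x * ((N 0 j : ℝ) * g j) = N 0 j * (4 * t) := by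
      intro j; rw [← h9 j]; ring
    simp only [this]
    rw [← Finset.sum_mul]
    have := hrow 0
    have h : ((∑ k, N 0 k : ℤ) : ℝ) = ((4 : ℤ) : ℝ) := by rw [this]
    push_cast at h
    rw [h]; ring
  have h11 : t = 0 ∨ x = 4 := by
    have : t * ((x - 4) * (x + 4)) = 0 := by linear_combination h10
    rcases mul_eq_zero.1 this with h | h
    · exact Or.inl h
    · rcases mul_eq_zero.1 h with h | h
      · right; linarith
      · linarith
  have h12 : ∀ j, g j = t := by
    intro j
    rcases h11 with h | h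
    · have := h9 j
      rw [h, mul_zero] at this
      rcases mul_eq_zero.1 this with h' | h'
      · exact absurd h' hx1.ne'
      · rw [h', h]
    · have := h9 j
      rw [h] at this
      linarith
  have hall : ∀ a, v a = t := by
    intro a
    rcases a with i | j
    · exact h8 i
    · exact h12 j
  intro a b
  rw [hall a, hall b]

/-- indicators of the levels -/
def e (c : Fin 3) (i : Fin 17) : ℤ :=
  if (if i.val = 0 then 0 else if i.val ≤ 4 then 1 else 2 : Fin 3) = c then 1 else 0

lemma he0 : ∀ i : Fin 17, (∑ k : Fin 17, N i k * e 0 k : ℤ) = e 1 i := by decide +kernel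

lemma he1 : ∀ i : Fin 17, (∑ k : Fin 17, N i k * e 1 k : ℤ) = 4 * e 0 i + e 2 i := by
  decide +kernel

lemma he2 : ∀ i : Fin 17, (∑ k : Fin 17, N i k * e 2 k : ℤ) = 3 * e 1 i + 3 * e 2 i := by
  decide +kernel

lemma he0' : ∀ i : Fin 17, (∑ k : Fin 17, N k i * e 0 k : ℤ) = e 1 i := by decide +kernel

lemma he1' : ∀ i : Fin 17, (∑ k : Fin 17, N k i * e 1 k : ℤ) = 4 * e 0 i + e 2 i := by
  decide +kernel

lemma he2' : ∀ i : Fin 17, (∑ k : Fin 17, N k i * e 2 k : ℤ) = 3 * e 1 i + 3 * e 2 i := by
  decide +kernel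

/-- the half eigenvector -/
noncomputable def w (i : Fin 17) : ℝ := 4 * e 0 i - mu * e 1 i + (mu - 1) / 3 * e 2 i

/-- the eigenvector -/
noncomputable def vec : Fin 17 ⊕ Fin 17 → ℝ
  | .inl i => w i
  | .inr i => - w i

lemma he (i : Fin 17) : ∑ k, (N i k : ℝ) * w k = -mu * w i := by
  have h0 : ((∑ k, N i k * e 0 k : ℤ) : ℝ) = ((e 1 i : ℤ) : ℝ) := by rw [he0]
  have h1 : ((∑ k, N i k * e 1 k : ℤ) : ℝ) = ((4 * e 0 i + e 2 i : ℤ) : ℝ) := by rw [he1]
  have h2 : ((∑ k, N i k * e 2 k : ℤ) : ℝ) = ((3 * e 1 i + 3 * e 2 i : ℤ) : ℝ) := by rw [he2]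
  push_cast at h0 h1 h2
  have : ∀ k, (N i k : ℝ) * w k = 4 * (N i k * e 0 k) - mu * (N i k * e 1 k) +
      (mu - 1) / 3 * (N i k * e 2 k) := by intro k; unfold w; ring
  simp only [this, Finset.sum_add_distrib, Finset.sum_sub_distrib, ← Finset.mul_sum, h0, h1, h2]
  unfold w
  linear_combination (-(e 1 i : ℝ) + (e 2 i : ℝ) / 3) * mu_sq

lemma he' (i : Fin 17) : ∑ k, (N k i : ℝ) * w k = -mu * w i := by
  have h0 : ((∑ k, N k i * e 0 k : ℤ) : ℝ) = ((e 1 i : ℤ) : ℝ) := by rw [he0']
  have h1 : ((∑ k, N k i * e 1 k : ℤ) : ℝ) = ((4 * e 0 i + e 2 i : ℤ) : ℝ) := by rw [he1']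
  have h2 : ((∑ k, N k i * e 2 k : ℤ) : ℝ) = ((3 * e 1 i + 3 * e 2 i : ℤ) : ℝ) := by rw [he2']
  push_cast at h0 h1 h2
  have : ∀ k, (N k i : ℝ) * w k = 4 * (N k i * e 0 k) - mu * (N k i * e 1 k) +
      (mu - 1) / 3 * (N k i * e 2 k) := by intro k; unfold w; ring
  simp only [this, Finset.sum_add_distrib, Finset.sum_sub_distrib, ← Finset.mul_sum, h0, h1, h2]
  unfold w
  linear_combination (-(e 1 i : ℝ) + (e 2 i : ℝ) / 3) * mu_sq

lemma lam2_G : lam2 G = 4 - mu := by
  have h := lam2_eq G (d := 4) reg (by simp) (μ := mu) vec ?_ ?_ ?_ const_of_eig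
  · exact_mod_cast h
  · intro h
    have := congrFun h (.inl 0)
    simp [vec, w, e] at this
  · rw [Fintype.sum_sum_type]
    simp [vec]
  · intro a
    rcases a with i | j
    · rw [nb_inl]
      simp only [vec, mul_neg, Finset.sum_neg_distrib, he]
      ring
    · rw [nb_inr]
      simp only [vec, he']
      ring

/-- the angle -/
noncomputable def theta : ℝ := Real.arccos (mu / (2 * √3))

lemma s3 : √(3:ℝ) ^ 2 = 3 := Real.sq_sqrt (by norm_num)

lemma s3_pos : 0 < √(3:ℝ) := Real.sqrt_pos.2 (by norm_num)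

lemma s3_gt : 1.7 < √(3:ℝ) := by
  rw [Real.lt_sqrt (by norm_num)]; norm_num

lemma cos_theta : Real.cos theta = mu / (2 * √3) := by
  apply Real.cos_arccos
  · have := mu_gt
    have : 0 < mu / (2 * √3) := div_pos (by linarith) (by linarith [s3_pos])
    linarith
  · rw [div_le_one (by linarith [s3_pos])]
    linarith [mu_lt, s3_gt]

lemma x_theta : 2 * √3 * Real.cos theta = mu := by
  rw [cos_theta]
  field_simp

lemma theta_pos : 0 < theta := by
  unfold theta
  rw [Real.arccos_pos, div_lt_one (by linarith [s3_pos])]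
  linarith [mu_lt, s3_gt]

lemma theta_lt : theta < Real.pi / 2 := by
  unfold theta
  rw [Real.arccos_lt_pi_div_two]
  exact div_pos (by linarith [mu_gt]) (by linarith [s3_pos])

lemma eqn_iff {φ : ℝ} (h0 : 0 < φ) (h1 : φ < Real.pi / 2) : Eqn 4 5 φ ↔
    (Real.cos (3 * φ) ≠ 0 ∧ (2 * √3 * Real.cos φ) ^ 2 = 2 * √3 * Real.cos φ + 3) := by
  have hc : 0 < Real.cos φ := Real.cos_pos_of_mem_Ioo ⟨by linarith, h1⟩
  have hc1 : Real.cos φ ≤ 1 := Real.cos_le_one φ
  have hs : 0 < Real.sin φ := Real.sin_pos_of_pos_of_lt_pi h0 (by linarith)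
  have hD : 0 < √3 * (4 - 2 * Real.cos φ ^ 2) + 2 * Real.cos φ := by
    have : 0 < 4 - 2 * Real.cos φ ^ 2 := by nlinarith
    have := mul_pos s3_pos this
    linarith
  have hev : ¬ Even 5 := by decide
  have h3 : (((5 + 1) / 2 : ℕ) : ℝ) = 3 := by norm_num
  have h4 : ((4 : ℕ) : ℝ) - 1 = 3 := by norm_num
  have h5 : ((4 : ℕ) : ℝ) = 4 := by norm_num
  have h6 : ((4 : ℕ) : ℝ) - 2 = 2 := by norm_num
  unfold Eqn
  rw [if_neg hev, h3, h4, h6, h5]
  have hcs : Real.sin φ ^ 2 = 1 - Real.cos φ ^ 2 := by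
    have := Real.sin_sq_add_cos_sq φ; linarith
  have key : Real.sin (3 * φ) * (√3 * (4 - 2 * Real.cos φ ^ 2) + 2 * Real.cos φ) +
      Real.cos (3 * φ) * ((2 * √3 * Real.cos φ + 4) * Real.sin φ) =
      Real.sin φ * (((2 * √3 * Real.cos φ) ^ 2 - 2 * √3 * Real.cos φ - 3) *
        (2 * √3 * Real.cos φ + 4)) / √3 := by
    rw [Real.sin_three_mul, Real.cos_three_mul, eq_div_iff s3_pos.ne']
    have e1 : Real.sin φ ^ 3 = Real.sin φ * (1 - Real.cos φ ^ 2) := by rw [← hcs]; ring
    rw [e1]
    linear_combination (Real.sin φ * (-1 + 4 * Real.cos φ ^ 2) * (4 - 2 * Real.cos φ ^ 2) +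
      (4 * Real.cos φ ^ 3 - 3 * Real.cos φ) * 2 * Real.cos φ * Real.sin φ -
      Real.sin φ * (8 * √3 * Real.cos φ ^ 3 + 12 * Real.cos φ ^ 2)) * s3
  constructor
  · rintro ⟨hc3, -, htan⟩
    refine ⟨hc3, ?_⟩
    rw [Real.tan_eq_sin_div_cos, div_eq_iff hc3, neg_mul, div_mul_eq_mul_div, ← neg_div,
      eq_div_iff hD.ne'] at htan
    have hz : Real.sin φ * (((2 * √3 * Real.cos φ) ^ 2 - 2 * √3 * Real.cos φ - 3) *
        (2 * √3 * Real.cos φ + 4)) / √3 = 0 := by
      rw [← key]; linarith
    rw [div_eq_zero_iff] at hz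
    rcases hz with hz | hz
    · rcases mul_eq_zero.1 hz with hz | hz
      · exact absurd hz hs.ne'
      · rcases mul_eq_zero.1 hz with hz | hz
        · linarith
        · have := mul_pos s3_pos hc
          linarith
    · exact absurd hz s3_pos.ne'
  · rintro ⟨hc3, hz⟩
    refine ⟨hc3, hD.ne', ?_⟩
    rw [Real.tan_eq_sin_div_cos, div_eq_iff hc3, neg_mul, div_mul_eq_mul_div, ← neg_div,
      eq_div_iff hD.ne']
    have hk : Real.sin φ * (((2 * √3 * Real.cos φ) ^ 2 - 2 * √3 * Real.cos φ - 3) *
        (2 * √3 * Real.cos φ + 4)) / √3 = 0 := by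
      rw [hz]; ring
    rw [hk] at key
    linarith

lemma isLeast_theta : IsLeast {θ : ℝ | 0 < θ ∧ Eqn 4 5 θ} theta := by
  constructor
  · refine ⟨theta_pos, (eqn_iff theta_pos theta_lt).2 ⟨?_, ?_⟩⟩
    · rw [Real.cos_three_mul]
      have hx := x_theta
      intro h
      have h1 : Real.cos theta * (4 * Real.cos theta ^ 2 - 3) = 0 := by linear_combination h
      have hc : 0 < Real.cos theta :=
        Real.cos_pos_of_mem_Ioo ⟨by linarith [theta_pos, Real.pi_pos], theta_lt⟩
      rcases mul_eq_zero.1 h1 with h2 | h2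
      · exact hc.ne' h2
      · have h3 : mu ^ 2 = 9 := by
          rw [← hx]
          linear_combination (4 * Real.cos theta ^ 2) * s3 + 3 * h2
        have := mu_lt
        have := mu_gt
        nlinarith
    · rw [x_theta]; exact mu_sq
  · rintro φ ⟨h0, h1⟩
    by_contra hlt
    push Not at hlt
    have h2 := ((eqn_iff h0 (lt_trans hlt theta_lt)).1 h1).2
    have h3 : Real.cos theta < Real.cos φ :=
      Real.cos_lt_cos_of_nonneg_of_le_pi h0.le (by linarith [theta_lt, Real.pi_pos]) hlt
    have h4 : mu < 2 * √3 * Real.cos φ := by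
      rw [← x_theta]
      exact mul_lt_mul_of_pos_left h3 (by linarith [s3_pos])
    have := mu_sq
    have := mu_gt
    nlinarith

lemma diameterMaximal : DiameterMaximal G 4 5 := by
  refine ⟨conn_diam.1, reg, conn_diam.2, theta, isLeast_theta, ?_⟩
  rw [lam2_G]
  have h4 : ((4 : ℕ) : ℝ) - 1 = 3 := by norm_num
  have h5 : ((4 : ℕ) : ℝ) = 4 := by norm_num
  rw [h4, h5, x_theta]

end Pool.Agent.Q104.DiamOdd
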