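import Mathlib
import Pool.Agent.Q104.Bal

/-!
# The Laplacian spread of balanced digraphs
-/

set_option autoImplicit false

namespace Q104.Digraph

open Matrix Finset

section defs

variable {n : ℕ} (A : Fin n → Fin n → Prop) [DecidableRel A]

/-- the out-degree -/
def outdeg (i : Fin n) : ℕ := (univ.filter fun j => A i j).card

/-- the in-degree -/
def indeg (i : Fin n) : ℕ := (univ.filter fun j => A j i).card

/-- a balanced digraph on `Fin n`: no loops, and in-degree equal to out-degree at every vertex -/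
structure IsBalanced : Prop where
  loopless : ∀ i, ¬ A i i
  balanced : ∀ i, outdeg A i = indeg A i

/-- the Laplacian, out-degree matrix minus adjacency matrix -/
def lap : Matrix (Fin n) (Fin n) ℝ :=
  Matrix.of fun i j => (if i = j then (outdeg A i : ℝ) else 0) - (if A i j then 1 else 0)

/-- the values of the quadratic form of the Laplacian on unit vectors orthogonal to the all-ones
vector -/
def values : Set ℝ :=
  {t | ∃ x : Fin n → ℝ, ∑ i, x i = 0 ∧ ∑ i, x i ^ 2 = 1 ∧ x ⬝ᵥ (lap A *ᵥ x) = t}

/-- the smallest value of the form -/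
noncomputable def alpha : ℝ := sInf (values A)

/-- the largest value of the form -/
noncomputable def beta : ℝ := sSup (values A)

/-- the Laplacian spread -/
noncomputable def sp : ℝ := beta A - alpha A

/-- the complement -/
def compl (i j : Fin n) : Prop := i ≠ j ∧ ¬ A i j

/-- `k`-regularity -/
def IsRegular (k : ℕ) : Prop := ∀ i, outdeg A i = k ∧ indeg A i = k

end defs

variable {n : ℕ} {A : Fin n → Fin n → Prop} [DecidableRel A]

instance : DecidableRel (compl A) := fun i j => inferInstanceAs (Decidable (i ≠ j ∧ ¬ A i j))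

/-- the signed matrix -/
def S (A : Fin n → Fin n → Prop) [DecidableRel A] (i j : Fin n) : ℤ :=
  (if A i j then 1 else 0) + (if A j i then 1 else 0) + (if i = j then 1 else 0) - 1

lemma sum_S (h : IsBalanced A) (i : Fin n) : ∑ j, S A i j = 2 * outdeg A i + 1 - n := by
  simp only [S, Finset.sum_sub_distrib, Finset.sum_add_distrib, Finset.sum_boole,
    Finset.sum_const, Finset.card_univ, Fintype.card_fin, nsmul_eq_mul, mul_one]
  have h1 := h.balanced i
  simp only [outdeg, indeg] at h1 ⊢
  have h2 : (univ.filter fun x => i = x).card = 1 := by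
    rw [Finset.filter_eq univ i]
    simp
  rw [← h1, h2]
  push_cast
  ring

lemma good (h : IsBalanced A) : Q104.Bal.Good (S A) := by
  refine ⟨?_, ?_, ?_, ?_, ?_⟩
  · intro i j
    simp only [S, eq_comm]
    ring
  · intro i
    simp [S, h.loopless i]
  · intro i j
    simp only [S]
    split_ifs <;> norm_num
  · intro i j
    by_cases hij : i = j
    · subst hij
      simp [S, h.loopless i]
    · simp only [S, if_neg hij]
      split_ifs <;> norm_num
  · intro i
    rw [sum_S h]
    omega

lemma form_eq (h : IsBalanced A) (x : Fin n → ℝ) (hx : ∑ i, x i = 0) :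
    2 * (x ⬝ᵥ (lap A *ᵥ x)) = x ⬝ᵥ (Q104.Bal.N (S A) *ᵥ x) + n * (x ⬝ᵥ x) := by
  have h1 : lap A + (lap A)ᵀ = Q104.Bal.N (S A) + (n : ℝ) • (1 : Matrix (Fin n) (Fin n) ℝ)
      - Matrix.of (fun _ _ => 1) := by
    ext i j
    simp only [Matrix.add_apply, Matrix.transpose_apply, lap, Q104.Bal.N, Matrix.of_apply,
      Matrix.sub_apply, Matrix.smul_apply, smul_eq_mul, sum_S h, Matrix.one_apply]
    by_cases hij : i = j
    · subst hij
      simp only [S, if_true]
      push_cast
      have := h.loopless i
      simp only [this, if_false]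
      ring
    · simp only [S, if_neg hij, if_neg (Ne.symm hij)]
      push_cast
      ring
  have h2 : x ⬝ᵥ (((lap A)ᵀ) *ᵥ x) = x ⬝ᵥ (lap A *ᵥ x) := by
    rw [mulVec_transpose, dotProduct_comm, ← dotProduct_mulVec]
  have h3 : x ⬝ᵥ ((lap A + (lap A)ᵀ) *ᵥ x) = 2 * (x ⬝ᵥ (lap A *ᵥ x)) := by
    rw [Matrix.add_mulVec, dotProduct_add, h2]; ring
  have h4 : (Matrix.of (fun _ _ => (1 : ℝ)) : Matrix (Fin n) (Fin n) ℝ) *ᵥ x = 0 := by
    ext i
    simp [Matrix.mulVec, dotProduct, hx]
  rw [← h3, h1, Matrix.sub_mulVec, Matrix.add_mulVec, h4, Matrix.smul_mulVec, Matrix.one_mulVec,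
    sub_zero, dotProduct_add, dotProduct_smul, smul_eq_mul]

lemma values_nonempty (hn : 2 ≤ n) : (values A).Nonempty := by
  set p : Fin n := ⟨0, by omega⟩
  set q : Fin n := ⟨1, by omega⟩
  have hpq : p ≠ q := by simp [p, q]
  set x : Fin n → ℝ := fun i => (Real.sqrt 2)⁻¹ * ((if i = p then 1 else 0) - (if i = q then 1 else 0))
  refine ⟨_, x, ?_, ?_, rfl⟩
  · simp [x, ← Finset.mul_sum, Finset.sum_sub_distrib]
  · have h1 : ∀ i, x i ^ 2 = 1 / 2 * ((if i = p then 1 else 0) + (if i = q then 1 else 0)) := by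
      intro i
      simp only [x, mul_pow, inv_pow]
      rw [Real.sq_sqrt (by norm_num)]
      by_cases h1 : i = p
      · have h2 : i ≠ q := fun h => hpq (h1.symm.trans h)
        simp [h1, hpq]
      · by_cases h2 : i = q
        · simp [h2, hpq.symm]
        · simp [h1, h2]
    simp only [h1, ← Finset.mul_sum, Finset.sum_add_distrib, Finset.sum_ite_eq', Finset.mem_univ,
      if_true]
    norm_num

lemma values_abs (A : Fin n → Fin n → Prop) [DecidableRel A] {t : ℝ} (ht : t ∈ values A) :
    |t| ≤ ∑ i, ∑ j, |lap A i j| := by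
  obtain ⟨x, -, hx2, rfl⟩ := ht
  have h1 : ∀ i, |x i| ≤ 1 := by
    intro i
    have h2 : x i ^ 2 ≤ ∑ i, x i ^ 2 :=
      Finset.single_le_sum (f := fun i => x i ^ 2) (fun i _ => sq_nonneg _) (mem_univ i)
    rw [hx2] at h2
    exact abs_le_one_iff_mul_self_le_one.mpr (by nlinarith)
  simp only [dotProduct, Matrix.mulVec]
  refine (Finset.abs_sum_le_sum_abs _ _).trans (Finset.sum_le_sum fun i _ => ?_)
  rw [abs_mul]
  have h2 : |∑ j, lap A i j * x j| ≤ ∑ j, |lap A i j| := by
    refine (Finset.abs_sum_le_sum_abs _ _).trans (Finset.sum_le_sum fun j _ => ?_)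
    rw [abs_mul]
    exact mul_le_of_le_one_right (abs_nonneg _) (h1 j)
  calc |x i| * |∑ j, lap A i j * x j| ≤ 1 * ∑ j, |lap A i j| :=
        mul_le_mul (h1 i) h2 (abs_nonneg _) zero_le_one
    _ = _ := one_mul _

lemma bddAbove (A : Fin n → Fin n → Prop) [DecidableRel A] : BddAbove (values A) :=
  ⟨∑ i, ∑ j, |lap A i j|, fun _ ht => (le_abs_self _).trans (values_abs A ht)⟩

lemma bddBelow (A : Fin n → Fin n → Prop) [DecidableRel A] : BddBelow (values A) :=
  ⟨-∑ i, ∑ j, |lap A i j|, fun t ht => by
    have := values_abs A ht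
    have := neg_abs_le t
    linarith⟩

lemma scaled (x : Fin n → ℝ) (hx : ∑ i, x i = 0) :
    alpha A * (x ⬝ᵥ x) ≤ x ⬝ᵥ (lap A *ᵥ x) ∧ x ⬝ᵥ (lap A *ᵥ x) ≤ beta A * (x ⬝ᵥ x) := by
  by_cases h0 : x ⬝ᵥ x = 0
  · have : x = 0 := dotProduct_self_eq_zero.mp h0
    subst this
    simp
  · have hpos : 0 < x ⬝ᵥ x := lt_of_le_of_ne (Finset.sum_nonneg fun i _ => mul_self_nonneg _)
      (Ne.symm h0)
    set c : ℝ := (Real.sqrt (x ⬝ᵥ x))⁻¹ with hc
    have hc2 : c * c = (x ⬝ᵥ x)⁻¹ := by
      rw [hc, ← mul_inv, Real.mul_self_sqrt hpos.le]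
    have hmem : c * c * (x ⬝ᵥ (lap A *ᵥ x)) ∈ values A := by
      refine ⟨c • x, ?_, ?_, ?_⟩
      · simp [← Finset.mul_sum, hx]
      · have : ∑ i, (c • x) i ^ 2 = c * c * (x ⬝ᵥ x) := by
          simp only [Pi.smul_apply, smul_eq_mul, dotProduct, Finset.mul_sum]
          exact Finset.sum_congr rfl fun i _ => by ring
        rw [this, hc2, inv_mul_cancel₀ h0]
      · rw [Matrix.mulVec_smul, smul_dotProduct, dotProduct_smul, smul_eq_mul, smul_eq_mul]
        ring
    have h1 := csInf_le (bddBelow A) hmem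
    have h2 := le_csSup (bddAbove A) hmem
    rw [hc2, ← div_eq_inv_mul] at h1 h2
    rw [le_div_iff₀ hpos] at h1
    rw [div_le_iff₀ hpos] at h2
    exact ⟨h1, h2⟩

lemma bd (h : IsBalanced A) : Q104.Bal.Bd (S A) (2 * alpha A - n) (2 * beta A - n) := by
  constructor
  · intro x hx
    have h1 := form_eq h x hx
    have h2 := (scaled (A := A) x hx).1
    linarith
  · intro x hx
    have h1 := form_eq h x hx
    have h2 := (scaled (A := A) x hx).2
    linarith

/-- constant off-diagonal entries give spread zero -/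
lemma sp_zero (h : IsBalanced A) (hn : 2 ≤ n) (c : ℤ) (hc : ∀ i j, i ≠ j → S A i j = c) :
    sp A = 0 := by
  have hS := good h
  have hN : ∀ x : Fin n → ℝ, ∑ i, x i = 0 → x ⬝ᵥ (Q104.Bal.N (S A) *ᵥ x) = c * n * (x ⬝ᵥ x) := by
    intro x hx
    have hrow : ∀ i, ∑ l, S A i l = c * (n - 1) := by
      intro i
      rw [← Finset.sum_erase_add _ _ (mem_univ i), hS.diag, add_zero]
      rw [Finset.sum_congr rfl fun l hl => hc i l (Ne.symm (Finset.ne_of_mem_erase hl))]
      rw [Finset.sum_const, Finset.card_erase_of_mem (mem_univ i), Finset.card_univ,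
        Fintype.card_fin, nsmul_eq_mul]
      have : 1 ≤ n := by omega
      push_cast [this]
      ring
    have h1 : Q104.Bal.N (S A) = ((c * n : ℤ) : ℝ) • (1 : Matrix (Fin n) (Fin n) ℝ)
        - (c : ℝ) • Matrix.of (fun _ _ => 1) := by
      ext i j
      simp only [Q104.Bal.N, Matrix.of_apply, Matrix.sub_apply, Matrix.smul_apply, smul_eq_mul,
        Matrix.one_apply, hrow]
      by_cases hij : i = j
      · subst hij
        rw [hS.diag]
        simp
        ring
      · rw [hc i j hij]
        simp [hij]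
    have h4 : (Matrix.of (fun _ _ => (1 : ℝ)) : Matrix (Fin n) (Fin n) ℝ) *ᵥ x = 0 := by
      ext i
      simp [Matrix.mulVec, dotProduct, hx]
    rw [h1, Matrix.sub_mulVec, Matrix.smul_mulVec, Matrix.smul_mulVec, h4, Matrix.one_mulVec,
      smul_zero, sub_zero, dotProduct_smul, smul_eq_mul]
    push_cast
    ring
  have hval : values A = {((c : ℝ) * n + n) / 2} := by
    apply Set.eq_singleton_iff_nonempty_unique_mem.mpr
    refine ⟨values_nonempty hn, ?_⟩
    rintro t ⟨x, hx, hx2, rfl⟩
    have h1 := form_eq h x hx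
    rw [hN x hx] at h1
    have h2 : x ⬝ᵥ x = 1 := by
      rw [← hx2]
      exact Finset.sum_congr rfl fun i _ => by ring
    rw [h2] at h1
    linarith
  simp [sp, alpha, beta, hval]

/-- the alternative -/
theorem main (h : IsBalanced A) (hn : 2 ≤ n) (hsp : sp A ≤ 1) :
    sp A = 0 ∨ (2 ∣ n ∧ 4 ≤ n ∧ 1 ≤ sp A ∧
      (IsRegular A ((n - 2) / 2) ∨ IsRegular (compl A) ((n - 2) / 2))) := by
  have hab : (2 * beta A - n) - (2 * alpha A - n) ≤ 2 := by
    have : sp A = beta A - alpha A := rfl
    linarith
  rcases Q104.Bal.classify (good h) (bd h) hab hn with ⟨c, hc⟩ | ⟨h1, h2, h3, h4⟩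
  · exact Or.inl (sp_zero h hn c hc)
  · right
    refine ⟨h1, h2, ?_, ?_⟩
    · have : sp A = beta A - alpha A := rfl
      linarith
    · rcases h4 with h4 | h4
      · right
        intro i
        have h5 := h4 i
        rw [sum_S h] at h5
        have h6 : ∀ P : Fin n → Prop, ∀ [DecidablePred P], ¬ P i →
            (univ.filter fun j => i ≠ j ∧ ¬ P j).card = n - 1 - (univ.filter P).card := by
          intro P _ hP
          have e1 : (univ.filter fun j => i ≠ j ∧ ¬ P j) = (univ.erase i) \ (univ.filter P) := by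
            ext j
            simp [eq_comm]
          rw [e1, Finset.card_sdiff_of_subset, Finset.card_erase_of_mem (mem_univ i),
            Finset.card_univ, Fintype.card_fin]
          intro j hj
          rw [Finset.mem_filter] at hj
          rw [Finset.mem_erase]
          exact ⟨by rintro rfl; exact hP hj.2, mem_univ _⟩
        have h7 := h6 (fun j => A i j) (h.loopless i)
        have h8 := h6 (fun j => A j i) (h.loopless i)
        have h9 := h.balanced i
        constructor
        · change (univ.filter fun j => i ≠ j ∧ ¬ A i j).card = _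
          rw [h7]
          change n - 1 - outdeg A i = _
          omega
        · change (univ.filter fun j => j ≠ i ∧ ¬ A j i).card = _
          have h10 : (univ.filter fun j => j ≠ i ∧ ¬ A j i) = univ.filter fun j => i ≠ j ∧ ¬ A j i := by
            ext j; simp [eq_comm]
          rw [h10, h8]
          change n - 1 - indeg A i = _
          omega
      · left
        intro i
        have h5 := h4 i
        rw [sum_S h] at h5
        have h9 := h.balanced i
        constructor
        · omega
        · omega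

end Q104.Digraph
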