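import Pool.Agent.Q104.Chain

/-!
# Test function on a chain of vertices of degree two
-/

set_option autoImplicit false

namespace Pool.Agent.Q104.Chain

open Finset Pool.Agent.Q104.Lam2

/-- two tents of opposite signs on `0, …, 4k` -/
noncomputable def g (k i : ℕ) : ℝ :=
  max 0 ((k : ℝ) - |(i : ℝ) - k|) - max 0 ((k : ℝ) - |(i : ℝ) - 3 * k|)

lemma g_reflect (k i : ℕ) (hi : i ≤ 4 * k) : g k (4 * k - i) = - g k i := by
  unfold g
  have h1 : ((4 * k - i : ℕ) : ℝ) = 4 * k - i := by
    rw [Nat.cast_sub hi]; push_cast; ring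
  rw [h1]
  have h2 : |(4 * (k : ℝ) - i) - k| = |(i : ℝ) - 3 * k| := by
    rw [← abs_neg]; congr 1; ring
  have h3 : |(4 * (k : ℝ) - i) - 3 * k| = |(i : ℝ) - k| := by
    rw [← abs_neg]; congr 1; ring
  rw [h2, h3]; ring

lemma g_sum (k : ℕ) : ∑ i ∈ range (4 * k + 1), g k i = 0 := by
  have h := Finset.sum_range_reflect (g k) (4 * k + 1)
  have h2 : ∑ j ∈ range (4 * k + 1), g k (4 * k + 1 - 1 - j) =
      - ∑ j ∈ range (4 * k + 1), g k j := by
    rw [← Finset.sum_neg_distrib]
    apply Finset.sum_congr rfl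
    intro j hj
    rw [Finset.mem_range] at hj
    rw [Nat.add_sub_cancel]
    exact g_reflect k j (by omega)
  linarith

lemma g_zero (k : ℕ) : g k 0 = 0 := by
  unfold g
  have h1 : |((0 : ℕ) : ℝ) - k| = k := by
    rw [Nat.cast_zero, zero_sub, abs_neg, abs_of_nonneg (Nat.cast_nonneg k)]
  have h2 : |((0 : ℕ) : ℝ) - 3 * k| = 3 * k := by
    rw [Nat.cast_zero, zero_sub, abs_neg, abs_of_nonneg (by positivity)]
  rw [h1, h2]
  have h3 : (k : ℝ) - 3 * k ≤ 0 := by
    have : (0 : ℝ) ≤ k := Nat.cast_nonneg k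
    linarith
  rw [max_eq_left h3]; simp

lemma g_last (k : ℕ) : g k (4 * k) = 0 := by
  have := g_reflect k 0 (Nat.zero_le _)
  rw [g_zero] at this
  simpa using this

lemma g_low (k i : ℕ) (hi : i ≤ k) : g k i = i := by
  unfold g
  have hik : (i : ℝ) ≤ k := by exact_mod_cast hi
  have hi0 : (0 : ℝ) ≤ i := Nat.cast_nonneg i
  have h1 : |(i : ℝ) - k| = k - i := by
    rw [abs_sub_comm, abs_of_nonneg (by linarith)]
  have h2 : |(i : ℝ) - 3 * k| = 3 * k - i := by
    rw [abs_sub_comm, abs_of_nonneg (by linarith)]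
  rw [h1, h2, max_eq_right (by linarith), max_eq_left (by linarith)]
  ring

lemma tent_lip (k c a b : ℝ) : |max 0 (k - |a - c|) - max 0 (k - |b - c|)| ≤ |a - b| := by
  have h1 : |max 0 (k - |a - c|) - max 0 (k - |b - c|)| ≤ |(k - |a - c|) - (k - |b - c|)| := by
    have := abs_max_sub_max_le_abs (k - |a - c|) (k - |b - c|) 0
    rwa [max_comm _ (0 : ℝ), max_comm _ (0 : ℝ)] at this
  refine h1.trans ?_
  have h2 : (k - |a - c|) - (k - |b - c|) = |b - c| - |a - c| := by ring
  rw [h2]
  refine (abs_abs_sub_abs_le_abs_sub _ _).trans ?_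
  rw [abs_sub_comm]
  apply le_of_eq
  congr 1
  ring

lemma g_lip (k i : ℕ) : (g k i - g k (i + 1)) ^ 2 ≤ 4 := by
  have h1 := tent_lip k k i ((i + 1 : ℕ) : ℝ)
  have h2 := tent_lip k (3 * k) i ((i + 1 : ℕ) : ℝ)
  have h3 : |(i : ℝ) - ((i + 1 : ℕ) : ℝ)| = 1 := by
    push_cast
    rw [show (i : ℝ) - (i + 1) = -1 by ring]
    simp
  rw [h3] at h1 h2
  have h4 : |g k i - g k (i + 1)| ≤ 2 := by
    unfold g
    rw [abs_le] at h1 h2 ⊢
    constructor <;> linarith [h1.1, h1.2, h2.1, h2.2]
  rw [abs_le] at h4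
  nlinarith [h4.1, h4.2]

lemma sum_sq_ge (k : ℕ) : (k : ℝ) ^ 3 / 3 ≤ ∑ i ∈ range (k + 1), (i : ℝ) ^ 2 := by
  induction k with
  | zero => simp
  | succ k ih =>
    rw [Finset.sum_range_succ]
    push_cast
    nlinarith [(Nat.cast_nonneg k : (0 : ℝ) ≤ k)]

variable {V : Type} [Fintype V] [DecidableEq V] {G : SimpleGraph V} [DecidableRel G.Adj]

/-- a chain of `4k + 1` distinct vertices of degree two forces `λ₂ ≤ 96 / k²` -/
lemma lam2_le_chain (hG : ∀ v, 2 ≤ G.degree v) {v u : V} (huv : G.Adj v u) {k : ℕ} (hk : 1 ≤ k)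
    (hdeg : ∀ i ≤ 4 * k, G.degree (q G v u i).1 = 2)
    (hinj : ∀ j ≤ 4 * k, ∀ i < j, (q G v u i).1 ≠ (q G v u j).1) :
    lam2 G * (k : ℝ) ^ 2 ≤ 96 := by
  set p : ℕ → V := fun i => (q G v u i).1 with hp
  have hinj' : ∀ i ≤ 4 * k, ∀ j ≤ 4 * k, p i = p j → i = j := by
    intro i hi j hj h
    rcases Nat.lt_trichotomy i j with h1 | h1 | h1
    · exact absurd h (hinj j hj i h1)
    · exact h1
    · exact absurd h.symm (hinj i hi j h1)
  set f : V → ℝ := fun x => ∑ i ∈ range (4 * k + 1), if p i = x then g k i else 0 with hf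
  have hfp : ∀ i ≤ 4 * k, f (p i) = g k i := by
    intro i hi
    simp only [hf]
    rw [Finset.sum_eq_single i]
    · simp
    · intro j hj hji
      rw [Finset.mem_range] at hj
      rw [if_neg]
      intro h
      exact hji (hinj' j (by omega) i hi h)
    · intro h
      exact absurd (Finset.mem_range.2 (by omega)) h
  have hf0 : ∀ x, (∀ i ≤ 4 * k, p i ≠ x) → f x = 0 := by
    intro x hx
    simp only [hf]
    apply Finset.sum_eq_zero
    intro i hi
    rw [Finset.mem_range] at hi
    rw [if_neg (hx i (by omega))]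
  have hsum : ∑ x, f x = 0 := by
    simp only [hf]
    rw [Finset.sum_comm]
    simp only [Finset.sum_ite_eq, Finset.mem_univ, if_true]
    exact g_sum k
  have hsq : (k : ℝ) ^ 3 / 3 ≤ ∑ x, f x ^ 2 := by
    calc (k : ℝ) ^ 3 / 3 ≤ ∑ i ∈ range (k + 1), (i : ℝ) ^ 2 := sum_sq_ge k
      _ = ∑ i ∈ range (k + 1), f (p i) ^ 2 := by
          apply Finset.sum_congr rfl
          intro i hi
          rw [Finset.mem_range] at hi
          rw [hfp i (by omega), g_low k i (by omega)]
      _ = ∑ x ∈ (range (k + 1)).image p, f x ^ 2 := by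
          rw [Finset.sum_image]
          intro i hi j hj h
          rw [Finset.mem_coe, Finset.mem_range] at hi hj
          exact hinj' i (by omega) j (by omega) h
      _ ≤ ∑ x, f x ^ 2 :=
          Finset.sum_le_sum_of_subset_of_nonneg (Finset.subset_univ _) fun _ _ _ => sq_nonneg _
  have hk' : (1 : ℝ) ≤ k := by exact_mod_cast hk
  have hfne : f ≠ 0 := by
    intro h
    have h1 : ∑ x, f x ^ 2 = 0 := by rw [h]; simp
    rw [h1] at hsq
    have : 0 < (k : ℝ) ^ 3 / 3 := by positivity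
    linarith
  -- interior vertices
  set I : Finset V := (Finset.Ico 1 (4 * k)).image p with hI
  have hIcard : (I.card : ℝ) ≤ 4 * k := by
    have h1 : I.card ≤ (Finset.Ico 1 (4 * k)).card := Finset.card_image_le
    rw [Nat.card_Ico] at h1
    have h2 : I.card ≤ 4 * k := by omega
    exact_mod_cast h2
  have hnotI : ∀ x, x ∉ I → f x = 0 := by
    intro x hx
    by_cases h : ∃ i ≤ 4 * k, p i = x
    · obtain ⟨i, hi, rfl⟩ := h
      rw [hfp i hi]
      have : i = 0 ∨ i = 4 * k := by
        by_contra hcon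
        push Not at hcon
        apply hx
        rw [hI, Finset.mem_image]
        exact ⟨i, Finset.mem_Ico.2 ⟨by omega, by omega⟩, rfl⟩
      rcases this with rfl | rfl
      · exact g_zero k
      · exact g_last k
    · push Not at h
      exact hf0 x h
  have hinner : ∀ x ∈ I, ∀ y, G.Adj x y → (f x - f y) ^ 2 ≤ 4 := by
    intro x hx y hxy
    rw [hI, Finset.mem_image] at hx
    obtain ⟨i, hi, rfl⟩ := hx
    rw [Finset.mem_Ico] at hi
    obtain ⟨i', rfl⟩ : ∃ i', i = i' + 1 := ⟨i - 1, by omega⟩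
    rcases q_nbr hG huv (hdeg (i' + 1) (by omega)) hxy with h | h
    · have h1 : y = p i' := h
      rw [h1, hfp _ (by omega), hfp _ (by omega)]
      have := g_lip k i'
      nlinarith
    · have h1 : y = p (i' + 1 + 1) := h
      rw [h1, hfp _ (by omega), hfp _ (by omega)]
      exact g_lip k (i' + 1)
  have hedge : ∀ x y, (if G.Adj x y then (f x - f y) ^ 2 else 0) ≤
      (if x ∈ I then (if G.Adj x y then 4 else 0) else 0) +
      (if y ∈ I then (if G.Adj y x then (4 : ℝ) else 0) else 0) := by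
    intro x y
    by_cases hxy : G.Adj x y
    · rw [if_pos hxy, if_pos hxy, if_pos hxy.symm]
      by_cases hx : x ∈ I
      · rw [if_pos hx]
        have := hinner x hx y hxy
        split_ifs <;> linarith
      · rw [if_neg hx]
        by_cases hy : y ∈ I
        · rw [if_pos hy]
          have := hinner y hy x hxy.symm
          nlinarith
        · rw [if_neg hy, hnotI x hx, hnotI y hy]; norm_num
    · rw [if_neg hxy]
      split_ifs <;> norm_num
  have hdegI : ∀ x ∈ I, ∑ y, (if G.Adj x y then (4 : ℝ) else 0) = 8 := by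
    intro x hx
    rw [hI, Finset.mem_image] at hx
    obtain ⟨i, hi, rfl⟩ := hx
    rw [Finset.mem_Ico] at hi
    have h2 := hdeg i (by omega)
    rw [← Finset.sum_filter, Finset.sum_const, nsmul_eq_mul]
    have : (Finset.univ.filter (fun y => G.Adj (p i) y)).card = 2 := by
      rw [← h2, ← SimpleGraph.card_neighborFinset_eq_degree]
      congr 1
      ext y; simp [hp]
    rw [this]; norm_num
  have hE : ∑ x, ∑ y, (if G.Adj x y then (f x - f y) ^ 2 else 0) ≤ 64 * k := by
    have hA : ∑ x, ∑ y, (if x ∈ I then (if G.Adj x y then (4 : ℝ) else 0) else 0) = 8 * I.card := by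
      have : ∀ x, ∑ y, (if x ∈ I then (if G.Adj x y then (4 : ℝ) else 0) else 0) =
          if x ∈ I then 8 else 0 := by
        intro x
        by_cases hx : x ∈ I
        · simp only [hx, if_true]; exact hdegI x hx
        · simp [hx]
      simp only [this]
      rw [← Finset.sum_filter, Finset.sum_const, nsmul_eq_mul, mul_comm]
      congr 2
      simp
    have hB : ∑ x, ∑ y, (if y ∈ I then (if G.Adj y x then (4 : ℝ) else 0) else 0) = 8 * I.card := by
      rw [Finset.sum_comm, hA]
    calc ∑ x, ∑ y, (if G.Adj x y then (f x - f y) ^ 2 else 0)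
        ≤ ∑ x, ∑ y, ((if x ∈ I then (if G.Adj x y then 4 else 0) else 0) +
          (if y ∈ I then (if G.Adj y x then (4 : ℝ) else 0) else 0)) :=
          Finset.sum_le_sum fun x _ => Finset.sum_le_sum fun y _ => hedge x y
      _ = 8 * I.card + 8 * I.card := by
          simp only [Finset.sum_add_distrib]
          rw [hA, hB]
      _ ≤ 64 * k := by linarith
  have hmain := lam2_le G hfne hsum
  have h5 : lam2 G * ∑ x, f x ^ 2 ≤ 32 * k := by linarith
  by_cases hneg : lam2 G < 0
  · have : lam2 G * (k : ℝ) ^ 2 ≤ 0 := mul_nonpos_of_nonpos_of_nonneg hneg.le (by positivity)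
    linarith
  · push Not at hneg
    have h6 : lam2 G * ((k : ℝ) ^ 3 / 3) ≤ 32 * k :=
      (mul_le_mul_of_nonneg_left hsq hneg).trans h5
    have h7 : (lam2 G * (k : ℝ) ^ 2) * k ≤ 96 * k := by nlinarith
    exact le_of_mul_le_mul_right h7 (by linarith)

end Pool.Agent.Q104.Chain
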