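import Pool.Agent.Q104.SSPDef
import Pool.Agent.Q104.G13

/-!
# The 4-cycle with pendant paths of lengths 2 and 3 at adjacent vertices is not in `𝒢^SSP`
-/

set_option autoImplicit false

namespace Pool.Agent.Q104.SSP

open Finset Matrix

/-- The graph obtained from `G` by adding a new vertex `none` adjacent only to `v`. -/
def attach {V : Type} (G : SimpleGraph V) (v : V) : SimpleGraph (Option V) where
  Adj a b := (∃ x y, a = some x ∧ b = some y ∧ G.Adj x y) ∨ (a = none ∧ b = some v) ∨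
    (a = some v ∧ b = none)
  symm := ⟨by
    rintro a b (⟨x, y, h1, h2, h3⟩ | ⟨h1, h2⟩ | ⟨h1, h2⟩)
    · exact Or.inl ⟨y, x, h2, h1, h3.symm⟩
    · exact Or.inr (Or.inr ⟨h2, h1⟩)
    · exact Or.inr (Or.inl ⟨h2, h1⟩)⟩
  loopless := ⟨by
    rintro a (⟨x, y, h1, h2, h3⟩ | ⟨h1, h2⟩ | ⟨h1, h2⟩)
    · rw [h1] at h2
      exact h3.ne (Option.some.inj h2)
    · rw [h1] at h2; exact absurd h2 (by simp)
    · rw [h1] at h2; exact absurd h2 (by simp)⟩

/-- a weighted pencil gives commuting symmetric matrices -/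
lemma pencil {V : Type} [Fintype V] {S T : V → V → ℝ} {w : V → ℝ} (hw : ∀ i, 0 < w i)
    (h : ∀ i j, ∑ k, S i k * T k j / w k = ∑ k, T i k * S k j / w k) :
    (Matrix.of fun i j => S i j / (√(w i) * √(w j))) *
      (Matrix.of fun i j => T i j / (√(w i) * √(w j))) =
    (Matrix.of fun i j => T i j / (√(w i) * √(w j))) *
      (Matrix.of fun i j => S i j / (√(w i) * √(w j))) := by
  have key : ∀ (P Q : V → V → ℝ) (i j : V),
      ∑ k, P i k / (√(w i) * √(w k)) * (Q k j / (√(w k) * √(w j))) =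
      (∑ k, P i k * Q k j / w k) / (√(w i) * √(w j)) := by
    intro P Q i j
    rw [Finset.sum_div]
    apply Finset.sum_congr rfl
    intro k _
    have hk : √(w k) * √(w k) = w k := Real.mul_self_sqrt (hw k).le
    have h1 : √(w k) ≠ 0 := (Real.sqrt_pos.2 (hw k)).ne'
    have h2 : √(w i) ≠ 0 := (Real.sqrt_pos.2 (hw i)).ne'
    have h3 : √(w j) ≠ 0 := (Real.sqrt_pos.2 (hw j)).ne'
    rw [show P i k * Q k j / w k = P i k * Q k j / (√(w k) * √(w k)) by rw [hk]]
    field_simp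
  ext i j
  rw [Matrix.mul_apply, Matrix.mul_apply]
  simp only [Matrix.of_apply]
  rw [key S T, key T S, h]

/-- integer data -/
def SZ : Fin 9 → Fin 9 → ℤ := ![
  ![24, 6, 0, 0, 0, 0, 0, 0, 0],
  ![6, 24, 6, 0, 0, 0, 0, 0, 0],
  ![0, 6, 1, 8, 0, 8, 0, 0, 0],
  ![0, 0, 8, 4, 6, 0, 0, 0, 0],
  ![0, 0, 0, 6, 0, 8, 0, 0, 0],
  ![0, 0, 8, 0, 8, 5, 4, 0, 0],
  ![0, 0, 0, 0, 0, 4, 12, 6, 0],
  ![0, 0, 0, 0, 0, 0, 6, 4, 6],
  ![0, 0, 0, 0, 0, 0, 0, 6, 36]]

/-- integer data -/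
def TZ : Fin 9 → Fin 9 → ℤ := ![
  ![0, 0, 0, 6, 0, -6, 3, 17, 93],
  ![0, 0, 0, -12, -6, 12, 36, 17, -42],
  ![0, 0, 0, 0, 12, 0, 12, -6, 0],
  ![6, -12, 0, 0, 0, 12, -6, -2, 6],
  ![0, -6, 12, 0, 0, 0, -12, 6, 0],
  ![-6, 12, 0, 12, 0, 0, 0, 0, 0],
  ![3, 36, 12, -6, -12, 0, 0, 0, 0],
  ![17, 17, -6, -2, 6, 0, 0, 0, 0],
  ![93, -42, 0, 6, 0, 0, 0, 0, 0]]

/-- integer weights; `WZ k * WI k = 6` -/
def WZ : Fin 9 → ℤ := ![3, 3, 1, 1, 1, 1, 2, 1, 6]
def WI : Fin 9 → ℤ := ![2, 2, 6, 6, 6, 6, 3, 6, 1]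

lemma WZ_pos : ∀ i, 0 < WZ i := by decide
lemma WZ_WI : ∀ i, WZ i * WI i = 6 := by decide
lemma SZ_symm : ∀ i j, SZ i j = SZ j i := by decide
lemma TZ_symm : ∀ i j, TZ i j = TZ j i := by decide
lemma ST_zero : ∀ i j, SZ i j * TZ i j = 0 := by decide
lemma TZ_diag : ∀ i, TZ i i = 0 := by decide
set_option maxRecDepth 100000 in
lemma ST_comm : ∀ i j, ∑ k, SZ i k * TZ k j * WI k = ∑ k, TZ i k * SZ k j * WI k := by
  intro i j
  simp only [Fin.sum_univ_succ, Fin.sum_univ_zero]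
  revert i j
  decide

/-- the position of a vertex on the path -/
def pos : Option (Fin 8) → Fin 9
  | none => 0
  | some i => i.succ

lemma pos_surj_sum (f : Fin 9 → ℝ) : ∑ k : Option (Fin 8), f (pos k) = ∑ k, f k := by
  rw [Fintype.sum_option, Fin.sum_univ_succ f]
  rfl

instance : DecidableRel (attach G13 0).Adj := fun a b =>
  inferInstanceAs (Decidable ((∃ x y, a = some x ∧ b = some y ∧ G13.Adj x y) ∨
    (a = none ∧ b = some 0) ∨ (a = some 0 ∧ b = none)))

lemma SZ_adj : ∀ a b : Option (Fin 8), a ≠ b →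
    (SZ (pos a) (pos b) ≠ 0 ↔ (attach G13 0).Adj a b) := by decide

/-- **The 4-cycle with pendant paths of lengths 2 and 3 at adjacent vertices is not in
`𝒢^SSP`.** -/
theorem attach_G13_not_GSSP : ¬ GSSP (attach G13 0) := by
  intro hG
  set w : Option (Fin 8) → ℝ := fun a => (WZ (pos a) : ℝ) with hw
  set S : Option (Fin 8) → Option (Fin 8) → ℝ := fun a b => (SZ (pos a) (pos b) : ℝ) with hS
  set T : Option (Fin 8) → Option (Fin 8) → ℝ := fun a b => (TZ (pos a) (pos b) : ℝ) with hT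
  have hw0 : ∀ a, 0 < w a := by
    intro a
    simp only [hw]
    exact_mod_cast WZ_pos (pos a)
  have hsq : ∀ a b, √(w a) * √(w b) ≠ 0 := fun a b =>
    mul_ne_zero (Real.sqrt_pos.2 (hw0 a)).ne' (Real.sqrt_pos.2 (hw0 b)).ne'
  have hwi : ∀ i : Fin 9, (1 : ℝ) / WZ i = WI i / 6 := by
    intro i
    have h1 : (WZ i : ℝ) * WI i = 6 := by exact_mod_cast WZ_WI i
    have h2 : (WZ i : ℝ) ≠ 0 := by
      have : (0 : ℝ) < WZ i := by exact_mod_cast WZ_pos i
      exact this.ne'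
    field_simp
    linarith
  have hcomm : ∀ a b, ∑ k, S a k * T k b / w k = ∑ k, T a k * S k b / w k := by
    intro a b
    have h1 := ST_comm (pos a) (pos b)
    have h2 : (∑ k, (SZ (pos a) k : ℝ) * TZ k (pos b) * WI k) =
        ∑ k, (TZ (pos a) k : ℝ) * SZ k (pos b) * WI k := by exact_mod_cast h1
    have h3 : ∀ (P Q : Fin 9 → ℤ), ∑ k : Option (Fin 8), (P (pos k) : ℝ) * Q (pos k) / w k =
        (∑ k, (P k : ℝ) * Q k * WI k) / 6 := by
      intro P Q
      rw [Finset.sum_div, ← pos_surj_sum (fun k => (P k : ℝ) * Q k * WI k / 6)]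
      apply Finset.sum_congr rfl
      intro k _
      simp only [hw]
      rw [div_eq_mul_one_div, hwi]
      ring
    simp only [hS, hT]
    rw [h3 (fun k => SZ (pos a) k) (fun k => TZ k (pos b)),
      h3 (fun k => TZ (pos a) k) (fun k => SZ k (pos b)), h2]
  have hA : InS (attach G13 0) (Matrix.of fun i j => S i j / (√(w i) * √(w j))) := by
    refine ⟨?_, ?_⟩
    · intro a b
      simp only [Matrix.of_apply, hS]
      rw [SZ_symm (pos a) (pos b), mul_comm (√(w a))]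
    · intro a b hab
      rw [← SZ_adj a b hab, Matrix.of_apply]
      simp only [hS]
      rw [Ne, div_eq_zero_iff, not_or]
      constructor
      · intro h h0
        apply h.1
        rw [h0]; simp
      · intro h
        exact ⟨fun h0 => h (by exact_mod_cast h0), hsq a b⟩
  have hres := hG _ hA (Matrix.of fun i j => T i j / (√(w i) * √(w j))) (by
      intro a b
      simp only [Matrix.of_apply, hT]
      rw [TZ_symm (pos a) (pos b), mul_comm (√(w a))]) (by
      intro a b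
      simp only [Matrix.of_apply, hS, hT]
      have : (SZ (pos a) (pos b) : ℝ) * TZ (pos a) (pos b) = 0 := by
        exact_mod_cast ST_zero (pos a) (pos b)
      rw [div_mul_div_comm, this, zero_div]) (by
      intro a
      simp only [Matrix.of_apply, hT]
      rw [TZ_diag (pos a)]
      simp) (pencil hw0 hcomm)
  have h1 := congrFun (congrFun hres none) (some 2)
  rw [Matrix.of_apply, Matrix.zero_apply, div_eq_zero_iff] at h1
  rcases h1 with h | h
  · simp only [hT] at h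
    have h2 : TZ (pos none) (pos (some 2)) = 6 := by decide
    rw [h2] at h
    norm_num at h
  · exact hsq _ _ h

end Pool.Agent.Q104.SSP
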