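import Mathlib

/-!
# Elementary tools on eigenvalues of real symmetric matrices
-/

set_option autoImplicit false

namespace Q104.Spec

open Matrix Finset

variable {V : Type*} [Fintype V] [DecidableEq V]

/-- coordinates in the eigenbasis -/
noncomputable def ev {A : Matrix V V ℝ} (hA : A.IsHermitian) (j : V) : V → ℝ :=
  fun i => (hA.eigenvectorBasis j) i

lemma mulVec_ev {A : Matrix V V ℝ} (hA : A.IsHermitian) (j : V) :
    A *ᵥ ev hA j = hA.eigenvalues j • ev hA j := by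
  have := hA.mulVec_eigenvectorBasis j
  exact this

lemma ev_dot {A : Matrix V V ℝ} (hA : A.IsHermitian) (i j : V) :
    ev hA i ⬝ᵥ ev hA j = if i = j then 1 else 0 := by
  have h := hA.eigenvectorBasis.orthonormal
  rw [orthonormal_iff_ite] at h
  have := h i j
  rw [← this, PiLp.inner_apply]
  simp only [dotProduct, ev]
  refine Finset.sum_congr rfl fun k _ => ?_
  simp [mul_comm]

/-- expansion of a vector in the eigenbasis -/
lemma expand {A : Matrix V V ℝ} (hA : A.IsHermitian) (x : V → ℝ) :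
    x = ∑ j, (ev hA j ⬝ᵥ x) • ev hA j := by
  have h := hA.eigenvectorBasis.sum_repr (WithLp.toLp 2 x)
  have h2 := congrArg (fun z => (WithLp.ofLp z : V → ℝ)) h
  simp only at h2
  rw [WithLp.ofLp_sum] at h2
  conv_lhs => rw [← WithLp.ofLp_toLp 2 x, ← h2]
  refine Finset.sum_congr rfl fun j _ => ?_
  rw [WithLp.ofLp_smul, OrthonormalBasis.repr_apply_apply]
  congr 1
  rw [PiLp.inner_apply]
  simp only [dotProduct, ev]
  refine Finset.sum_congr rfl fun k _ => ?_
  simp [mul_comm]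

lemma dot_expand {A : Matrix V V ℝ} (hA : A.IsHermitian) (x y : V → ℝ) :
    x ⬝ᵥ y = ∑ j, (ev hA j ⬝ᵥ x) * (ev hA j ⬝ᵥ y) := by
  conv_lhs => rw [expand hA x]
  rw [sum_dotProduct]
  refine Finset.sum_congr rfl fun j _ => ?_
  rw [smul_dotProduct, smul_eq_mul]

lemma ev_dot_mulVec {A : Matrix V V ℝ} (hA : A.IsHermitian) (j : V) (x : V → ℝ) :
    ev hA j ⬝ᵥ (A *ᵥ x) = hA.eigenvalues j * (ev hA j ⬝ᵥ x) := by
  have hT : Aᵀ = A := by
    have := hA
    rwa [Matrix.IsHermitian, Matrix.conjTranspose_eq_transpose_of_trivial] at this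
  rw [dotProduct_mulVec, ← mulVec_transpose, hT, mulVec_ev, smul_dotProduct, smul_eq_mul]

/-- the quadratic form in eigen-coordinates -/
lemma quad_expand {A : Matrix V V ℝ} (hA : A.IsHermitian) (x : V → ℝ) :
    x ⬝ᵥ (A *ᵥ x) = ∑ j, hA.eigenvalues j * (ev hA j ⬝ᵥ x) ^ 2 := by
  rw [dot_expand hA]
  refine Finset.sum_congr rfl fun j _ => ?_
  rw [ev_dot_mulVec]; ring

lemma sq_expand {A : Matrix V V ℝ} (hA : A.IsHermitian) (x : V → ℝ) :
    x ⬝ᵥ x = ∑ j, (ev hA j ⬝ᵥ x) ^ 2 := by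
  rw [dot_expand hA]
  refine Finset.sum_congr rfl fun j _ => ?_
  ring

lemma quad_le {A : Matrix V V ℝ} (hA : A.IsHermitian) {t : ℝ} (h : ∀ j, hA.eigenvalues j ≤ t)
    (x : V → ℝ) : x ⬝ᵥ (A *ᵥ x) ≤ t * (x ⬝ᵥ x) := by
  rw [quad_expand hA, sq_expand hA, Finset.mul_sum]
  exact Finset.sum_le_sum fun j _ => mul_le_mul_of_nonneg_right (h j) (sq_nonneg _)

lemma le_quad {A : Matrix V V ℝ} (hA : A.IsHermitian) {t : ℝ} (h : ∀ j, t ≤ hA.eigenvalues j)
    (x : V → ℝ) : t * (x ⬝ᵥ x) ≤ x ⬝ᵥ (A *ᵥ x) := by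
  rw [quad_expand hA, sq_expand hA, Finset.mul_sum]
  exact Finset.sum_le_sum fun j _ => mul_le_mul_of_nonneg_right (h j) (sq_nonneg _)

/-- an eigenvector with eigenvalue `t` shows that `t` is listed -/
lemma exists_eigenvalue {A : Matrix V V ℝ} (hA : A.IsHermitian) {t : ℝ} {x : V → ℝ} (hx : x ≠ 0)
    (h : A *ᵥ x = t • x) : ∃ j, hA.eigenvalues j = t := by
  by_contra hcon
  push Not at hcon
  apply hx
  have h0 : ∀ j, ev hA j ⬝ᵥ x = 0 := by
    intro j
    have h1 := ev_dot_mulVec hA j x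
    rw [h, dotProduct_smul, smul_eq_mul] at h1
    have h2 : (hA.eigenvalues j - t) * (ev hA j ⬝ᵥ x) = 0 := by rw [sub_mul]; linarith
    rcases mul_eq_zero.mp h2 with h3 | h3
    · exact absurd (sub_eq_zero.mp h3) (hcon j)
    · exact h3
  rw [expand hA x]
  refine Finset.sum_eq_zero fun j _ => ?_
  rw [h0 j, zero_smul]

/-- entries in terms of the eigenbasis -/
lemma entry {A : Matrix V V ℝ} (hA : A.IsHermitian) (a b : V) :
    A a b = ∑ j, hA.eigenvalues j * (ev hA j a * ev hA j b) := by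
  have h1 : A a b = (Pi.single a (1 : ℝ)) ⬝ᵥ (A *ᵥ (Pi.single b (1 : ℝ))) := by
    simp
  rw [h1, dot_expand hA]
  refine Finset.sum_congr rfl fun j _ => ?_
  rw [ev_dot_mulVec]
  simp only [dotProduct_single, mul_one]
  ring

lemma trace_mul_expand {A : Matrix V V ℝ} (hA : A.IsHermitian) (M : Matrix V V ℝ) :
    (M * A).trace = ∑ j, hA.eigenvalues j * (ev hA j ⬝ᵥ (M *ᵥ ev hA j)) := by
  simp only [Matrix.trace, Matrix.diag_apply, Matrix.mul_apply]
  have h1 : ∀ a b : V, M a b * A b a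
      = ∑ j, hA.eigenvalues j * (ev hA j a * (M a b * ev hA j b)) := by
    intro a b
    rw [entry hA b a, Finset.mul_sum]
    refine Finset.sum_congr rfl fun j _ => ?_
    ring
  simp only [h1]
  rw [Finset.sum_congr rfl fun a _ => Finset.sum_comm, Finset.sum_comm]
  refine Finset.sum_congr rfl fun j _ => ?_
  simp only [dotProduct, Matrix.mulVec, Finset.mul_sum]

/-- the sum of the moduli of the eigenvalues bounds the trace of `M * A` for every contraction `M` -/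
lemma trace_le_nuc {A : Matrix V V ℝ} (hA : A.IsHermitian) (M : Matrix V V ℝ)
    (hM : ∀ x : V → ℝ, |x ⬝ᵥ (M *ᵥ x)| ≤ x ⬝ᵥ x) :
    (M * A).trace ≤ ∑ j, |hA.eigenvalues j| := by
  rw [trace_mul_expand hA]
  refine Finset.sum_le_sum fun j _ => ?_
  have h1 := hM (ev hA j)
  rw [ev_dot, if_pos rfl] at h1
  calc hA.eigenvalues j * (ev hA j ⬝ᵥ (M *ᵥ ev hA j))
      ≤ |hA.eigenvalues j * (ev hA j ⬝ᵥ (M *ᵥ ev hA j))| := le_abs_self _
    _ = |hA.eigenvalues j| * |ev hA j ⬝ᵥ (M *ᵥ ev hA j)| := abs_mul _ _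
    _ ≤ |hA.eigenvalues j| * 1 := mul_le_mul_of_nonneg_left h1 (abs_nonneg _)
    _ = |hA.eigenvalues j| := mul_one _

end Q104.Spec
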