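import Mathlib
import Pool.Agent.Q104.Spec

/-!
# Eigenvalues of a regular graph from a Hoffman polynomial; sorted eigenvalues
-/

set_option autoImplicit false

namespace Q104.Hoff

open Matrix Finset Q104.Spec

variable {V : Type*} [Fintype V] [DecidableEq V]

lemma isSymm_of {A : Matrix V V ℝ} (hA : A.IsHermitian) : Aᵀ = A := by
  have := hA
  rwa [Matrix.IsHermitian, Matrix.conjTranspose_eq_transpose_of_trivial] at this

/-- If `M`, a polynomial in the symmetric matrix `A`, is a nonzero multiple of the all-ones matrix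
and `A` has constant row sums `d`, then `d` is a simple eigenvalue and all other eigenvalues are
roots of the polynomial. -/
theorem hoff [Nonempty V] {A : Matrix V V ℝ} (hA : A.IsHermitian) (M : Matrix V V ℝ) (f : ℝ → ℝ)
    (hM : ∀ (v : V → ℝ) (t : ℝ), A *ᵥ v = t • v → M *ᵥ v = f t • v)
    (c : ℝ) (hc : c ≠ 0) (hMJ : ∀ i j, M i j = c) (d : ℝ)
    (hd : A *ᵥ (fun _ => 1) = d • (fun _ => (1 : ℝ))) :
    (∀ j, hA.eigenvalues j ≠ d → f (hA.eigenvalues j) = 0) ∧
      (∀ i j, hA.eigenvalues i = d → hA.eigenvalues j = d → i = j) := by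
  have hMv : ∀ v : V → ℝ, M *ᵥ v = fun _ => c * ∑ i, v i := by
    intro v
    ext i
    simp only [Matrix.mulVec, dotProduct, hMJ, Finset.mul_sum]
  have hMe : ∀ j, M *ᵥ ev hA j = f (hA.eigenvalues j) • ev hA j := fun j => hM _ _ (mulVec_ev hA j)
  have hne : ∀ j, ∃ a, ev hA j a ≠ 0 := by
    intro j
    by_contra h
    push Not at h
    have h1 := ev_dot hA j j
    rw [if_pos rfl] at h1
    have h2 : ev hA j = 0 := funext h
    rw [h2] at h1
    simp at h1
  constructor
  · intro j hj
    have h1 : (fun _ => (1 : ℝ)) ⬝ᵥ (A *ᵥ ev hA j) = d * ∑ a, ev hA j a := by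
      rw [dotProduct_mulVec, ← mulVec_transpose, isSymm_of hA, hd, smul_dotProduct]
      simp [dotProduct]
    rw [mulVec_ev, dotProduct_smul] at h1
    have h2 : (fun _ => (1 : ℝ)) ⬝ᵥ ev hA j = ∑ a, ev hA j a := by simp [dotProduct]
    rw [h2, smul_eq_mul] at h1
    have h3 : (hA.eigenvalues j - d) * ∑ a, ev hA j a = 0 := by rw [sub_mul]; linarith
    have h4 : ∑ a, ev hA j a = 0 := by
      rcases mul_eq_zero.mp h3 with h | h
      · exact absurd (sub_eq_zero.mp h) hj
      · exact h
    obtain ⟨a, ha⟩ := hne j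
    have h5 := congrFun (hMe j) a
    rw [hMv, h4] at h5
    simp only [mul_zero, Pi.smul_apply, smul_eq_mul] at h5
    rcases mul_eq_zero.mp h5.symm with h | h
    · exact h
    · exact absurd h ha
  · have h1 : f d ≠ 0 := by
      have h2 := hM _ _ hd
      have h3 := congrFun h2 (Classical.arbitrary V)
      rw [hMv] at h3
      simp only [Finset.sum_const, Finset.card_univ, nsmul_eq_mul, mul_one, Pi.smul_apply,
        smul_eq_mul] at h3
      rw [← h3]
      exact mul_ne_zero hc (by exact_mod_cast Fintype.card_ne_zero)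
    have h2 : ∀ i, hA.eigenvalues i = d → ∃ α : ℝ, α ≠ 0 ∧ ev hA i = fun _ => α := by
      intro i hi
      have h3 := hMe i
      rw [hMv, hi] at h3
      obtain ⟨a, ha⟩ := hne i
      have h4 : ∀ b, ev hA i b = (c * ∑ k, ev hA i k) / f d := by
        intro b
        have := congrFun h3 b
        simp only [Pi.smul_apply, smul_eq_mul] at this
        rw [eq_div_iff h1]
        linarith
      exact ⟨(c * ∑ k, ev hA i k) / f d, (h4 a) ▸ ha, funext h4⟩
    intro i j hi hj
    by_contra hij
    obtain ⟨α, hα, h3⟩ := h2 i hi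
    obtain ⟨β, hβ, h4⟩ := h2 j hj
    have h5 := ev_dot hA i j
    rw [if_neg hij, h3, h4] at h5
    simp only [dotProduct, Finset.sum_const, Finset.card_univ, nsmul_eq_mul] at h5
    have : (Fintype.card V : ℝ) ≠ 0 := by exact_mod_cast Fintype.card_ne_zero
    exact (mul_ne_zero this (mul_ne_zero hα hβ)) h5

/-- the listed eigenvalue with a given rank is the eigenvalue at some index, and distinct ranks
correspond to distinct indices -/
lemma exists_index {A : Matrix V V ℝ} (hA : A.IsHermitian) :
    ∃ e : Fin (Fintype.card V) ≃ V, ∀ k, hA.eigenvalues₀ k = hA.eigenvalues (e k) := by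
  refine ⟨Fintype.equivOfCardEq (Fintype.card_fin _), fun k => ?_⟩
  simp [Matrix.IsHermitian.eigenvalues]

end Q104.Hoff
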