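import Pool.Agent.Q104.PathInduce

set_option autoImplicit false

/-!
The two-sided infinite ladder: an explicit square-summable kernel vector on the path tree of the
ladder with a vertex removed, started at the other vertex of its rung.
-/

namespace Pool.Agent.Q104.PT

/-- The two-sided infinite ladder: the Cartesian product of the bi-infinite path and `K₂`. -/
def ladder : SimpleGraph (ℤ × Bool) where
  Adj p q := (p.2 = q.2 ∧ (q.1 = p.1 + 1 ∨ p.1 = q.1 + 1)) ∨ (p.1 = q.1 ∧ p.2 ≠ q.2)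
  symm := ⟨by
    rintro p q (⟨h1, h2 | h2⟩ | ⟨h1, h2⟩)
    · exact Or.inl ⟨h1.symm, Or.inr h2⟩
    · exact Or.inl ⟨h1.symm, Or.inl h2⟩
    · exact Or.inr ⟨h1.symm, h2.symm⟩⟩
  loopless := ⟨by
    rintro p (⟨h1, h2 | h2⟩ | ⟨h1, h2⟩)
    · omega
    · omega
    · exact h2 rfl⟩

/-- States of a path: the start; a straight block of `k` steps in the half ladder with corner
column `a` and direction `e`, in row `r`; a block that has crossed the rung after `k` steps and
walks back, now at distance `m` from the corner column. The real number carries the value. -/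
inductive St
  | root
  | B (e a : ℤ) (r : Bool) (k : ℕ) (x : ℝ)
  | L (e a : ℤ) (r : Bool) (k m : ℕ) (x : ℝ)

open Classical in
/-- one more vertex -/
noncomputable def step (c : ℤ) : St → ℤ × Bool → St
  | .root, w => .B (w.1 - c) w.1 w.2 0 1
  | .B e a r k x, w =>
      if w.2 = r then .B e a r (k + 1) (if Even k then -x / 2 else x)
      else .L e a r k k (if Even k then -x / 2 else x)
  | .L e a r k m x, w =>
      if w.1 = a + e * ((m + 1 : ℕ) : ℤ) then
        .B e (a + e * ((k + 1 : ℕ) : ℤ)) (!r) 0 (if Even m then x else 0)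
      else .L e a r k (m - 1) (if Even m then x else -x)

/-- the state of a path (end vertex first) -/
noncomputable def st (c : ℤ) : List (ℤ × Bool) → St
  | [] => .root
  | [_] => .root
  | w :: w' :: l => step c (st c (w' :: l)) w

open Classical in
/-- the value of the kernel vector -/
noncomputable def val : St → ℝ
  | .root => 1
  | .B _ _ _ k x => if Even k then 0 else x
  | .L _ _ _ _ m x => if Even m then x else 0

open Classical in
/-- the value at the parent -/
noncomputable def pv : St → ℝ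
  | .root => 0
  | .B _ _ _ k x => if Even k then x else 0
  | .L _ _ _ _ m x => if Even m then 0 else x

open Classical in
/-- the supersolution -/
noncomputable def Phi : St → ℝ
  | .root => 5
  | .B _ _ _ k x => if Even k then (2 + k / 2) * x ^ 2 else (k + 4) * x ^ 2
  | .L _ _ _ k m x =>
      if Even m then (1 + m / 2 + (if m = k then 2 else 0)) * x ^ 2 else ((m + 1) / 2) * x ^ 2

/-- The invariant: `X` is the set of visited or removed vertices, `h` the end vertex. -/
def Inv (X : ℤ × Bool → Prop) (h : ℤ × Bool) : St → Prop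
  | .root => False
  | .B e a r k _ => (e = 1 ∨ e = -1) ∧ h = (a + e * (k : ℤ), r) ∧
      (∀ j : ℕ, (X (a + e * (j : ℤ), r) ↔ j ≤ k) ∧ ¬ X (a + e * (j : ℤ), !r)) ∧
      X (a - e, r) ∧ X (a - e, !r)
  | .L e a r k m _ => (e = 1 ∨ e = -1) ∧ m ≤ k ∧ h = (a + e * (m : ℤ), !r) ∧
      (∀ j : ℕ, (X (a + e * (j : ℤ), r) ↔ j ≤ k) ∧
        (X (a + e * (j : ℤ), !r) ↔ (m ≤ j ∧ j ≤ k))) ∧
      X (a - e, r) ∧ X (a - e, !r)

lemma Phi_nonneg (s : St) : 0 ≤ Phi s := by
  cases s with
  | root => norm_num [Phi]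
  | B e a r k x => simp only [Phi]; split_ifs <;> positivity
  | L e a r k m x => simp only [Phi]; split_ifs <;> positivity

lemma nbr_cases {e a p : ℤ} {k : ℕ} (he : e = 1 ∨ e = -1)
    (h : p = a + e * (k : ℤ) + 1 ∨ a + e * (k : ℤ) = p + 1) :
    p = a + e * ((k + 1 : ℕ) : ℤ) ∨ (k = 0 ∧ p = a - e) ∨
      (∃ k' : ℕ, k = k' + 1 ∧ p = a + e * (k' : ℤ)) := by
  rcases Nat.eq_zero_or_pos k with hk | hk
  · subst hk
    rcases he with rfl | rfl <;> rcases h with h | h
    · left; push_cast at h ⊢; omega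
    · right; left; push_cast at h; exact ⟨rfl, by omega⟩
    · right; left; push_cast at h; exact ⟨rfl, by omega⟩
    · left; push_cast at h ⊢; omega
  · obtain ⟨k', rfl⟩ : ∃ k', k = k' + 1 := ⟨k - 1, by omega⟩
    rcases he with rfl | rfl <;> rcases h with h | h
    · left; push_cast at h ⊢; omega
    · right; right; refine ⟨k', rfl, ?_⟩; push_cast at h ⊢; omega
    · right; right; refine ⟨k', rfl, ?_⟩; push_cast at h ⊢; omega
    · left; push_cast at h ⊢; omega

lemma adj_succ {e a : ℤ} (he : e = 1 ∨ e = -1) (k : ℕ) (r : Bool) :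
    ladder.Adj (a + e * (k : ℤ), r) (a + e * ((k + 1 : ℕ) : ℤ), r) := by
  left
  refine ⟨rfl, ?_⟩
  show a + e * ((k + 1 : ℕ) : ℤ) = a + e * (k : ℤ) + 1 ∨ a + e * (k : ℤ) = a + e * ((k + 1 : ℕ) : ℤ) + 1
  rcases he with rfl | rfl <;> push_cast <;> omega

lemma col_inj {e a : ℤ} (he : e = 1 ∨ e = -1) {j k : ℕ} :
    a + e * (j : ℤ) = a + e * (k : ℤ) ↔ j = k := by
  constructor
  · intro h
    rcases he with rfl | rfl <;> omega
  · rintro rfl; rfl

lemma col_ne {e a : ℤ} (he : e = 1 ∨ e = -1) {j : ℕ} : a + e * (j : ℤ) ≠ a - e := by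
  rcases he with rfl | rfl <;> omega

/-- moves from a `B` state -/
lemma B_allowed {X : ℤ × Bool → Prop} {h : ℤ × Bool} {e a : ℤ} {r : Bool} {k : ℕ} {x : ℝ}
    (H : Inv X h (.B e a r k x)) (w : ℤ × Bool) :
    (ladder.Adj h w ∧ ¬ X w) ↔ (w = (a + e * ((k + 1 : ℕ) : ℤ), r) ∨ w = (a + e * (k : ℤ), !r)) := by
  obtain ⟨he, rfl, hX, h1, h2⟩ := H
  obtain ⟨p, q⟩ := w
  constructor
  · rintro ⟨hadj, hnX⟩
    rcases hadj with ⟨hq, hp⟩ | ⟨hp, hq⟩
    · simp only at hq hp
      subst hq
      rcases nbr_cases he hp with hp | ⟨_, hp⟩ | ⟨k', hk', hp⟩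
      · left; rw [hp]
      · exact absurd (by rw [hp]; exact h1) hnX
      · exact absurd (by rw [hp]; exact (hX k').1.2 (by omega)) hnX
    · simp only at hq hp
      right
      rw [hp]
      congr 1
      cases r <;> cases q <;> simp_all
  · rintro (hw | hw)
    · rw [hw]
      refine ⟨adj_succ he k r, fun h => ?_⟩
      have := (hX (k + 1)).1.1 h
      omega
    · rw [hw]
      refine ⟨Or.inr ⟨rfl, by cases r <;> simp⟩, (hX k).2⟩

/-- moves from an `L` state -/
lemma L_allowed {X : ℤ × Bool → Prop} {h : ℤ × Bool} {e a : ℤ} {r : Bool} {k m : ℕ} {x : ℝ}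
    (H : Inv X h (.L e a r k m x)) (w : ℤ × Bool) :
    (ladder.Adj h w ∧ ¬ X w) ↔ ((m = k ∧ w = (a + e * ((k + 1 : ℕ) : ℤ), !r)) ∨
      (∃ m' : ℕ, m = m' + 1 ∧ w = (a + e * (m' : ℤ), !r))) := by
  obtain ⟨he, hmk, rfl, hX, h1, h2⟩ := H
  obtain ⟨p, q⟩ := w
  constructor
  · rintro ⟨hadj, hnX⟩
    rcases hadj with ⟨hq, hp⟩ | ⟨hp, hq⟩
    · simp only at hq hp
      subst hq
      rcases nbr_cases he hp with hp | ⟨_, hp⟩ | ⟨k', hk', hp⟩
      · rcases Nat.lt_or_ge m k with hlt | hge
        · exact absurd (by rw [hp]; exact (hX (m + 1)).2.2 (by omega)) hnX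
        · have : m = k := by omega
          subst this
          left; exact ⟨rfl, by rw [hp]⟩
      · exact absurd (by rw [hp]; exact h2) hnX
      · right; exact ⟨k', hk', by rw [hp]⟩
    · simp only at hq hp
      exfalso
      apply hnX
      have hqr : q = r := by cases r <;> cases q <;> simp_all
      rw [← hp, hqr]
      exact (hX m).1.2 hmk
  · rintro (⟨hm, hw⟩ | ⟨m', hm, hw⟩)
    · rw [hw]
      subst hm
      refine ⟨adj_succ he m (!r), fun h => ?_⟩
      have := (hX (m + 1)).2.1 h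
      omega
    · rw [hw]
      subst hm
      refine ⟨(adj_succ he m' (!r)).symm, fun h => ?_⟩
      have := (hX m').2.1 h
      omega

lemma inv_root {X : ℤ × Bool → Prop} {c : ℤ} {s : Bool} (hX : ∀ w, X w ↔ w.1 = c)
    (w : ℤ × Bool) (hw : ladder.Adj (c, s) w ∧ ¬ X w) :
    Inv (fun v => v = w ∨ X v) w (step c .root w) := by
  obtain ⟨p, q⟩ := w
  obtain ⟨hadj, hnX⟩ := hw
  rw [hX] at hnX
  simp only at hnX
  have hp : p = c + 1 ∨ p = c - 1 := by
    rcases hadj with ⟨_, h | h⟩ | ⟨h, _⟩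
    · left; exact h
    · right; simp only at h; omega
    · exact absurd h.symm hnX
  show Inv _ _ (.B (p - c) p q 0 1)
  refine ⟨?_, ?_, ?_, ?_, ?_⟩
  · rcases hp with h | h
    · left; omega
    · right; omega
  · simp
  · intro j
    constructor
    · beta_reduce
      rw [hX]
      simp only [Prod.mk.injEq, and_true]
      rcases hp with rfl | rfl
      · rw [show c + 1 - c = 1 by ring]
        constructor
        · rintro (h | h) <;> omega
        · intro h; left; omega
      · rw [show c - 1 - c = -1 by ring]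
        constructor
        · rintro (h | h) <;> omega
        · intro h; left; omega
    · beta_reduce
      rw [hX]
      simp only [Prod.mk.injEq]
      rintro (⟨_, h⟩ | h)
      · cases q <;> simp at h
      · rcases hp with rfl | rfl
        · rw [show c + 1 - c = 1 by ring] at h; omega
        · rw [show c - 1 - c = -1 by ring] at h; omega
  · right
    rw [hX]
    simp
  · right
    rw [hX]
    simp

lemma inv_B1 {X : ℤ × Bool → Prop} {h : ℤ × Bool} {e a : ℤ} {r : Bool} {k : ℕ} {x y : ℝ}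
    (H : Inv X h (.B e a r k x)) :
    Inv (fun v => v = (a + e * ((k + 1 : ℕ) : ℤ), r) ∨ X v) (a + e * ((k + 1 : ℕ) : ℤ), r)
      (.B e a r (k + 1) y) := by
  obtain ⟨he, rfl, hX, h1, h2⟩ := H
  refine ⟨he, rfl, fun j => ⟨?_, ?_⟩, Or.inr h1, Or.inr h2⟩
  · beta_reduce
    rw [(hX j).1, Prod.mk.injEq, col_inj he]
    simp only [and_true]
    omega
  · rintro (h | h)
    · rw [Prod.mk.injEq] at h
      cases r <;> simp at h
    · exact (hX j).2 h

lemma inv_B2 {X : ℤ × Bool → Prop} {h : ℤ × Bool} {e a : ℤ} {r : Bool} {k : ℕ} {x y : ℝ}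
    (H : Inv X h (.B e a r k x)) :
    Inv (fun v => v = (a + e * (k : ℤ), !r) ∨ X v) (a + e * (k : ℤ), !r)
      (.L e a r k k y) := by
  obtain ⟨he, rfl, hX, h1, h2⟩ := H
  refine ⟨he, le_rfl, rfl, fun j => ⟨?_, ?_⟩, Or.inr h1, Or.inr h2⟩
  · beta_reduce
    rw [(hX j).1, Prod.mk.injEq]
    have : ¬ (r = !r) := by cases r <;> simp
    simp only [this, and_false, false_or]
  · beta_reduce
    rw [Prod.mk.injEq, col_inj he]
    have := (hX j).2
    simp only [this, and_true, or_false]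
    omega

lemma inv_L1 {X : ℤ × Bool → Prop} {h : ℤ × Bool} {e a : ℤ} {r : Bool} {k : ℕ} {x y : ℝ}
    (H : Inv X h (.L e a r k k x)) :
    Inv (fun v => v = (a + e * ((k + 1 : ℕ) : ℤ), !r) ∨ X v) (a + e * ((k + 1 : ℕ) : ℤ), !r)
      (.B e (a + e * ((k + 1 : ℕ) : ℤ)) (!r) 0 y) := by
  obtain ⟨he, _, rfl, hX, h1, h2⟩ := H
  have hsh : ∀ j : ℕ, a + e * ((k + 1 : ℕ) : ℤ) + e * (j : ℤ) = a + e * ((k + 1 + j : ℕ) : ℤ) := by
    intro j; push_cast; ring
  have hmi : a + e * ((k + 1 : ℕ) : ℤ) - e = a + e * (k : ℤ) := by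
    push_cast; ring
  refine ⟨he, ?_, fun j => ⟨?_, ?_⟩, ?_, ?_⟩
  · simp
  · rw [hsh]; beta_reduce
    rw [Prod.mk.injEq, col_inj he, (hX (k + 1 + j)).2]
    simp only [and_true]
    omega
  · rw [hsh, Bool.not_not]; beta_reduce
    rw [Prod.mk.injEq, (hX (k + 1 + j)).1]
    have : ¬ (r = !r) := by cases r <;> simp
    simp only [this, and_false, false_or]
    omega
  · right
    rw [hmi]
    exact (hX k).2.2 ⟨le_rfl, le_rfl⟩
  · right
    rw [hmi, Bool.not_not]
    exact (hX k).1.2 le_rfl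

lemma inv_L2 {X : ℤ × Bool → Prop} {h : ℤ × Bool} {e a : ℤ} {r : Bool} {k m : ℕ} {x y : ℝ}
    (H : Inv X h (.L e a r k (m + 1) x)) :
    Inv (fun v => v = (a + e * (m : ℤ), !r) ∨ X v) (a + e * (m : ℤ), !r)
      (.L e a r k m y) := by
  obtain ⟨he, hmk, rfl, hX, h1, h2⟩ := H
  refine ⟨he, by omega, rfl, fun j => ⟨?_, ?_⟩, Or.inr h1, Or.inr h2⟩
  · beta_reduce
    rw [(hX j).1, Prod.mk.injEq]
    have : ¬ (r = !r) := by cases r <;> simp
    simp only [this, and_false, false_or]
  · beta_reduce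
    rw [Prod.mk.injEq, col_inj he, (hX j).2]
    simp only [and_true]
    omega

end Pool.Agent.Q104.PT
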