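import Pool.Agent.Q104.Ladder

set_option autoImplicit false

/-!
The two-sided infinite ladder: moves of the state machine, and the kernel vector.
-/

namespace Pool.Agent.Q104.PT

open Classical in
/-- allowed moves -/
noncomputable def mv : St → Finset (ℤ × Bool)
  | .root => ∅
  | .B e a r k _ => {(a + e * ((k + 1 : ℕ) : ℤ), r), (a + e * (k : ℤ), !r)}
  | .L e a r k m _ => (if m = k then {(a + e * ((k + 1 : ℕ) : ℤ), !r)} else ∅) ∪
      (if 1 ≤ m then {(a + e * ((m - 1 : ℕ) : ℤ), !r)} else ∅)

/-- direction and range are sane -/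
def Sane : St → Prop
  | .root => False
  | .B e _ _ _ _ => e = 1 ∨ e = -1
  | .L e _ _ k m _ => (e = 1 ∨ e = -1) ∧ m ≤ k

lemma Inv.sane {X : ℤ × Bool → Prop} {h : ℤ × Bool} {s : St} (H : Inv X h s) : Sane s := by
  cases s with
  | root => exact H
  | B e a r k x => exact H.1
  | L e a r k m x => exact ⟨H.1, H.2.1⟩

lemma mem_mv_L {e a : ℤ} {r : Bool} {k m : ℕ} {x : ℝ} {w : ℤ × Bool} :
    w ∈ mv (.L e a r k m x) ↔ ((m = k ∧ w = (a + e * ((k + 1 : ℕ) : ℤ), !r)) ∨
      (∃ m' : ℕ, m = m' + 1 ∧ w = (a + e * (m' : ℤ), !r))) := by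
  simp only [mv, Finset.mem_union]
  constructor
  · rintro (h | h)
    · split_ifs at h with hm
      · left; exact ⟨hm, Finset.mem_singleton.1 h⟩
      · exact absurd h (Finset.notMem_empty _)
    · split_ifs at h with hm
      · right; exact ⟨m - 1, by omega, Finset.mem_singleton.1 h⟩
      · exact absurd h (Finset.notMem_empty _)
  · rintro (⟨hm, hw⟩ | ⟨m', hm, hw⟩)
    · left; rw [if_pos hm]; exact Finset.mem_singleton.2 hw
    · right; rw [if_pos (by omega), Finset.mem_singleton, hw, hm]; rfl

lemma mem_mv_B {e a : ℤ} {r : Bool} {k : ℕ} {x : ℝ} {w : ℤ × Bool} :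
    w ∈ mv (.B e a r k x) ↔ (w = (a + e * ((k + 1 : ℕ) : ℤ), r) ∨ w = (a + e * (k : ℤ), !r)) := by
  simp [mv]

lemma mv_spec {X : ℤ × Bool → Prop} {h : ℤ × Bool} {s : St} (H : Inv X h s) (w : ℤ × Bool) :
    w ∈ mv s ↔ (ladder.Adj h w ∧ ¬ X w) := by
  cases s with
  | root => exact H.elim
  | B e a r k x => rw [B_allowed H, mem_mv_B]
  | L e a r k m x => rw [L_allowed H, mem_mv_L]

lemma not_ne (r : Bool) : ¬ ((!r) = r) := by cases r <;> simp

lemma step_B1 (c e a : ℤ) (r : Bool) (k : ℕ) (x : ℝ) :
    step c (.B e a r k x) (a + e * ((k + 1 : ℕ) : ℤ), r) =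
      .B e a r (k + 1) (if Even k then -x / 2 else x) := by
  simp [step]

lemma step_B2 (c e a : ℤ) (r : Bool) (k : ℕ) (x : ℝ) :
    step c (.B e a r k x) (a + e * (k : ℤ), !r) =
      .L e a r k k (if Even k then -x / 2 else x) := by
  simp [step]

lemma step_L1 (c e a : ℤ) (r : Bool) (k : ℕ) (x : ℝ) :
    step c (.L e a r k k x) (a + e * ((k + 1 : ℕ) : ℤ), !r) =
      .B e (a + e * ((k + 1 : ℕ) : ℤ)) (!r) 0 (if Even k then x else 0) := by
  simp [step]

lemma step_L2 (c : ℤ) {e a : ℤ} (he : e = 1 ∨ e = -1) (r : Bool) (k m : ℕ) (x : ℝ) :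
    step c (.L e a r k (m + 1) x) (a + e * (m : ℤ), !r) =
      .L e a r k m (if Even (m + 1) then x else -x) := by
  have : ¬ (a + e * (m : ℤ) = a + e * ((m + 1 + 1 : ℕ) : ℤ)) := by
    rw [col_inj he]; omega
  simp only [step]
  rw [if_neg this]
  rfl

lemma inv_step {X : ℤ × Bool → Prop} {h : ℤ × Bool} {s : St} (c : ℤ) (H : Inv X h s)
    {w : ℤ × Bool} (hw : w ∈ mv s) : Inv (fun v => v = w ∨ X v) w (step c s w) := by
  cases s with
  | root => exact H.elim
  | B e a r k x =>
    rw [mem_mv_B] at hw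
    rcases hw with rfl | rfl
    · rw [step_B1]; exact inv_B1 H
    · rw [step_B2]; exact inv_B2 H
  | L e a r k m x =>
    rw [mem_mv_L] at hw
    rcases hw with ⟨rfl, rfl⟩ | ⟨m', rfl, rfl⟩
    · rw [step_L1]; exact inv_L1 H
    · rw [step_L2 c H.1]; exact inv_L2 H

lemma pv_step {s : St} (c : ℤ) (H : Sane s)
    {w : ℤ × Bool} (hw : w ∈ mv s) : pv (step c s w) = val s := by
  cases s with
  | root => exact H.elim
  | B e a r k x =>
    rw [mem_mv_B] at hw
    rcases hw with rfl | rfl
    · rw [step_B1]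
      simp only [pv, val, Nat.even_add_one]
      by_cases hk : Even k <;> simp [hk]
    · rw [step_B2]
      simp only [pv, val]
      by_cases hk : Even k <;> simp [hk]
  | L e a r k m x =>
    rw [mem_mv_L] at hw
    rcases hw with ⟨rfl, rfl⟩ | ⟨m', rfl, rfl⟩
    · rw [step_L1]
      simp only [pv, val]
      by_cases hk : Even m <;> simp [hk]
    · rw [step_L2 c H.1]
      simp only [pv, val, Nat.even_add_one]
      by_cases hk : Even m' <;> simp [hk]

lemma sum_mv_B (g : ℤ × Bool → ℝ) (e a : ℤ) (r : Bool) (k : ℕ) (x : ℝ) :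
    ∑ w ∈ mv (.B e a r k x), g w = g (a + e * ((k + 1 : ℕ) : ℤ), r) + g (a + e * (k : ℤ), !r) := by
  simp only [mv]
  rw [Finset.sum_pair]
  intro h
  rw [Prod.mk.injEq] at h
  exact not_ne r h.2.symm

lemma sum_mv_L (g : ℤ × Bool → ℝ) {e a : ℤ} (he : e = 1 ∨ e = -1) (r : Bool) (k m : ℕ)
    (x : ℝ) : ∑ w ∈ mv (.L e a r k m x), g w =
      (if m = k then g (a + e * ((k + 1 : ℕ) : ℤ), !r) else 0) +
      (if 1 ≤ m then g (a + e * ((m - 1 : ℕ) : ℤ), !r) else 0) := by
  classical
  simp only [mv]
  rw [Finset.sum_union]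
  · congr 1
    · split_ifs <;> simp
    · split_ifs <;> simp
  · rw [Finset.disjoint_left]
    intro w h1 h2
    split_ifs at h1 h2 with hmk hm
    · rw [Finset.mem_singleton] at h1 h2
      rw [h1, Prod.mk.injEq, col_inj he] at h2
      omega
    · exact absurd h2 (Finset.notMem_empty _)
    · exact absurd h1 (Finset.notMem_empty _)
    · exact absurd h1 (Finset.notMem_empty _)

lemma ker_step {s : St} (c : ℤ) (H : Sane s) : pv s + ∑ w ∈ mv s, val (step c s w) = 0 := by
  cases s with
  | root => exact H.elim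
  | B e a r k x =>
    rw [sum_mv_B, step_B1, step_B2]
    simp only [pv, val, Nat.even_add_one]
    by_cases hk : Even k
    · simp only [hk, if_true, not_true, if_false]
      ring
    · simp [hk]
  | L e a r k m x =>
    rw [sum_mv_L _ H.1]
    have t1 : (if m = k then val (step c (.L e a r k m x) (a + e * ((k + 1 : ℕ) : ℤ), !r)) else 0) =
        0 := by
      split_ifs with h
      · subst h
        rw [step_L1]
        simp [val]
      · rfl
    rw [t1]
    rcases Nat.eq_zero_or_pos m with hm | hm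
    · subst hm
      simp [pv]
    · obtain ⟨m', rfl⟩ : ∃ m', m = m' + 1 := ⟨m - 1, by omega⟩
      rw [if_pos (by omega), Nat.add_sub_cancel, step_L2 c H.1]
      simp only [pv, val, Nat.even_add_one]
      by_cases hk : Even m' <;> simp [hk]

lemma Phi_step {s : St} (c : ℤ) (H : Sane s) :
    val s ^ 2 + ∑ w ∈ mv s, Phi (step c s w) ≤ Phi s := by
  cases s with
  | root => exact H.elim
  | B e a r k x =>
    rw [sum_mv_B, step_B1, step_B2]
    simp only [Phi, val, Nat.even_add_one]
    by_cases hk : Even k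
    · simp only [hk, if_true, not_true, if_false]
      push_cast
      have : 0 ≤ (k : ℝ) * x ^ 2 := by positivity
      nlinarith [this]
    · simp only [hk, if_false, not_false_eq_true, if_true]
      push_cast
      nlinarith [sq_nonneg x]
  | L e a r k m x =>
    rw [sum_mv_L _ H.1]
    obtain ⟨he, hmk⟩ := H
    have t1 : (if m = k then Phi (step c (.L e a r k m x) (a + e * ((k + 1 : ℕ) : ℤ), !r)) else 0) =
        (if m = k ∧ Even m then 2 * x ^ 2 else 0) := by
      by_cases h : m = k
      · subst h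
        rw [if_pos rfl, step_L1]
        by_cases hk : Even m <;> simp [Phi, hk]
      · simp [h]
    rw [t1]
    rcases Nat.eq_zero_or_pos m with hm | hm
    · subst hm
      simp only [val, Phi]
      by_cases h : 0 = k
      · subst h
        simp
        nlinarith [sq_nonneg x]
      · simp [h]
    · obtain ⟨m', rfl⟩ : ∃ m', m = m' + 1 := ⟨m - 1, by omega⟩
      rw [if_pos (show 1 ≤ m' + 1 by omega), Nat.add_sub_cancel, step_L2 c he]
      have hne : m' ≠ k := by omega
      simp only [Phi, val, Nat.even_add_one, hne, if_false]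
      by_cases hk : Even m'
      · simp only [hk, not_true, if_false, and_false, if_true]
        push_cast
        nlinarith [sq_nonneg x]
      · by_cases h : m' + 1 = k
        · subst h
          simp only [hk, not_false_eq_true, if_true, and_self, if_false]
          push_cast
          nlinarith [sq_nonneg x]
        · simp only [hk, h, not_false_eq_true, if_true, false_and, if_false]
          push_cast
          nlinarith [sq_nonneg x]

end Pool.Agent.Q104.PT
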