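import Pool.Agent.Q104.Spec

/-!
# The second smallest Laplacian eigenvalue: Rayleigh upper bound
-/

set_option autoImplicit false

namespace Pool.Agent.Q104.Lam2

open Matrix Finset Q104.Spec

variable {V : Type} [Fintype V] [DecidableEq V] (G : SimpleGraph V) [DecidableRel G.Adj]

/-- The second smallest eigenvalue of the Laplacian (eigenvalues counted with multiplicity): the
least `t` such that at least two eigenvalues are at most `t`. -/
noncomputable def lam2 : ℝ :=
  sInf {t : ℝ | 2 ≤ (univ.filter fun i => (G.isHermitian_lapMatrix ℝ).eigenvalues i ≤ t).card}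

lemma lap_quad (f : V → ℝ) : f ⬝ᵥ (G.lapMatrix ℝ *ᵥ f) =
    (∑ x, ∑ y, if G.Adj x y then (f x - f y) ^ 2 else 0) / 2 := by
  rw [← G.lapMatrix_toLinearMap₂' ℝ f, Matrix.toLinearMap₂'_apply']

lemma ev_nonneg (i : V) : 0 ≤ (G.isHermitian_lapMatrix ℝ).eigenvalues i :=
  (G.posSemidef_lapMatrix ℝ).eigenvalues_nonneg i

lemma lam2_le {f : V → ℝ} (hf : f ≠ 0) (h0 : ∑ x, f x = 0) :
    lam2 G * ∑ x, f x ^ 2 ≤ (∑ x, ∑ y, if G.Adj x y then (f x - f y) ^ 2 else 0) / 2 := by
  have hff : f ⬝ᵥ f = ∑ x, f x ^ 2 := by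
    simp only [dotProduct]
    exact Finset.sum_congr rfl fun x _ => (sq (f x)).symm
  have hpos : 0 < ∑ x, f x ^ 2 := by
    obtain ⟨x, hx⟩ := Function.ne_iff.1 hf
    exact Finset.sum_pos' (fun _ _ => sq_nonneg _) ⟨x, Finset.mem_univ x, by
      have : f x ≠ 0 := hx
      positivity⟩
  set hA := G.isHermitian_lapMatrix ℝ with hAd
  set R : ℝ := (f ⬝ᵥ (G.lapMatrix ℝ *ᵥ f)) / ∑ x, f x ^ 2 with hR
  have hq : 0 ≤ f ⬝ᵥ (G.lapMatrix ℝ *ᵥ f) := by
    rw [quad_expand hA]
    exact Finset.sum_nonneg fun j _ => mul_nonneg (ev_nonneg G j) (sq_nonneg _)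
  have hR0 : 0 ≤ R := div_nonneg hq hpos.le
  have hRf : f ⬝ᵥ (G.lapMatrix ℝ *ᵥ f) = R * (f ⬝ᵥ f) := by
    rw [hff, hR, div_mul_cancel₀ _ hpos.ne']
  have hcard : 2 ≤ (univ.filter fun i => hA.eigenvalues i ≤ R).card := by
    by_contra hlt
    push Not at hlt
    obtain ⟨v0, -⟩ := Function.ne_iff.1 hf
    obtain ⟨i0, hi0⟩ : ∃ i0 : V, ∀ i, i ≠ i0 → R < hA.eigenvalues i := by
      rcases (univ.filter fun i => hA.eigenvalues i ≤ R).eq_empty_or_nonempty with he | ⟨i0, hi0⟩
      · refine ⟨v0, fun i _ => ?_⟩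
        by_contra h
        push Not at h
        have : i ∈ (univ.filter fun i => hA.eigenvalues i ≤ R) := by simp [h]
        rw [he] at this
        exact absurd this (Finset.notMem_empty _)
      · refine ⟨i0, fun i hi => ?_⟩
        by_contra h
        push Not at h
        have h1 : i ∈ (univ.filter fun i => hA.eigenvalues i ≤ R) := by simp [h]
        have : 1 < (univ.filter fun i => hA.eigenvalues i ≤ R).card :=
          Finset.one_lt_card.2 ⟨i, h1, i0, hi0, hi⟩
        omega
    -- combination orthogonal to the eigenvector `i0`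
    set one : V → ℝ := fun _ => 1 with hone
    set α := ev hA i0 ⬝ᵥ one with hα
    set β := ev hA i0 ⬝ᵥ f with hβ
    obtain ⟨a, b, hab, horth⟩ : ∃ a b : ℝ, (a ≠ 0 ∨ b ≠ 0) ∧ a * α + b * β = 0 := by
      by_cases hα0 : α = 0
      · exact ⟨1, 0, Or.inl one_ne_zero, by rw [hα0]; ring⟩
      · exact ⟨-β, α, Or.inr hα0, by ring⟩
    set g : V → ℝ := a • one + b • f with hg
    have hLone : G.lapMatrix ℝ *ᵥ one = 0 := G.lapMatrix_mulVec_const_eq_zero
    have h1f : one ⬝ᵥ f = 0 := by
      simp only [dotProduct, hone, one_mul]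
      exact h0
    have hgg : g ⬝ᵥ g = a ^ 2 * (one ⬝ᵥ one) + b ^ 2 * (f ⬝ᵥ f) := by
      rw [hg]
      simp only [add_dotProduct, dotProduct_add, smul_dotProduct, dotProduct_smul, smul_eq_mul,
        h1f, dotProduct_comm f one]
      ring
    have hone1 : 0 < one ⬝ᵥ one := by
      simp only [dotProduct, hone, mul_one, Finset.sum_const, nsmul_eq_mul]
      have : 0 < (univ : Finset V).card := Finset.card_pos.2 ⟨v0, Finset.mem_univ _⟩
      exact_mod_cast this
    have hLg : G.lapMatrix ℝ *ᵥ g = b • (G.lapMatrix ℝ *ᵥ f) := by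
      rw [hg, mulVec_add, mulVec_smul, mulVec_smul, hLone, smul_zero, zero_add]
    have hLsymm : one ⬝ᵥ (G.lapMatrix ℝ *ᵥ f) = 0 := by
      rw [dotProduct_mulVec, ← mulVec_transpose, (G.isSymm_lapMatrix (R := ℝ)), hLone,
        zero_dotProduct]
    have hgL : g ⬝ᵥ (G.lapMatrix ℝ *ᵥ g) = b ^ 2 * (R * (f ⬝ᵥ f)) := by
      rw [hLg, hg]
      simp only [add_dotProduct, dotProduct_smul, smul_dotProduct, smul_eq_mul, hLsymm, hRf]
      ring
    have hgpos : 0 < g ⬝ᵥ g := by
      rw [hgg]
      have hfp : 0 < f ⬝ᵥ f := by rw [hff]; exact hpos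
      rcases hab with h | h
      · have := mul_pos (pow_pos (abs_pos.2 h) 2) hone1
        rw [sq_abs] at this
        have := mul_nonneg (sq_nonneg b) hfp.le
        linarith
      · have := mul_pos (pow_pos (abs_pos.2 h) 2) hfp
        rw [sq_abs] at this
        have := mul_nonneg (sq_nonneg a) hone1.le
        linarith
    have hc0 : ev hA i0 ⬝ᵥ g = 0 := by
      rw [hg, dotProduct_add, dotProduct_smul, dotProduct_smul, smul_eq_mul, smul_eq_mul]
      exact horth
    have hlow : R * (g ⬝ᵥ g) < g ⬝ᵥ (G.lapMatrix ℝ *ᵥ g) := by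
      rw [quad_expand hA, sq_expand hA, Finset.mul_sum]
      have hex : ∃ j, ev hA j ⬝ᵥ g ≠ 0 := by
        by_contra hcon
        push Not at hcon
        rw [sq_expand hA] at hgpos
        simp [hcon] at hgpos
      obtain ⟨j, hj⟩ := hex
      apply Finset.sum_lt_sum
      · intro i _
        by_cases hi : i = i0
        · subst hi; rw [hc0]; simp
        · exact mul_le_mul_of_nonneg_right (hi0 i hi).le (sq_nonneg _)
      · refine ⟨j, Finset.mem_univ j, ?_⟩
        have hji : j ≠ i0 := by
          rintro rfl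
          exact hj hc0
        exact mul_lt_mul_of_pos_right (hi0 j hji) (by positivity)
    rw [hgL, hgg] at hlow
    have := mul_nonneg hR0 (mul_nonneg (sq_nonneg a) hone1.le)
    nlinarith
  have hle : lam2 G ≤ R := by
    apply csInf_le
    · refine ⟨0, ?_⟩
      intro t ht
      have h1 : 0 < (univ.filter fun i => hA.eigenvalues i ≤ t).card := lt_of_lt_of_le two_pos ht
      obtain ⟨i, hi⟩ := Finset.card_pos.1 h1
      exact (ev_nonneg G i).trans (Finset.mem_filter.1 hi).2
    · exact hcard
  rw [← lap_quad, hRf, hff]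
  exact mul_le_mul_of_nonneg_right hle hpos.le

/-- `λ₂ ≤ 2 deg v`. -/
lemma lam2_le_degree (v : V) (hV : 2 ≤ Fintype.card V) : lam2 G ≤ 2 * G.degree v := by
  set n : ℝ := (Fintype.card V : ℝ) with hn
  have hn2 : 2 ≤ n := by rw [hn]; exact_mod_cast hV
  set f : V → ℝ := fun x => (if x = v then 1 else 0) - 1 / n with hf
  have hn0 : n ≠ 0 := by linarith
  have hsum : ∑ x, f x = 0 := by
    simp only [hf, Finset.sum_sub_distrib, Finset.sum_ite_eq', Finset.mem_univ, if_true,
      Finset.sum_const, nsmul_eq_mul, Finset.card_univ]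
    rw [← hn]; field_simp; ring
  have hinv : 1 / n ≤ 1 / 2 := one_div_le_one_div_of_le (by norm_num) hn2
  have hf0 : f ≠ 0 := by
    intro h
    have := congrFun h v
    simp only [hf, if_true, Pi.zero_apply] at this
    linarith
  have hsq : ∑ x, f x ^ 2 = 1 - 1 / n := by
    have : ∀ x, f x ^ 2 = (if x = v then 1 - 2 / n else 0) + 1 / n ^ 2 := by
      intro x
      simp only [hf]
      split_ifs
      · field_simp; ring
      · field_simp; ring
    simp only [this, Finset.sum_add_distrib, Finset.sum_ite_eq', Finset.mem_univ, if_true,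
      Finset.sum_const, nsmul_eq_mul, Finset.card_univ]
    rw [← hn]; field_simp; ring
  have hE : (∑ x, ∑ y, if G.Adj x y then (f x - f y) ^ 2 else 0) / 2 = G.degree v := by
    have h1 : ∀ x y, (if G.Adj x y then (f x - f y) ^ 2 else 0) =
        (if x = v then (if G.Adj v y then 1 else 0) else 0) +
        (if y = v then (if G.Adj v x then 1 else 0) else (0:ℝ)) := by
      intro x y
      simp only [hf]
      by_cases hx : x = v
      · subst hx
        by_cases hy : y = x
        · subst hy; simp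
        · by_cases h : G.Adj x y <;> simp [h, hy]
      · by_cases hy : y = v
        · subst hy
          by_cases h : G.Adj x y
          · simp [h, hx, h.symm]
            right; ring
          · have h' : ¬ G.Adj y x := fun h' => h h'.symm
            simp [h, hx, h']
        · simp [hx, hy]
    simp only [h1, Finset.sum_add_distrib]
    have h2 : ∑ x, ∑ y, (if x = v then (if G.Adj v y then (1:ℝ) else 0) else 0) = G.degree v := by
      rw [Finset.sum_eq_single v]
      · simp only [if_true]
        rw [← Finset.sum_filter, Finset.sum_const, nsmul_eq_mul, mul_one,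
          ← SimpleGraph.card_neighborFinset_eq_degree]
        congr 2
        ext y; simp
      · intro x _ hx; simp [hx]
      · simp
    have h3 : ∑ x, ∑ y, (if y = v then (if G.Adj v x then (1:ℝ) else 0) else 0) = G.degree v := by
      rw [Finset.sum_comm, h2]
    rw [h2, h3]; ring
  have h := lam2_le G hf0 hsum
  rw [hsq, hE] at h
  by_cases hneg : lam2 G < 0
  · have : (0:ℝ) ≤ 2 * G.degree v := by positivity
    linarith
  · push Not at hneg
    nlinarith [mul_nonneg hneg (sub_nonneg.2 hinv)]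

end Pool.Agent.Q104.Lam2
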