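import Mathlib

/-!
# Lanczos tridiagonalisation of a diagonal matrix
-/

set_option autoImplicit false

namespace Pool.Agent.Q104.Lanczos

open Finset Matrix InnerProductSpace

lemma inner_sum {r : ℕ} (a b : EuclideanSpace ℝ (Fin r)) :
    inner ℝ a b = ∑ k, a k * b k := by
  rw [PiLp.inner_apply]
  apply Finset.sum_congr rfl
  intro k _
  simp [mul_comm]

/-- Krylov vectors -/
noncomputable def kry {r : ℕ} (μ v : Fin r → ℝ) (i : ℕ) : EuclideanSpace ℝ (Fin r) :=
  WithLp.toLp 2 (fun k => μ k ^ i * v k)

lemma kry_apply {r : ℕ} (μ v : Fin r → ℝ) (i : ℕ) (k : Fin r) :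
    kry μ v i k = μ k ^ i * v k := rfl

/-- multiplication operator -/
noncomputable def mulOp {r : ℕ} (μ : Fin r → ℝ) :
    EuclideanSpace ℝ (Fin r) →ₗ[ℝ] EuclideanSpace ℝ (Fin r) where
  toFun a := WithLp.toLp 2 (fun k => μ k * a k)
  map_add' a b := by
    ext k
    simp [mul_add]
  map_smul' c a := by
    ext k
    simp only [PiLp.smul_apply, smul_eq_mul, RingHom.id_apply]
    ring

lemma mulOp_apply {r : ℕ} (μ : Fin r → ℝ) (a : EuclideanSpace ℝ (Fin r)) (k : Fin r) :
    mulOp μ a k = μ k * a k := rfl

lemma mulOp_kry {r : ℕ} (μ v : Fin r → ℝ) (i : ℕ) : mulOp μ (kry μ v i) = kry μ v (i + 1) := by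
  ext k
  rw [mulOp_apply, kry_apply, kry_apply, pow_succ]
  ring

lemma kry_indep {r : ℕ} {μ v : Fin r → ℝ} (hμ : Function.Injective μ) (hv : ∀ k, v k ≠ 0) :
    LinearIndependent ℝ (fun i : Fin r => kry μ v i.val) := by
  rw [Fintype.linearIndependent_iff]
  intro c hc
  have h : c = 0 := by
    apply Matrix.eq_zero_of_forall_index_sum_mul_pow_eq_zero hμ
    intro k
    have := congrArg (fun a : EuclideanSpace ℝ (Fin r) => a k) hc
    simp only [PiLp.zero_apply, WithLp.ofLp_sum, Finset.sum_apply, PiLp.smul_apply,
      smul_eq_mul, kry_apply] at this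
    have h2 : (∑ i, c i * μ k ^ (i : ℕ)) * v k = 0 := by
      rw [← this, Finset.sum_mul]
      apply Finset.sum_congr rfl
      intro i _
      ring
    rcases mul_eq_zero.1 h2 with h | h
    · exact h
    · exact absurd h (hv k)
  intro i
  rw [h]; rfl

theorem lanczos {r : ℕ} {μ v : Fin r → ℝ} (hμ : Function.Injective μ) (hv : ∀ k, v k ≠ 0) :
    ∃ U : Fin r → Fin r → ℝ, (∀ i j, ∑ k, U i k * U j k = if i = j then 1 else 0) ∧
      (∀ k l, ∑ i, U i k * U i l = if k = l then 1 else 0) ∧
      (∀ i : Fin r, 0 < i.val → ∑ k, U i k * v k = 0) ∧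
      (∀ i j : Fin r, i.val + 1 < j.val → ∑ k, U i k * (μ k * U j k) = 0) ∧
      (∀ i j : Fin r, i.val + 1 = j.val → ∑ k, U i k * (μ k * U j k) ≠ 0) ∧
      (∀ i : Fin r, i.val + 1 = r → ∃ c : ℝ, c ≠ 0 ∧ ∀ k,
        U i k * v k * ∏ j ∈ univ.erase k, (μ k - μ j) = c) := by
  classical
  set f : Fin r → EuclideanSpace ℝ (Fin r) := fun i => kry μ v i.val with hf
  have hfi : LinearIndependent ℝ f := kry_indep hμ hv
  set g : Fin r → EuclideanSpace ℝ (Fin r) := gramSchmidtNormed ℝ f with hg
  have hon : Orthonormal ℝ g := gramSchmidtNormed_orthonormal hfi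
  have htri : ∀ i j : Fin r, i < j → inner ℝ (g j) (f i) = (0 : ℝ) := by
    intro i j hij
    rw [hg]
    unfold gramSchmidtNormed
    rw [inner_smul_left, gramSchmidt_inv_triangular ℝ f hij]
    simp
  have hspan : ∀ i : Fin r, Submodule.span ℝ (g '' Set.Iic i) = Submodule.span ℝ (f '' Set.Iic i) := by
    intro i
    rw [hg, span_gramSchmidtNormed, span_gramSchmidt_Iic]
  have hgmem : ∀ i : Fin r, g i ∈ Submodule.span ℝ (f '' Set.Iic i) := by
    intro i
    rw [← hspan]
    exact Submodule.subset_span ⟨i, Set.mem_Iic.2 le_rfl, rfl⟩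
  have hfmem : ∀ i : Fin r, f i ∈ Submodule.span ℝ (g '' Set.Iic i) := by
    intro i
    rw [hspan]
    exact Submodule.subset_span ⟨i, Set.mem_Iic.2 le_rfl, rfl⟩
  -- `D` maps the flag one step up
  have hD : ∀ i j : Fin r, i.val + 1 < j.val → ∀ a ∈ Submodule.span ℝ (f '' Set.Iic i),
      inner ℝ (g j) (mulOp μ a) = (0 : ℝ) := by
    intro i j hij a ha
    induction ha using Submodule.span_induction with
    | mem x hx =>
      obtain ⟨l, hl, rfl⟩ := hx
      have hl' : l.val ≤ i.val := hl
      have : mulOp μ (f l) = f ⟨l.val + 1, by omega⟩ := mulOp_kry μ v l.val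
      rw [this]
      apply htri
      rw [Fin.lt_def]
      simp only
      omega
    | zero => rw [map_zero, inner_zero_right]
    | add x y _ _ hx hy => rw [map_add, inner_add_right, hx, hy, add_zero]
    | smul c x _ hx => rw [map_smul, inner_smul_right, hx, mul_zero]
  have hinner : ∀ i j : Fin r, ∑ k, g i k * (μ k * g j k) = inner ℝ (g i) (mulOp μ (g j)) := by
    intro i j
    rw [inner_sum]
    rfl
  have hsymm : ∀ i j : Fin r, inner ℝ (g i) (mulOp μ (g j)) = inner ℝ (g j) (mulOp μ (g i)) := by
    intro i j
    rw [← hinner, ← hinner]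
    apply Finset.sum_congr rfl
    intro k _
    ring
  have horth : ∀ i j : Fin r, ∑ k, g i k * g j k = if i = j then (1 : ℝ) else 0 := by
    intro i j
    rw [← inner_sum, orthonormal_iff_ite.1 hon i j]
  refine ⟨fun i k => g i k, horth, ?_, ?_, ?_, ?_, ?_⟩
  · intro k l
    set M : Matrix (Fin r) (Fin r) ℝ := Matrix.of (fun i k => g i k) with hM
    have h1 : M * Mᵀ = 1 := by
      ext i j
      rw [Matrix.mul_apply, Matrix.one_apply]
      exact horth i j
    have h2 : Mᵀ * M = 1 := mul_eq_one_comm.1 h1
    have h3 := congrFun (congrFun h2 k) l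
    rw [Matrix.mul_apply, Matrix.one_apply] at h3
    exact h3
  · intro i hi
    have h1 : ∑ k, g i k * v k = inner ℝ (g i) (f ⟨0, by omega⟩) := by
      rw [inner_sum]
      apply Finset.sum_congr rfl
      intro k _
      rw [hf]
      simp only
      rw [kry_apply, pow_zero, one_mul]
    rw [h1]
    exact htri _ _ (by rw [Fin.lt_def]; exact hi)
  · intro i j hij
    rw [hinner, hsymm]
    exact hD i j hij (g i) (hgmem i)
  · intro i j hij h0
    rw [hinner, hsymm] at h0
    -- `⟨g j, f j⟩ = 0`
    have h1 : ∀ a ∈ Submodule.span ℝ (g '' Set.Iic i), inner ℝ (g j) (mulOp μ a) = (0 : ℝ) := by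
      intro a ha
      induction ha using Submodule.span_induction with
      | mem x hx =>
        obtain ⟨l, hl, rfl⟩ := hx
        have hl' : l.val ≤ i.val := hl
        by_cases hli : l = i
        · rw [hli]; exact h0
        · have : l.val ≠ i.val := fun h => hli (Fin.ext h)
          exact hD l j (by omega) (g l) (hgmem l)
      | zero => rw [map_zero, inner_zero_right]
      | add x y _ _ hx hy => rw [map_add, inner_add_right, hx, hy, add_zero]
      | smul c x _ hx => rw [map_smul, inner_smul_right, hx, mul_zero]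
    have h2 : inner ℝ (g j) (f j) = (0 : ℝ) := by
      have : mulOp μ (f i) = f j := by
        rw [hf]
        simp only
        rw [mulOp_kry, hij]
      rw [← this]
      exact h1 _ (hfmem i)
    have h3 : ∀ a ∈ Submodule.span ℝ (f '' Set.Iic j), inner ℝ (g j) a = (0 : ℝ) := by
      intro a ha
      induction ha using Submodule.span_induction with
      | mem x hx =>
        obtain ⟨l, hl, rfl⟩ := hx
        have hl' : l ≤ j := hl
        rcases hl'.lt_or_eq with h | h
        · exact htri l j h
        · rw [h]; exact h2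
      | zero => rw [inner_zero_right]
      | add x y _ _ hx hy => rw [inner_add_right, hx, hy, add_zero]
      | smul c x _ hx => rw [inner_smul_right, hx, mul_zero]
    have h4 := h3 (g j) (hgmem j)
    rw [orthonormal_iff_ite.1 hon j j, if_pos rfl] at h4
    exact one_ne_zero h4
  · intro i hi
    -- polynomial moments
    have hpoly : ∀ p : Polynomial ℝ, p.natDegree < i.val → ∑ k, g i k * v k * p.eval (μ k) = 0 := by
      intro p hp
      have : ∀ k, p.eval (μ k) = ∑ a ∈ Finset.range i.val, p.coeff a * μ k ^ a :=
        fun k => Polynomial.eval_eq_sum_range' hp (μ k)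
      simp only [this, Finset.mul_sum]
      rw [Finset.sum_comm]
      apply Finset.sum_eq_zero
      intro a ha
      have ha' := Finset.mem_range.1 ha
      have h1 := htri ⟨a, by omega⟩ i (by rw [Fin.lt_def]; exact ha')
      rw [inner_sum] at h1
      calc ∑ k, g i k * v k * (p.coeff a * μ k ^ a)
          = p.coeff a * ∑ k, g i k * f ⟨a, by omega⟩ k := by
            rw [Finset.mul_sum]
            apply Finset.sum_congr rfl
            intro k _
            rw [hf]
            simp only
            rw [kry_apply]
            ring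
        _ = 0 := by rw [h1, mul_zero]
    have hcomm : ∀ k l : Fin r, k ≠ l →
        g i k * v k * ∏ j ∈ univ.erase k, (μ k - μ j) =
        g i l * v l * ∏ j ∈ univ.erase l, (μ l - μ j) := by
      intro k l hkl
      set p : Polynomial ℝ := ∏ j ∈ (univ.erase k).erase l, (Polynomial.X - Polynomial.C (μ j))
        with hp
      have hcard : ((univ.erase k).erase l).card = r - 2 := by
        rw [Finset.card_erase_of_mem, Finset.card_erase_of_mem (Finset.mem_univ _),
          Finset.card_univ, Fintype.card_fin]
        · omega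
        · exact Finset.mem_erase.2 ⟨hkl.symm, Finset.mem_univ _⟩
      have hr2 : 2 ≤ r := by
        have h1 := k.isLt
        have h2 := l.isLt
        have h3 : k.val ≠ l.val := fun h => hkl (Fin.ext h)
        omega
      have hdeg : p.natDegree < i.val := by
        rw [hp, Polynomial.natDegree_prod _ _ (fun j _ => Polynomial.X_sub_C_ne_zero _)]
        simp only [Polynomial.natDegree_X_sub_C, Finset.sum_const, smul_eq_mul, mul_one, hcard]
        omega
      have heval : ∀ x, p.eval x = ∏ j ∈ (univ.erase k).erase l, (x - μ j) := by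
        intro x
        rw [hp, Polynomial.eval_prod]
        apply Finset.prod_congr rfl
        intro j _
        simp
      have hsum := hpoly p hdeg
      rw [Finset.sum_eq_add k l hkl] at hsum
      · rw [heval, heval] at hsum
        have hk : ∏ j ∈ univ.erase k, (μ k - μ j) =
            (μ k - μ l) * ∏ j ∈ (univ.erase k).erase l, (μ k - μ j) :=
          (Finset.mul_prod_erase (univ.erase k) (fun j => μ k - μ j)
            (Finset.mem_erase.2 ⟨hkl.symm, Finset.mem_univ _⟩)).symm
        have hl : ∏ j ∈ univ.erase l, (μ l - μ j) =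
            (μ l - μ k) * ∏ j ∈ (univ.erase k).erase l, (μ l - μ j) := by
          rw [Finset.erase_right_comm]
          exact (Finset.mul_prod_erase (univ.erase l) (fun j => μ l - μ j)
            (Finset.mem_erase.2 ⟨hkl, Finset.mem_univ _⟩)).symm
        rw [hk, hl]
        linear_combination (μ k - μ l) * hsum
      · intro j _ hj
        rw [heval]
        have : ∏ j' ∈ (univ.erase k).erase l, (μ j - μ j') = 0 := by
          apply Finset.prod_eq_zero (i := j)
          · exact Finset.mem_erase.2 ⟨hj.2, Finset.mem_erase.2 ⟨hj.1, Finset.mem_univ _⟩⟩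
          · ring
        rw [this, mul_zero]
      · intro h; exact absurd (Finset.mem_univ _) h
      · intro h; exact absurd (Finset.mem_univ _) h
    refine ⟨g i i * v i * ∏ j ∈ univ.erase i, (μ i - μ j), ?_, ?_⟩
    · intro h0
      have hzero : ∀ k, g i k = 0 := by
        intro k
        have h1 : g i k * v k * ∏ j ∈ univ.erase k, (μ k - μ j) = 0 := by
          by_cases hki : k = i
          · rw [hki]; exact h0
          · rw [hcomm k i hki]; exact h0
        have h2 : ∏ j ∈ univ.erase k, (μ k - μ j) ≠ 0 := by
          rw [Finset.prod_ne_zero_iff]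
          intro j hj
          rw [sub_ne_zero]
          intro h
          exact (Finset.mem_erase.1 hj).1 (hμ h).symm
        rcases mul_eq_zero.1 h1 with h | h
        · rcases mul_eq_zero.1 h with h | h
          · exact h
          · exact absurd h (hv k)
        · exact absurd h h2
      have h5 := orthonormal_iff_ite.1 hon i i
      rw [if_pos rfl, inner_sum] at h5
      have h6 : ∑ k, g i k * g i k = 0 := Finset.sum_eq_zero (fun k _ => by rw [hzero k, mul_zero])
      rw [h6] at h5
      exact zero_ne_one h5
    · intro k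
      by_cases hki : k = i
      · rw [hki]
      · exact hcomm k i hki

end Pool.Agent.Q104.Lanczos
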