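import Pool.Agent.Q104.SignSel

/-!
# Signings of graphs with a diagonal weight

If positive numbers `κ v u` on the ordered edges satisfy `κ v u ≤ y v - ∑_{w ≠ u} 1 / κ w v`, and
`0 ≤ y v - ∑_w 1 / κ w v`, then there is a signing `σ` of the graph with
`diag y - A^σ` positive semidefinite.
-/

set_option autoImplicit false

open Matrix Polynomial Equiv

namespace Pool.Agent.Q104.Sign

open Pool.Agent.W130.RC

section ordered

variable {V : Type} [Fintype V] [LinearOrder V]

open Classical in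
/-- the symmetric sign function of signs on `ED G` -/
noncomputable def sg (G : SimpleGraph V) (s : ED G → ℤˣ) (u v : V) : ℝ :=
  if h : u < v ∧ G.Adj u v then ((s ⟨(u, v), h⟩ : ℤ) : ℝ)
  else if h : v < u ∧ G.Adj v u then ((s ⟨(v, u), h⟩ : ℤ) : ℝ) else 1

lemma unit_cast (u : ℤˣ) : (((u : ℤ) : ℝ)) = 1 ∨ (((u : ℤ) : ℝ)) = -1 := by
  rcases Int.units_eq_one_or u with h | h <;> subst h <;> simp

lemma sg_pm (G : SimpleGraph V) (s : ED G → ℤˣ) (u v : V) : sg G s u v = 1 ∨ sg G s u v = -1 := by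
  unfold sg
  split_ifs
  · exact unit_cast _
  · exact unit_cast _
  · exact Or.inl rfl

lemma sg_symm (G : SimpleGraph V) (s : ED G → ℤˣ) (u v : V) : sg G s u v = sg G s v u := by
  unfold sg
  by_cases h1 : u < v ∧ G.Adj u v
  · have h2 : ¬ (v < u ∧ G.Adj v u) := fun h => absurd h.1 (not_lt.2 h1.1.le)
    rw [dif_pos h1, dif_neg h2, dif_pos h1]
  · by_cases h2 : v < u ∧ G.Adj v u
    · rw [dif_neg h1, dif_pos h2, dif_pos h2]
    · rw [dif_neg h1, dif_neg h2, dif_neg h2, dif_neg h1]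

open Classical in
lemma sum_sg (G : SimpleGraph V) (s : ED G → ℤˣ) (u v : V) :
    (∑ j : ED G, ((s j : ℤ) : ℝ) • Xe j.1.1 j.1.2) u v = if G.Adj u v then sg G s u v else 0 := by
  rw [Matrix.sum_apply]
  simp only [Matrix.smul_apply, Xe_apply, smul_eq_mul, mul_add, Finset.sum_add_distrib]
  have key : ∀ a b : V, ∑ j : ED G, ((s j : ℤ) : ℝ) * (if j.1.1 = a ∧ j.1.2 = b then 1 else 0) =
      if h : a < b ∧ G.Adj a b then ((s ⟨(a, b), h⟩ : ℤ) : ℝ) else 0 := by
    intro a b
    split_ifs with h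
    · rw [Finset.sum_eq_single ⟨(a, b), h⟩]
      · simp
      · intro j _ hj
        rw [if_neg, mul_zero]
        rintro ⟨h1, h2⟩
        apply hj
        apply Subtype.ext
        exact Prod.ext h1 h2
      · intro h'
        exact absurd (Finset.mem_univ _) h'
    · apply Finset.sum_eq_zero
      intro j _
      rw [if_neg, mul_zero]
      rintro ⟨h1, h2⟩
      apply h
      rw [← h1, ← h2]
      exact j.2
  have key2 : ∑ j : ED G, ((s j : ℤ) : ℝ) * (if j.1.2 = u ∧ j.1.1 = v then 1 else 0) =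
      if h : v < u ∧ G.Adj v u then ((s ⟨(v, u), h⟩ : ℤ) : ℝ) else 0 := by
    rw [← key v u]
    apply Finset.sum_congr rfl
    intro j _
    congr 1
    simp only [and_comm]
  rw [key u v, key2]
  unfold sg
  by_cases h : G.Adj u v
  · rw [if_pos h]
    rcases lt_or_gt_of_ne (G.ne_of_adj h) with hl | hl
    · have h1 : u < v ∧ G.Adj u v := ⟨hl, h⟩
      have h2 : ¬ (v < u ∧ G.Adj v u) := fun h => absurd h.1 (not_lt.2 hl.le)
      rw [dif_pos h1, dif_neg h2, dif_pos h1, add_zero]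
    · have h1 : v < u ∧ G.Adj v u := ⟨hl, h.symm⟩
      have h2 : ¬ (u < v ∧ G.Adj u v) := fun h => absurd h.1 (not_lt.2 hl.le)
      rw [dif_neg h2, dif_pos h1, dif_neg h2, dif_pos h1, zero_add]
  · have h1 : ¬ (u < v ∧ G.Adj u v) := fun h' => h h'.2
    have h2 : ¬ (v < u ∧ G.Adj v u) := fun h' => h h'.2.symm
    rw [if_neg h, dif_neg h1, dif_neg h2, add_zero]

open Classical in
theorem exists_signing' [Nonempty V] (G : SimpleGraph V) (y : V → ℝ) (κ : V → V → ℝ)
    (hκ : ∀ v u, G.Adj v u → 0 < κ v u)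
    (h1 : ∀ v u, G.Adj v u →
      κ v u ≤ y v - ∑ w ∈ Finset.univ.filter (fun w => G.Adj v w ∧ w ≠ u), 1 / κ w v)
    (h0 : ∀ v, 0 ≤ y v - ∑ w ∈ Finset.univ.filter (fun w => G.Adj v w), 1 / κ w v) :
    ∃ σ : V → V → ℝ, (∀ u v, σ u v = 1 ∨ σ u v = -1) ∧ (∀ u v, σ u v = σ v u) ∧
      ∀ g : V → ℝ, ∑ v, ∑ w, (if G.Adj v w then σ v w * g v * g w else 0) ≤
        ∑ v, y v * g v ^ 2 := by
  obtain ⟨s, hs⟩ := exists_signs (J := ED G) y (fun j => j.1) (fun j => j.2.1.ne)
    (Finset.univ : Finset (ED G)).toList (Finset.nodup_toList _)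
    (fun j => Finset.mem_toList.2 (Finset.mem_univ j)) (by
      intro x hx
      have hE : ((Finset.univ : Finset (ED G)).toList.map (fun j : ED G => j.1)) = EL G := by
        unfold EL
        congr!
      rw [hE, avgS2_det _ EL_ne]
      exact (mu_pos G y κ hκ h1 h0 x hx _).1 ∅ rfl)
  refine ⟨sg G s, sg_pm G s, sg_symm G s, ?_⟩
  intro g
  have h2 := hs.dotProduct_mulVec_nonneg g
  have h3 : star g ⬝ᵥ ((Matrix.diagonal y - ∑ j : ED G, ((s j : ℤ) : ℝ) • Xe j.1.1 j.1.2) *ᵥ g) =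
      ∑ v, y v * g v ^ 2 - ∑ v, ∑ w, (if G.Adj v w then sg G s v w * g v * g w else 0) := by
    rw [← Finset.sum_sub_distrib]
    simp only [dotProduct, Matrix.mulVec, star_trivial]
    apply Finset.sum_congr rfl
    intro v _
    have h4 : ∀ w, (Matrix.diagonal y - ∑ j : ED G, ((s j : ℤ) : ℝ) • Xe j.1.1 j.1.2) v w =
        (if v = w then y v else 0) - (if G.Adj v w then sg G s v w else 0) := by
      intro w
      rw [Matrix.sub_apply, sum_sg, Matrix.diagonal_apply]
    simp only [h4, sub_mul, Finset.sum_sub_distrib, mul_sub]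
    congr 1
    · simp; ring
    · rw [Finset.mul_sum]
      apply Finset.sum_congr rfl
      intro w _
      split_ifs
      · ring
      · simp
  rw [h3] at h2
  linarith

end ordered

open Classical in
/-- **Signing theorem.** -/
theorem exists_signing {V : Type} [Fintype V] [Nonempty V] (G : SimpleGraph V) (y : V → ℝ)
    (κ : V → V → ℝ) (hκ : ∀ v u, G.Adj v u → 0 < κ v u)
    (h1 : ∀ v u, G.Adj v u →
      κ v u ≤ y v - ∑ w ∈ Finset.univ.filter (fun w => G.Adj v w ∧ w ≠ u), 1 / κ w v)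
    (h0 : ∀ v, 0 ≤ y v - ∑ w ∈ Finset.univ.filter (fun w => G.Adj v w), 1 / κ w v) :
    ∃ σ : V → V → ℝ, (∀ u v, σ u v = 1 ∨ σ u v = -1) ∧ (∀ u v, σ u v = σ v u) ∧
      ∀ g : V → ℝ, ∑ v, ∑ w, (if G.Adj v w then σ v w * g v * g w else 0) ≤
        ∑ v, y v * g v ^ 2 := by
  letI : LinearOrder V := LinearOrder.lift' (Fintype.equivFin V) (Fintype.equivFin V).injective
  apply exists_signing' G y κ hκ
  · intro v u hvu
    convert h1 v u hvu
  · intro v
    convert h0 v

end Pool.Agent.Q104.Sign
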