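import Mathlib

/-!
# Elementary tools on eigenvalues of complex Hermitian matrices
-/

set_option autoImplicit false

namespace Q104.SpecC

open Matrix Finset ComplexConjugate

variable {V : Type*} [Fintype V] [DecidableEq V]

/-- the coordinate of `f` along the `j`-th eigenvector -/
noncomputable def co {M : Matrix V V ℂ} (hM : M.IsHermitian) (f : V → ℂ) (j : V) : ℂ :=
  inner ℂ (hM.eigenvectorBasis j) (WithLp.toLp 2 f)

lemma inner_eq (f g : V → ℂ) : inner ℂ (WithLp.toLp 2 f : EuclideanSpace ℂ V) (WithLp.toLp 2 g)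
    = star f ⬝ᵥ g := by
  rw [PiLp.inner_apply]
  simp only [dotProduct, Pi.star_apply]
  refine Finset.sum_congr rfl fun k _ => ?_
  simp [mul_comm]

lemma sum_sq {M : Matrix V V ℂ} (hM : M.IsHermitian) (f : V → ℂ) :
    ∑ x, ‖f x‖ ^ 2 = ∑ j, ‖co hM f j‖ ^ 2 := by
  have h := hM.eigenvectorBasis.sum_sq_norm_inner_right (WithLp.toLp 2 f)
  simp only [co]
  rw [h, EuclideanSpace.norm_sq_eq]

lemma inner_mulVec {M : Matrix V V ℂ} (hM : M.IsHermitian) (f : V → ℂ) (j : V) :
    co hM (M *ᵥ f) j = hM.eigenvalues j * co hM f j := by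
  have h1 : co hM (M *ᵥ f) j = star (WithLp.ofLp (hM.eigenvectorBasis j)) ⬝ᵥ (M *ᵥ f) := by
    rw [← inner_eq]; rfl
  have h2 : co hM f j = star (WithLp.ofLp (hM.eigenvectorBasis j)) ⬝ᵥ f := by
    rw [← inner_eq]; rfl
  rw [h1, h2, dotProduct_mulVec]
  have h3 : star (WithLp.ofLp (hM.eigenvectorBasis j)) ᵥ* M
      = (hM.eigenvalues j : ℂ) • star (WithLp.ofLp (hM.eigenvectorBasis j)) := by
    have h4 := hM.mulVec_eigenvectorBasis j
    have h5 := congrArg star h4
    rw [star_mulVec, hM.eq] at h5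
    rw [h5]
    ext k
    simp
  rw [h3, smul_dotProduct, smul_eq_mul]

lemma quad {M : Matrix V V ℂ} (hM : M.IsHermitian) (f : V → ℂ) :
    (star f ⬝ᵥ (M *ᵥ f)).re = ∑ j, hM.eigenvalues j * ‖co hM f j‖ ^ 2 := by
  rw [← inner_eq]
  have h := hM.eigenvectorBasis.sum_inner_mul_inner (WithLp.toLp 2 f) (WithLp.toLp 2 (M *ᵥ f))
  rw [← h, Complex.re_sum]
  refine Finset.sum_congr rfl fun j _ => ?_
  have h2 : inner ℂ (hM.eigenvectorBasis j) (WithLp.toLp 2 (M *ᵥ f))
      = hM.eigenvalues j * co hM f j := inner_mulVec hM f j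
  rw [h2]
  have h3 : inner ℂ (WithLp.toLp 2 f : EuclideanSpace ℂ V) (hM.eigenvectorBasis j)
      = conj (co hM f j) := by
    rw [co, inner_conj_symm]
  rw [h3]
  have h4 : conj (co hM f j) * (hM.eigenvalues j * co hM f j)
      = ((hM.eigenvalues j * ‖co hM f j‖ ^ 2 : ℝ) : ℂ) := by
    have h5 := Complex.conj_mul' (co hM f j)
    push_cast
    rw [← h5]
    ring
  rw [h4, Complex.ofReal_re]

/-- if all eigenvalues are at least `t`, so is the Rayleigh quotient -/
lemma le_quad {M : Matrix V V ℂ} (hM : M.IsHermitian) {t : ℝ} (h : ∀ j, t ≤ hM.eigenvalues j)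
    (f : V → ℂ) : t * ∑ x, ‖f x‖ ^ 2 ≤ (star f ⬝ᵥ (M *ᵥ f)).re := by
  rw [quad hM, sum_sq hM, Finset.mul_sum]
  exact Finset.sum_le_sum fun j _ => mul_le_mul_of_nonneg_right (h j) (sq_nonneg _)

lemma quad_le {M : Matrix V V ℂ} (hM : M.IsHermitian) {t : ℝ} (h : ∀ j, hM.eigenvalues j ≤ t)
    (f : V → ℂ) : (star f ⬝ᵥ (M *ᵥ f)).re ≤ t * ∑ x, ‖f x‖ ^ 2 := by
  rw [quad hM, sum_sq hM, Finset.mul_sum]
  exact Finset.sum_le_sum fun j _ => mul_le_mul_of_nonneg_right (h j) (sq_nonneg _)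

/-- the set of real eigenvalues is the range of the listed eigenvalues -/
lemma eigen_iff {M : Matrix V V ℂ} (hM : M.IsHermitian) (t : ℝ) :
    (∃ f : V → ℂ, f ≠ 0 ∧ M *ᵥ f = (t : ℂ) • f) ↔ ∃ j, hM.eigenvalues j = t := by
  constructor
  · rintro ⟨f, hf, h⟩
    by_contra hcon
    push Not at hcon
    have h0 : ∀ j, co hM f j = 0 := by
      intro j
      have h1 := inner_mulVec hM f j
      rw [h] at h1
      have h2 : co hM ((t : ℂ) • f) j = t * co hM f j := by
        simp only [co]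
        rw [WithLp.toLp_smul, inner_smul_right]
      rw [h2] at h1
      have h3 : ((hM.eigenvalues j - t : ℝ) : ℂ) * co hM f j = 0 := by
        push_cast; linear_combination -h1
      rcases mul_eq_zero.mp h3 with h4 | h4
      · exact absurd (sub_eq_zero.mp (by exact_mod_cast h4)) (hcon j)
      · exact h4
    apply hf
    have h5 := sum_sq hM f
    simp only [h0, norm_zero, ne_eq, OfNat.ofNat_ne_zero, not_false_eq_true, zero_pow,
      Finset.sum_const_zero] at h5
    have h6 := (Finset.sum_eq_zero_iff_of_nonneg (fun x _ => sq_nonneg ‖f x‖)).mp h5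
    ext x
    have := h6 x (mem_univ x)
    simpa using this
  · rintro ⟨j, rfl⟩
    refine ⟨WithLp.ofLp (hM.eigenvectorBasis j), ?_, ?_⟩
    · intro h
      have h1 := hM.eigenvectorBasis.orthonormal.norm_eq_one j
      have h2 : hM.eigenvectorBasis j = 0 := by
        ext x
        exact congrFun h x
      rw [h2, norm_zero] at h1
      exact zero_ne_one h1
    · have := hM.mulVec_eigenvectorBasis j
      rw [this]
      ext x
      simp

end Q104.SpecC
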