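import Mathlib
import Pool.Agent.Q104.SpecC
import Pool.Agent.Q104.SignGraph

/-!
# Magnetic Laplacians, the magneto-spectral height, and lower bounds for it
-/

set_option autoImplicit false

namespace Pool.Agent.Q104.Mag

open Matrix Finset ComplexConjugate

section defs

variable {V : Type} [Fintype V] [DecidableEq V] (G : SimpleGraph V) [DecidableRel G.Adj]

/-- a magnetic potential: unit complex numbers on ordered adjacent pairs, inverse to each other on
the two orders of an edge (the values on non-adjacent pairs play no role) -/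
structure IsPotential (σ : V → V → ℂ) : Prop where
  norm_one : ∀ x y, G.Adj x y → ‖σ x y‖ = 1
  inv : ∀ x y, G.Adj x y → σ y x = (σ x y)⁻¹

/-- the magnetic Laplacian -/
noncomputable def lap (σ : V → V → ℂ) (f : V → ℂ) (x : V) : ℂ :=
  ∑ y ∈ G.neighborFinset x, (f x - σ x y * f y)

/-- the real eigenvalues of the magnetic Laplacian (which is Hermitian) -/
def eigs (σ : V → V → ℂ) : Set ℝ := {t | ∃ f : V → ℂ, f ≠ 0 ∧ ∀ x, lap G σ f x = t * f x}

/-- the smallest eigenvalue -/
noncomputable def lam1 (σ : V → V → ℂ) : ℝ := sInf (eigs G σ)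

/-- the magneto-spectral height -/
noncomputable def nu : ℝ := sSup {t | ∃ σ : V → V → ℂ, IsPotential G σ ∧ lam1 G σ = t}

end defs

section general

variable {V : Type} [Fintype V] [DecidableEq V] {G : SimpleGraph V} [DecidableRel G.Adj]

/-- the matrix of the magnetic Laplacian -/
noncomputable def mat (G : SimpleGraph V) [DecidableRel G.Adj] (σ : V → V → ℂ) : Matrix V V ℂ :=
  Matrix.of fun x y => (if x = y then (G.degree x : ℂ) else 0) - (if G.Adj x y then σ x y else 0)

lemma mat_mulVec (σ : V → V → ℂ) (f : V → ℂ) : mat G σ *ᵥ f = lap G σ f := by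
  ext x
  simp only [mat, Matrix.mulVec, dotProduct, Matrix.of_apply, lap, sub_mul,
    Finset.sum_sub_distrib, ite_mul, zero_mul, Finset.sum_ite_eq, Finset.mem_univ, if_true,
    Finset.sum_const, nsmul_eq_mul, SimpleGraph.card_neighborFinset_eq_degree]
  congr 1
  rw [← Finset.sum_filter]
  refine Finset.sum_congr ?_ fun _ _ => rfl
  ext y
  simp

lemma conj_eq {σ : V → V → ℂ} (hσ : IsPotential G σ) {x y : V} (h : G.Adj x y) :
    σ y x = conj (σ x y) := by
  rw [hσ.inv x y h, Complex.inv_def, Complex.normSq_eq_norm_sq, hσ.norm_one x y h]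
  simp

lemma mat_herm {σ : V → V → ℂ} (hσ : IsPotential G σ) : (mat G σ).IsHermitian := by
  ext x y
  simp only [mat, Matrix.conjTranspose_apply, Matrix.of_apply, star_sub]
  congr 1
  · by_cases h : x = y
    · subst h; simp
    · simp [h, Ne.symm h]
  · by_cases h : G.Adj x y
    · rw [if_pos h, if_pos h.symm, conj_eq hσ h]
      simp
    · rw [if_neg h, if_neg (fun h' => h h'.symm)]
      simp

lemma eigs_eq {σ : V → V → ℂ} (hσ : IsPotential G σ) :
    eigs G σ = Set.range (mat_herm hσ).eigenvalues := by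
  ext t
  rw [Set.mem_range, ← Q104.SpecC.eigen_iff (mat_herm hσ)]
  simp only [eigs, Set.mem_ofPred_eq, mat_mulVec]
  constructor
  · rintro ⟨f, hf, h⟩
    exact ⟨f, hf, funext fun x => by rw [h x]; rfl⟩
  · rintro ⟨f, hf, h⟩
    exact ⟨f, hf, fun x => by rw [h]; rfl⟩

lemma eigs_nonempty [Nonempty V] {σ : V → V → ℂ} (hσ : IsPotential G σ) : (eigs G σ).Nonempty := by
  rw [eigs_eq hσ]
  exact Set.range_nonempty _

/-- the energy as a sum over ordered pairs -/
noncomputable def en (G : SimpleGraph V) [DecidableRel G.Adj] (σ : V → V → ℂ) (f : V → ℂ) : ℝ :=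
  ∑ x, ∑ y, if G.Adj x y then ‖f x - σ x y * f y‖ ^ 2 else 0

lemma two_quad {σ : V → V → ℂ} (hσ : IsPotential G σ) (f : V → ℂ) :
    2 * (star f ⬝ᵥ (mat G σ *ᵥ f)).re = en G σ f := by
  have h1 : star f ⬝ᵥ (mat G σ *ᵥ f)
      = ∑ x, ∑ y, if G.Adj x y then conj (f x) * (f x - σ x y * f y) else 0 := by
    rw [mat_mulVec]
    simp only [dotProduct, lap, Pi.star_apply, Finset.mul_sum]
    refine Finset.sum_congr rfl fun x _ => ?_
    rw [← Finset.sum_filter]
    refine Finset.sum_congr ?_ fun _ _ => rfl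
    ext y
    simp
  have h2 : star f ⬝ᵥ (mat G σ *ᵥ f)
      = ∑ x, ∑ y, if G.Adj x y then conj (f y) * (f y - σ y x * f x) else 0 := by
    rw [h1, Finset.sum_comm]
    refine Finset.sum_congr rfl fun x _ => Finset.sum_congr rfl fun y _ => ?_
    simp only [G.adj_comm]
  have h3 : 2 * (star f ⬝ᵥ (mat G σ *ᵥ f)).re
      = (∑ x, ∑ y, if G.Adj x y then conj (f x) * (f x - σ x y * f y) +
        conj (f y) * (f y - σ y x * f x) else 0).re := by
    rw [two_mul]
    nth_rewrite 1 [h1]
    rw [h2, ← Complex.add_re, ← Finset.sum_add_distrib]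
    congr 1
    refine Finset.sum_congr rfl fun x _ => ?_
    rw [← Finset.sum_add_distrib]
    refine Finset.sum_congr rfl fun y _ => ?_
    split_ifs <;> simp
  rw [h3, en, Complex.re_sum]
  refine Finset.sum_congr rfl fun x _ => ?_
  rw [Complex.re_sum]
  refine Finset.sum_congr rfl fun y _ => ?_
  split_ifs with h
  · have h4 : conj (f x) * (f x - σ x y * f y) + conj (f y) * (f y - σ y x * f x)
        = ((‖f x - σ x y * f y‖ ^ 2 : ℝ) : ℂ) := by
      push_cast
      rw [← Complex.conj_mul', map_sub, map_mul, conj_eq hσ h]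
      have h5 : conj (σ x y) * σ x y = 1 := by
        rw [Complex.conj_mul', hσ.norm_one x y h]; simp
      linear_combination (-(conj (f y) * f y)) * h5
    rw [h4, Complex.ofReal_re]
  · rfl

/-- the Rayleigh bound for the smallest eigenvalue -/
lemma lam1_le {σ : V → V → ℂ} (hσ : IsPotential G σ) (f : V → ℂ) :
    2 * (lam1 G σ * ∑ x, ‖f x‖ ^ 2) ≤ en G σ f := by
  rw [← two_quad hσ]
  have h1 : ∀ j, lam1 G σ ≤ (mat_herm hσ).eigenvalues j := by
    intro j
    rw [lam1, eigs_eq hσ]
    exact csInf_le (Set.finite_range _).bddBelow ⟨j, rfl⟩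
  have := Q104.SpecC.le_quad (mat_herm hσ) h1 f
  linarith

end general

lemma en_single {V : Type} [Fintype V] [DecidableEq V] (G : SimpleGraph V) [DecidableRel G.Adj]
    {σ : V → V → ℂ} (hσ : IsPotential G σ) (v : V) :
    lam1 G σ ≤ 2 * (Fintype.card V : ℝ) ^ 2 := by
  have h := lam1_le hσ (Pi.single v 1)
  have h1 : ∑ x, ‖(Pi.single v 1 : V → ℂ) x‖ ^ 2 = 1 := by
    rw [Finset.sum_eq_single v]
    · simp
    · intro b _ hb; simp [hb]
    · simp
  rw [h1, mul_one] at h
  have h2 : en G σ (Pi.single v 1) ≤ ∑ _x : V, ∑ _y : V, (4 : ℝ) := by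
    refine Finset.sum_le_sum fun x _ => Finset.sum_le_sum fun y _ => ?_
    have h0 : ∀ z, ‖(Pi.single v 1 : V → ℂ) z‖ ≤ 1 := by
      intro z
      by_cases hz : z = v
      · subst hz; simp
      · simp [hz]
    split_ifs with hxy
    · have h3 : ‖(Pi.single v 1 : V → ℂ) x - σ x y * (Pi.single v 1 : V → ℂ) y‖ ≤ 2 := by
        refine (norm_sub_le _ _).trans ?_
        rw [norm_mul, hσ.norm_one x y hxy]
        linarith [h0 x, h0 y]
      nlinarith [norm_nonneg ((Pi.single v 1 : V → ℂ) x - σ x y * (Pi.single v 1 : V → ℂ) y)]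
    · norm_num
  simp only [Finset.sum_const, Finset.card_univ, nsmul_eq_mul] at h2
  nlinarith


/-- a lower bound for the height from one potential -/
lemma nu_ge {V : Type} [Fintype V] [DecidableEq V] [Nonempty V] {G : SimpleGraph V}
    [DecidableRel G.Adj] {σ : V → V → ℂ} (hσ : IsPotential G σ) {c : ℝ}
    (h : ∀ f : V → ℂ, c * (2 * ∑ x, ‖f x‖ ^ 2) ≤ en G σ f) : c ≤ nu G := by
  have h1 : c ≤ lam1 G σ := by
    apply le_csInf (eigs_nonempty hσ)
    rintro t ⟨f, hf, ht⟩
    have h2 := h f
    rw [← two_quad hσ] at h2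
    have h3 : (star f ⬝ᵥ (mat G σ *ᵥ f)).re = t * ∑ x, ‖f x‖ ^ 2 := by
      rw [mat_mulVec]
      have : lap G σ f = fun x => (t : ℂ) * f x := funext ht
      rw [this]
      simp only [dotProduct, Pi.star_apply, Complex.re_sum, Finset.mul_sum]
      apply Finset.sum_congr rfl
      intro x _
      have h4 : star (f x) * ((t : ℂ) * f x) = ((t * ‖f x‖ ^ 2 : ℝ) : ℂ) := by
        have h5 : conj (f x) * f x = ((‖f x‖ ^ 2 : ℝ) : ℂ) := by
          rw [Complex.conj_mul']; push_cast; rfl
        calc star (f x) * ((t : ℂ) * f x) = (t : ℂ) * (conj (f x) * f x) := by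
              rw [← starRingEnd_apply]; ring
          _ = _ := by rw [h5]; push_cast; rfl
      rw [h4, Complex.ofReal_re]
    rw [h3] at h2
    have h6 : 0 < ∑ x, ‖f x‖ ^ 2 := by
      obtain ⟨x, hx⟩ := Function.ne_iff.1 hf
      apply Finset.sum_pos' (fun _ _ => by positivity) ⟨x, Finset.mem_univ x, ?_⟩
      have : 0 < ‖f x‖ := norm_pos_iff.2 hx
      positivity
    nlinarith
  refine h1.trans (le_csSup ?_ ⟨_, hσ, rfl⟩)
  refine ⟨2 * (Fintype.card V : ℝ) ^ 2, ?_⟩
  rintro t ⟨σ', hσ', rfl⟩
  obtain ⟨v⟩ := (inferInstance : Nonempty V)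
  exact en_single G hσ' v

open Classical in
/-- Lower bound for the height by positive numbers on the ordered edges. -/
theorem nu_ge_of_ratios {V : Type} [Fintype V] [DecidableEq V] [Nonempty V] (G : SimpleGraph V)
    [DecidableRel G.Adj] (θ : ℝ) (κ : V → V → ℝ) (hκ : ∀ v u, G.Adj v u → 0 < κ v u)
    (h1 : ∀ v u, G.Adj v u →
      κ v u ≤ G.degree v - θ - ∑ w ∈ (G.neighborFinset v).erase u, 1 / κ w v)
    (h0 : ∀ v, 0 ≤ G.degree v - θ - ∑ w ∈ G.neighborFinset v, 1 / κ w v) :
    θ ≤ nu G := by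
  obtain ⟨σ, hσ1, hσ2, hσ3⟩ := Sign.exists_signing G (fun v => (G.degree v : ℝ) - θ) κ hκ
    (by
      intro v u hvu
      have := h1 v u hvu
      have e : (G.neighborFinset v).erase u = Finset.univ.filter (fun w => G.Adj v w ∧ w ≠ u) := by
        ext w
        simp [and_comm]
      rw [e] at this
      convert this)
    (by
      intro v
      have := h0 v
      have e : G.neighborFinset v = Finset.univ.filter (fun w => G.Adj v w) := by
        ext w
        simp
      rw [e] at this
      convert this)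
  have hpot : IsPotential G (fun x y => (σ x y : ℂ)) := by
    constructor
    · intro x y _
      rcases hσ1 x y with h | h <;> simp [h]
    · intro x y _
      rw [hσ2 y x]
      rcases hσ1 x y with h | h <;> simp [h]
  have hreal : ∀ g : V → ℝ, θ * (2 * ∑ x, g x ^ 2) ≤
      ∑ x, ∑ y, if G.Adj x y then (g x - σ x y * g y) ^ 2 else 0 := by
    intro g
    have hsq : ∀ x y, σ x y ^ 2 = 1 := by
      intro x y
      rcases hσ1 x y with h | h <;> simp [h]
    have e1 : ∑ x, ∑ y, (if G.Adj x y then (g x - σ x y * g y) ^ 2 else 0) =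
        ∑ x, ∑ y, (if G.Adj x y then g x ^ 2 else 0) +
        ∑ x, ∑ y, (if G.Adj x y then g y ^ 2 else 0) -
        2 * ∑ x, ∑ y, (if G.Adj x y then σ x y * g x * g y else 0) := by
      rw [Finset.mul_sum, ← Finset.sum_add_distrib, ← Finset.sum_sub_distrib]
      apply Finset.sum_congr rfl
      intro x _
      rw [Finset.mul_sum, ← Finset.sum_add_distrib, ← Finset.sum_sub_distrib]
      apply Finset.sum_congr rfl
      intro y _
      split_ifs
      · linear_combination (g y ^ 2) * hsq x y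
      · simp
    have e2 : ∑ x, ∑ y, (if G.Adj x y then g x ^ 2 else 0) = ∑ x, (G.degree x : ℝ) * g x ^ 2 := by
      apply Finset.sum_congr rfl
      intro x _
      rw [← Finset.sum_filter, Finset.sum_const, nsmul_eq_mul]
      congr 2
      rw [← SimpleGraph.card_neighborFinset_eq_degree]
      congr 1
      ext y
      simp
    have e3 : ∑ x, ∑ y, (if G.Adj x y then g y ^ 2 else 0) = ∑ x, (G.degree x : ℝ) * g x ^ 2 := by
      rw [Finset.sum_comm, ← e2]
      simp only [G.adj_comm]
    have h4 := hσ3 g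
    rw [e1, e2, e3]
    have e4 : ∑ v, ((G.degree v : ℝ) - θ) * g v ^ 2 =
        ∑ x, (G.degree x : ℝ) * g x ^ 2 - θ * ∑ x, g x ^ 2 := by
      rw [Finset.mul_sum, ← Finset.sum_sub_distrib]
      apply Finset.sum_congr rfl
      intro x _
      ring
    rw [e4] at h4
    have e5 : ∑ x, ∑ y, (if G.Adj x y then σ x y * g x * g y else 0) =
        ∑ v, ∑ w, (@ite _ (G.Adj v w) (Classical.propDecidable _) (σ v w * g v * g w) 0) := by
      apply Finset.sum_congr rfl; intro x _
      apply Finset.sum_congr rfl; intro y _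
      by_cases h : G.Adj x y <;> simp [h]
    rw [e5]
    linarith
  apply nu_ge hpot
  intro f
  have hr := hreal (fun x => (f x).re)
  have hi := hreal (fun x => (f x).im)
  have hn : ∀ z : ℂ, ‖z‖ ^ 2 = z.re ^ 2 + z.im ^ 2 := by
    intro z
    rw [← Complex.normSq_eq_norm_sq, Complex.normSq_apply]; ring
  have e6 : en G (fun x y => (σ x y : ℂ)) f =
      ∑ x, ∑ y, (if G.Adj x y then ((f x).re - σ x y * (f y).re) ^ 2 else 0) +
      ∑ x, ∑ y, (if G.Adj x y then ((f x).im - σ x y * (f y).im) ^ 2 else 0) := by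
    unfold en
    rw [← Finset.sum_add_distrib]
    apply Finset.sum_congr rfl; intro x _
    rw [← Finset.sum_add_distrib]
    apply Finset.sum_congr rfl; intro y _
    split_ifs
    · rw [hn]
      simp
    · simp
  have e7 : ∑ x, ‖f x‖ ^ 2 = ∑ x, (f x).re ^ 2 + ∑ x, (f x).im ^ 2 := by
    rw [← Finset.sum_add_distrib]
    exact Finset.sum_congr rfl fun x _ => hn _
  rw [e6, e7]
  linarith

end Pool.Agent.Q104.Mag
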