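import Pool.Agent.Q104.PathTree

set_option autoImplicit false

/-!
Neighbour sums in the path tree of a vertex-deleted graph.
-/

namespace Pool.Agent.Q104.PT

variable {V : Type}

lemma sum_nb_root {G : SimpleGraph V} {D : ℕ} (hD : DegreesLE G D) (o : V)
    (g : PathsFrom G o → ℝ) :
    ∑ q ∈ nb hD o (rootPath G o), g q = ∑ q ∈ ch hD o (rootPath G o), g q := by
  have : nb hD o (rootPath G o) = ch hD o (rootPath G o) := by
    ext q
    rw [mem_nb, mem_ch]
    constructor
    · rintro (⟨w, h⟩ | h)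
      · exfalso
        have h1 : [o] = w :: q.1 := h
        have h2 : q.1 = [] := by
          have := (List.cons_eq_cons.1 h1).2
          exact this.symm
        exact ne_nil q h2
      · exact h
    · exact fun h => Or.inr h
  rw [this]

lemma sum_nb_cons {G : SimpleGraph V} {D : ℕ} (hD : DegreesLE G D) (o : V)
    (p r : PathsFrom G o) (a : V) (hpr : p.1 = a :: r.1)
    (g : PathsFrom G o → ℝ) :
    ∑ q ∈ nb hD o p, g q = g r + ∑ q ∈ ch hD o p, g q := by
  classical
  have : nb hD o p = insert r (ch hD o p) := by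
    ext q
    rw [mem_nb, Finset.mem_insert, mem_ch]
    constructor
    · rintro (⟨w, h⟩ | h)
      · left
        apply Subtype.ext
        rw [hpr] at h
        exact (List.cons_eq_cons.1 h).2.symm
      · exact Or.inr h
    · rintro (rfl | h)
      · exact Or.inl ⟨a, hpr⟩
      · exact Or.inr h
  rw [this, Finset.sum_insert]
  rw [mem_ch]
  rintro ⟨w, h⟩
  have h1 := congrArg List.length hpr
  have h2 := congrArg List.length h
  simp at h1 h2
  omega

lemma sum_ch {G : SimpleGraph V} {u : V} {D : ℕ}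
    (hD : DegreesLE (G.induce ({u}ᶜ : Set V)) D) (o : ({u}ᶜ : Set V))
    (p : PathsFrom (G.induce ({u}ᶜ : Set V)) o) (F : List V → ℝ) (S : Finset V)
    (hS : ∀ w, w ∈ S ↔ (G.Adj (p.1.head (ne_nil p)).1 w ∧ w ≠ u ∧ w ∉ p.1.map Subtype.val)) :
    ∑ q ∈ ch hD o p, F (q.1.map Subtype.val) = ∑ w ∈ S, F (w :: p.1.map Subtype.val) := by
  have hcons : ∀ q ∈ ch hD o p, ∃ w, q.1 = w :: p.1 := fun q hq => (mem_ch hD o p q).1 hq
  apply Finset.sum_bij (fun q _ => (q.1.head (ne_nil q)).1)
  · intro q hq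
    obtain ⟨w, hw⟩ := hcons q hq
    rw [hS]
    have h1 : q.1.head (ne_nil q) = w := by simp [hw]
    rw [h1]
    obtain ⟨b, l, hbl⟩ := List.exists_cons_of_ne_nil (ne_nil p)
    have h2 := q.2.2.2
    have h3 := q.2.2.1
    rw [hw, hbl] at h2
    rw [hw] at h3
    have h4 : p.1.head (ne_nil p) = b := by simp [hbl]
    refine ⟨?_, ?_, ?_⟩
    · rw [h4]
      exact ((List.isChain_cons_cons.1 h2).1).symm
    · exact w.2
    · rw [List.mem_map]
      rintro ⟨w', hw', hww⟩
      have : w' = w := Subtype.ext hww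
      subst this
      exact (List.nodup_cons.1 h3).1 hw'
  · intro q hq q' hq' h
    obtain ⟨w, hw⟩ := hcons q hq
    obtain ⟨w', hw'⟩ := hcons q' hq'
    have h1 : q.1.head (ne_nil q) = w := by simp [hw]
    have h2 : q'.1.head (ne_nil q') = w' := by simp [hw']
    rw [h1, h2] at h
    apply Subtype.ext
    rw [hw, hw', Subtype.ext h]
  · intro w hw
    obtain ⟨h1, h2, h3⟩ := (hS w).1 hw
    obtain ⟨b, l, hbl⟩ := List.exists_cons_of_ne_nil (ne_nil p)
    have h4 : p.1.head (ne_nil p) = b := by simp [hbl]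
    let w' : ({u}ᶜ : Set V) := ⟨w, h2⟩
    have hq1 : (w' :: p.1).getLast? = some o := by
      rw [hbl, List.getLast?_cons_cons, ← hbl]
      exact p.2.1
    have hq2 : (w' :: p.1).Nodup := by
      rw [List.nodup_cons]
      refine ⟨fun h => h3 ?_, p.2.2.1⟩
      exact List.mem_map.2 ⟨w', h, rfl⟩
    have hq3 : (w' :: p.1).IsChain (G.induce ({u}ᶜ : Set V)).Adj := by
      have h5 := p.2.2.2
      rw [hbl] at h5 ⊢
      rw [List.isChain_cons_cons]
      refine ⟨?_, h5⟩
      rw [h4] at h1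
      exact h1.symm
    refine ⟨⟨w' :: p.1, hq1, hq2, hq3⟩, (mem_ch hD o _ _).2 ⟨w', rfl⟩, rfl⟩
  · intro q hq
    obtain ⟨w, hw⟩ := hcons q hq
    have h1 : q.1.head (ne_nil q) = w := by simp [hw]
    rw [h1, hw]
    rfl

end Pool.Agent.Q104.PT
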