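import Mathlib
import Pool.Agent.H792R3.SpecMeas

set_option autoImplicit false

/-!
Adjacency operators of locally finite graphs on `ℓ²`, their spectral measures, and the lower
bound for the atom at `0` coming from an `ℓ²` kernel vector.
-/

namespace Pool.Agent.Q104.PT

open MeasureTheory

variable {P : Type}

/-- The complex Hilbert space `ℓ²(P)`. -/
abbrev L2 (P : Type) : Type := lp (fun _ : P => ℂ) 2

open Classical in
/-- The indicator vector `χ_p` of `p` in `ℓ²(P)`. -/
noncomputable def chi (p : P) : L2 P := lp.single 2 p 1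

/-- `A` is the adjacency operator of the graph `T` on `ℓ²(P)`: the bounded operator whose matrix
in the basis of indicator vectors is the adjacency matrix of `T`. -/
def IsAdjOp (T : SimpleGraph P) (A : L2 P →L[ℂ] L2 P) : Prop :=
  ∀ p q : P, (T.Adj p q → (A (chi q)) p = 1) ∧ (¬ T.Adj p q → (A (chi q)) p = 0)

/-- `μ` is the spectral measure at the vertex `r` of the adjacency operator of `T`: a compactly
supported probability measure on `ℝ` with `∫ x ^ n dμ = ⟨A ^ n χ_r, χ_r⟩` for every `n`. -/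
def IsSpectralMeasureAt (T : SimpleGraph P) (r : P) (μ : Measure ℝ) : Prop :=
  IsProbabilityMeasure μ ∧ (∃ R : ℝ, μ (Set.Icc (-R) R)ᶜ = 0) ∧
    ∃ A : L2 P →L[ℂ] L2 P, IsAdjOp T A ∧
      ∀ n : ℕ, ((∫ x, x ^ n ∂μ : ℝ) : ℂ) = inner ℂ ((A ^ n) (chi r)) (chi r)

lemma chi_apply_self (p : P) : (chi p : L2 P) p = 1 := by
  classical
  simp only [chi]
  exact lp.single_apply_self 2 p _

lemma chi_apply_ne {p q : P} (h : q ≠ p) : (chi p : L2 P) q = 0 := by
  classical
  simp only [chi]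
  exact lp.single_apply_ne 2 p _ h

lemma inner_chi (p : P) (F : L2 P) : inner ℂ (chi p) F = F p := by
  classical
  simp only [chi]
  rw [lp.inner_single_left]
  simp

lemma inner_chi_right (p : P) (F : L2 P) : inner ℂ F (chi p) = (starRingEnd ℂ) (F p) := by
  rw [← inner_conj_symm, inner_chi]

lemma adj_adjoint {A : L2 P →L[ℂ] L2 P} (p q : P) :
    (ContinuousLinearMap.adjoint A (chi p)) q = (starRingEnd ℂ) ((A (chi q)) p) := by
  rw [← inner_chi, ContinuousLinearMap.adjoint_inner_right, inner_chi_right]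

lemma adj_adjoint_isAdjOp {T : SimpleGraph P} {A : L2 P →L[ℂ] L2 P} (hA : IsAdjOp T A) :
    IsAdjOp T (ContinuousLinearMap.adjoint A) := by
  intro p q
  rw [adj_adjoint]
  constructor
  · intro h
    rw [(hA q p).1 h.symm]; simp
  · intro h
    rw [(hA q p).2 (fun h' => h h'.symm)]; simp

lemma adjOp_apply {T : SimpleGraph P} {A : L2 P →L[ℂ] L2 P} (hA : IsAdjOp T A)
    (N : P → Finset P) (hN : ∀ p q, q ∈ N p ↔ T.Adj p q) (F : L2 P) (p : P) :
    (A F) p = ∑ q ∈ N p, F q := by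
  have h1 : ContinuousLinearMap.adjoint A (chi p) = ∑ q ∈ N p, chi q := by
    ext q
    rw [adj_adjoint]
    have h2 : ((∑ q' ∈ N p, chi q' : L2 P)) q = ∑ q' ∈ N p, (chi q' : L2 P) q := by
      rw [lp.coeFn_sum, Finset.sum_apply]
    rw [h2]
    by_cases h : T.Adj p q
    · rw [(hA p q).1 h, Finset.sum_eq_single q]
      · rw [chi_apply_self]; simp
      · intro b _ hb
        exact chi_apply_ne (Ne.symm hb)
      · intro h'
        exact absurd ((hN p q).2 h) h'
    · rw [(hA p q).2 h]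
      rw [Finset.sum_eq_zero]
      · simp
      · intro b hb
        apply chi_apply_ne
        rintro rfl
        exact h ((hN _ _).1 hb)
  rw [← inner_chi, ← ContinuousLinearMap.adjoint_inner_left, h1, sum_inner]
  exact Finset.sum_congr rfl fun q _ => inner_chi q F

lemma adjOp_selfAdjoint {T : SimpleGraph P} {A : L2 P →L[ℂ] L2 P} (hA : IsAdjOp T A)
    (N : P → Finset P) (hN : ∀ p q, q ∈ N p ↔ T.Adj p q) : IsSelfAdjoint A := by
  have h := adj_adjoint_isAdjOp hA
  show star A = A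
  rw [ContinuousLinearMap.star_eq_adjoint]
  apply ContinuousLinearMap.ext
  intro F
  ext p
  rw [adjOp_apply h N hN, adjOp_apply hA N hN]

lemma adjOp_unique {T : SimpleGraph P} {A B : L2 P →L[ℂ] L2 P} (hA : IsAdjOp T A)
    (hB : IsAdjOp T B) (N : P → Finset P) (hN : ∀ p q, q ∈ N p ↔ T.Adj p q) : A = B := by
  apply ContinuousLinearMap.ext
  intro F
  ext p
  rw [adjOp_apply hA N hN, adjOp_apply hB N hN]

/-- Schur test: a locally finite graph with degrees at most `K` has an adjacency operator. -/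
lemma exists_adjOp (T : SimpleGraph P) (N : P → Finset P) (hN : ∀ p q, q ∈ N p ↔ T.Adj p q)
    (K : ℕ) (hK : ∀ p, (N p).card ≤ K) : ∃ A : L2 P →L[ℂ] L2 P, IsAdjOp T A := by
  classical
  have h2 : (0:ℝ) < ENNReal.toReal 2 := by norm_num
  -- finite sums
  have key : ∀ (F : L2 P) (s : Finset P), ∑ p ∈ s, ‖∑ q ∈ N p, F q‖ ^ 2 ≤ (K * ‖F‖) ^ 2 := by
    intro F s
    have e1 : ∀ p, ‖∑ q ∈ N p, F q‖ ^ 2 ≤ K * ∑ q ∈ N p, ‖F q‖ ^ 2 := by
      intro p
      calc ‖∑ q ∈ N p, F q‖ ^ 2 ≤ (∑ q ∈ N p, ‖F q‖) ^ 2 := by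
            gcongr; exact norm_sum_le _ _
        _ ≤ (N p).card * ∑ q ∈ N p, ‖F q‖ ^ 2 := sq_sum_le_card_mul_sum_sq
        _ ≤ K * ∑ q ∈ N p, ‖F q‖ ^ 2 := by
            gcongr; exact hK p
    have e2 : ∑ p ∈ s, ∑ q ∈ N p, ‖F q‖ ^ 2 ≤ K * ‖F‖ ^ 2 := by
      have : ∑ p ∈ s, ∑ q ∈ N p, ‖F q‖ ^ 2 =
          ∑ q ∈ s.biUnion N, ∑ p ∈ s.filter (fun p => q ∈ N p), ‖F q‖ ^ 2 := by
        rw [Finset.sum_comm' (t' := s.biUnion N) (s' := fun q => s.filter (fun p => q ∈ N p))]
        intro p q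
        simp only [Finset.mem_filter, Finset.mem_biUnion]
        constructor
        · rintro ⟨h1, h2⟩
          exact ⟨⟨h1, h2⟩, p, h1, h2⟩
        · rintro ⟨⟨h1, h2⟩, _⟩
          exact ⟨h1, h2⟩
      rw [this]
      calc ∑ q ∈ s.biUnion N, ∑ p ∈ s.filter (fun p => q ∈ N p), ‖F q‖ ^ 2
          ≤ ∑ q ∈ s.biUnion N, K * ‖F q‖ ^ 2 := by
            apply Finset.sum_le_sum
            intro q _
            rw [Finset.sum_const, nsmul_eq_mul]
            gcongr
            calc (s.filter (fun p => q ∈ N p)).card ≤ (N q).card := by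
                  apply Finset.card_le_card
                  intro p hp
                  rw [Finset.mem_filter] at hp
                  exact (hN _ _).2 ((hN _ _).1 hp.2).symm
              _ ≤ K := hK q
        _ = K * ∑ q ∈ s.biUnion N, ‖F q‖ ^ 2 := by rw [Finset.mul_sum]
        _ ≤ K * ‖F‖ ^ 2 := by
            gcongr
            have := lp.sum_rpow_le_norm_rpow h2 F (s.biUnion N)
            simpa using this
    calc ∑ p ∈ s, ‖∑ q ∈ N p, F q‖ ^ 2 ≤ ∑ p ∈ s, K * ∑ q ∈ N p, ‖F q‖ ^ 2 :=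
          Finset.sum_le_sum fun p _ => e1 p
      _ = K * ∑ p ∈ s, ∑ q ∈ N p, ‖F q‖ ^ 2 := by rw [Finset.mul_sum]
      _ ≤ K * (K * ‖F‖ ^ 2) := by gcongr
      _ = (K * ‖F‖) ^ 2 := by ring
  have hmem : ∀ F : L2 P, Memℓp (fun p => ∑ q ∈ N p, F q) 2 := by
    intro F
    apply memℓp_gen' (C := (K * ‖F‖) ^ 2)
    intro s
    have := key F s
    simpa using this
  let L : L2 P →ₗ[ℂ] L2 P :=
  { toFun := fun F => ⟨fun p => ∑ q ∈ N p, F q, hmem F⟩
    map_add' := by
      intro F G
      ext p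
      exact Finset.sum_add_distrib
    map_smul' := by
      intro c F
      ext p
      simp [Finset.mul_sum] }
  have hL : ∀ F p, (L F) p = ∑ q ∈ N p, F q := fun F p => rfl
  refine ⟨L.mkContinuous K ?_, ?_⟩
  · intro F
    apply lp.norm_le_of_forall_sum_le h2 (by positivity)
    intro s
    have := key F s
    simpa [hL] using this
  · intro p q
    rw [LinearMap.mkContinuous_apply, hL]
    constructor
    · intro h
      rw [Finset.sum_eq_single q]
      · exact chi_apply_self q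
      · intro b _ hb
        exact chi_apply_ne hb
      · intro h'
        exact absurd ((hN _ _).2 h) h'
    · intro h
      apply Finset.sum_eq_zero
      intro b hb
      apply chi_apply_ne
      rintro rfl
      exact h ((hN _ _).1 hb)

/-! ### Compactly supported measures -/

lemma ae_mem {μ : Measure ℝ} {R : ℝ} (h : μ (Set.Icc (-R) R)ᶜ = 0) :
    ∀ᵐ x ∂μ, x ∈ Set.Icc (-R) R := by
  rw [ae_iff]
  exact h

lemma integrable_cont {μ : Measure ℝ} [IsFiniteMeasure μ] {R : ℝ}
    (h : μ (Set.Icc (-R) R)ᶜ = 0) {g : ℝ → ℝ} (hg : Continuous g) : Integrable g μ := by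
  have h1 : μ.restrict (Set.Icc (-R) R) = μ := Measure.restrict_eq_self_of_ae_mem (ae_mem h)
  rw [← h1]
  exact (hg.continuousOn.integrableOn_compact isCompact_Icc)

lemma integral_poly {μ ν : Measure ℝ} [IsFiniteMeasure μ] [IsFiniteMeasure ν] {R : ℝ}
    (hμ : μ (Set.Icc (-R) R)ᶜ = 0) (hν : ν (Set.Icc (-R) R)ᶜ = 0)
    (h : ∀ n : ℕ, ∫ x, x ^ n ∂μ = ∫ x, x ^ n ∂ν) (q : Polynomial ℝ) :
    ∫ x, q.eval x ∂μ = ∫ x, q.eval x ∂ν := by
  induction q using Polynomial.induction_on' with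
  | add p q hp hq =>
    simp only [Polynomial.eval_add]
    rw [integral_add (integrable_cont hμ p.continuous) (integrable_cont hμ q.continuous),
      integral_add (integrable_cont hν p.continuous) (integrable_cont hν q.continuous), hp, hq]
  | monomial n a =>
    simp only [Polynomial.eval_monomial]
    rw [integral_const_mul, integral_const_mul, h n]

/-- Compactly supported finite measures with the same moments are equal. -/
lemma eq_of_moments {μ ν : Measure ℝ} [IsFiniteMeasure μ] [IsFiniteMeasure ν] {R : ℝ}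
    (hμ : μ (Set.Icc (-R) R)ᶜ = 0) (hν : ν (Set.Icc (-R) R)ᶜ = 0)
    (h : ∀ n : ℕ, ∫ x, x ^ n ∂μ = ∫ x, x ^ n ∂ν) : μ = ν := by
  apply ext_of_forall_integral_eq_of_IsFiniteMeasure
  intro f
  have hfc : Continuous f := f.continuous
  -- approximate
  by_contra hne
  set δ : ℝ := |∫ x, f x ∂μ - ∫ x, f x ∂ν| with hδ
  have hδ0 : 0 < δ := abs_pos.2 (sub_ne_zero.2 hne)
  set M : ℝ := μ.real Set.univ + ν.real Set.univ + 1 with hM
  have hM0 : 0 < M := by positivity
  obtain ⟨q, hq⟩ := exists_polynomial_near_of_continuousOn (-R) R f hfc.continuousOn (δ / M)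
    (by positivity)
  have hb : ∀ (ρ : Measure ℝ) [IsFiniteMeasure ρ], ρ (Set.Icc (-R) R)ᶜ = 0 →
      |∫ x, q.eval x ∂ρ - ∫ x, f x ∂ρ| ≤ δ / M * ρ.real Set.univ := by
    intro ρ _ hρ
    rw [← integral_sub (integrable_cont hρ q.continuous) (integrable_cont hρ hfc)]
    have := norm_integral_le_of_norm_le_const (μ := ρ) (f := fun x => q.eval x - f x)
      (C := δ / M) ((ae_mem hρ).mono fun x hx => (hq x hx).le)
    simpa using this
  have h1 := hb μ hμ
  have h2 := hb ν hν
  have h3 := integral_poly hμ hν h q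
  rw [h3] at h1
  have h4 : δ ≤ δ / M * μ.real Set.univ + δ / M * ν.real Set.univ := by
    rw [hδ]
    calc |∫ x, f x ∂μ - ∫ x, f x ∂ν|
        = |(∫ x, q.eval x ∂ν - ∫ x, f x ∂ν) - (∫ x, q.eval x ∂ν - ∫ x, f x ∂μ)| := by
          congr 1; ring
      _ ≤ |∫ x, q.eval x ∂ν - ∫ x, f x ∂ν| + |∫ x, q.eval x ∂ν - ∫ x, f x ∂μ| := abs_sub _ _
      _ ≤ _ := by rw [add_comm]; exact add_le_add h1 h2
  have h5 : δ / M * μ.real Set.univ + δ / M * ν.real Set.univ < δ := by
    rw [← mul_add, div_mul_eq_mul_div, div_lt_iff₀ hM0]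
    apply mul_lt_mul_of_pos_left _ hδ0
    rw [hM]; linarith
  linarith

/-- Spectral measure of a vector, with support and moments. -/
lemma exists_specMeas' {X : Type} [NormedAddCommGroup X] [InnerProductSpace ℂ X]
    [CompleteSpace X] (A : X →L[ℂ] X) (hsa : IsSelfAdjoint A) (φ : X) (hφ : inner ℂ φ φ = (1:ℂ)) :
    ∃ μ : Measure ℝ, IsProbabilityMeasure μ ∧ μ (Set.Icc (-‖A‖) ‖A‖)ᶜ = 0 ∧
      ∀ n : ℕ, ((∫ x, x ^ n ∂μ : ℝ) : ℂ) = inner ℂ ((A ^ n) φ) φ := by
  rcases subsingleton_or_nontrivial X with hX | hX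
  · exfalso
    have : φ = 0 := Subsingleton.elim _ _
    rw [this] at hφ
    simp at hφ
  obtain ⟨μ, hfin, hμ⟩ := H792R3.exists_specMeas A hsa φ
  have h1 := (hμ (fun _ => 1) continuous_const).2
  have hprob : IsProbabilityMeasure μ := by
    constructor
    have h3 : cfc (fun _ : ℝ => (1:ℝ)) A = 1 := cfc_const_one ℝ A
    rw [h3] at h1
    simp only [integral_const, smul_eq_mul, mul_one, one_apply_eq_self, hφ] at h1
    have h4 : μ.real Set.univ = 1 := by exact_mod_cast h1
    rw [Measure.real, ENNReal.toReal_eq_one_iff] at h4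
    exact h4
  refine ⟨μ, hprob, ?_, ?_⟩
  · have hc : Continuous (fun x : ℝ => max (|x| - ‖A‖) 0) := by fun_prop
    obtain ⟨h5, h6⟩ := hμ _ hc
    have h7 : cfc (fun x : ℝ => max (|x| - ‖A‖) 0) A = 0 := by
      rw [cfc_congr (g := fun _ => (0:ℝ)) (a := A)]
      · exact cfc_const_zero ℝ A
      · intro x hx
        have : ‖x‖ ≤ ‖A‖ := by
          have := spectrum.norm_le_norm_mul_of_mem hx
          simpa using this
        simp only
        rw [max_eq_right]
        rw [Real.norm_eq_abs] at this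
        linarith
    rw [h7] at h6
    have h8 : ∫ x, max (|x| - ‖A‖) 0 ∂μ = 0 := by
      simpa using h6
    rw [integral_eq_zero_iff_of_nonneg (f := fun x : ℝ => max (|x| - ‖A‖) 0)
      (fun x => le_max_right _ _) h5] at h8
    have h9 : ∀ᵐ x ∂μ, x ∈ Set.Icc (-‖A‖) ‖A‖ := by
      filter_upwards [h8] with x hx
      have hx' : max (|x| - ‖A‖) 0 = 0 := hx
      have : |x| - ‖A‖ ≤ 0 := by
        rw [← hx']; exact le_max_left _ _
      rw [Set.mem_Icc, ← abs_le]
      linarith
    rw [ae_iff] at h9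
    exact h9
  · intro n
    have h10 := (hμ (fun x => x ^ n) (continuous_pow n)).2
    rw [cfc_pow_id A n] at h10
    rw [← inner_conj_symm, ← h10]
    simp

/-- Existence of the spectral measure at a vertex. -/
lemma exists_spectralMeasure (T : SimpleGraph P) (N : P → Finset P)
    (hN : ∀ p q, q ∈ N p ↔ T.Adj p q) (K : ℕ) (hK : ∀ p, (N p).card ≤ K) (r : P) :
    ∃ μ, IsSpectralMeasureAt T r μ := by
  obtain ⟨A, hA⟩ := exists_adjOp T N hN K hK
  have hsa := adjOp_selfAdjoint hA N hN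
  obtain ⟨μ, h1, h2, h3⟩ := exists_specMeas' A hsa (chi r)
    (by rw [inner_chi, chi_apply_self])
  exact ⟨μ, h1, ⟨_, h2⟩, A, hA, h3⟩

/-- Uniqueness of the spectral measure at a vertex. -/
lemma spectralMeasure_unique {T : SimpleGraph P} (N : P → Finset P)
    (hN : ∀ p q, q ∈ N p ↔ T.Adj p q) {r : P} {μ ν : Measure ℝ}
    (hμ : IsSpectralMeasureAt T r μ) (hν : IsSpectralMeasureAt T r ν) : μ = ν := by
  obtain ⟨p1, ⟨R1, s1⟩, A, hA, m1⟩ := hμ
  obtain ⟨p2, ⟨R2, s2⟩, B, hB, m2⟩ := hν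
  have hAB := adjOp_unique hA hB N hN
  subst hAB
  have t1 : μ (Set.Icc (-(max R1 R2)) (max R1 R2))ᶜ = 0 := by
    apply measure_mono_null _ s1
    apply Set.compl_subset_compl.2
    exact Set.Icc_subset_Icc (neg_le_neg (le_max_left _ _)) (le_max_left _ _)
  have t2 : ν (Set.Icc (-(max R1 R2)) (max R1 R2))ᶜ = 0 := by
    apply measure_mono_null _ s2
    apply Set.compl_subset_compl.2
    exact Set.Icc_subset_Icc (neg_le_neg (le_max_right _ _)) (le_max_right _ _)
  apply eq_of_moments t1 t2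
  intro n
  have := (m1 n).trans (m2 n).symm
  exact_mod_cast this

/-! ### Atoms from kernel vectors -/

lemma poly_moment {T : SimpleGraph P} {r : P} {μ : Measure ℝ} [IsFiniteMeasure μ] {R : ℝ}
    (hμ : μ (Set.Icc (-R) R)ᶜ = 0) {A : L2 P →L[ℂ] L2 P}
    (m : ∀ n : ℕ, ((∫ x, x ^ n ∂μ : ℝ) : ℂ) = inner ℂ ((A ^ n) (chi r)) (chi r))
    (q : Polynomial ℝ) :
    ((∫ x, q.eval x ∂μ : ℝ) : ℂ) =
      inner ℂ ((Polynomial.aeval A (q.map (algebraMap ℝ ℂ))) (chi r)) (chi r) := by
  induction q using Polynomial.induction_on' with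
  | add p q hp hq =>
    simp only [Polynomial.eval_add, Polynomial.map_add, map_add, add_apply, inner_add_left]
    rw [integral_add (integrable_cont hμ p.continuous) (integrable_cont hμ q.continuous),
      ← hp, ← hq]
    push_cast
    rfl
  | monomial n a =>
    simp only [Polynomial.eval_monomial, Polynomial.map_monomial]
    rw [integral_const_mul, Polynomial.aeval_monomial, ← Algebra.smul_def, Complex.ofReal_mul,
      m n, smul_apply, inner_smul_left]
    simp

/-- A square-summable kernel vector with value `1` at `r` forces an atom at `0`. -/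
lemma atom_of_kernel {T : SimpleGraph P} (N : P → Finset P)
    (hN : ∀ p q, q ∈ N p ↔ T.Adj p q) {r : P} {μ : Measure ℝ}
    (hμ : IsSpectralMeasureAt T r μ) (f : P → ℝ) (hr : f r = 1)
    (hker : ∀ p, ∑ q ∈ N p, f q = 0) (C : ℝ) (hC : ∀ s : Finset P, ∑ p ∈ s, f p ^ 2 ≤ C) :
    0 < μ {0} := by
  classical
  obtain ⟨hp, ⟨R₀, s₀⟩, A, hA, m⟩ := hμ
  have hC0 : 0 < C := by
    have := hC {r}
    simp only [Finset.sum_singleton, hr] at this
    linarith
  have hsa := adjOp_selfAdjoint hA N hN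
  set R : ℝ := max R₀ 1 with hR
  have hR0 : 0 < R := lt_of_lt_of_le one_pos (le_max_right _ _)
  have hs : μ (Set.Icc (-R) R)ᶜ = 0 := by
    apply measure_mono_null _ s₀
    apply Set.compl_subset_compl.2
    exact Set.Icc_subset_Icc (neg_le_neg (le_max_left _ _)) (le_max_left _ _)
  have h2 : (0:ℝ) < ENNReal.toReal 2 := by norm_num
  have hmem : Memℓp (fun p => (f p : ℂ)) 2 := by
    apply memℓp_gen' (C := C)
    intro s
    have := hC s
    simpa using this
  let F : L2 P := ⟨fun p => (f p : ℂ), hmem⟩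
  have hFp : ∀ p, F p = (f p : ℂ) := fun p => rfl
  have hFn : ‖F‖ ^ 2 ≤ C := by
    have h3 : ‖F‖ ≤ Real.sqrt C := by
      apply lp.norm_le_of_forall_sum_le h2 (Real.sqrt_nonneg _)
      intro s
      have := hC s
      simp only [hFp]
      simpa [Real.sq_sqrt hC0.le] using this
    calc ‖F‖ ^ 2 ≤ (Real.sqrt C) ^ 2 := by gcongr
      _ = C := Real.sq_sqrt hC0.le
  have hAF : A F = 0 := by
    ext p
    rw [adjOp_apply hA N hN]
    simp only [hFp]
    have := hker p
    rw [← Complex.ofReal_sum, this]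
    simp
  -- the polynomial `1 - x ^ 2 / R ^ 2`
  set b : Polynomial ℝ := 1 - Polynomial.C (1 / R ^ 2) * Polynomial.X ^ 2 with hb
  set B : L2 P →L[ℂ] L2 P := Polynomial.aeval A (b.map (algebraMap ℝ ℂ)) with hB
  have hB' : B = 1 - ((1 / R ^ 2 : ℝ) : ℂ) • A ^ 2 := by
    rw [hB, hb]
    simp [Algebra.smul_def]
  have hBF : B F = F := by
    rw [hB']
    simp only [sub_apply, one_apply_eq_self, smul_apply, pow_two, mul_apply_eq_comp, hAF, map_zero,
      smul_zero, sub_zero]
  have hBsa : ContinuousLinearMap.adjoint B = B := by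
    have : IsSelfAdjoint B := by
      rw [hB']
      apply IsSelfAdjoint.sub (IsSelfAdjoint.one _)
      apply IsSelfAdjoint.smul
      · rw [isSelfAdjoint_iff]
        simp
      · exact hsa.pow 2
    exact this
  have hBsa' : ∀ (n : ℕ) (x y : L2 P), inner ℂ ((B ^ n) x) y = inner ℂ x ((B ^ n) y) := by
    intro n x y
    have : ContinuousLinearMap.adjoint (B ^ n) = B ^ n := by
      have h : IsSelfAdjoint B := hBsa
      exact h.pow n
    rw [← ContinuousLinearMap.adjoint_inner_right, this]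
  have hBFn : ∀ n : ℕ, (B ^ n) F = F := by
    intro n
    induction n with
    | zero => simp
    | succ n ih => rw [pow_succ, mul_apply_eq_comp, hBF, ih]
  have hone : ∀ n : ℕ, 1 ≤ C * ∫ x, (1 - x ^ 2 / R ^ 2) ^ (2 * n) ∂μ := by
    intro n
    have h4 : inner ℂ ((B ^ n) (chi r)) F = (1:ℂ) := by
      rw [hBsa', hBFn, inner_chi, hFp, hr]
      simp
    have h5 : ‖(B ^ n) (chi r)‖ ^ 2 = ∫ x, (1 - x ^ 2 / R ^ 2) ^ (2 * n) ∂μ := by
      have h6 := poly_moment (T := T) hs m (b ^ (2 * n))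
      have h7 : Polynomial.aeval A ((b ^ (2 * n)).map (algebraMap ℝ ℂ)) = B ^ (2 * n) := by
        rw [Polynomial.map_pow, map_pow]
      rw [h7] at h6
      have h8 : inner ℂ ((B ^ (2 * n)) (chi r)) (chi r) =
          ((‖(B ^ n) (chi r)‖ ^ 2 : ℝ) : ℂ) := by
        rw [two_mul, pow_add, mul_apply_eq_comp, hBsa', inner_self_eq_norm_sq_to_K]
        push_cast
        rfl
      rw [h8] at h6
      have h9 : ∫ x, (b ^ (2 * n)).eval x ∂μ = ‖(B ^ n) (chi r)‖ ^ 2 := by
        exact_mod_cast h6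
      rw [← h9]
      congr 1
      funext x
      simp [hb]
      ring
    have h6 : ‖(inner ℂ ((B ^ n) (chi r)) F : ℂ)‖ ≤ ‖(B ^ n) (chi r)‖ * ‖F‖ :=
      norm_inner_le_norm _ _
    rw [h4, norm_one] at h6
    rw [← h5]
    calc (1:ℝ) = 1 ^ 2 := by norm_num
      _ ≤ (‖(B ^ n) (chi r)‖ * ‖F‖) ^ 2 := by gcongr
      _ = ‖F‖ ^ 2 * ‖(B ^ n) (chi r)‖ ^ 2 := by ring
      _ ≤ C * ‖(B ^ n) (chi r)‖ ^ 2 := by gcongr
  have hlim : Filter.Tendsto (fun n : ℕ => ∫ x, (1 - x ^ 2 / R ^ 2) ^ (2 * n) ∂μ) Filter.atTop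
      (nhds (∫ x, Set.indicator {(0:ℝ)} (fun _ => (1:ℝ)) x ∂μ)) := by
    apply tendsto_integral_of_dominated_convergence (fun _ => (1:ℝ))
    · intro n
      exact (by fun_prop : Continuous fun x : ℝ => (1 - x ^ 2 / R ^ 2) ^ (2 * n)).aestronglyMeasurable
    · exact integrable_const _
    · intro n
      filter_upwards [ae_mem hs] with x hx
      have h5 : x ^ 2 ≤ R ^ 2 := by
        rw [sq_le_sq, abs_of_pos hR0, abs_le]
        exact hx
      have h6 : 0 ≤ 1 - x ^ 2 / R ^ 2 := by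
        rw [sub_nonneg, div_le_one (by positivity)]
        exact h5
      have h7 : 1 - x ^ 2 / R ^ 2 ≤ 1 := by
        have : 0 ≤ x ^ 2 / R ^ 2 := by positivity
        linarith
      rw [Real.norm_eq_abs, abs_of_nonneg (by positivity)]
      exact pow_le_one₀ h6 h7
    · filter_upwards [ae_mem hs] with x hx
      by_cases hx0 : x = 0
      · subst hx0
        simp
      · have h5 : x ^ 2 ≤ R ^ 2 := by
          rw [sq_le_sq, abs_of_pos hR0, abs_le]
          exact hx
        have h6 : 0 ≤ 1 - x ^ 2 / R ^ 2 := by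
          rw [sub_nonneg, div_le_one (by positivity)]
          exact h5
        have h7 : 1 - x ^ 2 / R ^ 2 < 1 := by
          have : 0 < x ^ 2 / R ^ 2 := by positivity
          linarith
        have h8 : Set.indicator {(0:ℝ)} (fun _ => (1:ℝ)) x = 0 := by
          simp [hx0]
        rw [h8]
        have h9 := tendsto_pow_atTop_nhds_zero_of_lt_one h6 h7
        exact h9.comp (Filter.tendsto_id.const_mul_atTop' (by norm_num : (0:ℕ) < 2))
  have hfin : (1:ℝ) ≤ C * ∫ x, Set.indicator {(0:ℝ)} (fun _ => (1:ℝ)) x ∂μ :=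
    ge_of_tendsto' (hlim.const_mul C) hone
  rw [integral_indicator (MeasurableSet.singleton _)] at hfin
  simp only [integral_const, smul_eq_mul, mul_one, Measure.real, Measure.restrict_apply_univ]
    at hfin
  by_contra h0
  have h1 : μ {0} = 0 := by simpa using h0
  rw [h1] at hfin
  norm_num at hfin

end Pool.Agent.Q104.PT
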