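import Pool.Agent.Q104.PathOp

set_option autoImplicit false

/-!
Path trees, matching measures and `0`-positive vertices.
-/

namespace Pool.Agent.Q104.PT

open MeasureTheory

variable {V : Type}

/-- The finite paths of `G` starting at `o`: a path is the list of its (distinct, consecutively
adjacent) vertices, written with the end vertex first and the start vertex `o` last. -/
def PathsFrom (G : SimpleGraph V) (o : V) : Type :=
  {l : List V // l.getLast? = some o ∧ l.Nodup ∧ l.IsChain G.Adj}

/-- The path tree `T(G, o)`: two paths are adjacent when one is obtained from the other by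
adding one more vertex at the end (so the shorter is a maximal proper subpath). -/
def pathTree (G : SimpleGraph V) (o : V) : SimpleGraph (PathsFrom G o) where
  Adj p q := (∃ w, p.1 = w :: q.1) ∨ (∃ w, q.1 = w :: p.1)
  symm := ⟨by
    rintro p q (h | h)
    · exact Or.inr h
    · exact Or.inl h⟩
  loopless := ⟨by
    rintro p (⟨w, h⟩ | ⟨w, h⟩)
    · have := congrArg List.length h
      simp at this
    · have := congrArg List.length h
      simp at this⟩

/-- The one-vertex path `o`. -/
def rootPath (G : SimpleGraph V) (o : V) : PathsFrom G o := ⟨[o], by simp⟩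

/-- `μ` is the matching measure `ν_{G,o}`. -/
def IsMatchingMeasure (G : SimpleGraph V) (o : V) (μ : Measure ℝ) : Prop :=
  IsSpectralMeasureAt (pathTree G o) (rootPath G o) μ

open Classical in
/-- The matching measure `ν_{G,o}` (junk value `0` when it does not exist; it exists and is
unique for graphs of bounded degree). -/
noncomputable def matchingMeasure (G : SimpleGraph V) (o : V) : Measure ℝ :=
  if h : ∃ μ, IsMatchingMeasure G o μ then h.choose else 0

/-- `u` is `0`-positive in `G`: the sum over the neighbours `v` of `u` of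
`ν_{G - u, v}({0})` is positive. -/
def IsZeroPositive (G : SimpleGraph V) (u : V) : Prop :=
  0 < ∑' v : G.neighborSet u,
    matchingMeasure (G.induce ({u}ᶜ : Set V)) ⟨v.1, fun h => G.ne_of_adj v.2 h.symm⟩ {0}

/-- All degrees of `G` are at most `D`. -/
def DegreesLE (G : SimpleGraph V) (D : ℕ) : Prop :=
  ∀ v, (G.neighborSet v).Finite ∧ (G.neighborSet v).ncard ≤ D

lemma ne_nil {G : SimpleGraph V} {o : V} (p : PathsFrom G o) : p.1 ≠ [] := by
  intro h
  have := p.2.1
  rw [h] at this
  simp at this

lemma adj_subset (G : SimpleGraph V) (o : V) (p : PathsFrom G o) :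
    {q | (pathTree G o).Adj p q} ⊆
      Subtype.val ⁻¹' ((fun w => w :: p.1) '' G.neighborSet (p.1.head (ne_nil p)) ∪ {p.1.tail}) := by
  rintro q (⟨w, h⟩ | ⟨w, h⟩)
  · right
    rw [h]
    simp
  · left
    refine ⟨w, ?_, h.symm⟩
    have h2 := q.2.2.2
    rw [h] at h2
    have hne := ne_nil p
    obtain ⟨a, l, hal⟩ := List.exists_cons_of_ne_nil hne
    have h3 : (w :: a :: l).IsChain G.Adj := by rw [← hal]; exact h2
    rw [List.isChain_cons_cons] at h3
    show G.Adj (p.1.head hne) w
    have : p.1.head hne = a := by simp [hal]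
    rw [this]
    exact h3.1.symm

lemma adj_finite {G : SimpleGraph V} {D : ℕ} (hD : DegreesLE G D) (o : V) (p : PathsFrom G o) :
    {q | (pathTree G o).Adj p q}.Finite := by
  apply Set.Finite.subset _ (adj_subset G o p)
  apply Set.Finite.preimage Subtype.val_injective.injOn
  exact ((hD _).1.image _).union (Set.finite_singleton _)

lemma adj_ncard {G : SimpleGraph V} {D : ℕ} (hD : DegreesLE G D) (o : V) (p : PathsFrom G o) :
    {q | (pathTree G o).Adj p q}.ncard ≤ D + 1 := by
  have hf : ((fun w => w :: p.1) '' G.neighborSet (p.1.head (ne_nil p)) ∪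
    {p.1.tail} : Set (List V)).Finite := ((hD _).1.image _).union (Set.finite_singleton _)
  calc {q | (pathTree G o).Adj p q}.ncard
      = (Subtype.val '' {q | (pathTree G o).Adj p q}).ncard :=
        (Set.ncard_image_of_injective _ Subtype.val_injective).symm
    _ ≤ ((fun w => w :: p.1) '' G.neighborSet (p.1.head (ne_nil p)) ∪
          {p.1.tail} : Set (List V)).ncard := by
        apply Set.ncard_le_ncard _ hf
        rintro _ ⟨q, hq, rfl⟩
        exact adj_subset G o p hq
    _ ≤ ((fun w => w :: p.1) '' G.neighborSet (p.1.head (ne_nil p))).ncard + 1 := by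
        have := Set.ncard_union_le ((fun w => w :: p.1) '' G.neighborSet (p.1.head (ne_nil p)))
          ({p.1.tail} : Set (List V))
        rw [Set.ncard_singleton] at this
        exact this
    _ ≤ D + 1 := by
        have := Set.ncard_image_le (f := fun w => w :: p.1) (hD (p.1.head (ne_nil p))).1
        have := (hD (p.1.head (ne_nil p))).2
        omega

/-- the finite neighbour sets in the path tree -/
noncomputable def nb {G : SimpleGraph V} {D : ℕ} (hD : DegreesLE G D) (o : V)
    (p : PathsFrom G o) : Finset (PathsFrom G o) := (adj_finite hD o p).toFinset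

lemma mem_nb {G : SimpleGraph V} {D : ℕ} (hD : DegreesLE G D) (o : V)
    (p q : PathsFrom G o) : q ∈ nb hD o p ↔ (pathTree G o).Adj p q := by
  simp [nb]

/-- In a graph of bounded degree the matching measure exists and is unique. -/
theorem existsUnique_matchingMeasure {G : SimpleGraph V} {D : ℕ} (hD : DegreesLE G D) (o : V) :
    ∃! μ, IsMatchingMeasure G o μ := by
  obtain ⟨μ, hμ⟩ := exists_spectralMeasure (pathTree G o) (nb hD o) (mem_nb hD o) (D + 1)
    (fun p => by
      have h1 := adj_ncard hD o p
      rw [Set.ncard_eq_toFinset_card _ (adj_finite hD o p)] at h1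
      exact h1) (rootPath G o)
  exact ⟨μ, hμ, fun ν hν => spectralMeasure_unique (nb hD o) (mem_nb hD o) hν hμ⟩

lemma matchingMeasure_spec {G : SimpleGraph V} {D : ℕ} (hD : DegreesLE G D) (o : V) :
    IsMatchingMeasure G o (matchingMeasure G o) := by
  have h := (existsUnique_matchingMeasure hD o).exists
  unfold matchingMeasure
  rw [dif_pos h]
  exact h.choose_spec

/-- the extensions of a path by one vertex -/
noncomputable def ch {G : SimpleGraph V} {D : ℕ} (hD : DegreesLE G D) (o : V)
    (p : PathsFrom G o) : Finset (PathsFrom G o) := by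
  classical
  exact (nb hD o p).filter fun q => ∃ w, q.1 = w :: p.1

lemma mem_ch {G : SimpleGraph V} {D : ℕ} (hD : DegreesLE G D) (o : V)
    (p q : PathsFrom G o) : q ∈ ch hD o p ↔ ∃ w, q.1 = w :: p.1 := by
  classical
  unfold ch
  rw [Finset.mem_filter, mem_nb]
  constructor
  · exact fun h => h.2
  · exact fun h => ⟨Or.inr h, h⟩

lemma sum_biUnion_le' {α β : Type*} [DecidableEq β] (s : Finset α) (t : α → Finset β)
    (g : β → ℝ) (hg : ∀ b, 0 ≤ g b) : ∑ b ∈ s.biUnion t, g b ≤ ∑ a ∈ s, ∑ b ∈ t a, g b := by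
  classical
  induction s using Finset.induction_on with
  | empty => simp
  | insert a s ha ih =>
    rw [Finset.biUnion_insert, Finset.sum_insert ha]
    have h1 := Finset.sum_union_inter (s₁ := t a) (s₂ := s.biUnion t) (f := g)
    have h2 : 0 ≤ ∑ b ∈ t a ∩ s.biUnion t, g b := Finset.sum_nonneg fun b _ => hg b
    linarith

/-- Square sums of a function on the path tree are bounded by a supersolution. -/
lemma sum_sq_le {G : SimpleGraph V} {D : ℕ} (hD : DegreesLE G D) (o : V)
    (f Φ : PathsFrom G o → ℝ) (hΦ : ∀ p, 0 ≤ Φ p)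
    (h : ∀ p, f p ^ 2 + ∑ q ∈ ch hD o p, Φ q ≤ Φ p) (s : Finset (PathsFrom G o)) :
    ∑ p ∈ s, f p ^ 2 ≤ Φ (rootPath G o) := by
  classical
  -- the levels of the tree
  let Lv : ℕ → Finset (PathsFrom G o) := fun n =>
    Nat.rec {rootPath G o} (fun _ S => S.biUnion (ch hD o)) n
  have L0 : Lv 0 = {rootPath G o} := rfl
  have LS : ∀ n, Lv (n + 1) = (Lv n).biUnion (ch hD o) := fun n => rfl
  have step : ∀ n, ∑ p ∈ Lv (n + 1), Φ p + ∑ p ∈ Lv n, f p ^ 2 ≤ ∑ p ∈ Lv n, Φ p := by
    intro n
    calc ∑ p ∈ Lv (n + 1), Φ p + ∑ p ∈ Lv n, f p ^ 2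
        ≤ ∑ p ∈ Lv n, ∑ q ∈ ch hD o p, Φ q + ∑ p ∈ Lv n, f p ^ 2 := by
          gcongr
          rw [LS]
          exact sum_biUnion_le' _ _ _ hΦ
      _ = ∑ p ∈ Lv n, (f p ^ 2 + ∑ q ∈ ch hD o p, Φ q) := by
          rw [Finset.sum_add_distrib, add_comm]
      _ ≤ ∑ p ∈ Lv n, Φ p := Finset.sum_le_sum fun p _ => h p
  have tot : ∀ n, ∑ m ∈ Finset.range n, ∑ p ∈ Lv m, f p ^ 2 + ∑ p ∈ Lv n, Φ p ≤
      Φ (rootPath G o) := by
    intro n
    induction n with
    | zero => simp [L0]
    | succ n ih =>
      rw [Finset.sum_range_succ]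
      have := step n
      linarith
  have cover : ∀ n, ∀ p : PathsFrom G o, p.1.length = n + 1 → p ∈ Lv n := by
    intro n
    induction n with
    | zero =>
      intro p hp
      rw [L0, Finset.mem_singleton]
      apply Subtype.ext
      obtain ⟨a, ha⟩ := List.length_eq_one_iff.1 hp
      have h1 := p.2.1
      rw [ha] at h1
      simp at h1
      rw [ha, h1]
      rfl
    | succ n ih =>
      intro p hp
      rw [LS, Finset.mem_biUnion]
      obtain ⟨l, hl⟩ := p
      match l, hl, hp with
      | a :: b :: l', hl, hp =>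
        refine ⟨⟨b :: l', ?_, ?_, ?_⟩, ih _ ?_, ?_⟩
        · have := hl.1
          simpa [List.getLast?_cons_cons] using this
        · exact (List.nodup_cons.1 hl.2.1).2
        · exact (List.isChain_cons_cons.1 hl.2.2).2
        · simp at hp ⊢
          exact hp
        · exact (mem_ch hD o _ _).2 ⟨a, rfl⟩
  set M := s.sup (fun p => p.1.length) with hM
  have hsub : s ⊆ (Finset.range (M + 1)).biUnion Lv := by
    intro p hp
    rw [Finset.mem_biUnion]
    have h1 : p.1.length ≤ M := Finset.le_sup (f := fun p : PathsFrom G o => p.1.length) hp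
    have h2 : 0 < p.1.length := List.length_pos_iff.2 (ne_nil p)
    refine ⟨p.1.length - 1, Finset.mem_range.2 (by omega), cover _ _ (by omega)⟩
  calc ∑ p ∈ s, f p ^ 2 ≤ ∑ p ∈ (Finset.range (M + 1)).biUnion Lv, f p ^ 2 :=
        Finset.sum_le_sum_of_subset_of_nonneg hsub (fun p _ _ => sq_nonneg _)
    _ ≤ ∑ m ∈ Finset.range (M + 1), ∑ p ∈ Lv m, f p ^ 2 :=
        sum_biUnion_le' _ _ _ (fun q => sq_nonneg _)
    _ ≤ Φ (rootPath G o) := by
        have h1 := tot (M + 1)
        have h2 : 0 ≤ ∑ p ∈ Lv (M + 1), Φ p := Finset.sum_nonneg fun p _ => hΦ p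
        linarith

end Pool.Agent.Q104.PT
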