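import Mathlib
import Pool.Agent.Q104.Spec

/-!
# Bounds on the largest eigenvalue of a symmetric matrix from a single vector
-/

set_option autoImplicit false

namespace Q104.Perron

open Matrix Finset

variable {V : Type*} [Fintype V] [DecidableEq V]

/-- a positive vector with `A z ≤ t z` bounds all eigenvalues from above when the off-diagonal
entries are nonnegative -/
lemma eig_le {A : Matrix V V ℝ} (hA : A.IsHermitian) (hoff : ∀ i j, i ≠ j → 0 ≤ A i j)
    {z : V → ℝ} (hz : ∀ i, 0 < z i) {t : ℝ} (h : ∀ i, (A *ᵥ z) i ≤ t * z i) (j : V) :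
    hA.eigenvalues j ≤ t := by
  set v := Q104.Spec.ev hA j with hv
  obtain ⟨e, -, he⟩ := Finset.exists_max_image univ (fun i => |v i| / z i) ⟨j, mem_univ j⟩
  set m := |v e| / z e with hm
  have hle : ∀ i, |v i| ≤ m * z i := by
    intro i
    have := he i (mem_univ i)
    rw [div_le_iff₀ (hz i)] at this
    exact this
  have hm0 : 0 < m := by
    by_contra hcon
    push Not at hcon
    have h0 : v = 0 := by
      ext i
      have h1 := hle i
      have h2 : m * z i ≤ 0 := mul_nonpos_of_nonpos_of_nonneg hcon (hz i).le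
      have h3 := abs_nonneg (v i)
      exact abs_eq_zero.mp (by linarith)
    have h1 := Q104.Spec.ev_dot hA j j
    rw [← hv, h0, if_pos rfl, zero_dotProduct] at h1
    exact zero_ne_one h1
  have hve : |v e| = m * z e := by
    rw [hm, div_mul_cancel₀ _ (hz e).ne']
  have h1 : hA.eigenvalues j * |v e| ≤ ∑ i, A e i * (m * z i) := by
    have h2 := congrFun (Q104.Spec.mulVec_ev hA j) e
    rw [← hv, Pi.smul_apply, smul_eq_mul] at h2
    have h3 : ∃ s : ℝ, (s = 1 ∨ s = -1) ∧ s * v e = |v e| := by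
      rcases le_total 0 (v e) with h | h
      · exact ⟨1, Or.inl rfl, by rw [abs_of_nonneg h, one_mul]⟩
      · exact ⟨-1, Or.inr rfl, by rw [abs_of_nonpos h]; ring⟩
    obtain ⟨s, hs, hse⟩ := h3
    have h4 : hA.eigenvalues j * |v e| = ∑ i, A e i * (s * v i) := by
      rw [← hse]
      calc hA.eigenvalues j * (s * v e) = s * (hA.eigenvalues j * v e) := by ring
        _ = s * ∑ i, A e i * v i := by rw [← h2, Matrix.mulVec, dotProduct]
        _ = ∑ i, A e i * (s * v i) := by
            rw [Finset.mul_sum]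
            exact Finset.sum_congr rfl fun i _ => by ring
    rw [h4]
    refine Finset.sum_le_sum fun i _ => ?_
    by_cases hi : e = i
    · rw [← hi, hse, hve]
    · refine mul_le_mul_of_nonneg_left ?_ (hoff e i hi)
      refine le_trans ?_ (hle i)
      rcases hs with rfl | rfl
      · rw [one_mul]; exact le_abs_self _
      · rw [neg_one_mul]; exact neg_le_abs _
  have h2 : ∑ i, A e i * (m * z i) = m * (A *ᵥ z) e := by
    rw [Matrix.mulVec, dotProduct, Finset.mul_sum]
    exact Finset.sum_congr rfl fun i _ => by ring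
  have h3 : hA.eigenvalues j * (m * z e) ≤ t * (m * z e) := by
    rw [← hve]
    calc hA.eigenvalues j * |v e| ≤ m * (A *ᵥ z) e := by rw [← h2]; exact h1
      _ ≤ m * (t * z e) := mul_le_mul_of_nonneg_left (h e) hm0.le
      _ = t * |v e| := by rw [hve]; ring
  exact le_of_mul_le_mul_right h3 (mul_pos hm0 (hz e))

/-- the largest element of the real spectrum bounds from above -/
lemma sSup_le {A : Matrix V V ℝ} (hA : A.IsHermitian) (hoff : ∀ i j, i ≠ j → 0 ≤ A i j)
    [Nonempty V] {z : V → ℝ} (hz : ∀ i, 0 < z i) {t : ℝ} (h : ∀ i, (A *ᵥ z) i ≤ t * z i) :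
    sSup (spectrum ℝ A) ≤ t := by
  rw [hA.spectrum_real_eq_range_eigenvalues]
  apply csSup_le (Set.range_nonempty _)
  rintro _ ⟨j, rfl⟩
  exact eig_le hA hoff hz h j

/-- a nonnegative nonzero vector with `t x ≤ A x` bounds the top of the spectrum from below -/
lemma le_sSup {A : Matrix V V ℝ} (hA : A.IsHermitian) {x : V → ℝ} (hx : ∀ i, 0 ≤ x i)
    (hx0 : x ≠ 0) {t : ℝ} (h : ∀ i, t * x i ≤ (A *ᵥ x) i) :
    t ≤ sSup (spectrum ℝ A) := by
  rw [hA.spectrum_real_eq_range_eigenvalues]
  have hbdd : BddAbove (Set.range hA.eigenvalues) := (Set.finite_range _).bddAbove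
  have h1 : ∀ j, hA.eigenvalues j ≤ sSup (Set.range hA.eigenvalues) := fun j =>
    le_csSup hbdd ⟨j, rfl⟩
  have h2 := Q104.Spec.quad_le hA h1 x
  have h3 : t * (x ⬝ᵥ x) ≤ x ⬝ᵥ (A *ᵥ x) := by
    simp only [dotProduct, Finset.mul_sum]
    refine Finset.sum_le_sum fun i _ => ?_
    calc t * (x i * x i) = x i * (t * x i) := by ring
      _ ≤ x i * (A *ᵥ x) i := mul_le_mul_of_nonneg_left (h i) (hx i)
  have h4 : 0 < x ⬝ᵥ x := by
    obtain ⟨i, hi⟩ := Function.ne_iff.mp hx0
    simp only [dotProduct]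
    exact Finset.sum_pos' (fun k _ => mul_self_nonneg _) ⟨i, mem_univ i, mul_self_pos.mpr hi⟩
  exact le_of_mul_le_mul_right (h3.trans h2) h4

end Q104.Perron
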