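import Mathlib

/-!
# Finite rooted trees given by a parent function
-/

set_option autoImplicit false

namespace Q104.Rooted

variable {V : Type*}

/-- the graph joining each vertex other than the root to its parent -/
def graph (r : V) (par : V → V) (dep : V → ℕ) (h : ∀ v, v ≠ r → dep (par v) < dep v) :
    SimpleGraph V where
  Adj u w := (u ≠ r ∧ par u = w) ∨ (w ≠ r ∧ par w = u)
  symm := ⟨by
    rintro u w (h1 | h1)
    · exact Or.inr h1
    · exact Or.inl h1⟩
  loopless := ⟨by
    rintro u (h1 | h1)
    · have := h u h1.1; rw [h1.2] at this; exact lt_irrefl _ this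
    · have := h u h1.1; rw [h1.2] at this; exact lt_irrefl _ this⟩

variable (r : V) (par : V → V) (dep : V → ℕ) (h : ∀ v, v ≠ r → dep (par v) < dep v)

lemma connected : (graph r par dep h).Connected := by
  have h1 : ∀ n : ℕ, ∀ v, dep v ≤ n → (graph r par dep h).Reachable r v := by
    intro n
    induction n with
    | zero =>
      intro v hv
      by_cases hr : v = r
      · rw [hr]
      · have := h v hr; omega
    | succ n ih =>
      intro v hv
      by_cases hr : v = r
      · rw [hr]
      · have h2 := h v hr
        have h3 := ih (par v) (by omega)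
        exact h3.trans (SimpleGraph.Adj.reachable (Or.inr ⟨hr, rfl⟩))
  exact { preconnected := fun x y => (h1 _ x le_rfl).symm.trans (h1 _ y le_rfl), nonempty := ⟨r⟩ }

lemma isTree [Finite V] : (graph r par dep h).IsTree := by
  classical
  have : Fintype V := Fintype.ofFinite V
  rw [SimpleGraph.isTree_iff_connected_and_card]
  refine ⟨connected r par dep h, ?_⟩
  refine le_antisymm ?_ (connected r par dep h).card_vert_le_card_edgeSet_add_one
  have hsurj : Function.Surjective (fun v : {v : V // v ≠ r} =>
      (⟨s(v.1, par v.1), Or.inl ⟨v.2, rfl⟩⟩ : (graph r par dep h).edgeSet)) := by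
    rintro ⟨e, he⟩
    induction e with
    | _ u w =>
      rcases he with h1 | h1
      · exact ⟨⟨u, h1.1⟩, by simp [h1.2]⟩
      · exact ⟨⟨w, h1.1⟩, by simp [h1.2, Sym2.eq_swap]⟩
  have h2 : Nat.card (graph r par dep h).edgeSet ≤ Nat.card {v : V // v ≠ r} :=
    Nat.card_le_card_of_surjective _ hsurj
  have h3 : Nat.card {v : V // v ≠ r} + 1 = Nat.card V := by
    rw [Nat.card_eq_fintype_card, Nat.card_eq_fintype_card, Fintype.card_subtype_compl]
    simp
    exact Nat.sub_add_cancel (Fintype.card_pos_iff.mpr ⟨r⟩)
  omega

end Q104.Rooted
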