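import Mathlib

/-!
# The Strong Spectral Property: definitions and the tadpole graphs
-/

set_option autoImplicit false

namespace Pool.Agent.Q104.SSP

open Finset Matrix

/-- `A ∈ 𝒮(G)`: a real symmetric matrix whose off-diagonal nonzero pattern is the graph `G`. -/
def InS {V : Type} (G : SimpleGraph V) (A : Matrix V V ℝ) : Prop :=
  (∀ i j, A i j = A j i) ∧ ∀ i j, i ≠ j → (A i j ≠ 0 ↔ G.Adj i j)

/-- The Strong Spectral Property. -/
def HasSSP {V : Type} [Fintype V] (A : Matrix V V ℝ) : Prop :=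
  ∀ X : Matrix V V ℝ, (∀ i j, X i j = X j i) → (∀ i j, A i j * X i j = 0) → (∀ i, X i i = 0) →
    A * X = X * A → X = 0

/-- `G ∈ 𝒢^SSP`: every matrix in `𝒮(G)` has the Strong Spectral Property. -/
def GSSP {V : Type} [Fintype V] (G : SimpleGraph V) : Prop :=
  ∀ A : Matrix V V ℝ, InS G A → HasSSP A

/-- The tadpole graph `T_{m,n}` on the vertices `0, …, n+m-1`: the vertices `n, …, n+m-1` carry
the cycle `C_m`, the vertices `0, …, n-1` carry the path `P_n`, and the bridge joins `n-1`
and `n`. -/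
def tadpole (m n : ℕ) : SimpleGraph (Fin (n + m)) where
  Adj i j := i ≠ j ∧ (i.val + 1 = j.val ∨ j.val + 1 = i.val ∨
    (i.val = n ∧ j.val + 1 = n + m) ∨ (j.val = n ∧ i.val + 1 = n + m))
  symm := ⟨by
    intro i j h
    refine ⟨h.1.symm, ?_⟩
    rcases h.2 with h | h | h | h
    · exact Or.inr (Or.inl h)
    · exact Or.inl h
    · exact Or.inr (Or.inr (Or.inr h))
    · exact Or.inr (Or.inr (Or.inl h))⟩
  loopless := ⟨by
    intro i h
    exact h.1 rfl⟩

end Pool.Agent.Q104.SSP
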