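import Pool.Agent.Q104.Mag

/-!
# Signings with ratio bounds that depend on the number of remaining vertices
-/

set_option autoImplicit false

namespace Pool.Agent.Q104.Sign

open Matrix Polynomial Equiv
open Pool.Agent.W130.RC

section ordered

variable {V : Type} [Fintype V] [LinearOrder V]

open Classical in
/-- Positivity of the weighted matching expansion. -/
theorem mu_pos_n (G : SimpleGraph V) (y : V → ℝ) (κ : ℕ → V → V → ℝ)
    (hκ : ∀ n v u, G.Adj v u → 0 < κ n v u)
    (h1 : ∀ n < Fintype.card V, ∀ v u, G.Adj v u →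
      κ (n + 1) v u ≤ y v - ∑ w ∈ Finset.univ.filter (fun w => G.Adj v w ∧ w ≠ u), 1 / κ n w v)
    (h0 : ∀ n < Fintype.card V, ∀ v, 0 ≤ y v - ∑ w ∈ Finset.univ.filter (fun w => G.Adj v w), 1 / κ n w v)
    (x : ℝ) (hx : 0 < x) : ∀ n : ℕ,
    (∀ S : Finset V, (Sᶜ).card = n → 0 < mu (Matrix.diagonal (fun v => y v + x)) (EL G) S) ∧
    (∀ (S : Finset V) (v u : V), (Sᶜ).card = n → v ∉ S → u ∈ S → G.Adj v u →
      κ n v u * mu (Matrix.diagonal (fun v => y v + x)) (EL G) (insert v S) ≤
        mu (Matrix.diagonal (fun v => y v + x)) (EL G) S) := by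
  intro n
  induction n with
  | zero =>
    constructor
    · intro S hS
      have hSu : S = Finset.univ := by
        rw [Finset.card_eq_zero] at hS
        exact (Finset.compl_eq_empty_iff S).1 hS
      subst hSu
      rw [mu_univ]; exact one_pos
    · intro S v u hS hv _ _
      exfalso
      have : 0 < (Sᶜ).card := Finset.card_pos.2 ⟨v, Finset.mem_compl.2 hv⟩
      omega
  | succ n ih =>
    obtain ⟨ihA, ihB⟩ := ih
    have hcard : ∀ (S : Finset V) (v : V), (Sᶜ).card = n + 1 → v ∉ S →
        ((insert v S)ᶜ).card = n := by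
      intro S v hS hv
      rw [Finset.compl_insert, Finset.card_erase_of_mem (Finset.mem_compl.2 hv), hS]
      omega
    have key : ∀ (S : Finset V) (v : V) (F : Finset V), (Sᶜ).card = n + 1 → v ∉ S →
        (∀ w, G.Adj v w → w ∉ insert v S → w ∈ F) → (∀ w ∈ F, G.Adj v w) →
        mu (Matrix.diagonal (fun v => y v + x)) (EL G) (insert v S) *
          (y v + x - ∑ w ∈ F, 1 / κ n w v)
          ≤ mu (Matrix.diagonal (fun v => y v + x)) (EL G) S := by
      intro S v F hS hv hF hFa
      have hpos := ihA (insert v S) (hcard S v hS hv)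
      rw [vertex_rec' (fun v => y v + x) (EL G) EL_ne S v hv, sum_ctr G S v]
      set m := mu (Matrix.diagonal (fun v => y v + x)) (EL G) (insert v S) with hm
      have hb : ∑ w ∈ Finset.univ.filter (fun w => G.Adj v w ∧ w ∉ insert v S),
          mu (Matrix.diagonal (fun v => y v + x)) (EL G) (insert w (insert v S)) ≤
          ∑ w ∈ F, (1 / κ n w v) * m := by
        calc _ ≤ ∑ w ∈ Finset.univ.filter (fun w => G.Adj v w ∧ w ∉ insert v S),
              (1 / κ n w v) * m := by
              apply Finset.sum_le_sum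
              intro w hw
              rw [Finset.mem_filter] at hw
              have hk := hκ n w v hw.2.1.symm
              have := ihB (insert v S) w v (hcard S v hS hv) hw.2.2
                (Finset.mem_insert_self _ _) hw.2.1.symm
              rw [one_div, inv_mul_eq_div, le_div_iff₀ hk, mul_comm]
              exact this
          _ ≤ ∑ w ∈ F, (1 / κ n w v) * m := by
              apply Finset.sum_le_sum_of_subset_of_nonneg
              · intro w hw
                rw [Finset.mem_filter] at hw
                exact hF w hw.2.1 hw.2.2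
              · intro w hw _
                have hk := hκ n w v (hFa w hw).symm
                positivity
      rw [← Finset.sum_mul] at hb
      have e : m * (y v + x - ∑ w ∈ F, 1 / κ n w v) =
        (y v + x) * m - (∑ w ∈ F, 1 / κ n w v) * m := by ring
      rw [e]
      linarith
    have hlt : ∀ S : Finset V, (Sᶜ).card = n + 1 → n < Fintype.card V := by
      intro S hS
      have := Finset.card_le_univ (Sᶜ)
      omega
    constructor
    · intro S hS
      have hnV := hlt S hS
      have hne : (Sᶜ).Nonempty := Finset.card_pos.1 (by omega)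
      obtain ⟨v, hv⟩ := hne
      rw [Finset.mem_compl] at hv
      have hk := key S v (Finset.univ.filter (fun w => G.Adj v w)) hS hv
        (fun w hw _ => Finset.mem_filter.2 ⟨Finset.mem_univ _, hw⟩)
        (fun w hw => (Finset.mem_filter.1 hw).2)
      have h3 := ihA (insert v S) (hcard S v hS hv)
      have h2 := h0 n hnV v
      have h4 := mul_pos h3 (show 0 < y v + x -
        ∑ w ∈ Finset.univ.filter (fun w => G.Adj v w), 1 / κ n w v by linarith)
      linarith
    · intro S v u hS hv hu hvu
      have hnV := hlt S hS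
      have hk := key S v (Finset.univ.filter (fun w => G.Adj v w ∧ w ≠ u)) hS hv
        (fun w hw hw' => Finset.mem_filter.2 ⟨Finset.mem_univ _, hw, by
          rintro rfl
          exact hw' (Finset.mem_insert_of_mem hu)⟩)
        (fun w hw => (Finset.mem_filter.1 hw).2.1)
      have h3 := ihA (insert v S) (hcard S v hS hv)
      have h2 := h1 n hnV v u hvu
      have h4 := mul_le_mul_of_nonneg_left (show κ (n + 1) v u ≤ y v + x -
        ∑ w ∈ Finset.univ.filter (fun w => G.Adj v w ∧ w ≠ u), 1 / κ n w v by linarith) h3.le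
      rw [mul_comm]
      linarith

open Classical in
theorem exists_signing_n' [Nonempty V] (G : SimpleGraph V) (y : V → ℝ) (κ : ℕ → V → V → ℝ)
    (hκ : ∀ n v u, G.Adj v u → 0 < κ n v u)
    (h1 : ∀ n < Fintype.card V, ∀ v u, G.Adj v u →
      κ (n + 1) v u ≤ y v - ∑ w ∈ Finset.univ.filter (fun w => G.Adj v w ∧ w ≠ u), 1 / κ n w v)
    (h0 : ∀ n < Fintype.card V, ∀ v,
      0 ≤ y v - ∑ w ∈ Finset.univ.filter (fun w => G.Adj v w), 1 / κ n w v) :
    ∃ σ : V → V → ℝ, (∀ u v, σ u v = 1 ∨ σ u v = -1) ∧ (∀ u v, σ u v = σ v u) ∧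
      ∀ g : V → ℝ, ∑ v, ∑ w, (if G.Adj v w then σ v w * g v * g w else 0) ≤
        ∑ v, y v * g v ^ 2 := by
  obtain ⟨s, hs⟩ := exists_signs (J := ED G) y (fun j => j.1) (fun j => j.2.1.ne)
    (Finset.univ : Finset (ED G)).toList (Finset.nodup_toList _)
    (fun j => Finset.mem_toList.2 (Finset.mem_univ j)) (by
      intro x hx
      have hE : ((Finset.univ : Finset (ED G)).toList.map (fun j : ED G => j.1)) = EL G := by
        unfold EL
        congr!
      rw [hE, avgS2_det _ EL_ne]
      exact (mu_pos_n G y κ hκ h1 h0 x hx _).1 ∅ rfl)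
  refine ⟨sg G s, sg_pm G s, sg_symm G s, ?_⟩
  intro g
  have h2 := hs.dotProduct_mulVec_nonneg g
  have h3 : star g ⬝ᵥ ((Matrix.diagonal y - ∑ j : ED G, ((s j : ℤ) : ℝ) • Xe j.1.1 j.1.2) *ᵥ g) =
      ∑ v, y v * g v ^ 2 - ∑ v, ∑ w, (if G.Adj v w then sg G s v w * g v * g w else 0) := by
    rw [← Finset.sum_sub_distrib]
    simp only [dotProduct, Matrix.mulVec, star_trivial]
    apply Finset.sum_congr rfl
    intro v _
    have h4 : ∀ w, (Matrix.diagonal y - ∑ j : ED G, ((s j : ℤ) : ℝ) • Xe j.1.1 j.1.2) v w =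
        (if v = w then y v else 0) - (if G.Adj v w then sg G s v w else 0) := by
      intro w
      rw [Matrix.sub_apply, sum_sg, Matrix.diagonal_apply]
    simp only [h4, sub_mul, Finset.sum_sub_distrib, mul_sub]
    congr 1
    · simp; ring
    · rw [Finset.mul_sum]
      apply Finset.sum_congr rfl
      intro w _
      split_ifs
      · ring
      · simp
  rw [h3] at h2
  linarith

end ordered

open Classical in
/-- **Signing theorem.** -/
theorem exists_signing_n {V : Type} [Fintype V] [Nonempty V] (G : SimpleGraph V) (y : V → ℝ)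
    (κ : ℕ → V → V → ℝ) (hκ : ∀ n v u, G.Adj v u → 0 < κ n v u)
    (h1 : ∀ n < Fintype.card V, ∀ v u, G.Adj v u →
      κ (n + 1) v u ≤ y v - ∑ w ∈ Finset.univ.filter (fun w => G.Adj v w ∧ w ≠ u), 1 / κ n w v)
    (h0 : ∀ n < Fintype.card V, ∀ v,
      0 ≤ y v - ∑ w ∈ Finset.univ.filter (fun w => G.Adj v w), 1 / κ n w v) :
    ∃ σ : V → V → ℝ, (∀ u v, σ u v = 1 ∨ σ u v = -1) ∧ (∀ u v, σ u v = σ v u) ∧
      ∀ g : V → ℝ, ∑ v, ∑ w, (if G.Adj v w then σ v w * g v * g w else 0) ≤
        ∑ v, y v * g v ^ 2 := by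
  letI : LinearOrder V := LinearOrder.lift' (Fintype.equivFin V) (Fintype.equivFin V).injective
  apply exists_signing_n' G y κ hκ
  · intro n hn v u hvu
    convert h1 n hn v u hvu
  · intro n hn v
    convert h0 n hn v

end Pool.Agent.Q104.Sign

namespace Pool.Agent.Q104.Mag

open Matrix Finset ComplexConjugate

open Classical in
/-- Lower bound for the height by positive numbers on the ordered edges. -/
theorem nu_ge_of_ratios_n {V : Type} [Fintype V] [DecidableEq V] [Nonempty V] (G : SimpleGraph V)
    [DecidableRel G.Adj] (θ : ℝ) (κ : ℕ → V → V → ℝ)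
    (hκ : ∀ n v u, G.Adj v u → 0 < κ n v u)
    (h1 : ∀ n < Fintype.card V, ∀ v u, G.Adj v u →
      κ (n + 1) v u ≤ G.degree v - θ - ∑ w ∈ (G.neighborFinset v).erase u, 1 / κ n w v)
    (h0 : ∀ n < Fintype.card V, ∀ v,
      0 ≤ G.degree v - θ - ∑ w ∈ G.neighborFinset v, 1 / κ n w v) :
    θ ≤ nu G := by
  obtain ⟨σ, hσ1, hσ2, hσ3⟩ := Sign.exists_signing_n G (fun v => (G.degree v : ℝ) - θ) κ hκ
    (by
      intro n hn v u hvu
      have := h1 n hn v u hvu
      have e : (G.neighborFinset v).erase u = Finset.univ.filter (fun w => G.Adj v w ∧ w ≠ u) := by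
        ext w
        simp [and_comm]
      rw [e] at this
      convert this)
    (by
      intro n hn v
      have := h0 n hn v
      have e : G.neighborFinset v = Finset.univ.filter (fun w => G.Adj v w) := by
        ext w
        simp
      rw [e] at this
      convert this)
  have hpot : IsPotential G (fun x y => (σ x y : ℂ)) := by
    constructor
    · intro x y _
      rcases hσ1 x y with h | h <;> simp [h]
    · intro x y _
      rw [hσ2 y x]
      rcases hσ1 x y with h | h <;> simp [h]
  have hreal : ∀ g : V → ℝ, θ * (2 * ∑ x, g x ^ 2) ≤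
      ∑ x, ∑ y, if G.Adj x y then (g x - σ x y * g y) ^ 2 else 0 := by
    intro g
    have hsq : ∀ x y, σ x y ^ 2 = 1 := by
      intro x y
      rcases hσ1 x y with h | h <;> simp [h]
    have e1 : ∑ x, ∑ y, (if G.Adj x y then (g x - σ x y * g y) ^ 2 else 0) =
        ∑ x, ∑ y, (if G.Adj x y then g x ^ 2 else 0) +
        ∑ x, ∑ y, (if G.Adj x y then g y ^ 2 else 0) -
        2 * ∑ x, ∑ y, (if G.Adj x y then σ x y * g x * g y else 0) := by
      rw [Finset.mul_sum, ← Finset.sum_add_distrib, ← Finset.sum_sub_distrib]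
      apply Finset.sum_congr rfl
      intro x _
      rw [Finset.mul_sum, ← Finset.sum_add_distrib, ← Finset.sum_sub_distrib]
      apply Finset.sum_congr rfl
      intro y _
      split_ifs
      · linear_combination (g y ^ 2) * hsq x y
      · simp
    have e2 : ∑ x, ∑ y, (if G.Adj x y then g x ^ 2 else 0) = ∑ x, (G.degree x : ℝ) * g x ^ 2 := by
      apply Finset.sum_congr rfl
      intro x _
      rw [← Finset.sum_filter, Finset.sum_const, nsmul_eq_mul]
      congr 2
      rw [← SimpleGraph.card_neighborFinset_eq_degree]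
      congr 1
      ext y
      simp
    have e3 : ∑ x, ∑ y, (if G.Adj x y then g y ^ 2 else 0) = ∑ x, (G.degree x : ℝ) * g x ^ 2 := by
      rw [Finset.sum_comm, ← e2]
      simp only [G.adj_comm]
    have h4 := hσ3 g
    rw [e1, e2, e3]
    have e4 : ∑ v, ((G.degree v : ℝ) - θ) * g v ^ 2 =
        ∑ x, (G.degree x : ℝ) * g x ^ 2 - θ * ∑ x, g x ^ 2 := by
      rw [Finset.mul_sum, ← Finset.sum_sub_distrib]
      apply Finset.sum_congr rfl
      intro x _
      ring
    rw [e4] at h4
    have e5 : ∑ x, ∑ y, (if G.Adj x y then σ x y * g x * g y else 0) =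
        ∑ v, ∑ w, (@ite _ (G.Adj v w) (Classical.propDecidable _) (σ v w * g v * g w) 0) := by
      apply Finset.sum_congr rfl; intro x _
      apply Finset.sum_congr rfl; intro y _
      by_cases h : G.Adj x y <;> simp [h]
    rw [e5]
    linarith
  apply nu_ge hpot
  intro f
  have hr := hreal (fun x => (f x).re)
  have hi := hreal (fun x => (f x).im)
  have hn : ∀ z : ℂ, ‖z‖ ^ 2 = z.re ^ 2 + z.im ^ 2 := by
    intro z
    rw [← Complex.normSq_eq_norm_sq, Complex.normSq_apply]; ring
  have e6 : en G (fun x y => (σ x y : ℂ)) f =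
      ∑ x, ∑ y, (if G.Adj x y then ((f x).re - σ x y * (f y).re) ^ 2 else 0) +
      ∑ x, ∑ y, (if G.Adj x y then ((f x).im - σ x y * (f y).im) ^ 2 else 0) := by
    unfold en
    rw [← Finset.sum_add_distrib]
    apply Finset.sum_congr rfl; intro x _
    rw [← Finset.sum_add_distrib]
    apply Finset.sum_congr rfl; intro y _
    split_ifs
    · rw [hn]
      simp
    · simp
  have e7 : ∑ x, ‖f x‖ ^ 2 = ∑ x, (f x).re ^ 2 + ∑ x, (f x).im ^ 2 := by
    rw [← Finset.sum_add_distrib]
    exact Finset.sum_congr rfl fun x _ => hn _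
  rw [e6, e7]
  linarith

end Pool.Agent.Q104.Mag
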