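import Pool.Agent.Q104.SignVertex

/-!
# Positivity of the weighted matching expansion of a simple graph
-/

set_option autoImplicit false

open Matrix

namespace Pool.Agent.Q104.Sign

open Pool.Agent.W130.RC

variable {V : Type} [Fintype V] [LinearOrder V]

/-- the edges, each edge once -/
abbrev ED (G : SimpleGraph V) : Type := {p : V × V // p.1 < p.2 ∧ G.Adj p.1 p.2}

open Classical in
/-- the list of edges, each edge once -/
noncomputable def EL (G : SimpleGraph V) : List (V × V) :=
  (Finset.univ : Finset (ED G)).toList.map Subtype.val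

lemma mem_EL {G : SimpleGraph V} {e : V × V} : e ∈ EL G ↔ e.1 < e.2 ∧ G.Adj e.1 e.2 := by
  classical
  simp [EL]

lemma EL_ne {G : SimpleGraph V} : ∀ e ∈ EL G, e.1 ≠ e.2 := by
  intro e he
  exact (mem_EL.1 he).1.ne

open Classical in
lemma sum_ctr (G : SimpleGraph V) (S : Finset V) (v : V) (f : Finset V → ℝ) :
    ((EL G).map (ctr S v f)).sum =
      ∑ w ∈ Finset.univ.filter (fun w => G.Adj v w ∧ w ∉ insert v S),
        f (insert w (insert v S)) := by
  have h00 : ((EL G).map (ctr S v f)).sum =
      ∑ p ∈ Finset.univ.filter (fun p : V × V => p.1 < p.2 ∧ G.Adj p.1 p.2), ctr S v f p := by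
    unfold EL
    rw [List.map_map, Finset.sum_map_toList]
    rw [Finset.sum_subtype (p := fun p : V × V => p.1 < p.2 ∧ G.Adj p.1 p.2)]
    · rfl
    · intro p
      simp
  rw [h00, Finset.sum_filter, Fintype.sum_prod_type]
  have h1 : ∀ a b : V, (if (a, b).1 < (a, b).2 ∧ G.Adj (a, b).1 (a, b).2 then ctr S v f (a, b) else 0)
      = (if a = v then (if v < b ∧ G.Adj v b ∧ b ∉ insert v S then f (insert b (insert v S)) else 0)
          else 0) +
        (if b = v then (if a < v ∧ G.Adj a v ∧ a ∉ insert v S then f (insert a (insert v S)) else 0)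
          else 0) := by
    intro a b
    unfold ctr
    simp only
    by_cases ha : a = v
    · subst ha
      by_cases hb : b = a
      · subst hb; simp
      · by_cases h : a < b ∧ G.Adj a b
        · rw [if_pos h, if_neg hb, if_pos rfl]
          simp [h, hb]
        · rw [if_neg h, if_neg hb, if_pos rfl, if_neg (fun h' => h ⟨h'.1, h'.2.1⟩), add_zero]
    · by_cases hb : b = v
      · subst hb
        by_cases h : a < b ∧ G.Adj a b
        · rw [if_pos h, if_neg ha, if_pos rfl]
          simp [h, ha]
        · rw [if_neg h, if_neg ha, if_pos rfl, if_neg (fun h' => h ⟨h'.1, h'.2.1⟩), add_zero]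
      · simp [ha, hb]
  simp only [h1, Finset.sum_add_distrib]
  have h2 : ∑ a : V, ∑ b : V, (if a = v then
      (if v < b ∧ G.Adj v b ∧ b ∉ insert v S then f (insert b (insert v S)) else 0) else 0) =
      ∑ b : V, (if v < b ∧ G.Adj v b ∧ b ∉ insert v S then f (insert b (insert v S)) else 0) := by
    rw [Finset.sum_eq_single v]
    · simp
    · intro a _ ha
      simp [ha]
    · simp
  have h3 : ∑ a : V, ∑ b : V, (if b = v then
      (if a < v ∧ G.Adj a v ∧ a ∉ insert v S then f (insert a (insert v S)) else 0) else 0) =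
      ∑ a : V, (if a < v ∧ G.Adj a v ∧ a ∉ insert v S then f (insert a (insert v S)) else 0) := by
    apply Finset.sum_congr rfl
    intro a _
    simp
  rw [h2, h3, ← Finset.sum_add_distrib, Finset.sum_filter]
  apply Finset.sum_congr rfl
  intro w _
  by_cases hw : G.Adj v w ∧ w ∉ insert v S
  · rw [if_pos hw]
    rcases lt_or_gt_of_ne (G.ne_of_adj hw.1) with h | h
    · rw [if_pos ⟨h, hw⟩, if_neg (fun h' => absurd h'.1 (not_lt.2 h.le)), add_zero]
    · rw [if_neg (fun h' => absurd h'.1 (not_lt.2 h.le)), if_pos ⟨h, hw.1.symm, hw.2⟩, zero_add]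
  · rw [if_neg hw, if_neg (fun h => hw h.2), if_neg (fun h => hw ⟨h.2.1.symm, h.2.2⟩), add_zero]

lemma mu_univ (y : V → ℝ) (L : List (V × V)) : mu (Matrix.diagonal y) L Finset.univ = 1 := by
  induction L with
  | nil => rw [mu, det_Rr_diag]; simp
  | cons e L ih => rw [mu, ih]; simp

open Classical in
/-- Positivity of the weighted matching expansion. -/
theorem mu_pos (G : SimpleGraph V) (y : V → ℝ) (κ : V → V → ℝ)
    (hκ : ∀ v u, G.Adj v u → 0 < κ v u)
    (h1 : ∀ v u, G.Adj v u →
      κ v u ≤ y v - ∑ w ∈ Finset.univ.filter (fun w => G.Adj v w ∧ w ≠ u), 1 / κ w v)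
    (h0 : ∀ v, 0 ≤ y v - ∑ w ∈ Finset.univ.filter (fun w => G.Adj v w), 1 / κ w v)
    (x : ℝ) (hx : 0 < x) : ∀ n : ℕ,
    (∀ S : Finset V, (Sᶜ).card = n → 0 < mu (Matrix.diagonal (fun v => y v + x)) (EL G) S) ∧
    (∀ (S : Finset V) (v u : V), (Sᶜ).card = n → v ∉ S → u ∈ S → G.Adj v u →
      κ v u * mu (Matrix.diagonal (fun v => y v + x)) (EL G) (insert v S) ≤
        mu (Matrix.diagonal (fun v => y v + x)) (EL G) S) := by
  intro n
  induction n with
  | zero =>
    constructor
    · intro S hS
      have hSu : S = Finset.univ := by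
        rw [Finset.card_eq_zero] at hS
        exact (Finset.compl_eq_empty_iff S).1 hS
      subst hSu
      rw [mu_univ]; exact one_pos
    · intro S v u hS hv _ _
      exfalso
      have : 0 < (Sᶜ).card := Finset.card_pos.2 ⟨v, Finset.mem_compl.2 hv⟩
      omega
  | succ n ih =>
    obtain ⟨ihA, ihB⟩ := ih
    have hcard : ∀ (S : Finset V) (v : V), (Sᶜ).card = n + 1 → v ∉ S →
        ((insert v S)ᶜ).card = n := by
      intro S v hS hv
      rw [Finset.compl_insert, Finset.card_erase_of_mem (Finset.mem_compl.2 hv), hS]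
      omega
    have key : ∀ (S : Finset V) (v : V) (F : Finset V), (Sᶜ).card = n + 1 → v ∉ S →
        (∀ w, G.Adj v w → w ∉ insert v S → w ∈ F) → (∀ w ∈ F, G.Adj v w) →
        mu (Matrix.diagonal (fun v => y v + x)) (EL G) (insert v S) *
          (y v + x - ∑ w ∈ F, 1 / κ w v)
          ≤ mu (Matrix.diagonal (fun v => y v + x)) (EL G) S := by
      intro S v F hS hv hF hFa
      have hpos := ihA (insert v S) (hcard S v hS hv)
      rw [vertex_rec' (fun v => y v + x) (EL G) EL_ne S v hv, sum_ctr G S v]
      set m := mu (Matrix.diagonal (fun v => y v + x)) (EL G) (insert v S) with hm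
      have hb : ∑ w ∈ Finset.univ.filter (fun w => G.Adj v w ∧ w ∉ insert v S),
          mu (Matrix.diagonal (fun v => y v + x)) (EL G) (insert w (insert v S)) ≤
          ∑ w ∈ F, (1 / κ w v) * m := by
        calc _ ≤ ∑ w ∈ Finset.univ.filter (fun w => G.Adj v w ∧ w ∉ insert v S),
              (1 / κ w v) * m := by
              apply Finset.sum_le_sum
              intro w hw
              rw [Finset.mem_filter] at hw
              have hk := hκ w v hw.2.1.symm
              have := ihB (insert v S) w v (hcard S v hS hv) hw.2.2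
                (Finset.mem_insert_self _ _) hw.2.1.symm
              rw [one_div, inv_mul_eq_div, le_div_iff₀ hk, mul_comm]
              exact this
          _ ≤ ∑ w ∈ F, (1 / κ w v) * m := by
              apply Finset.sum_le_sum_of_subset_of_nonneg
              · intro w hw
                rw [Finset.mem_filter] at hw
                exact hF w hw.2.1 hw.2.2
              · intro w hw _
                have hk := hκ w v (hFa w hw).symm
                positivity
      rw [← Finset.sum_mul] at hb
      have e : m * (y v + x - ∑ w ∈ F, 1 / κ w v) =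
        (y v + x) * m - (∑ w ∈ F, 1 / κ w v) * m := by ring
      rw [e]
      linarith
    constructor
    · intro S hS
      have hne : (Sᶜ).Nonempty := Finset.card_pos.1 (by omega)
      obtain ⟨v, hv⟩ := hne
      rw [Finset.mem_compl] at hv
      have hk := key S v (Finset.univ.filter (fun w => G.Adj v w)) hS hv
        (fun w hw _ => Finset.mem_filter.2 ⟨Finset.mem_univ _, hw⟩)
        (fun w hw => (Finset.mem_filter.1 hw).2)
      have h3 := ihA (insert v S) (hcard S v hS hv)
      have h2 := h0 v
      have h4 := mul_pos h3 (show 0 < y v + x -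
        ∑ w ∈ Finset.univ.filter (fun w => G.Adj v w), 1 / κ w v by linarith)
      linarith
    · intro S v u hS hv hu hvu
      have hk := key S v (Finset.univ.filter (fun w => G.Adj v w ∧ w ≠ u)) hS hv
        (fun w hw hw' => Finset.mem_filter.2 ⟨Finset.mem_univ _, hw, by
          rintro rfl
          exact hw' (Finset.mem_insert_of_mem hu)⟩)
        (fun w hw => (Finset.mem_filter.1 hw).2.1)
      have h3 := ihA (insert v S) (hcard S v hS hv)
      have h2 := h1 v u hvu
      have h4 := mul_le_mul_of_nonneg_left (show κ v u ≤ y v + x -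
        ∑ w ∈ Finset.univ.filter (fun w => G.Adj v w ∧ w ≠ u), 1 / κ w v by linarith) h3.le
      rw [mul_comm]
      linarith

end Pool.Agent.Q104.Sign
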