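import Pool.Agent.W130.RC.CharD
import Pool.Agent.Q104.SignPos

/-!
# Choice of signs

Interlacing argument of Marcus, Spielman and Srivastava for sign flips of edges with a diagonal
weight, from the library modules `Pool.Agent.W130.RC.*`.
-/

set_option autoImplicit false

open Matrix Polynomial Equiv

namespace Pool.Agent.Q104.Sign

open Pool.Agent.W130.RC

variable {N : Type} [Fintype N] [DecidableEq N]

/-- sign change at one coordinate -/
noncomputable def flipM (c : N) (u : ℤˣ) : Matrix N N ℝ :=
  Matrix.diagonal (fun k => if k = c then ((u : ℤ) : ℝ) else 1)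

/-- sign change as a homomorphism -/
noncomputable def flipHom (c : N) : ℤˣ →* Matrix N N ℝ where
  toFun := flipM c
  map_one' := by
    unfold flipM
    rw [← Matrix.diagonal_one]
    congr 1
    funext k
    split_ifs <;> simp
  map_mul' u v := by
    unfold flipM
    rw [Matrix.diagonal_mul_diagonal]
    congr 1
    funext k
    split_ifs <;> simp

variable {ι : Type} [DecidableEq ι]

/-- the actions -/
noncomputable def act (c : ι → N) : Act ι N (Fin 2) where
  ρ i := (flipHom (c i)).comp Perm.sign
  swp := by
    intro i a b hab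
    refine ⟨Real.sqrt 2 • Pi.single (c i) 1, ?_, ?_⟩
    · rw [smul_dotProduct, dotProduct_smul, smul_eq_mul, smul_eq_mul, ← mul_assoc,
        Real.mul_self_sqrt (by norm_num)]
      simp
    · show flipM (c i) (Perm.sign (swap a b)) = _
      rw [Perm.sign_swap hab]
      ext k l
      unfold flipM
      rw [Matrix.diagonal_apply, Matrix.sub_apply, Matrix.one_apply, vecMulVec_apply]
      simp only [Pi.smul_apply, smul_eq_mul, Pi.single_apply]
      by_cases hk : k = c i
      · by_cases hl : l = c i
        · subst hk
          subst hl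
          simp
          norm_num
        · have hkl : k ≠ l := fun h => hl (h ▸ hk)
          simp [hl, hkl]
      · simp [hk]

/-- average over one sign -/
noncomputable def Tm (c : ι → N) (i : ι) (F : (ι → Matrix N N ℝ) → ℝ[X]) :
    (ι → Matrix N N ℝ) → ℝ[X] :=
  fun A => C (1 - 1 / 2 : ℝ) * F A + C (1 / 2 : ℝ) * F (upd i ((act c).ρ i (swap 0 1)) A)

/-- iterated average -/
noncomputable def itT (c : ι → N) : List ι → ((ι → Matrix N N ℝ) → ℝ[X]) →
    ((ι → Matrix N N ℝ) → ℝ[X])
  | [] => fun F => F
  | i :: l => fun F => Tm c i (itT c l F)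

lemma good_itT (c : ι → N) (l : List ι) : GoodOp (act c) (itT c l) := by
  induction l with
  | nil => exact GoodOp.id _
  | cons i l ih =>
    have h1 : GoodOp (act c) (Tm c i) := by
      intro n F hF
      exact GoodOp.mix (act c) i (0 : Fin 2) 1 (by decide) (1 / 2) (by norm_num) (by norm_num) n F hF
    exact GoodOp.comp (T := Tm c i) (T' := itT c l) h1 ih

lemma rho_swap (c : ι → N) (i : ι) : (act c).ρ i (swap 0 1) = flipM (c i) (-1) := by
  show flipM (c i) (Perm.sign (swap (0 : Fin 2) 1)) = _
  rw [Perm.sign_swap (by decide)]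

lemma flip_apply (c : N) (u : ℤˣ) (X : Matrix N N ℝ) (i j : N) :
    (flipM c u * X * (flipM c u)ᵀ) i j =
      (if i = c then ((u : ℤ) : ℝ) else 1) * X i j * (if j = c then ((u : ℤ) : ℝ) else 1) := by
  unfold flipM
  rw [Matrix.diagonal_transpose, Matrix.mul_diagonal, Matrix.diagonal_mul]

lemma flip_Xe (a b : N) (hab : a ≠ b) (u : ℤˣ) :
    flipM a u * Xe a b * (flipM a u)ᵀ = ((u : ℤ) : ℝ) • Xe a b := by
  ext i j
  rw [flip_apply, Matrix.smul_apply, Xe_apply, smul_eq_mul]
  by_cases h1 : a = i
  · subst h1
    simp only [if_true, true_and]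
    by_cases h2 : j = a
    · subst h2
      simp [hab, Ne.symm hab]
    · simp [h2, Ne.symm hab]
  · by_cases h2 : a = j
    · subst h2
      simp [h1, Ne.symm h1]
    · simp [h1, h2]

lemma flip_diag (c : N) (u : ℤˣ) (y : N → ℝ) :
    flipM c u * Matrix.diagonal y * (flipM c u)ᵀ = Matrix.diagonal y := by
  ext i j
  rw [flip_apply, Matrix.diagonal_apply]
  by_cases hij : i = j
  · subst hij
    rw [if_pos rfl]
    by_cases hi : i = c
    · rw [if_pos hi]
      have : (((u : ℤ) : ℝ)) * ((u : ℤ) : ℝ) = 1 := by
        rcases Int.units_eq_one_or u with h | h <;> subst h <;> norm_num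
      calc ((u : ℤ) : ℝ) * y i * ((u : ℤ) : ℝ) = y i * (((u : ℤ) : ℝ) * ((u : ℤ) : ℝ)) := by ring
        _ = y i := by rw [this, mul_one]
    · simp [hi]
  · simp [hij]

variable {J : Type} [Fintype J] [DecidableEq J]

/-- evaluation of the iterated average -/
lemma eval_itT (c : Option J → N) (e : J → N × N) (he : ∀ j, (e j).1 ≠ (e j).2)
    (hc : ∀ j, c (some j) = (e j).1) (x : ℝ) : ∀ (l : List J), l.Nodup →
    ∀ A : Option J → Matrix N N ℝ, (∀ j ∈ l, A (some j) = Xe (e j).1 (e j).2) →
      ((itT c (l.map some) (fun A : Option J → Matrix N N ℝ => (∑ i, A i).charpoly)) A).eval x =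
        avgS2 Matrix.det (l.map e)
          (x • 1 - ∑ i, (if i ∈ l.map some then 0 else A i)) := by
  intro l
  induction l with
  | nil =>
    intro _ A _
    simp only [List.map_nil, itT, avgS2, List.not_mem_nil, if_false]
    rw [Matrix.eval_charpoly]
    congr 1
    rw [Matrix.scalar_apply, ← Matrix.smul_one_eq_diagonal]
  | cons j l ih =>
    intro hl A hA
    rw [List.nodup_cons] at hl
    have ih' := ih hl.2
    have hsplit : ∀ B : Option J → Matrix N N ℝ,
        ∑ i, (if i ∈ l.map some then 0 else B i) =
          ∑ i, (if i ∈ (j :: l).map some then 0 else B i) + B (some j) := by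
      intro B
      have : ∀ i : Option J, (if i ∈ l.map some then (0 : Matrix N N ℝ) else B i) =
          (if i ∈ (j :: l).map some then 0 else B i) + (if i = some j then B i else 0) := by
        intro i
        by_cases hi : i = some j
        · subst hi
          have h1 : some j ∉ l.map some := by
            intro h
            rw [List.mem_map] at h
            obtain ⟨j', hj', h2⟩ := h
            rw [Option.some.injEq] at h2
            subst h2
            exact hl.1 hj'
          rw [if_neg h1]
          simp
        · have h1 : i ∈ (j :: l).map some ↔ i ∈ l.map some := by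
            rw [List.map_cons, List.mem_cons]
            simp [hi]
          simp only [h1, hi, if_false, add_zero]
      simp only [this, Finset.sum_add_distrib]
      congr 1
      rw [Finset.sum_ite_eq']
      simp
    have hAj : A (some j) = Xe (e j).1 (e j).2 := hA j List.mem_cons_self
    show (C (1 - 1 / 2 : ℝ) * _ + C (1 / 2 : ℝ) * _).eval x = _
    rw [eval_add, eval_mul, eval_mul, eval_C, eval_C, rho_swap, hc j]
    rw [ih' A (fun j' hj' => hA j' (List.mem_cons_of_mem _ hj')), ih']
    · rw [hsplit A, hsplit (upd (some j) (flipM (e j).1 (-1)) A)]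
      have h1 : upd (some j) (flipM (e j).1 (-1)) A (some j) = - Xe (e j).1 (e j).2 := by
        unfold upd
        rw [Function.update_self, hAj, flip_Xe _ _ (he j)]
        simp
      have h2 : ∑ i, (if i ∈ (j :: l).map some then 0 else
          upd (some j) (flipM (e j).1 (-1)) A i) =
          ∑ i, (if i ∈ (j :: l).map some then 0 else A i) := by
        apply Finset.sum_congr rfl
        intro i _
        by_cases hi : i ∈ (j :: l).map some
        · rw [if_pos hi, if_pos hi]
        · rw [if_neg hi, if_neg hi]
          unfold upd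
          rw [Function.update_of_ne]
          rintro rfl
          exact hi (by simp)
      rw [h1, h2, hAj]
      show _ = (avgS2 Matrix.det (l.map e) (_ - Xe (e j).1 (e j).2)
        + avgS2 Matrix.det (l.map e) (_ + Xe (e j).1 (e j).2)) / 2
      rw [sub_add_eq_sub_sub, sub_add_eq_sub_sub, sub_neg_eq_add]
      ring
    · intro j' hj'
      unfold upd
      rw [Function.update_of_ne]
      · exact hA j' (List.mem_cons_of_mem _ hj')
      · intro h
        rw [Option.some.injEq] at h
        subst h
        exact hl.1 hj'

/-- Choice of signs: if the average of the determinants is positive for all `x > 0`, some choice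
of signs gives a positive semidefinite matrix. -/
theorem exists_signs [Nonempty N] (y : N → ℝ) (e : J → N × N) (he : ∀ j, (e j).1 ≠ (e j).2)
    (l : List J) (hl : l.Nodup) (hall : ∀ j, j ∈ l)
    (hpos : ∀ x : ℝ, 0 < x → 0 < avgS2 Matrix.det (l.map e) (Matrix.diagonal (fun v => y v + x))) :
    ∃ s : J → ℤˣ, (Matrix.diagonal y - ∑ j, ((s j : ℤ) : ℝ) • Xe (e j).1 (e j).2).PosSemidef := by
  classical
  obtain ⟨n, hn⟩ : ∃ n, Fintype.card N = n + 1 :=
    ⟨Fintype.card N - 1, by have := Fintype.card_pos (α := N); omega⟩
  obtain ⟨c0⟩ := (inferInstance : Nonempty N)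
  let c : Option J → N := fun o => o.elim c0 (fun j => (e j).1)
  let A : Option J → Matrix N N ℝ := fun o => o.elim (-Matrix.diagonal y)
    (fun j => Xe (e j).1 (e j).2)
  have hA : Symm A := by
    intro i
    rcases i with _ | j
    · show (-Matrix.diagonal y).IsSymm
      exact (Matrix.isSymm_diagonal y).neg
    · show (Xe (e j).1 (e j).2).IsSymm
      ext a b
      rw [Matrix.transpose_apply, Xe_apply, Xe_apply]
      rw [add_comm]
      congr 1 <;> simp only [and_comm]
  have hgood := good_itT c (l.map some) n
    (fun A : Option J → Matrix N N ℝ => (∑ i, A i).charpoly) (isD_charpoly n hn)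
  obtain ⟨A', ⟨g, hg⟩, hsym, hpos'⟩ := hgood.2 A hA 0 (by
    intro x hx
    rw [eval_itT c e he (fun j => rfl) x l hl A (fun j _ => rfl)]
    have : ∑ i, (if i ∈ l.map some then (0 : Matrix N N ℝ) else A i) = -Matrix.diagonal y := by
      rw [Fintype.sum_option]
      have h1 : (none : Option J) ∉ l.map some := by simp
      have h2 : ∀ j : J, (some j : Option J) ∈ l.map some := fun j =>
        List.mem_map.2 ⟨j, hall j, rfl⟩
      rw [if_neg h1]
      simp only [h2, if_true, Finset.sum_const_zero, add_zero]
      rfl
    rw [this, sub_neg_eq_add, Matrix.smul_one_eq_diagonal, Matrix.diagonal_add]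
    have h3 := hpos x hx
    simp only [add_comm x]
    exact h3)
  refine ⟨fun j => Perm.sign (g (some j)), ?_⟩
  have hsum : ∑ i, A' i = -(Matrix.diagonal y -
      ∑ j, ((Perm.sign (g (some j)) : ℤ) : ℝ) • Xe (e j).1 (e j).2) := by
    rw [Fintype.sum_option, neg_sub, sub_eq_add_neg, add_comm]
    congr 1
    · apply Finset.sum_congr rfl
      intro j _
      rw [hg (some j)]
      exact flip_Xe _ _ (he j) _
    · rw [hg none]
      show flipM c0 _ * (-Matrix.diagonal y) * (flipM c0 _)ᵀ = _
      rw [Matrix.mul_neg, Matrix.neg_mul, flip_diag]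
  set Q := Matrix.diagonal y - ∑ j, ((Perm.sign (g (some j)) : ℤ) : ℝ) • Xe (e j).1 (e j).2
    with hQ
  have hQs : Q.IsHermitian := by
    have h1 : (-Q).IsSymm := by
      rw [← hsum]
      unfold Matrix.IsSymm
      rw [Matrix.transpose_sum]
      exact Finset.sum_congr rfl (fun i _ => hsym i)
    unfold Matrix.IsHermitian
    rw [Matrix.conjTranspose_eq_transpose_of_trivial]
    have h2 := h1.neg
    rw [neg_neg] at h2
    exact h2
  rw [Matrix.IsHermitian.posSemidef_iff_eigenvalues_nonneg hQs]
  intro i
  by_contra hneg
  push Not at hneg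
  have hneg' : 0 < -hQs.eigenvalues i := by
    simpa using hneg
  have h1 := hpos' _ hneg'
  simp only [hsum] at h1
  have h2 : ((-Q).charpoly).eval (-hQs.eigenvalues i) = 0 := by
    rw [Matrix.eval_charpoly]
    have h3 : Matrix.scalar N (-hQs.eigenvalues i) - -Q =
        -(Matrix.scalar N (hQs.eigenvalues i) - Q) := by
      rw [map_neg]
      abel
    rw [h3, Matrix.det_neg, ← Matrix.eval_charpoly, hQs.charpoly_eq, eval_prod]
    rw [Finset.prod_eq_zero (Finset.mem_univ i)]
    · simp
    · simp
  rw [h2] at h1
  exact lt_irrefl _ h1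

end Pool.Agent.Q104.Sign
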