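import Pool.Agent.W130.RC.Vertex

/-!
# Vertex recursion for the matching expansion with vertex weights

Weighted version of `Pool.Agent.W130.RC.vertex_rec` (same proof).
-/

set_option autoImplicit false

open Matrix

namespace Pool.Agent.Q104.Sign

open Pool.Agent.W130.RC

variable {N : Type*} [Fintype N] [DecidableEq N]

lemma det_Rr_diag (y : N → ℝ) (S : Finset N) :
    (Rr S (Matrix.diagonal y)).det = ∏ i ∈ Sᶜ, y i := by
  have h : Rr S (Matrix.diagonal y) = Matrix.diagonal (fun i => if i ∈ S then 1 else y i) := by
    ext i j
    simp only [Rr_apply, Matrix.diagonal_apply]
    by_cases hi : i ∈ S <;> by_cases hij : i = j <;> simp [hi, hij]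
  rw [h, Matrix.det_diagonal, Finset.prod_ite, Finset.prod_const_one, one_mul]
  congr 1
  ext i; simp

theorem vertex_rec' (y : N → ℝ) (L : List (N × N)) (hL : ∀ e ∈ L, e.1 ≠ e.2) :
    ∀ (S : Finset N) (v : N), v ∉ S →
      mu (Matrix.diagonal y) L S = y v * mu (Matrix.diagonal y) L (insert v S)
        - (L.map (ctr S v (mu (Matrix.diagonal y) L))).sum := by
  induction L with
  | nil =>
    intro S v hv
    simp only [mu, List.map_nil, List.sum_nil, sub_zero]
    rw [det_Rr_diag, det_Rr_diag, Finset.compl_insert,
      Finset.mul_prod_erase _ _ (Finset.mem_compl.2 hv)]
  | cons e L ih =>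
    intro S v hv
    obtain ⟨a, b⟩ := e
    have hab : a ≠ b := hL (a, b) List.mem_cons_self
    have ih' := ih (fun e he => hL e (List.mem_cons_of_mem _ he))
    set f' : Finset N → ℝ := mu (Matrix.diagonal y) L with hf'
    have hmu : ∀ T, mu (Matrix.diagonal y) ((a, b) :: L) T
        = f' T - if a ∉ T ∧ b ∉ T then f' (insert a (insert b T)) else 0 := by
      intro T; simp only [mu, hf']
    set f : Finset N → ℝ := mu (Matrix.diagonal y) ((a, b) :: L) with hf
    rw [List.map_cons, List.sum_cons]
    by_cases hva : v = a
    · subst hva
      have hfv : ∀ T, v ∈ T → f T = f' T := by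
        intro T hT
        rw [hmu T, if_neg (fun h => h.1 hT), sub_zero]
      have h1 : (L.map (ctr S v f)).sum = (L.map (ctr S v f')).sum := by
        congr 1
        apply List.map_congr_left
        intro e _
        exact ctr_congr S v f f' e (fun T hT _ => hfv T hT)
      rw [h1, hmu S, ih' S v hv, hfv _ (Finset.mem_insert_self _ _)]
      have h2 : ctr S v f (v, b) = if v ∉ S ∧ b ∉ S then f' (insert v (insert b S)) else 0 := by
        unfold ctr
        simp only [true_and]
        rw [if_neg (show ¬ (b = v ∧ v ∉ insert v S) from fun h => hab h.1.symm), add_zero]
        by_cases hb : b ∈ S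
        · rw [if_neg (fun h => h (Finset.mem_insert_of_mem hb)), if_neg (fun h => h.2 hb)]
        · rw [if_pos (by simp [hb, Ne.symm hab]), if_pos ⟨hv, hb⟩, hfv _ (by simp),
            Finset.insert_comm]
      rw [h2]; ring
    by_cases hvb : v = b
    · subst hvb
      have hfv : ∀ T, v ∈ T → f T = f' T := by
        intro T hT
        rw [hmu T, if_neg (fun h => h.2 hT), sub_zero]
      have h1 : (L.map (ctr S v f)).sum = (L.map (ctr S v f')).sum := by
        congr 1
        apply List.map_congr_left
        intro e _
        exact ctr_congr S v f f' e (fun T hT _ => hfv T hT)
      rw [h1, hmu S, ih' S v hv, hfv _ (Finset.mem_insert_self _ _)]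
      have h2 : ctr S v f (a, v) = if a ∉ S ∧ v ∉ S then f' (insert a (insert v S)) else 0 := by
        unfold ctr
        simp only [true_and]
        rw [if_neg (show ¬ (a = v ∧ v ∉ insert v S) from fun h => hab h.1), zero_add]
        by_cases hb : a ∈ S
        · rw [if_neg (fun h => h (Finset.mem_insert_of_mem hb)), if_neg (fun h => h.1 hb)]
        · rw [if_pos (by simp [hb, hab]), if_pos ⟨hb, hv⟩, hfv _ (by simp)]
      rw [h2]; ring
    · have hctr0 : ctr S v f (a, b) = 0 := by
        unfold ctr
        rw [if_neg (fun h => hva h.1.symm), if_neg (fun h => hvb h.1.symm), add_zero]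
      rw [hctr0, zero_add, hmu S, hmu (insert v S), ih' S v hv]
      by_cases hs : a ∉ S ∧ b ∉ S
      · have hs' : a ∉ insert v S ∧ b ∉ insert v S := by
          simp [hs.1, hs.2, Ne.symm hva, Ne.symm hvb]
        rw [if_pos hs, if_pos hs']
        have hv' : v ∉ insert a (insert b S) := by simp [hva, hvb, hv]
        rw [ih' _ v hv']
        have hsum : (L.map (ctr S v f)).sum = (L.map (ctr S v f')).sum
            - (L.map (ctr (insert a (insert b S)) v f')).sum := by
          clear ih ih' hL
          have hterm : ∀ e : N × N, ctr S v f e = ctr S v f' e
              - ctr (insert a (insert b S)) v f' e := by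
            intro e
            obtain ⟨c, d⟩ := e
            have hone : ∀ w : N, (w ∉ insert v S) → f (insert w (insert v S))
                = f' (insert w (insert v S)) - if w ∉ insert v (insert a (insert b S)) then
                  f' (insert w (insert v (insert a (insert b S)))) else 0 := by
              intro w hw
              rw [hmu]
              congr 1
              by_cases hwa : w = a
              · subst hwa
                rw [if_neg (by simp), if_neg (by simp)]
              · by_cases hwb : w = b
                · subst hwb
                  rw [if_neg (by simp), if_neg (by simp)]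
                · simp only [Finset.mem_insert, not_or] at hw
                  rw [if_pos, if_pos]
                  · congr 1
                    ext z; simp only [Finset.mem_insert]; tauto
                  · simp [hw.1, hw.2, hwa, hwb]
                  · simp [Ne.symm hwa, Ne.symm hwb, Ne.symm hva, Ne.symm hvb, hs.1, hs.2]
            have hsub : ∀ w : N, w ∉ insert v (insert a (insert b S)) → w ∉ insert v S := by
              intro w hw h
              apply hw
              simp only [Finset.mem_insert] at h ⊢
              tauto
            unfold ctr
            simp only
            have t1 : (if c = v ∧ d ∉ insert v S then f (insert d (insert v S)) else 0)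
                = (if c = v ∧ d ∉ insert v S then f' (insert d (insert v S)) else 0)
                  - (if c = v ∧ d ∉ insert v (insert a (insert b S)) then
                    f' (insert d (insert v (insert a (insert b S)))) else 0) := by
              by_cases h1 : c = v ∧ d ∉ insert v S
              · rw [if_pos h1, if_pos h1, hone d h1.2]
                congr 1
                by_cases h2 : d ∉ insert v (insert a (insert b S))
                · rw [if_pos h2, if_pos ⟨h1.1, h2⟩]
                · rw [if_neg h2, if_neg (fun h => h2 h.2)]
              · rw [if_neg h1, if_neg h1, if_neg (fun h => h1 ⟨h.1, hsub d h.2⟩), sub_zero]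
            have t2 : (if d = v ∧ c ∉ insert v S then f (insert c (insert v S)) else 0)
                = (if d = v ∧ c ∉ insert v S then f' (insert c (insert v S)) else 0)
                  - (if d = v ∧ c ∉ insert v (insert a (insert b S)) then
                    f' (insert c (insert v (insert a (insert b S)))) else 0) := by
              by_cases h1 : d = v ∧ c ∉ insert v S
              · rw [if_pos h1, if_pos h1, hone c h1.2]
                congr 1
                by_cases h2 : c ∉ insert v (insert a (insert b S))
                · rw [if_pos h2, if_pos ⟨h1.1, h2⟩]
                · rw [if_neg h2, if_neg (fun h => h2 h.2)]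
              · rw [if_neg h1, if_neg h1, if_neg (fun h => h1 ⟨h.1, hsub c h.2⟩), sub_zero]
            rw [t1, t2]; ring
          have hfun : ctr S v f = fun e => ctr S v f' e
              - ctr (insert a (insert b S)) v f' e := funext hterm
          rw [hfun]
          exact list_sum_map_sub L _ _
        rw [hsum]
        have hset : insert v (insert a (insert b S)) = insert a (insert b (insert v S)) := by
          ext z; simp only [Finset.mem_insert]; tauto
        rw [hset]
        ring
      · have hs' : ¬ (a ∉ insert v S ∧ b ∉ insert v S) := by
          intro h
          apply hs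
          simp only [Finset.mem_insert, not_or] at h
          exact ⟨h.1.2, h.2.2⟩
        rw [if_neg hs, if_neg hs']
        have h1 : (L.map (ctr S v f)).sum = (L.map (ctr S v f')).sum := by
          congr 1
          apply List.map_congr_left
          intro e _
          apply ctr_congr S v f f' e
          intro T _ hT
          rw [hmu T, if_neg, sub_zero]
          intro h
          apply hs
          exact ⟨fun h' => h.1 (hT h'), fun h' => h.2 (hT h')⟩
        rw [h1]; ring

end Pool.Agent.Q104.Sign
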