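import Mathlib

/-!
# Two vertices outside a star complement with at most three vertices: the algebra
-/

set_option autoImplicit false
set_option linter.unusedVariables false

namespace Q104.StarAlg

/-- star complement with no edge -/
theorem L0 (l x1 x2 x3 y1 y2 y3 b1 b2 b3 d1 d2 d3 a : ℝ) (hl : l ≠ 0)
    (hb1 : b1 = 0 ∨ b1 = 1) (hb2 : b2 = 0 ∨ b2 = 1) (hb3 : b3 = 0 ∨ b3 = 1)
    (hd1 : d1 = 0 ∨ d1 = 1) (hd2 : d2 = 0 ∨ d2 = 1) (hd3 : d3 = 0 ∨ d3 = 1)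
    (ha : a = 0 ∨ a = 1)
    (e1 : l * x1 = b1) (e2 : l * x2 = b2) (e3 : l * x3 = b3)
    (f1 : l * y1 = d1) (f2 : l * y2 = d2) (f3 : l * y3 = d3)
    (g : l = b1 * x1 + b2 * x2 + b3 * x3) (g' : l = d1 * y1 + d2 * y2 + d3 * y3)
    (k : 0 = a + d1 * x1 + d2 * x2 + d3 * x3)
    (m : 1 + x1 + x2 + x3 ≠ 0) (m' : 1 + y1 + y2 + y3 ≠ 0) :
    l = 1 ∧ b1 + b2 + b3 = 1 ∧ d1 + d2 + d3 = 1 ∧ a = 0 ∧ b1 * d1 + b2 * d2 + b3 * d3 = 0 := by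
  rcases hb1 with rfl | rfl <;> rcases hb2 with rfl | rfl <;> rcases hb3 with rfl | rfl <;>
  rcases hd1 with rfl | rfl <;> rcases hd2 with rfl | rfl <;> rcases hd3 with rfl | rfl <;>
  rcases ha with rfl | rfl <;> grind

/-- one edge `12` -/
theorem L1 (l x1 x2 x3 y1 y2 y3 b1 b2 b3 d1 d2 d3 a : ℝ) (hl : l ≠ 0)
    (hb1 : b1 = 0 ∨ b1 = 1) (hb2 : b2 = 0 ∨ b2 = 1) (hb3 : b3 = 0 ∨ b3 = 1)
    (hd1 : d1 = 0 ∨ d1 = 1) (hd2 : d2 = 0 ∨ d2 = 1) (hd3 : d3 = 0 ∨ d3 = 1)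
    (ha : a = 0 ∨ a = 1)
    (e1 : l * x1 = x2 + b1) (e2 : l * x2 = x1 + b2) (e3 : l * x3 = b3)
    (f1 : l * y1 = y2 + d1) (f2 : l * y2 = y1 + d2) (f3 : l * y3 = d3)
    (g : l = b1 * x1 + b2 * x2 + b3 * x3) (g' : l = d1 * y1 + d2 * y2 + d3 * y3)
    (k : 0 = a + d1 * x1 + d2 * x2 + d3 * x3) (h1 : l ≠ 1) (h2 : l ≠ -1)
    (m : 1 + x1 + x2 + x3 ≠ 0) (m' : 1 + y1 + y2 + y3 ≠ 0) : False := by
  rcases hb1 with rfl | rfl <;> rcases hb2 with rfl | rfl <;> rcases hb3 with rfl | rfl <;>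
  rcases hd1 with rfl | rfl <;> rcases hd2 with rfl | rfl <;> rcases hd3 with rfl | rfl <;>
  rcases ha with rfl | rfl <;> grind

/-- the path `1 - 2 - 3` -/
theorem L2 (l x1 x2 x3 y1 y2 y3 b1 b2 b3 d1 d2 d3 a : ℝ) (hl : l ≠ 0)
    (hb1 : b1 = 0 ∨ b1 = 1) (hb2 : b2 = 0 ∨ b2 = 1) (hb3 : b3 = 0 ∨ b3 = 1)
    (hd1 : d1 = 0 ∨ d1 = 1) (hd2 : d2 = 0 ∨ d2 = 1) (hd3 : d3 = 0 ∨ d3 = 1)
    (ha : a = 0 ∨ a = 1)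
    (e1 : l * x1 = x2 + b1) (e2 : l * x2 = x1 + x3 + b2) (e3 : l * x3 = x2 + b3)
    (f1 : l * y1 = y2 + d1) (f2 : l * y2 = y1 + y3 + d2) (f3 : l * y3 = y2 + d3)
    (g : l = b1 * x1 + b2 * x2 + b3 * x3) (g' : l = d1 * y1 + d2 * y2 + d3 * y3)
    (k : 0 = a + d1 * x1 + d2 * x2 + d3 * x3) (h1 : l ^ 2 ≠ 2)
    (m : 1 + x1 + x2 + x3 ≠ 0) (m' : 1 + y1 + y2 + y3 ≠ 0) : False := by
  rcases hb1 with rfl | rfl <;> rcases hb2 with rfl | rfl <;> rcases hb3 with rfl | rfl <;>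
  rcases hd1 with rfl | rfl <;> rcases hd2 with rfl | rfl <;> rcases hd3 with rfl | rfl <;>
  rcases ha with rfl | rfl <;> grind

/-- the triangle -/
theorem L3 (l x1 x2 x3 y1 y2 y3 b1 b2 b3 d1 d2 d3 a : ℝ) (hl : l ≠ 0)
    (hb1 : b1 = 0 ∨ b1 = 1) (hb2 : b2 = 0 ∨ b2 = 1) (hb3 : b3 = 0 ∨ b3 = 1)
    (hd1 : d1 = 0 ∨ d1 = 1) (hd2 : d2 = 0 ∨ d2 = 1) (hd3 : d3 = 0 ∨ d3 = 1)
    (ha : a = 0 ∨ a = 1)
    (e1 : l * x1 = x2 + x3 + b1) (e2 : l * x2 = x1 + x3 + b2) (e3 : l * x3 = x1 + x2 + b3)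
    (f1 : l * y1 = y2 + y3 + d1) (f2 : l * y2 = y1 + y3 + d2) (f3 : l * y3 = y1 + y2 + d3)
    (g : l = b1 * x1 + b2 * x2 + b3 * x3) (g' : l = d1 * y1 + d2 * y2 + d3 * y3)
    (k : 0 = a + d1 * x1 + d2 * x2 + d3 * x3) (h2 : l ≠ 2) (h1 : l ≠ -1)
    (m : 1 + x1 + x2 + x3 ≠ 0) (m' : 1 + y1 + y2 + y3 ≠ 0) : False := by
  rcases hb1 with rfl | rfl <;> rcases hb2 with rfl | rfl <;> rcases hb3 with rfl | rfl <;>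
  rcases hd1 with rfl | rfl <;> rcases hd2 with rfl | rfl <;> rcases hd3 with rfl | rfl <;>
  rcases ha with rfl | rfl <;> grind

end Q104.StarAlg
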