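import Pool.Agent.Q104.StarSet

/-!
# Two main vertices force a star complement with at least four vertices
-/

set_option autoImplicit false

namespace Q104.StarSet

open Finset Q104.StarAlg

theorem alg (l x1 x2 x3 y1 y2 y3 c1 c2 c3 b1 b2 b3 d1 d2 d3 a : ℝ) (hl : l ≠ 0)
    (hc1 : c1 = 0 ∨ c1 = 1) (hc2 : c2 = 0 ∨ c2 = 1) (hc3 : c3 = 0 ∨ c3 = 1)
    (hb1 : b1 = 0 ∨ b1 = 1) (hb2 : b2 = 0 ∨ b2 = 1) (hb3 : b3 = 0 ∨ b3 = 1)
    (hd1 : d1 = 0 ∨ d1 = 1) (hd2 : d2 = 0 ∨ d2 = 1) (hd3 : d3 = 0 ∨ d3 = 1)
    (ha : a = 0 ∨ a = 1)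
    (e1 : l * x1 = c3 * x2 + c2 * x3 + b1) (e2 : l * x2 = c3 * x1 + c1 * x3 + b2)
    (e3 : l * x3 = c2 * x1 + c1 * x2 + b3)
    (f1 : l * y1 = c3 * y2 + c2 * y3 + d1) (f2 : l * y2 = c3 * y1 + c1 * y3 + d2)
    (f3 : l * y3 = c2 * y1 + c1 * y2 + d3)
    (g : l = b1 * x1 + b2 * x2 + b3 * x3) (g' : l = d1 * y1 + d2 * y2 + d3 * y3)
    (k : 0 = a + d1 * x1 + d2 * x2 + d3 * x3)
    (N : ∀ w1 w2 w3 : ℝ, l * w1 = c3 * w2 + c2 * w3 → l * w2 = c3 * w1 + c1 * w3 →
      l * w3 = c2 * w1 + c1 * w2 → w1 = 0 ∧ w2 = 0 ∧ w3 = 0)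
    (m : 1 + x1 + x2 + x3 ≠ 0) (m' : 1 + y1 + y2 + y3 ≠ 0) :
    l = 1 ∧ c1 = 0 ∧ c2 = 0 ∧ c3 = 0 := by
  rcases hc1 with rfl | rfl <;> rcases hc2 with rfl | rfl <;> rcases hc3 with rfl | rfl
  · -- no edge
    have := L0 l x1 x2 x3 y1 y2 y3 b1 b2 b3 d1 d2 d3 a hl hb1 hb2 hb3 hd1 hd2 hd3 ha
      (by linarith) (by linarith) (by linarith) (by linarith) (by linarith) (by linarith)
      g g' k m m'
    exact ⟨this.1, rfl, rfl, rfl⟩
  · -- 12
    exfalso
    refine L1 l x1 x2 x3 y1 y2 y3 b1 b2 b3 d1 d2 d3 a hl hb1 hb2 hb3 hd1 hd2 hd3 ha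
      (by linarith) (by linarith) (by linarith) (by linarith) (by linarith) (by linarith)
      g g' k ?_ ?_ m m'
    · rintro rfl
      have := (N 1 1 0 (by norm_num) (by norm_num) (by norm_num)).1
      norm_num at this
    · rintro rfl
      have := (N 1 (-1) 0 (by norm_num) (by norm_num) (by norm_num)).1
      norm_num at this
  · -- 13
    exfalso
    refine L1 l x1 x3 x2 y1 y3 y2 b1 b3 b2 d1 d3 d2 a hl hb1 hb3 hb2 hd1 hd3 hd2 ha
      (by linarith) (by linarith) (by linarith) (by linarith) (by linarith) (by linarith)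
      (by linarith) (by linarith) (by linarith) ?_ ?_ (by intro h; apply m; linarith)
      (by intro h; apply m'; linarith)
    · rintro rfl
      have := (N 1 0 1 (by norm_num) (by norm_num) (by norm_num)).1
      norm_num at this
    · rintro rfl
      have := (N 1 0 (-1) (by norm_num) (by norm_num) (by norm_num)).1
      norm_num at this
  · -- 12, 13: centre 1
    exfalso
    refine L2 l x2 x1 x3 y2 y1 y3 b2 b1 b3 d2 d1 d3 a hl hb2 hb1 hb3 hd2 hd1 hd3 ha
      (by linarith) (by linarith) (by linarith) (by linarith) (by linarith) (by linarith)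
      (by linarith) (by linarith) (by linarith) ?_ (by intro h; apply m; linarith)
      (by intro h; apply m'; linarith)
    intro h
    have := (N l 1 1 (by linarith) (by linarith) (by linarith)).2.1
    norm_num at this
  · -- 23
    exfalso
    refine L1 l x2 x3 x1 y2 y3 y1 b2 b3 b1 d2 d3 d1 a hl hb2 hb3 hb1 hd2 hd3 hd1 ha
      (by linarith) (by linarith) (by linarith) (by linarith) (by linarith) (by linarith)
      (by linarith) (by linarith) (by linarith) ?_ ?_ (by intro h; apply m; linarith)
      (by intro h; apply m'; linarith)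
    · rintro rfl
      have := (N 0 1 1 (by norm_num) (by norm_num) (by norm_num)).2.1
      norm_num at this
    · rintro rfl
      have := (N 0 1 (-1) (by norm_num) (by norm_num) (by norm_num)).2.1
      norm_num at this
  · -- 23, 12: centre 2
    exfalso
    refine L2 l x1 x2 x3 y1 y2 y3 b1 b2 b3 d1 d2 d3 a hl hb1 hb2 hb3 hd1 hd2 hd3 ha
      (by linarith) (by linarith) (by linarith) (by linarith) (by linarith) (by linarith)
      (by linarith) (by linarith) (by linarith) ?_ (by intro h; apply m; linarith)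
      (by intro h; apply m'; linarith)
    intro h
    have := (N 1 l 1 (by linarith) (by linarith) (by linarith)).1
    norm_num at this
  · -- 23, 13: centre 3
    exfalso
    refine L2 l x1 x3 x2 y1 y3 y2 b1 b3 b2 d1 d3 d2 a hl hb1 hb3 hb2 hd1 hd3 hd2 ha
      (by linarith) (by linarith) (by linarith) (by linarith) (by linarith) (by linarith)
      (by linarith) (by linarith) (by linarith) ?_ (by intro h; apply m; linarith)
      (by intro h; apply m'; linarith)
    intro h
    have := (N 1 1 l (by linarith) (by linarith) (by linarith)).1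
    norm_num at this
  · -- triangle
    exfalso
    refine L3 l x1 x2 x3 y1 y2 y3 b1 b2 b3 d1 d2 d3 a hl hb1 hb2 hb3 hd1 hd2 hd3 ha
      (by linarith) (by linarith) (by linarith) (by linarith) (by linarith) (by linarith)
      (by linarith) (by linarith) (by linarith) ?_ ?_ (by intro h; apply m; linarith)
      (by intro h; apply m'; linarith)
    · rintro rfl
      have := (N 1 1 1 (by norm_num) (by norm_num) (by norm_num)).1
      norm_num at this
    · rintro rfl
      have := (N 1 (-1) 0 (by norm_num) (by norm_num) (by norm_num)).1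
      norm_num at this

/-- the case `l = 0`, three vertices -/
theorem alg0 (x1 x2 x3 c1 c2 c3 b1 b2 b3 : ℝ)
    (hc1 : c1 = 0 ∨ c1 = 1) (hc2 : c2 = 0 ∨ c2 = 1) (hc3 : c3 = 0 ∨ c3 = 1)
    (hb1 : b1 = 0 ∨ b1 = 1) (hb2 : b2 = 0 ∨ b2 = 1) (hb3 : b3 = 0 ∨ b3 = 1)
    (e1 : 0 = c3 * x2 + c2 * x3 + b1) (e2 : 0 = c3 * x1 + c1 * x3 + b2)
    (e3 : 0 = c2 * x1 + c1 * x2 + b3)
    (g : 0 = b1 * x1 + b2 * x2 + b3 * x3)
    (N : ∀ w1 w2 w3 : ℝ, 0 = c3 * w2 + c2 * w3 → 0 = c3 * w1 + c1 * w3 →
      0 = c2 * w1 + c1 * w2 → w1 = 0 ∧ w2 = 0 ∧ w3 = 0)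
    (m : 1 + x1 + x2 + x3 ≠ 0) : b1 = 0 ∧ b2 = 0 ∧ b3 = 0 := by
  rcases hc1 with rfl | rfl <;> rcases hc2 with rfl | rfl <;> rcases hc3 with rfl | rfl
  · have := (N 1 0 0 (by norm_num) (by norm_num) (by norm_num)).1
    norm_num at this
  · have := (N 0 0 1 (by norm_num) (by norm_num) (by norm_num)).2.2
    norm_num at this
  · have := (N 0 1 0 (by norm_num) (by norm_num) (by norm_num)).2.1
    norm_num at this
  · have := (N 0 1 (-1) (by norm_num) (by norm_num) (by norm_num)).2.1
    norm_num at this
  · have := (N 1 0 0 (by norm_num) (by norm_num) (by norm_num)).1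
    norm_num at this
  · have := (N 1 0 (-1) (by norm_num) (by norm_num) (by norm_num)).1
    norm_num at this
  · have := (N 1 (-1) 0 (by norm_num) (by norm_num) (by norm_num)).1
    norm_num at this
  · clear N
    rcases hb1 with rfl | rfl <;> rcases hb2 with rfl | rfl <;> rcases hb3 with rfl | rfl <;>
      first
      | exact ⟨rfl, rfl, rfl⟩
      | (exfalso; grind)

section

open scoped Classical

set_option linter.unusedSectionVars false

variable {V : Type*} [Fintype V]

theorem split {G : SimpleGraph V} {X : Finset V} {u : V} (hu : u ∈ X) (x : V → ℝ)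
    (hx1 : x u = 1) (hx0 : ∀ v ∈ X, v ≠ u → x v = 0) (i : V) :
    ∑ j, (if G.Adj i j then x j else 0)
      = (if G.Adj i u then (1 : ℝ) else 0) + ∑ j ∈ Xᶜ, (if G.Adj i j then x j else 0) := by
  rw [← Finset.sum_add_sum_compl X]
  congr 1
  rw [Finset.sum_eq_single u]
  · rw [hx1]
  · intro v hv hvu
    rw [hx0 v hv hvu, ite_self]
  · intro h
    exact absurd hu h

theorem split' {X : Finset V} {u : V} (hu : u ∈ X) (x : V → ℝ)
    (hx1 : x u = 1) (hx0 : ∀ v ∈ X, v ≠ u → x v = 0) :
    ∑ j, x j = 1 + ∑ j ∈ Xᶜ, x j := by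
  rw [← Finset.sum_add_sum_compl X]
  congr 1
  rw [Finset.sum_eq_single u]
  · rw [hx1]
  · intro v hv hvu
    exact hx0 v hv hvu
  · intro h
    exact absurd hu h

theorem closed_univ {G : SimpleGraph V} (hG : G.Connected) (S : Set V)
    (hcl : ∀ a ∈ S, ∀ b, G.Adj a b → b ∈ S) (u : V) (hu : u ∈ S) (v : V) : v ∈ S := by
  obtain ⟨w⟩ := hG.preconnected u v
  induction w with
  | nil => exact hu
  | cons h p ih => exact ih (hcl _ hu _ h)

/-- A vertex of a star set has a neighbour outside the star set. -/
theorem no_isolated {G : SimpleGraph V} (hG : G.Connected) {μ : ℝ} {X : Finset V}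
    (hX : IsStarSet G μ X) (u : V) (hu : u ∈ X) (v : V) (hvu : v ≠ u)
    (h : ∀ i, i ∉ X → ¬ G.Adj i u) : False := by
  obtain ⟨x, hx, hx1, hx0⟩ := exists_ker hX u hu
  -- the kernel vector vanishes outside X
  have h1 : (fun i => if i = u then 0 else x i) = 0 := by
    refine zero_of hX.2 _ ?_ ?_
    · intro w hw
      by_cases hwu : w = u
      · simp [hwu]
      · simp [hwu, hx0 w hw hwu]
    · intro i hi
      have hiu : i ≠ u := fun h => hi (h ▸ hu)
      rw [if_neg hiu, ← hx i]
      refine Finset.sum_congr rfl fun j _ => ?_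
      by_cases hju : j = u
      · subst hju
        rw [if_neg (h i hi), if_neg (h i hi)]
      · rw [if_neg hju]
  have h2 : ∀ i, i ≠ u → x i = 0 := by
    intro i hi
    have := congrFun h1 i
    simpa [hi] using this
  -- u is isolated
  have h3 : ∀ i, ¬ G.Adj i u := by
    intro i hi
    have hiu : i ≠ u := G.ne_of_adj hi
    have h4 := hx i
    rw [Finset.sum_eq_single u, h2 i hiu, mul_zero, if_pos hi, hx1] at h4
    · norm_num at h4
    · intro j _ hj
      rw [h2 j hj, ite_self]
    · intro h
      exact absurd (Finset.mem_univ u) h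
  have := closed_univ hG {u} (fun a ha b hab => by
    rw [Set.mem_singleton_iff] at ha
    subst ha
    exact absurd hab.symm (h3 b)) u rfl v
  exact hvu this

theorem ind01 (p : Prop) [Decidable p] : (if p then (1 : ℝ) else 0) = 0 ∨
    (if p then (1 : ℝ) else 0) = 1 := by
  by_cases h : p
  · right; rw [if_pos h]
  · left; rw [if_neg h]

theorem ite_mul' (p : Prop) [Decidable p] (x : ℝ) : (if p then x else 0)
    = (if p then (1 : ℝ) else 0) * x := by
  split_ifs <;> ring

/-- the exceptional configuration is not connected -/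
theorem exceptional {G : SimpleGraph V} (hG : G.Connected) {X : Finset V}
    (hX : IsStarSet G 1 X) (u v : V) (hu : u ∈ X) (hv : v ∈ X) (huv : u ≠ v)
    (hC : ∀ i j, i ∉ X → j ∉ X → ¬ G.Adj i j) : False := by
  obtain ⟨x, hx, hx1, hx0⟩ := exists_ker hX u hu
  have hxi : ∀ i, i ∉ X → x i = if G.Adj i u then 1 else 0 := by
    intro i hi
    have h := hx i
    rw [split hu x hx1 hx0, one_mul] at h
    rw [← h, Finset.sum_eq_zero, add_zero]
    intro j hj
    rw [if_neg (hC i j hi (by simpa using hj))]
  have hz : ∀ z ∈ X, z ≠ u → ¬ G.Adj z u ∧ ∀ w, w ∉ X → ¬ (G.Adj z w ∧ G.Adj w u) := by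
    intro z hz hzu
    have h := hx z
    rw [split hu x hx1 hx0, hx0 z hz hzu, mul_zero] at h
    have hn : ∀ j ∈ Xᶜ, 0 ≤ (if G.Adj z j then x j else 0) := by
      intro j hj
      rw [hxi j (by simpa using hj)]
      split_ifs <;> norm_num
    have h0 : 0 ≤ (if G.Adj z u then (1 : ℝ) else 0) := by split_ifs <;> norm_num
    have hs := Finset.sum_nonneg hn
    have h1 : (if G.Adj z u then (1 : ℝ) else 0) = 0 := by linarith
    have h2 : ∑ j ∈ Xᶜ, (if G.Adj z j then x j else 0) = 0 := by linarith
    refine ⟨fun hzz => by rw [if_pos hzz] at h1; norm_num at h1, ?_⟩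
    rintro w hw ⟨hzw, hwu⟩
    have h3 := (Finset.sum_eq_zero_iff_of_nonneg hn).mp h2 w (by simpa using hw)
    rw [if_pos hzw, hxi w hw, if_pos hwu] at h3
    norm_num at h3
  have := closed_univ hG {w | w = u ∨ (w ∉ X ∧ G.Adj w u)} (by
    rintro a ha b hab
    rcases ha with rfl | ⟨ha, hau⟩
    · by_cases hb : b ∈ X
      · exact absurd hab.symm (hz b hb (G.ne_of_adj hab.symm)).1
      · exact Or.inr ⟨hb, hab.symm⟩
    · by_cases hb : b ∈ X
      · by_cases hbu : b = u
        · exact Or.inl hbu
        · exact absurd ⟨hab.symm, hau⟩ ((hz b hb hbu).2 a ha)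
      · exact absurd hab (hC a b ha hb)) u (Or.inl rfl) v
  rcases this with h | ⟨h, -⟩
  · exact huv h.symm
  · exact h hv

/-- **Two main vertices force at least four vertices outside the star set.** -/
theorem four_le {G : SimpleGraph V} (hG : G.Connected) {μ : ℝ} {X : Finset V}
    (hX : IsStarSet G μ X) (u v : V) (hu : u ∈ X) (hv : v ∈ X) (huv : u ≠ v)
    (x y : V → ℝ) (hx : ∀ i, ∑ j, (if G.Adj i j then x j else 0) = μ * x i)
    (hx1 : x u = 1) (hx0 : ∀ v ∈ X, v ≠ u → x v = 0) (hxs : ∑ i, x i ≠ 0)
    (hy : ∀ i, ∑ j, (if G.Adj i j then y j else 0) = μ * y i)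
    (hy1 : y v = 1) (hy0 : ∀ w ∈ X, w ≠ v → y w = 0) (hys : ∑ i, y i ≠ 0) :
    4 ≤ Xᶜ.card := by
  by_contra hcon
  have hcard : Xᶜ.card = 0 ∨ Xᶜ.card = 1 ∨ Xᶜ.card = 2 ∨ Xᶜ.card = 3 := by omega
  have hxs' := hxs
  have hys' := hys
  rw [split' hu x hx1 hx0] at hxs'
  rw [split' hv y hy1 hy0] at hys'
  have ex : ∀ i, (if G.Adj i u then (1 : ℝ) else 0) + ∑ j ∈ Xᶜ, (if G.Adj i j then x j else 0)
      = μ * x i := fun i => by rw [← split hu x hx1 hx0, hx]
  have ey : ∀ i, (if G.Adj i v then (1 : ℝ) else 0) + ∑ j ∈ Xᶜ, (if G.Adj i j then y j else 0)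
      = μ * y i := fun i => by rw [← split hv y hy1 hy0, hy]
  have N : ∀ w : V → ℝ, (∀ v ∈ X, w v = 0) → (∀ i, i ∉ X →
      ∑ j ∈ Xᶜ, (if G.Adj i j then w j else 0) = μ * w i) → w = 0 := by
    intro w hw0 hw
    refine zero_of hX.2 w hw0 fun i hi => ?_
    rw [← hw i hi, ← Finset.sum_add_sum_compl X, Finset.sum_eq_zero, zero_add]
    intro j hj
    rw [hw0 j hj, ite_self]
  have symm : ∀ i j, (if G.Adj i j then (1 : ℝ) else 0) = if G.Adj j i then 1 else 0 := by
    intro i j
    simp only [G.adj_comm i j]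
  rcases hcard with hc | hc | hc | hc
  · -- no vertex outside
    have hemp : Xᶜ = ∅ := Finset.card_eq_zero.mp hc
    refine no_isolated hG hX u hu v huv.symm (fun i hi => ?_)
    have : i ∈ Xᶜ := by simpa using hi
    rw [hemp] at this
    exact absurd this (Finset.notMem_empty i)
  · -- one vertex outside
    obtain ⟨p, hp⟩ := Finset.card_eq_one.mp hc
    have hpX : p ∉ X := by
      have : p ∈ Xᶜ := by rw [hp]; simp
      simpa using this
    have hup : u ≠ p := fun h => hpX (h ▸ hu)
    have hvp : v ≠ p := fun h => hpX (h ▸ hv)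
    rw [hp] at hxs' hys' ex ey N
    simp only [Finset.sum_singleton] at hxs' hys' ex ey N
    have hμ : μ ≠ 0 := by
      rintro rfl
      have := N (Pi.single p 1) (fun w hw => by
        rw [Pi.single_eq_of_ne (ne_of_mem_of_not_mem hw hpX)]) (fun i hi => by
        have : i ∈ Xᶜ := by simpa using hi
        rw [hp, Finset.mem_singleton] at this
        subst this
        simp)
      have h2 := congrFun this p
      rw [Pi.single_eq_same] at h2
      norm_num at h2
    have A := alg μ (x p) 0 0 (y p) 0 0 0 0 0 (if G.Adj p u then 1 else 0) 0 0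
      (if G.Adj p v then 1 else 0) 0 0 (if G.Adj u v then 1 else 0) hμ (Or.inl rfl) (Or.inl rfl)
      (Or.inl rfl) (ind01 _) (Or.inl rfl) (Or.inl rfl) (ind01 _) (Or.inl rfl) (Or.inl rfl)
      (ind01 _)
      (by have := ex p; rw [if_neg (G.loopless.irrefl p)] at this; linarith)
      (by ring) (by ring)
      (by have := ey p; rw [if_neg (G.loopless.irrefl p)] at this; linarith)
      (by ring) (by ring)
      (by have := ex u; rw [if_neg (G.loopless.irrefl u), hx1, ite_mul' (G.Adj u p), symm u p] at this
          linarith)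
      (by have := ey v; rw [if_neg (G.loopless.irrefl v), hy1, ite_mul' (G.Adj v p), symm v p] at this
          linarith)
      (by have := ex v; rw [hx0 v hv huv.symm, ite_mul' (G.Adj v p), symm v p, symm v u] at this
          linarith)
      (by
        intro w1 w2 w3 h1 h2 h3
        have : μ * w1 = 0 := by linarith
        have h1' := (mul_eq_zero.mp this).resolve_left hμ
        have : μ * w2 = 0 := by linarith
        have h2' := (mul_eq_zero.mp this).resolve_left hμ
        have : μ * w3 = 0 := by linarith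
        have h3' := (mul_eq_zero.mp this).resolve_left hμ
        exact ⟨h1', h2', h3'⟩)
      (by simpa using hxs') (by simpa using hys')
    obtain ⟨h1, -, -, -⟩ := A
    subst h1
    refine exceptional hG hX u v hu hv huv ?_
    intro i j hi hj
    have h1 : i ∈ Xᶜ := by simpa using hi
    have h2 : j ∈ Xᶜ := by simpa using hj
    rw [hp, Finset.mem_singleton] at h1 h2
    subst h1
    subst h2
    exact G.loopless.irrefl _
  · -- two vertices outside
    obtain ⟨p, q, hpq, hp⟩ := Finset.card_eq_two.mp hc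
    have hpX : p ∉ X := by
      have : p ∈ Xᶜ := by rw [hp]; simp
      simpa using this
    have hqX : q ∉ X := by
      have : q ∈ Xᶜ := by rw [hp]; simp
      simpa using this
    rw [hp] at hxs' hys' ex ey N
    simp only [Finset.sum_pair hpq] at hxs' hys' ex ey N
    have mem : ∀ i, i ∉ X → i = p ∨ i = q := by
      intro i hi
      have : i ∈ Xᶜ := by simpa using hi
      rw [hp, Finset.mem_insert, Finset.mem_singleton] at this
      exact this
    have N2 : ∀ w1 w2 : ℝ, μ * w1 = (if G.Adj p q then 1 else 0) * w2 →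
        μ * w2 = (if G.Adj p q then 1 else 0) * w1 → w1 = 0 ∧ w2 = 0 := by
      intro w1 w2 h1 h2
      have := N (fun i => if i = p then w1 else if i = q then w2 else 0) (fun w hw => by
        rw [if_neg (ne_of_mem_of_not_mem hw hpX), if_neg (ne_of_mem_of_not_mem hw hqX)]) (fun i hi => by
        rcases mem i hi with rfl | rfl
        · rw [if_neg (G.loopless.irrefl _)]
          simp only [if_true, if_neg hpq.symm]
          rw [ite_mul', h1]; ring
        · rw [if_neg (G.loopless.irrefl _)]
          simp only [if_true, if_neg hpq.symm]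
          rw [ite_mul', symm, h2]; ring)
      have e1 := congrFun this p
      have e2 := congrFun this q
      simp only [if_true, if_neg hpq.symm, Pi.zero_apply] at e1 e2
      exact ⟨e1, e2⟩
    have xp := ex p
    have xq := ex q
    have xu := ex u
    have xv := ex v
    have yp := ey p
    have yq := ey q
    have yv := ey v
    rw [if_neg (G.loopless.irrefl p), ite_mul' (G.Adj p q)] at xp yp
    rw [if_neg (G.loopless.irrefl q), ite_mul' (G.Adj q p), symm q p] at xq yq
    rw [if_neg (G.loopless.irrefl u), hx1, ite_mul' (G.Adj u p), symm u p, ite_mul' (G.Adj u q),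
      symm u q] at xu
    rw [if_neg (G.loopless.irrefl v), hy1, ite_mul' (G.Adj v p), symm v p, ite_mul' (G.Adj v q),
      symm v q] at yv
    rw [hx0 v hv huv.symm, ite_mul' (G.Adj v p), symm v p, ite_mul' (G.Adj v q),
      symm v q, symm v u] at xv
    by_cases hμ : μ = 0
    · subst hμ
      have A : (if G.Adj p u then (1 : ℝ) else 0) = 0 ∧ (if G.Adj q u then (1 : ℝ) else 0) = 0 := by
        have hc1 : (if G.Adj p q then (1 : ℝ) else 0) = 1 := by
          rcases ind01 (G.Adj p q) with h | h
          · have := (N2 1 0 (by rw [h]; ring) (by rw [h]; ring)).1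
            norm_num at this
          · exact h
        rw [hc1] at xp xq
        rcases ind01 (G.Adj p u) with h | h <;> rcases ind01 (G.Adj q u) with h' | h'
        · exact ⟨h, h'⟩
        · exfalso; rw [h] at xp xu; rw [h'] at xq xu; apply hxs'; linarith
        · exfalso; rw [h] at xp xu; rw [h'] at xq xu; apply hxs'; linarith
        · exfalso; rw [h] at xp xu; rw [h'] at xq xu; linarith
      refine no_isolated hG hX u hu v huv.symm (fun i hi => ?_)
      rcases mem i hi with rfl | rfl
      · intro h; rw [if_pos h] at A; exact one_ne_zero A.1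
      · intro h; rw [if_pos h] at A; exact one_ne_zero A.2
    · have A := alg μ (x p) (x q) 0 (y p) (y q) 0 0 0 (if G.Adj p q then 1 else 0)
        (if G.Adj p u then 1 else 0) (if G.Adj q u then 1 else 0) 0
        (if G.Adj p v then 1 else 0) (if G.Adj q v then 1 else 0) 0
        (if G.Adj u v then 1 else 0) hμ (Or.inl rfl) (Or.inl rfl) (ind01 _)
        (ind01 _) (ind01 _) (Or.inl rfl) (ind01 _) (ind01 _) (Or.inl rfl) (ind01 _)
        (by linarith) (by linarith) (by ring) (by linarith) (by linarith) (by ring)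
        (by linarith) (by linarith) (by linarith)
        (by
          intro w1 w2 w3 h1 h2 h3
          have h4 := N2 w1 w2 (by linarith) (by linarith)
          have : μ * w3 = 0 := by linarith
          exact ⟨h4.1, h4.2, (mul_eq_zero.mp this).resolve_left hμ⟩)
        (by intro h; apply hxs'; linarith) (by intro h; apply hys'; linarith)
      obtain ⟨h1, -, -, h2⟩ := A
      subst h1
      refine exceptional hG hX u v hu hv huv ?_
      have hpq' : ¬ G.Adj p q := fun h => by rw [if_pos h] at h2; exact one_ne_zero h2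
      intro i j hi hj
      rcases mem i hi with rfl | rfl <;> rcases mem j hj with rfl | rfl
      · exact G.loopless.irrefl _
      · exact hpq'
      · exact fun h => hpq' h.symm
      · exact G.loopless.irrefl _
  · -- three vertices outside
    obtain ⟨p, q, r, hpq, hpr, hqr, hp⟩ := Finset.card_eq_three.mp hc
    have hpX : p ∉ X := by
      have : p ∈ Xᶜ := by rw [hp]; simp
      simpa using this
    have hqX : q ∉ X := by
      have : q ∈ Xᶜ := by rw [hp]; simp
      simpa using this
    have hrX : r ∉ X := by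
      have : r ∈ Xᶜ := by rw [hp]; simp
      simpa using this
    have hsum : ∀ f : V → ℝ, ∑ j ∈ ({p, q, r} : Finset V), f j = f p + f q + f r := by
      intro f
      rw [Finset.sum_insert (by simp [hpq, hpr]), Finset.sum_pair hqr]
      ring
    rw [hp] at hxs' hys' ex ey N
    simp only [hsum] at hxs' hys' ex ey N
    have mem : ∀ i, i ∉ X → i = p ∨ i = q ∨ i = r := by
      intro i hi
      have : i ∈ Xᶜ := by simpa using hi
      rw [hp, Finset.mem_insert, Finset.mem_insert, Finset.mem_singleton] at this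
      exact this
    have N3 : ∀ w1 w2 w3 : ℝ,
        μ * w1 = (if G.Adj p q then 1 else 0) * w2 + (if G.Adj p r then 1 else 0) * w3 →
        μ * w2 = (if G.Adj p q then 1 else 0) * w1 + (if G.Adj q r then 1 else 0) * w3 →
        μ * w3 = (if G.Adj p r then 1 else 0) * w1 + (if G.Adj q r then 1 else 0) * w2 →
        w1 = 0 ∧ w2 = 0 ∧ w3 = 0 := by
      intro w1 w2 w3 h1 h2 h3
      have := N (fun i => if i = p then w1 else if i = q then w2 else if i = r then w3 else 0)
        (fun w hw => by
        rw [if_neg (ne_of_mem_of_not_mem hw hpX), if_neg (ne_of_mem_of_not_mem hw hqX),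
          if_neg (ne_of_mem_of_not_mem hw hrX)]) (fun i hi => by
        rcases mem i hi with rfl | rfl | rfl
        · rw [if_neg (G.loopless.irrefl _)]
          simp only [if_true, if_neg hpq.symm, if_neg hpr.symm, if_neg hqr.symm]
          rw [ite_mul' _ w2, ite_mul' _ w3, h1]; ring
        · rw [if_neg (G.loopless.irrefl _)]
          simp only [if_true, if_neg hpq.symm, if_neg hpr.symm, if_neg hqr.symm]
          rw [ite_mul' _ w1, ite_mul' _ w3, symm i p, h2]; ring
        · rw [if_neg (G.loopless.irrefl _)]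
          simp only [if_true, if_neg hpq.symm, if_neg hpr.symm, if_neg hqr.symm]
          rw [ite_mul' _ w1, ite_mul' _ w2, symm i p, symm i q, h3]; ring)
      have e1 := congrFun this p
      have e2 := congrFun this q
      have e3 := congrFun this r
      simp only [if_true, if_neg hpq.symm, if_neg hpr.symm, if_neg hqr.symm,
        Pi.zero_apply] at e1 e2 e3
      exact ⟨e1, e2, e3⟩
    have xp := ex p
    have xq := ex q
    have xr := ex r
    have xu := ex u
    have xv := ex v
    have yp := ey p
    have yq := ey q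
    have yr := ey r
    have yv := ey v
    rw [if_neg (G.loopless.irrefl p), ite_mul' (G.Adj p q), ite_mul' (G.Adj p r)] at xp yp
    rw [if_neg (G.loopless.irrefl q), ite_mul' (G.Adj q p), symm q p, ite_mul' (G.Adj q r)] at xq yq
    rw [if_neg (G.loopless.irrefl r), ite_mul' (G.Adj r p), symm r p, ite_mul' (G.Adj r q),
      symm r q] at xr yr
    rw [if_neg (G.loopless.irrefl u), hx1, ite_mul' (G.Adj u p), symm u p, ite_mul' (G.Adj u q),
      symm u q, ite_mul' (G.Adj u r), symm u r] at xu
    rw [if_neg (G.loopless.irrefl v), hy1, ite_mul' (G.Adj v p), symm v p, ite_mul' (G.Adj v q),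
      symm v q, ite_mul' (G.Adj v r), symm v r] at yv
    rw [hx0 v hv huv.symm, ite_mul' (G.Adj v p), symm v p, ite_mul' (G.Adj v q),
      symm v q, ite_mul' (G.Adj v r), symm v r, symm v u] at xv
    by_cases hμ : μ = 0
    · subst hμ
      have A := alg0 (x p) (x q) (x r) (if G.Adj q r then 1 else 0) (if G.Adj p r then 1 else 0)
        (if G.Adj p q then 1 else 0) (if G.Adj p u then 1 else 0) (if G.Adj q u then 1 else 0)
        (if G.Adj r u then 1 else 0) (ind01 _) (ind01 _) (ind01 _) (ind01 _) (ind01 _) (ind01 _)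
        (by linarith) (by linarith) (by linarith) (by linarith)
        (fun w1 w2 w3 h1 h2 h3 => N3 w1 w2 w3 (by linarith) (by linarith) (by linarith))
        (by intro h; apply hxs'; linarith)
      refine no_isolated hG hX u hu v huv.symm (fun i hi => ?_)
      rcases mem i hi with rfl | rfl | rfl
      · intro h; rw [if_pos h] at A; exact one_ne_zero A.1
      · intro h; rw [if_pos h] at A; exact one_ne_zero A.2.1
      · intro h; rw [if_pos h] at A; exact one_ne_zero A.2.2
    · have A := alg μ (x p) (x q) (x r) (y p) (y q) (y r) (if G.Adj q r then 1 else 0)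
        (if G.Adj p r then 1 else 0) (if G.Adj p q then 1 else 0)
        (if G.Adj p u then 1 else 0) (if G.Adj q u then 1 else 0) (if G.Adj r u then 1 else 0)
        (if G.Adj p v then 1 else 0) (if G.Adj q v then 1 else 0) (if G.Adj r v then 1 else 0)
        (if G.Adj u v then 1 else 0) hμ (ind01 _) (ind01 _) (ind01 _)
        (ind01 _) (ind01 _) (ind01 _) (ind01 _) (ind01 _) (ind01 _) (ind01 _)
        (by linarith) (by linarith) (by linarith) (by linarith) (by linarith) (by linarith)
        (by linarith) (by linarith) (by linarith)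
        (fun w1 w2 w3 h1 h2 h3 => N3 w1 w2 w3 h1 h2 h3)
        (by intro h; apply hxs'; linarith) (by intro h; apply hys'; linarith)
      obtain ⟨h1, h2, h3, h4⟩ := A
      subst h1
      refine exceptional hG hX u v hu hv huv ?_
      have a1 : ¬ G.Adj q r := fun h => by rw [if_pos h] at h2; exact one_ne_zero h2
      have a2 : ¬ G.Adj p r := fun h => by rw [if_pos h] at h3; exact one_ne_zero h3
      have a3 : ¬ G.Adj p q := fun h => by rw [if_pos h] at h4; exact one_ne_zero h4
      intro i j hi hj
      rcases mem i hi with rfl | rfl | rfl <;> rcases mem j hj with rfl | rfl | rfl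
      · exact G.loopless.irrefl _
      · exact a3
      · exact a2
      · exact fun h => a3 h.symm
      · exact G.loopless.irrefl _
      · exact a1
      · exact fun h => a2 h.symm
      · exact fun h => a1 h.symm
      · exact G.loopless.irrefl _

end

end Q104.StarSet
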