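import Pool.Agent.Q104.StarAlg

/-!
# Star sets and main vertices
-/

set_option autoImplicit false

namespace Q104.StarSet

open Finset

/-- The eigenspace of the adjacency matrix of `G` for the real number `μ`. -/
noncomputable def E {V : Type*} [Fintype V] (G : SimpleGraph V) (μ : ℝ) : Submodule ℝ (V → ℝ) := by
  classical exact Module.End.eigenspace (Matrix.toLin' (G.adjMatrix ℝ)) μ

/-- `μ` is a main eigenvalue of `G`: the eigenspace is not orthogonal to the all-ones vector. -/
def IsMain {V : Type*} [Fintype V] (G : SimpleGraph V) (μ : ℝ) : Prop :=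
  ∃ x ∈ E G μ, ∑ i, x i ≠ 0

/-- `X` is a `μ`-star set of `G`: `|X|` is the multiplicity of `μ` and `μ` is not an eigenvalue of
`G - X`. -/
def IsStarSet {V : Type*} [Fintype V] (G : SimpleGraph V) (μ : ℝ) (X : Finset V) : Prop := by
  classical exact X.card = Module.finrank ℝ (E G μ) ∧ E (G.induce {v | v ∉ X}) μ = ⊥

/-- the `μ`-main vertices of `X`: those `v ∈ X` for which `μ` is a main eigenvalue of the graph
induced on `v` and the vertices outside `X`. -/
noncomputable def mainVertices {V : Type*} [Fintype V] (G : SimpleGraph V) (μ : ℝ)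
    (X : Finset V) : Finset V := by
  classical exact X.filter fun v => IsMain (G.induce {w | w ∉ X ∨ w = v}) μ

section

open scoped Classical

variable {V : Type*} [Fintype V]

theorem mem_E {G : SimpleGraph V} {μ : ℝ} {x : V → ℝ} :
    x ∈ E G μ ↔ ∀ i, ∑ j, (if G.Adj i j then x j else 0) = μ * x i := by
  unfold E
  rw [Module.End.mem_eigenspace_iff]
  constructor
  · intro h i
    have := congrFun h i
    simp only [Matrix.toLin'_apply, Matrix.mulVec, dotProduct, SimpleGraph.adjMatrix_apply,
      Pi.smul_apply, smul_eq_mul, ite_mul, one_mul, zero_mul] at this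
    convert this
  · intro h
    funext i
    have := h i
    simp only [Matrix.toLin'_apply, Matrix.mulVec, dotProduct, SimpleGraph.adjMatrix_apply,
      Pi.smul_apply, smul_eq_mul, ite_mul, one_mul, zero_mul]
    convert this

theorem sum_sub (S : Set V) [Fintype S] (f : V → ℝ) (hf : ∀ v, v ∉ S → f v = 0) :
    ∑ j : S, f j = ∑ j, f j := by
  have h1 : ∑ j : S, f j = ∑ j ∈ Finset.univ.filter (fun v => v ∈ S), f j := by
    symm
    apply Finset.sum_subtype
    intro x
    simp
  rw [h1]
  refine Finset.sum_subset (Finset.subset_univ _) ?_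
  intro v _ hv
  apply hf
  intro h
  exact hv (Finset.mem_filter.mpr ⟨Finset.mem_univ _, h⟩)

/-- a vector vanishing on `X` which satisfies the eigenvector equation outside `X` is zero -/
theorem zero_of {G : SimpleGraph V} {μ : ℝ} {X : Finset V} {inst : Fintype {v | v ∉ X}}
    (hX : E (G.induce {v | v ∉ X}) μ = ⊥) (w : V → ℝ) (h0 : ∀ v ∈ X, w v = 0)
    (h1 : ∀ i, i ∉ X → ∑ j, (if G.Adj i j then w j else 0) = μ * w i) : w = 0 := by
  have h2 : (fun i : {v | v ∉ X} => w i) ∈ E (G.induce {v | v ∉ X}) μ := by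
    rw [mem_E]
    intro i
    rw [← h1 i i.2]
    exact sum_sub {v | v ∉ X} (fun j => if G.Adj i j then w j else 0) (by
      intro v hv
      have : v ∈ X := by
        by_contra h
        exact hv h
      simp only [h0 v this, ite_self])
  rw [hX, Submodule.mem_bot] at h2
  funext i
  by_cases hi : i ∈ X
  · exact h0 i hi
  · exact congrFun h2 ⟨i, hi⟩

/-- extension by zero -/
theorem induce_iff {G : SimpleGraph V} {μ : ℝ} (S : Set V) {inst : Fintype S} (x : S → ℝ) (z : V → ℝ)
    (hz : ∀ i : S, z i = x i) (hz0 : ∀ v, v ∉ S → z v = 0) :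
    x ∈ E (G.induce S) μ ↔ ∀ i ∈ S, ∑ j, (if G.Adj i j then z j else 0) = μ * z i := by
  rw [mem_E]
  have h : ∀ i : S, ∑ j, @ite ℝ ((G.induce S).Adj i j) (Classical.propDecidable _) (x j) 0
      = ∑ j, (if G.Adj i j then z j else 0) := by
    intro i
    rw [← sum_sub S (fun j => if G.Adj i j then z j else 0) (by
      intro v hv
      simp only [hz0 v hv, ite_self])]
    refine Finset.sum_congr rfl fun j _ => ?_
    rw [hz]
    rfl
  constructor
  · intro h1 i hi
    have := h1 ⟨i, hi⟩
    rw [h, ← hz] at this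
    exact this
  · intro h1 i
    rw [h, h1 i i.2, hz]

theorem bot_of {G : SimpleGraph V} {μ : ℝ} (S : Set V) {inst : Fintype S}
    (h : ∀ w : V → ℝ, (∀ v, v ∉ S → w v = 0) →
      (∀ i ∈ S, ∑ j, (if G.Adj i j then w j else 0) = μ * w i) → ∀ i, w i = 0) :
    E (G.induce S) μ = ⊥ := by
  rw [Submodule.eq_bot_iff]
  intro x hx
  let z : V → ℝ := fun i => if h : i ∈ S then x ⟨i, h⟩ else 0
  have hzS : ∀ i : S, z i = x i := by
    intro i
    simp [z]
  have hz0 : ∀ v, v ∉ S → z v = 0 := by
    intro v hv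
    simp [z, hv]
  have h1 := (induce_iff S x z hzS hz0).mp hx
  have h2 := h z hz0 h1
  funext i
  rw [← hzS]
  exact h2 i

theorem isMain_of {G : SimpleGraph V} {μ : ℝ} (S : Set V) {inst : Fintype S} (w : V → ℝ)
    (h0 : ∀ v, v ∉ S → w v = 0)
    (h : ∀ i ∈ S, ∑ j, (if G.Adj i j then w j else 0) = μ * w i) (hs : ∑ i, w i ≠ 0) :
    IsMain (G.induce S) μ := by
  refine ⟨fun i => w i, ?_, ?_⟩
  · exact (induce_iff S _ w (fun _ => rfl) h0).mpr h
  · rw [sum_sub S w h0]
    exact hs

/-- restriction to a star set is injective on the eigenspace -/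
theorem finrank_le {G : SimpleGraph V} {μ : ℝ} {X : Finset V} {inst : Fintype {v | v ∉ X}}
    (hb : E (G.induce {v | v ∉ X}) μ = ⊥) : Module.finrank ℝ (E G μ) ≤ X.card := by
  let R : E G μ →ₗ[ℝ] (X → ℝ) :=
    { toFun := fun x v => (x : V → ℝ) v
      map_add' := fun x y => rfl
      map_smul' := fun c x => rfl }
  have hinj : Function.Injective R := by
    rw [← LinearMap.ker_eq_bot, LinearMap.ker_eq_bot']
    intro x hx
    have h1 := mem_E.mp x.2
    have h2 : (x : V → ℝ) = 0 := by
      refine zero_of (X := X) hb x ?_ (fun i _ => h1 i)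
      intro v hv
      exact congrFun hx ⟨v, hv⟩
    exact Subtype.ext h2
  have := LinearMap.finrank_le_finrank_of_injective hinj
  rw [Module.finrank_fintype_fun_eq_card, Fintype.card_coe] at this
  exact this

/-- for every vertex `u` of a star set there is an eigenvector with value `1` at `u` and `0` at the
other vertices of the star set -/
theorem exists_ker {G : SimpleGraph V} {μ : ℝ} {X : Finset V} (hX : IsStarSet G μ X) (u : V)
    (hu : u ∈ X) : ∃ x : V → ℝ, (∀ i, ∑ j, (if G.Adj i j then x j else 0) = μ * x i) ∧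
      x u = 1 ∧ ∀ v ∈ X, v ≠ u → x v = 0 := by
  obtain ⟨hc, hb⟩ := hX
  let R : E G μ →ₗ[ℝ] (X → ℝ) :=
    { toFun := fun x v => (x : V → ℝ) v
      map_add' := fun x y => rfl
      map_smul' := fun c x => rfl }
  have hinj : Function.Injective R := by
    rw [← LinearMap.ker_eq_bot, LinearMap.ker_eq_bot']
    intro x hx
    have h1 := mem_E.mp x.2
    have h2 : (x : V → ℝ) = 0 := by
      refine zero_of (X := X) hb x ?_ (fun i _ => h1 i)
      intro v hv
      exact congrFun hx ⟨v, hv⟩
    exact Subtype.ext h2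
  have hfin : Module.finrank ℝ (E G μ) = Module.finrank ℝ (X → ℝ) := by
    rw [Module.finrank_fintype_fun_eq_card, Fintype.card_coe]
    exact hc.symm
  have hsur : Function.Surjective R :=
    (LinearMap.injective_iff_surjective_of_finrank_eq_finrank hfin).mp hinj
  obtain ⟨x, hx⟩ := hsur (Pi.single ⟨u, hu⟩ 1)
  refine ⟨x, mem_E.mp x.2, ?_, ?_⟩
  · have := congrFun hx ⟨u, hu⟩
    rw [Pi.single_eq_same] at this
    exact this
  · intro v hv hvu
    have := congrFun hx ⟨v, hv⟩
    rw [Pi.single_eq_of_ne (by intro h; exact hvu (congrArg Subtype.val h))] at this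
    exact this

/-- a main vertex has an eigenvector with nonzero sum -/
theorem main_sum {G : SimpleGraph V} {μ : ℝ} {X : Finset V} (hX : IsStarSet G μ X) (u : V)
    (S : Set V) {inst : Fintype S} (hS : ∀ w, w ∈ S ↔ w ∉ X ∨ w = u)
    (hm : IsMain (G.induce S) μ) (x : V → ℝ)
    (hx : ∀ i, ∑ j, (if G.Adj i j then x j else 0) = μ * x i) (hx1 : x u = 1)
    (hx0 : ∀ v ∈ X, v ≠ u → x v = 0) : ∑ i, x i ≠ 0 := by
  obtain ⟨-, hb⟩ := hX
  obtain ⟨y, hy, hys⟩ := hm
  rw [mem_E] at hy
  let z : V → ℝ := fun i => if h : i ∈ S then y ⟨i, h⟩ else 0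
  have hzS : ∀ i : S, z i = y i := by
    intro i
    simp [z]
  have hz0 : ∀ v, v ∉ S → z v = 0 := by
    intro v hv
    simp [z, hv]
  have hz : ∀ i ∈ S, ∑ j, (if G.Adj i j then z j else 0) = μ * z i := by
    intro i hi
    have h1 := hy ⟨i, hi⟩
    rw [← hzS ⟨i, hi⟩] at h1
    rw [← h1, ← sum_sub S (fun j => if G.Adj i j then z j else 0) (by
      intro v hv
      simp only [hz0 v hv, ite_self])]
    refine Finset.sum_congr rfl fun j _ => ?_
    rw [hzS j]
    rfl
  have hw : (fun i => z i - z u * x i) = 0 := by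
    refine zero_of (X := X) hb _ ?_ ?_
    · intro v hv
      by_cases hvu : v = u
      · subst hvu
        rw [hx1]; ring
      · have h1 : v ∉ S := by
          rw [hS]
          rintro (h | h)
          · exact h hv
          · exact hvu h
        rw [hz0 v h1, hx0 v hv hvu]; ring
    · intro i hi
      have h1 := hz i ((hS i).mpr (Or.inl hi))
      have h2 := hx i
      have h3 : ∑ j, (if G.Adj i j then (z j - z u * x j) else 0)
          = ∑ j, (if G.Adj i j then z j else 0) - z u * ∑ j, (if G.Adj i j then x j else 0) := by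
        rw [Finset.mul_sum, ← Finset.sum_sub_distrib]
        refine Finset.sum_congr rfl fun j _ => ?_
        split_ifs <;> ring
      rw [h3, h1, h2]; ring
  have h1 : ∑ i, z i = z u * ∑ i, x i := by
    rw [Finset.mul_sum]
    refine Finset.sum_congr rfl fun i _ => ?_
    have := congrFun hw i
    simp only [Pi.zero_apply] at this
    linarith
  have h2 : ∑ i, z i = ∑ i, y i := by
    rw [← sum_sub S z hz0]
    exact Finset.sum_congr rfl fun j _ => hzS j
  intro h3
  rw [h3, mul_zero] at h1
  exact hys (by rw [← h2, h1])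

end

end Q104.StarSet
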