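import Pool.Agent.Q104.SSPDef

/-!
# The tadpole graphs are unicyclic of girth `m`
-/

set_option autoImplicit false
set_option linter.unusedVariables false

namespace Pool.Agent.Q104.SSP

open Finset SimpleGraph

/-- A graph is unicyclic if it is connected and contains exactly one cycle (there is a cycle, and
any two cycles have the same edges). -/
def Unicyclic {V : Type} (G : SimpleGraph V) : Prop :=
  G.Connected ∧ (∃ (u : V) (p : G.Walk u u), p.IsCycle) ∧
    ∀ (u v : V) (p : G.Walk u u) (q : G.Walk v v), p.IsCycle → q.IsCycle →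
      ∀ e, e ∈ p.edges ↔ e ∈ q.edges

open Classical in
/-- number of crossings of a cut by a walk -/
noncomputable def crossings {V : Type} {G : SimpleGraph V} (S : V → Prop) :
    ∀ {u v : V}, G.Walk u v → ℕ
  | _, _, .nil => 0
  | _, _, .cons (u := u) (v := v) _ p => (if (S u ↔ S v) then 0 else 1) + crossings S p

lemma crossings_parity {V : Type} {G : SimpleGraph V} (S : V → Prop) {u v : V} (p : G.Walk u v) :
    (S u ↔ S v) ↔ crossings S p % 2 = 0 := by
  induction p with
  | nil => simp [crossings]
  | cons h p ih =>
    rename_i a b c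
    simp only [crossings]
    by_cases h1 : (S a ↔ S b)
    · rw [if_pos h1, zero_add, ← ih]
      tauto
    · rw [if_neg h1]
      have h2 : (S b ↔ S c) ↔ crossings S p % 2 = 0 := ih
      by_cases h3 : (S b ↔ S c)
      · have h4 := h2.1 h3
        constructor
        · intro h; exfalso; tauto
        · intro h; omega
      · have h4 : ¬ crossings S p % 2 = 0 := fun h => h3 (h2.2 h)
        constructor
        · intro h; omega
        · intro h; tauto

open Classical in
/-- if the only edges crossing the cut are `e` and `f` then a trail contains both or none -/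
lemma crossings_le {V : Type} {G : SimpleGraph V} (S : V → Prop) (e f : Sym2 V) (hef : e ≠ f)
    (hcut : ∀ a b, G.Adj a b → (¬ (S a ↔ S b) ↔ (s(a, b) = e ∨ s(a, b) = f)))
    {u v : V} (p : G.Walk u v) (hp : p.edges.Nodup) :
    crossings S p = (if e ∈ p.edges then 1 else 0) + (if f ∈ p.edges then 1 else 0) := by
  induction p with
  | nil => simp [crossings]
  | cons h p ih =>
    rename_i a b c
    rw [Walk.edges_cons, List.nodup_cons] at hp
    simp only [crossings]
    rw [ih hp.2, Walk.edges_cons]
    have hc := hcut a b h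
    by_cases h1 : s(a, b) = e
    · have h2 : ¬ (S a ↔ S b) := hc.2 (Or.inl h1)
      have h3 : e ∉ p.edges := by rw [← h1]; exact hp.1
      have h4 : (f ∈ s(a, b) :: p.edges) ↔ f ∈ p.edges := by
        rw [List.mem_cons, h1]
        constructor
        · rintro (h | h)
          · exact absurd h.symm hef
          · exact h
        · exact Or.inr
      have h5 : e ∈ s(a, b) :: p.edges := by rw [List.mem_cons]; exact Or.inl h1.symm
      rw [if_neg h2, if_neg h3, if_pos h5]
      by_cases h6 : f ∈ p.edges
      · rw [if_pos h6, if_pos (h4.2 h6)]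
      · rw [if_neg h6, if_neg (fun h => h6 (h4.1 h))]
    · by_cases h1' : s(a, b) = f
      · have h2 : ¬ (S a ↔ S b) := hc.2 (Or.inr h1')
        have h3 : f ∉ p.edges := by rw [← h1']; exact hp.1
        have h4 : (e ∈ s(a, b) :: p.edges) ↔ e ∈ p.edges := by
          rw [List.mem_cons]
          constructor
          · rintro (h | h)
            · exact absurd h.symm h1
            · exact h
          · exact Or.inr
        have h5 : f ∈ s(a, b) :: p.edges := by rw [List.mem_cons]; exact Or.inl h1'.symm
        rw [if_neg h2, if_neg h3, if_pos h5]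
        by_cases h6 : e ∈ p.edges
        · rw [if_pos h6, if_pos (h4.2 h6)]
        · rw [if_neg h6, if_neg (fun h => h6 (h4.1 h))]
      · have h2 : (S a ↔ S b) := by
          by_contra hcon
          rcases hc.1 hcon with h | h
          · exact h1 h
          · exact h1' h
        have h4 : ∀ x, x ≠ s(a, b) → ((x ∈ s(a, b) :: p.edges) ↔ x ∈ p.edges) := by
          intro x hx
          rw [List.mem_cons]
          constructor
          · rintro (h | h)
            · exact absurd h hx
            · exact h
          · exact Or.inr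
        rw [if_pos h2, zero_add]
        simp only [h4 e (Ne.symm h1), h4 f (Ne.symm h1')]

open Classical in
/-- if only `e` crosses the cut then a closed trail does not contain `e` -/
lemma crossings_one {V : Type} {G : SimpleGraph V} (S : V → Prop) (e : Sym2 V)
    (hcut : ∀ a b, G.Adj a b → (¬ (S a ↔ S b) ↔ s(a, b) = e))
    {u v : V} (p : G.Walk u v) (hp : p.edges.Nodup) :
    crossings S p = (if e ∈ p.edges then 1 else 0) := by
  induction p with
  | nil => simp [crossings]
  | cons h p ih =>
    rename_i a b c
    rw [Walk.edges_cons, List.nodup_cons] at hp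
    simp only [crossings]
    rw [ih hp.2, Walk.edges_cons]
    have hc := hcut a b h
    by_cases h1 : s(a, b) = e
    · have h2 : ¬ (S a ↔ S b) := hc.2 h1
      have h3 : e ∉ p.edges := by rw [← h1]; exact hp.1
      have h5 : e ∈ s(a, b) :: p.edges := by rw [List.mem_cons]; exact Or.inl h1.symm
      rw [if_neg h2, if_neg h3, if_pos h5]
    · have h2 : (S a ↔ S b) := by
        by_contra hcon
        exact h1 (hc.1 hcon)
      have h4 : (e ∈ s(a, b) :: p.edges) ↔ e ∈ p.edges := by
        rw [List.mem_cons]
        constructor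
        · rintro (h | h)
          · exact absurd h.symm h1
          · exact h
        · exact Or.inr
      rw [if_pos h2, zero_add]
      simp only [h4]

variable {m n : ℕ}

/-- the edges of the cycle of the tadpole -/
def cyc (hm : 3 ≤ m) (i : Fin m) : Sym2 (Fin (n + m)) :=
  if h : i.val + 1 < m then s(⟨n + i.val, by omega⟩, ⟨n + i.val + 1, by omega⟩)
  else s(⟨n, by omega⟩, ⟨n + m - 1, by omega⟩)

lemma cyc_inj (hm : 3 ≤ m) : Function.Injective (cyc (n := n) hm) := by
  intro i j h
  have hi := i.isLt
  have hj := j.isLt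
  unfold cyc at h
  apply Fin.ext
  split_ifs at h <;> simp only [Sym2.eq_iff, Fin.mk.injEq] at h <;> omega

lemma tadpole_connected (hm : 3 ≤ m) : (tadpole m n).Connected := by
  have hpos : 0 < n + m := by omega
  have key : ∀ a : ℕ, ∀ i : Fin (n + m), i.val = a → (tadpole m n).Reachable ⟨0, hpos⟩ i := by
    intro a
    induction a with
    | zero =>
      intro i hi
      rw [show i = ⟨0, hpos⟩ from Fin.ext hi]
    | succ a ih =>
      intro i hi
      have h1 := ih ⟨a, by have := i.isLt; omega⟩ rfl
      refine h1.trans (SimpleGraph.Adj.reachable ?_)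
      refine ⟨fun h => ?_, Or.inl ?_⟩
      · rw [← h] at hi; simp at hi
      · simp only; omega
  have : Nonempty (Fin (n + m)) := ⟨⟨0, hpos⟩⟩
  refine SimpleGraph.Connected.mk ?_
  intro u v
  exact (key u.val u rfl).symm.trans (key v.val v rfl)

/-- bridges are not on cycles -/
lemma bridge_notMem (hm : 3 ≤ m) {u : Fin (n + m)} (p : (tadpole m n).Walk u u) (hp : p.IsCycle)
    (a b : Fin (n + m)) (hab : a.val + 1 = b.val) (ha : a.val < n) : s(a, b) ∉ p.edges := by
  have h1 := crossings_one (G := tadpole m n) (fun x => x.val ≤ a.val) s(a, b) (by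
    intro x y hxy
    have hx := x.isLt
    have hy := y.isLt
    obtain ⟨_, hxy⟩ := hxy
    simp only [Sym2.eq_iff, Fin.ext_iff]
    omega) p hp.edges_nodup
  have h2 := (crossings_parity (fun x : Fin (n + m) => x.val ≤ a.val) p).1 Iff.rfl
  intro h3
  rw [if_pos h3] at h1
  omega

lemma cyc_mem (hm : 3 ≤ m) {u : Fin (n + m)} (p : (tadpole m n).Walk u u) (hp : p.IsCycle)
    (a b c d : Fin (n + m)) (hab : a.val + 1 = b.val) (ha : n ≤ a.val) (hc : c.val = n)
    (hd : d.val + 1 = n + m) : s(a, b) ∈ p.edges ↔ s(c, d) ∈ p.edges := by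
  have hb := b.isLt
  have h1 := crossings_le (G := tadpole m n) (fun x => x.val ≤ a.val) s(a, b) s(c, d)
    (by
      intro h
      simp only [Sym2.eq_iff, Fin.ext_iff] at h
      omega)
    (by
      intro x y hxy
      have hx := x.isLt
      have hy := y.isLt
      obtain ⟨_, hxy⟩ := hxy
      simp only [Sym2.eq_iff, Fin.ext_iff]
      omega) p hp.edges_nodup
  have h2 := (crossings_parity (fun x : Fin (n + m) => x.val ≤ a.val) p).1 Iff.rfl
  rw [h1] at h2
  by_cases h3 : s(a, b) ∈ p.edges
  · by_cases h4 : s(c, d) ∈ p.edges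
    · exact ⟨fun _ => h4, fun _ => h3⟩
    · rw [if_pos h3, if_neg h4] at h2; omega
  · by_cases h4 : s(c, d) ∈ p.edges
    · rw [if_neg h3, if_pos h4] at h2; omega
    · exact ⟨fun h => absurd h h3, fun h => absurd h h4⟩

/-- the edges of every cycle of the tadpole -/
lemma cycle_edges (hm : 3 ≤ m) {u : Fin (n + m)} (p : (tadpole m n).Walk u u) (hp : p.IsCycle)
    (e : Sym2 (Fin (n + m))) : e ∈ p.edges ↔ ∃ i, cyc (n := n) hm i = e := by
  obtain ⟨c, hc⟩ : ∃ c : Fin (n + m), c.val = n := ⟨⟨n, by omega⟩, rfl⟩
  obtain ⟨d, hd⟩ : ∃ d : Fin (n + m), d.val + 1 = n + m :=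
    ⟨⟨n + m - 1, by omega⟩, by simp only; omega⟩
  -- shape of edges of the cycle
  have hshape : ∀ a b : Fin (n + m), s(a, b) ∈ p.edges → (∃ a' b' : Fin (n + m),
      s(a, b) = s(a', b') ∧ a'.val + 1 = b'.val ∧ n ≤ a'.val) ∨ s(a, b) = s(c, d) := by
    intro a b hab
    have hadj := SimpleGraph.Walk.adj_of_mem_edges p hab
    obtain ⟨_, hadj⟩ := hadj
    rcases hadj with h | h | h | h
    · left
      refine ⟨a, b, rfl, h, ?_⟩
      by_contra hcon
      exact bridge_notMem hm p hp a b h (by omega) hab
    · left
      refine ⟨b, a, Sym2.eq_swap, h, ?_⟩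
      by_contra hcon
      rw [Sym2.eq_swap] at hab
      exact bridge_notMem hm p hp b a h (by omega) hab
    · right
      rw [show a = c from Fin.ext (by omega), show b = d from Fin.ext (by omega)]
    · right
      rw [show b = c from Fin.ext (by omega), show a = d from Fin.ext (by omega), Sym2.eq_swap]
  have hcd : s(c, d) ∈ p.edges := by
    have hne : p.edges ≠ [] := by
      intro h
      have := hp.three_le_length
      rw [← SimpleGraph.Walk.length_edges, h] at this
      simp at this
    obtain ⟨e, he⟩ := List.exists_mem_of_ne_nil _ hne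
    induction e using Sym2.ind with
    | _ a b =>
      rcases hshape a b he with ⟨a', b', h1, h2, h3⟩ | h
      · rw [h1] at he
        exact (cyc_mem hm p hp a' b' c d h2 h3 hc hd).1 he
      · rw [← h]; exact he
  constructor
  · intro he
    induction e using Sym2.ind with
    | _ a b =>
      rcases hshape a b he with ⟨a', b', h1, h2, h3⟩ | h
      · have hb' := b'.isLt
        refine ⟨⟨a'.val - n, by omega⟩, ?_⟩
        rw [h1]
        unfold cyc
        rw [dif_pos (by simp only; omega)]
        simp only [Sym2.eq_iff, Fin.ext_iff]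
        omega
      · refine ⟨⟨m - 1, by omega⟩, ?_⟩
        rw [h]
        unfold cyc
        rw [dif_neg (by simp only; omega)]
        simp only [Sym2.eq_iff, Fin.ext_iff]
        omega
  · rintro ⟨i, rfl⟩
    have hi := i.isLt
    unfold cyc
    split_ifs with h
    · exact (cyc_mem hm p hp _ _ c d (by simp only) (by simp only; omega) hc hd).2 hcd
    · have : (s(⟨n, by omega⟩, ⟨n + m - 1, by omega⟩) : Sym2 (Fin (n + m))) = s(c, d) := by
        simp only [Sym2.eq_iff, Fin.ext_iff]
        omega
      rw [this]; exact hcd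

lemma exists_cycle (hm : 3 ≤ m) : ∃ (u : Fin (n + m)) (p : (tadpole m n).Walk u u), p.IsCycle := by
  obtain ⟨c, hc⟩ : ∃ c : Fin (n + m), c.val = n := ⟨⟨n, by omega⟩, rfl⟩
  obtain ⟨d, hd⟩ : ∃ d : Fin (n + m), d.val + 1 = n + m :=
    ⟨⟨n + m - 1, by omega⟩, by simp only; omega⟩
  have hadj : (tadpole m n).Adj c d := by
    refine ⟨fun h => ?_, Or.inr (Or.inr (Or.inl ⟨hc, hd⟩))⟩
    rw [h] at hc; omega
  have hreach : ((tadpole m n).deleteEdges {s(c, d)}).Reachable c d := by
    have key : ∀ a : ℕ, ∀ i : Fin (n + m), i.val = n + a →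
        ((tadpole m n).deleteEdges {s(c, d)}).Reachable c i := by
      intro a
      induction a with
      | zero =>
        intro i hi
        rw [show i = c from Fin.ext (by omega)]
      | succ a ih =>
        intro i hi
        have hil := i.isLt
        have h1 := ih ⟨n + a, by omega⟩ rfl
        refine h1.trans (SimpleGraph.Adj.reachable ?_)
        rw [SimpleGraph.deleteEdges_adj]
        refine ⟨⟨fun h => ?_, Or.inl ?_⟩, ?_⟩
        · rw [← h] at hi; simp at hi
        · simp only; omega
        · intro h
          simp only [Set.mem_singleton_iff, Sym2.eq_iff, Fin.ext_iff] at h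
          omega
    exact key (m - 1) d (by omega)
  obtain ⟨u, p, hp, _⟩ :=
    (SimpleGraph.adj_and_reachable_delete_edges_iff_exists_cycle (G := tadpole m n)).1
      ⟨hadj, hreach⟩
  exact ⟨u, p, hp⟩

theorem tadpole_unicyclic (hm : 3 ≤ m) : Unicyclic (tadpole m n) := by
  refine ⟨tadpole_connected hm, exists_cycle hm, ?_⟩
  intro u v p q hp hq e
  rw [cycle_edges hm p hp, cycle_edges hm q hq]

theorem tadpole_girth (hm : 3 ≤ m) : (tadpole m n).girth = m := by
  classical
  have hna : ¬ (tadpole m n).IsAcyclic := by
    obtain ⟨u, p, hp⟩ := exists_cycle (n := n) hm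
    intro h
    exact h p hp
  obtain ⟨u, p, hp, hlen⟩ := SimpleGraph.exists_girth_eq_length.2 hna
  rw [hlen, ← SimpleGraph.Walk.length_edges, ← List.toFinset_card_of_nodup hp.edges_nodup]
  have : p.edges.toFinset = univ.image (cyc (n := n) hm) := by
    ext e
    rw [List.mem_toFinset, cycle_edges hm p hp]
    simp
  rw [this, Finset.card_image_of_injective _ (cyc_inj hm), Finset.card_univ, Fintype.card_fin]

end Pool.Agent.Q104.SSP
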