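import Pool.Agent.Q104.TadTwist
import Pool.Agent.Q104.Lanczos
import Pool.Agent.Q104.Arrow

/-!
# Tadpoles `T_{m,n}` with `m ≥ 2 n + 4` are not in `𝒢^SSP`
-/

set_option autoImplicit false
set_option linter.unusedVariables false

namespace Pool.Agent.Q104.SSP

open Finset Matrix

section Block

variable {n M : ℕ}

/-- block tadpole matrix -/
def blk (T1 : Fin n → Fin n → ℝ) (s1 : Fin n → ℝ) (a0 : ℝ) (s2 : Fin M → ℝ)
    (T2 : Fin M → Fin M → ℝ) : Matrix (Fin (n + (M + 1))) (Fin (n + (M + 1))) ℝ :=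
  fun x y => Fin.addCases
    (fun x1 => Fin.addCases (fun y1 => T1 x1.rev y1.rev)
      (fun y2 => Fin.cases (s1 x1.rev) (fun _ => 0) y2) y)
    (fun x2 => Fin.cases
      (Fin.addCases (fun y1 => s1 y1.rev) (fun y2 => Fin.cases a0 (fun y3 => s2 y3) y2) y)
      (fun x3 => Fin.addCases (fun _ => 0) (fun y2 => Fin.cases (s2 x3) (fun y3 => T2 x3 y3) y2) y)
      x2) x

/-- block vector -/
def vec (f1 : Fin n → ℝ) (f0 : ℝ) (f3 : Fin M → ℝ) : Fin (n + (M + 1)) → ℝ :=
  fun x => Fin.addCases (fun x1 => f1 x1.rev) (fun x2 => Fin.cases f0 (fun x3 => f3 x3) x2) x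

variable (T1 : Fin n → Fin n → ℝ) (s1 : Fin n → ℝ) (a0 : ℝ) (s2 : Fin M → ℝ)
    (T2 : Fin M → Fin M → ℝ) (f1 : Fin n → ℝ) (f0 : ℝ) (f3 : Fin M → ℝ)

lemma vec_1 (x : Fin n) : vec f1 f0 f3 (Fin.castAdd (M + 1) x) = f1 x.rev := by
  simp [vec]
lemma vec_2 : vec f1 f0 f3 (Fin.natAdd n 0) = f0 := by
  simp [vec]
lemma vec_3 (x : Fin M) : vec f1 f0 f3 (Fin.natAdd n x.succ) = f3 x := by
  simp [vec]

lemma blk_11 (x y : Fin n) : blk T1 s1 a0 s2 T2 (Fin.castAdd (M + 1) x) (Fin.castAdd (M + 1) y)
    = T1 x.rev y.rev := by simp [blk]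
lemma blk_12 (x : Fin n) : blk T1 s1 a0 s2 T2 (Fin.castAdd (M + 1) x) (Fin.natAdd n 0)
    = s1 x.rev := by simp [blk]
lemma blk_13 (x : Fin n) (y : Fin M) :
    blk T1 s1 a0 s2 T2 (Fin.castAdd (M + 1) x) (Fin.natAdd n y.succ) = 0 := by simp [blk]
lemma blk_21 (y : Fin n) : blk T1 s1 a0 s2 T2 (Fin.natAdd n 0) (Fin.castAdd (M + 1) y)
    = s1 y.rev := by simp [blk]
lemma blk_22 : blk T1 s1 a0 s2 T2 (Fin.natAdd n 0) (Fin.natAdd n 0) = a0 := by simp [blk]
lemma blk_23 (y : Fin M) : blk T1 s1 a0 s2 T2 (Fin.natAdd n 0) (Fin.natAdd n y.succ) = s2 y := by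
  simp [blk]
lemma blk_31 (x : Fin M) (y : Fin n) :
    blk T1 s1 a0 s2 T2 (Fin.natAdd n x.succ) (Fin.castAdd (M + 1) y) = 0 := by simp [blk]
lemma blk_32 (x : Fin M) : blk T1 s1 a0 s2 T2 (Fin.natAdd n x.succ) (Fin.natAdd n 0) = s2 x := by
  simp [blk]
lemma blk_33 (x y : Fin M) :
    blk T1 s1 a0 s2 T2 (Fin.natAdd n x.succ) (Fin.natAdd n y.succ) = T2 x y := by
  simp [blk]

lemma sum_split (F : Fin (n + (M + 1)) → ℝ) : ∑ x, F x =
    ∑ x : Fin n, F (Fin.castAdd (M + 1) x) + (F (Fin.natAdd n 0) +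
      ∑ x : Fin M, F (Fin.natAdd n x.succ)) := by
  rw [Fin.sum_univ_add, Fin.sum_univ_succ]

/-- case distinction on vertices -/
lemma vcases {Q : Fin (n + (M + 1)) → Prop} (h1 : ∀ x : Fin n, Q (Fin.castAdd (M + 1) x))
    (h2 : Q (Fin.natAdd n 0)) (h3 : ∀ x : Fin M, Q (Fin.natAdd n x.succ)) : ∀ x, Q x := by
  intro x
  refine Fin.addCases h1 (fun y => ?_) x
  refine Fin.cases h2 h3 y

lemma blk_mul (x : Fin (n + (M + 1))) :
    ∑ y, blk T1 s1 a0 s2 T2 x y * vec f1 f0 f3 y =
      vec (fun i => ∑ j, T1 i j * f1 j + s1 i * f0)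
        (∑ j, s1 j * f1 j + a0 * f0 + ∑ j, s2 j * f3 j)
        (fun i => s2 i * f0 + ∑ j, T2 i j * f3 j) x := by
  revert x
  apply vcases
  · intro x
    rw [sum_split, vec_1]
    simp only [blk_11, blk_12, blk_13, vec_1, vec_2, zero_mul, Finset.sum_const_zero, add_zero]
    congr 1
    exact Equiv.sum_comp Fin.revPerm (fun j => T1 x.rev j * f1 j)
  · rw [sum_split, vec_2]
    simp only [blk_21, blk_22, blk_23, vec_1, vec_2, vec_3]
    rw [← add_assoc]
    congr 2
    exact Equiv.sum_comp Fin.revPerm (fun j => s1 j * f1 j)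
  · intro x
    rw [sum_split, vec_3]
    simp only [blk_31, blk_32, blk_33, vec_1, vec_2, vec_3, zero_mul, Finset.sum_const_zero,
      zero_add]

lemma blk_inS (hM : 2 ≤ M) (hT1s : ∀ i j, T1 i j = T1 j i) (hT2s : ∀ i j, T2 i j = T2 j i)
    (hT1 : ∀ i j : Fin n, i.val + 1 < j.val → T1 i j = 0)
    (hT1' : ∀ i j : Fin n, i.val + 1 = j.val → T1 i j ≠ 0)
    (hT2 : ∀ i j : Fin M, i.val + 1 < j.val → T2 i j = 0)
    (hT2' : ∀ i j : Fin M, i.val + 1 = j.val → T2 i j ≠ 0)
    (hs1 : ∀ i : Fin n, 0 < i.val → s1 i = 0) (hs1' : ∀ i : Fin n, i.val = 0 → s1 i ≠ 0)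
    (hs2 : ∀ i : Fin M, 0 < i.val → i.val + 1 < M → s2 i = 0)
    (hs2' : ∀ i : Fin M, (i.val = 0 ∨ i.val + 1 = M) → s2 i ≠ 0) :
    InS (tadpole (M + 1) n) (blk T1 s1 a0 s2 T2) := by
  have hsymm : ∀ x y, blk T1 s1 a0 s2 T2 x y = blk T1 s1 a0 s2 T2 y x := by
    refine vcases ?_ ?_ ?_
    · intro x
      refine vcases ?_ ?_ ?_
      · intro y; rw [blk_11, blk_11, hT1s]
      · rw [blk_12, blk_21]
      · intro y; rw [blk_13, blk_31]
    · refine vcases ?_ ?_ ?_
      · intro y; rw [blk_12, blk_21]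
      · rfl
      · intro y; rw [blk_23, blk_32]
    · intro x
      refine vcases ?_ ?_ ?_
      · intro y; rw [blk_13, blk_31]
      · rw [blk_23, blk_32]
      · intro y; rw [blk_33, blk_33, hT2s]
  refine ⟨hsymm, ?_⟩
  have tri : ∀ {r : ℕ} (T : Fin r → Fin r → ℝ) (hTs : ∀ i j, T i j = T j i)
      (h1 : ∀ i j : Fin r, i.val + 1 < j.val → T i j = 0)
      (h2 : ∀ i j : Fin r, i.val + 1 = j.val → T i j ≠ 0) (i j : Fin r), i.val ≠ j.val →
      (T i j ≠ 0 ↔ (i.val + 1 = j.val ∨ j.val + 1 = i.val)) := by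
    intro r T hTs h1 h2 i j hij
    constructor
    · intro h
      by_contra hc
      rcases lt_or_gt_of_ne hij with h3 | h3
      · exact h (h1 i j (by omega))
      · exact h (by rw [hTs]; exact h1 j i (by omega))
    · rintro (h | h)
      · exact h2 i j h
      · rw [hTs]; exact h2 j i h
  have key : ∀ x y : Fin (n + (M + 1)), x.val < y.val →
      (blk T1 s1 a0 s2 T2 x y ≠ 0 ↔ Rel (M + 1) n x.val y.val) := by
    refine vcases ?_ ?_ ?_
    · intro x
      refine vcases ?_ ?_ ?_
      · intro y hxy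
        simp only [Fin.val_castAdd] at hxy
        have hx := x.isLt
        have hy := y.isLt
        rw [blk_11, tri T1 hT1s hT1 hT1' _ _ (by simp only [Fin.val_rev]; omega)]
        simp only [Fin.val_rev, Rel, Fin.val_castAdd]
        omega
      · intro hxy
        have hx := x.isLt
        simp only [Rel, Fin.val_castAdd, Fin.val_natAdd, Fin.val_zero, add_zero] at hxy ⊢
        rw [blk_12]
        constructor
        · intro h
          by_contra hc
          exact h (hs1 _ (by simp only [Fin.val_rev]; omega))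
        · intro h
          exact hs1' _ (by simp only [Fin.val_rev]; omega)
      · intro y hxy
        have hx := x.isLt
        have hy := y.isLt
        simp only [Rel, Fin.val_castAdd, Fin.val_natAdd, Fin.val_succ] at hxy ⊢
        rw [blk_13]
        constructor
        · intro h; exact absurd rfl h
        · intro h; omega
    · refine vcases ?_ ?_ ?_
      · intro y hxy
        have hy := y.isLt
        simp only [Fin.val_castAdd, Fin.val_natAdd, Fin.val_zero, add_zero] at hxy
        omega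
      · intro hxy; omega
      · intro y hxy
        have hy := y.isLt
        simp only [Rel, Fin.val_natAdd, Fin.val_zero, add_zero, Fin.val_succ, true_and] at hxy ⊢
        rw [blk_23]
        constructor
        · intro h
          by_contra hc
          exact h (hs2 y (by omega) (by omega))
        · intro h
          exact hs2' y (by omega)
    · intro x
      refine vcases ?_ ?_ ?_
      · intro y hxy
        have hx := x.isLt
        have hy := y.isLt
        simp only [Fin.val_castAdd, Fin.val_natAdd, Fin.val_succ] at hxy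
        omega
      · intro hxy
        simp only [Fin.val_natAdd, Fin.val_succ, Fin.val_zero] at hxy
        omega
      · intro y hxy
        have hx := x.isLt
        have hy := y.isLt
        simp only [Fin.val_natAdd, Fin.val_succ] at hxy
        rw [blk_33, tri T2 hT2s hT2 hT2' _ _ (by omega)]
        simp only [Rel, Fin.val_natAdd, Fin.val_succ]
        omega
  intro x y hxy
  have hxy' : x.val ≠ y.val := fun h => hxy (Fin.ext h)
  have hadj : (tadpole (M + 1) n).Adj x y ↔ Rel (M + 1) n x.val y.val :=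
    ⟨fun h => h.2, fun h => ⟨hxy, h⟩⟩
  rw [hadj]
  rcases lt_or_gt_of_ne hxy' with h | h
  · exact key x y h
  · rw [hsymm x y, key y x h]
    unfold Rel
    omega

end Block

section Build

/-- quadratic splitting -/
lemma split_quad {w S D : ℝ} (hD : D ≠ 0) (hS : S ≠ 0) (h : 4 * (S / D) ≤ w ^ 2) :
    ∃ v v' : ℝ, v ≠ 0 ∧ v + v' = w ∧ v * v' = S / D := by
  have hd : 0 ≤ w ^ 2 - 4 * (S / D) := by linarith
  set e := Real.sqrt (w ^ 2 - 4 * (S / D)) with he
  have he2 : e * e = w ^ 2 - 4 * (S / D) := Real.mul_self_sqrt hd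
  have hprod : (w + e) / 2 * ((w - e) / 2) = S / D := by
    linear_combination (-1 / 4 : ℝ) * he2
  refine ⟨(w + e) / 2, (w - e) / 2, ?_, by ring, hprod⟩
  intro h0
  rw [h0, zero_mul] at hprod
  exact (div_ne_zero hS hD) hprod.symm

/-- **The rows of an orthogonal tridiagonalisation with prescribed corner vector.** -/
lemma corner {M : ℕ} (hM : 2 ≤ M) {δ w : Fin M → ℝ} (hδ : Function.Injective δ) {S : ℝ}
    (hS : S ≠ 0) (h : ∀ k, 4 * (S / ∏ j ∈ univ.erase k, (δ k - δ j)) ≤ w k ^ 2) :
    ∃ U : Fin M → Fin M → ℝ, (∀ k l, ∑ i, U i k * U i l = if k = l then 1 else 0) ∧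
      (∀ i j, ∑ k, U i k * U j k = if i = j then 1 else 0) ∧
      (∀ i j : Fin M, i.val + 1 < j.val → ∑ k, U i k * (δ k * U j k) = 0) ∧
      (∀ i j : Fin M, i.val + 1 = j.val → ∑ k, U i k * (δ k * U j k) ≠ 0) ∧
      (∀ i : Fin M, 0 < i.val → i.val + 1 < M → ∑ k, U i k * w k = 0) ∧
      (∀ i : Fin M, (i.val = 0 ∨ i.val + 1 = M) → ∑ k, U i k * w k ≠ 0) := by
  set Dl : Fin M → ℝ := fun k => ∏ j ∈ univ.erase k, (δ k - δ j) with hDl
  have hDne : ∀ k, Dl k ≠ 0 := by
    intro k
    rw [hDl]
    simp only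
    rw [Finset.prod_ne_zero_iff]
    intro j hj
    rw [sub_ne_zero]
    intro h
    exact (Finset.mem_erase.1 hj).1 (hδ h).symm
  choose v v' hv hvw hvv using fun k => split_quad (w := w k) (hDne k) hS (h k)
  obtain ⟨U, hU1, hU2, hU3, hU4, hU5, hU6⟩ := Lanczos.lanczos hδ hv
  obtain ⟨last, hlast⟩ : ∃ i : Fin M, i.val + 1 = M := ⟨⟨M - 1, by omega⟩, by simp only; omega⟩
  obtain ⟨z, hz⟩ : ∃ i : Fin M, i.val = 0 := ⟨⟨0, by omega⟩, rfl⟩
  obtain ⟨c, hc0, hc⟩ := hU6 last hlast
  have hv' : ∀ k, v' k = S / c * U last k := by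
    intro k
    have h1 : U last k * v k * Dl k = c := hc k
    have h2 := hvv k
    have h3 : v k * v' k * Dl k = S := by
      rw [h2]; field_simp [hDne k]
    rw [div_mul_eq_mul_div, eq_div_iff hc0]
    have h4 : v k * Dl k ≠ 0 := mul_ne_zero (hv k) (hDne k)
    apply mul_left_cancel₀ h4
    linear_combination c * h3 - S * h1
  have hs : ∀ i, ∑ k, U i k * w k = ∑ k, U i k * v k + S / c * (if i = last then 1 else 0) := by
    intro i
    rw [← hU1 i last, Finset.mul_sum, ← Finset.sum_add_distrib]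
    apply Finset.sum_congr rfl
    intro k _
    rw [← hvw k, hv' k]; ring
  have hv0 : ∑ k, U z k * v k ≠ 0 := by
    intro h0
    have hall : ∀ i, ∑ k, U i k * v k = 0 := by
      intro i
      by_cases hi : i.val = 0
      · rw [show i = z from Fin.ext (by omega)]; exact h0
      · exact hU3 i (by omega)
    apply hv z
    calc v z = ∑ k, v k * (if k = z then 1 else 0) := by
          simp
      _ = ∑ k, v k * ∑ i, U i k * U i z := by
          apply Finset.sum_congr rfl
          intro k _
          rw [hU2 k z]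
      _ = ∑ i, U i z * ∑ k, U i k * v k := by
          simp only [Finset.mul_sum]
          rw [Finset.sum_comm]
          apply Finset.sum_congr rfl
          intro i _
          apply Finset.sum_congr rfl
          intro k _
          ring
      _ = 0 := by
          apply Finset.sum_eq_zero
          intro i _
          rw [hall i, mul_zero]
  refine ⟨U, hU2, hU1, hU4, hU5, ?_, ?_⟩
  · intro i h1 h2
    rw [hs i, hU3 i h1, if_neg]
    · ring
    · intro h; rw [h] at h2; omega
  · intro i h1
    rcases h1 with h1 | h1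
    · rw [hs i, if_neg, show i = z from Fin.ext (by omega)]
      · simpa using hv0
      · intro h; rw [h] at h1; omega
    · rw [hs i, hU3 i (by omega), if_pos (Fin.ext (by omega))]
      rw [zero_add, mul_one]
      exact div_ne_zero hS hc0

lemma first_ne {r : ℕ} {U : Fin r → Fin r → ℝ} {v : Fin r → ℝ}
    (hU : ∀ k l, ∑ i, U i k * U i l = if k = l then 1 else 0)
    (h0 : ∀ i : Fin r, 0 < i.val → ∑ k, U i k * v k = 0) (hv : ∀ k, v k ≠ 0) (z : Fin r)
    (hz : z.val = 0) : ∑ k, U z k * v k ≠ 0 := by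
  intro h
  have hall : ∀ i, ∑ k, U i k * v k = 0 := by
    intro i
    by_cases hi : i.val = 0
    · rw [show i = z from Fin.ext (by omega)]; exact h
    · exact h0 i (by omega)
  apply hv z
  calc v z = ∑ k, v k * (if k = z then 1 else 0) := by
        simp
    _ = ∑ k, v k * ∑ i, U i k * U i z := by
        apply Finset.sum_congr rfl
        intro k _
        rw [hU k z]
    _ = ∑ i, U i z * ∑ k, U i k * v k := by
        simp only [Finset.mul_sum]
        rw [Finset.sum_comm]
        apply Finset.sum_congr rfl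
        intro i _
        apply Finset.sum_congr rfl
        intro k _
        ring
    _ = 0 := by
        apply Finset.sum_eq_zero
        intro i _
        rw [hall i, mul_zero]

lemma s_mul {r : ℕ} {U : Fin r → Fin r → ℝ}
    (hU : ∀ k l, ∑ i, U i k * U i l = if k = l then 1 else 0) (a b : Fin r → ℝ) :
    ∑ j, (∑ k, U j k * a k) * (∑ l, U j l * b l) = ∑ k, a k * b k := by
  calc ∑ j, (∑ k, U j k * a k) * (∑ l, U j l * b l)
      = ∑ j, ∑ k, ∑ l, a k * b l * (U j k * U j l) := by
        apply Finset.sum_congr rfl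
        intro j _
        rw [Finset.sum_mul_sum]
        apply Finset.sum_congr rfl
        intro k _
        apply Finset.sum_congr rfl
        intro l _
        ring
    _ = ∑ k, ∑ l, ∑ j, a k * b l * (U j k * U j l) := by
        rw [Finset.sum_comm]
        apply Finset.sum_congr rfl
        intro k _
        rw [Finset.sum_comm]
    _ = ∑ k, ∑ l, a k * b l * (if k = l then 1 else 0) := by
        apply Finset.sum_congr rfl
        intro k _
        apply Finset.sum_congr rfl
        intro l _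
        rw [← Finset.mul_sum, hU k l]
    _ = ∑ k, a k * b k := by
        apply Finset.sum_congr rfl
        intro k _
        simp

lemma T_mul {r : ℕ} {U : Fin r → Fin r → ℝ}
    (hU : ∀ k l, ∑ i, U i k * U i l = if k = l then 1 else 0) (μ b : Fin r → ℝ) (i : Fin r) :
    ∑ j, (∑ k, U i k * (μ k * U j k)) * (∑ l, U j l * b l) = ∑ k, U i k * (μ k * b k) := by
  have h := s_mul hU (fun k => U i k * μ k) b
  calc ∑ j, (∑ k, U i k * (μ k * U j k)) * (∑ l, U j l * b l)
      = ∑ j, (∑ k, U j k * (U i k * μ k)) * (∑ l, U j l * b l) := by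
        apply Finset.sum_congr rfl
        intro j _
        congr 1
        apply Finset.sum_congr rfl
        intro k _
        ring
    _ = ∑ k, U i k * μ k * b k := h
    _ = _ := by
        apply Finset.sum_congr rfl
        intro k _
        ring

/-- eigenvectors of the block matrix -/
lemma eig_of {n M : ℕ} {U1 : Fin n → Fin n → ℝ} {U2 : Fin M → Fin M → ℝ}
    (hU1 : ∀ k l, ∑ i, U1 i k * U1 i l = if k = l then 1 else 0)
    (hU2 : ∀ k l, ∑ i, U2 i k * U2 i l = if k = l then 1 else 0)
    (μ z : Fin n → ℝ) (a0 : ℝ) (δ w : Fin M → ℝ) (ζ : Fin n → ℝ) (f0 : ℝ) (y : Fin M → ℝ) (l : ℝ)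
    (e1 : ∀ k, μ k * ζ k + z k * f0 = l * ζ k)
    (e2 : ∑ k, z k * ζ k + a0 * f0 + ∑ k, w k * y k = l * f0)
    (e3 : ∀ k, w k * f0 + δ k * y k = l * y k) (x : Fin (n + (M + 1))) :
    ∑ v, blk (fun i j => ∑ k, U1 i k * (μ k * U1 j k)) (fun i => ∑ k, U1 i k * z k) a0
      (fun i => ∑ k, U2 i k * w k) (fun i j => ∑ k, U2 i k * (δ k * U2 j k)) x v *
      vec (fun i => ∑ k, U1 i k * ζ k) f0 (fun i => ∑ k, U2 i k * y k) v =
    l * vec (fun i => ∑ k, U1 i k * ζ k) f0 (fun i => ∑ k, U2 i k * y k) x := by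
  rw [blk_mul]
  revert x
  apply vcases
  · intro x
    rw [vec_1, vec_1]
    rw [T_mul hU1, Finset.sum_mul, Finset.mul_sum, ← Finset.sum_add_distrib]
    apply Finset.sum_congr rfl
    intro k _
    linear_combination U1 x.rev k * e1 k
  · rw [vec_2, vec_2, s_mul hU1, s_mul hU2]
    exact e2
  · intro x
    rw [vec_3, vec_3]
    rw [T_mul hU2, Finset.sum_mul, Finset.mul_sum, ← Finset.sum_add_distrib]
    apply Finset.sum_congr rfl
    intro k _
    linear_combination U2 x k * e3 k

lemma delta_sign (K n : ℕ) (hK : n + 1 ≤ K) (t : Fin (n + 2)) :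
    0 < (-1 : ℝ) ^ (K + n + 1) * ∏ j ∈ univ.erase (Fin.natAdd K t),
      (2 * (t.val : ℝ) - (Fin.addCases (fun j : Fin K => 2 * (j.val : ℝ) + 1)
        (fun s : Fin (n + 2) => 2 * (s.val : ℝ)) j : ℝ)) := by
  classical
  have ht := t.isLt
  set δ : Fin (K + (n + 2)) → ℝ := fun j => Fin.addCases (fun j : Fin K => 2 * (j.val : ℝ) + 1)
        (fun s : Fin (n + 2) => 2 * (s.val : ℝ)) j with hδ
  have h1 : ∏ j ∈ univ.erase (Fin.natAdd K t), (2 * (t.val : ℝ) - δ j) =
      ∏ j, (if j = Fin.natAdd K t then 1 else (2 * (t.val : ℝ) - δ j)) := by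
    rw [← Finset.mul_prod_erase univ _ (Finset.mem_univ (Fin.natAdd K t)), if_pos rfl, one_mul]
    apply Finset.prod_congr rfl
    intro j hj
    rw [if_neg (Finset.mem_erase.1 hj).1]
  have h2 : ∏ j, (if j = Fin.natAdd K t then 1 else (2 * (t.val : ℝ) - δ j)) =
      (∏ j ∈ range K, (2 * (t.val : ℝ) - (2 * (j : ℝ) + 1))) *
      ∏ s ∈ range (n + 2), (if s = t.val then 1 else (2 * (t.val : ℝ) - 2 * (s : ℝ))) := by
    rw [Fin.prod_univ_add, Finset.prod_range, Finset.prod_range]
    congr 1
    · apply Finset.prod_congr rfl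
      intro j _
      rw [if_neg, hδ]
      · simp
      · intro h
        have := congrArg Fin.val h
        simp at this
        have := j.isLt
        omega
    · apply Finset.prod_congr rfl
      intro s _
      by_cases hs : s.val = t.val
      · rw [if_pos hs, if_pos]
        rw [show s = t from Fin.ext hs]
      · rw [if_neg hs, if_neg, hδ]
        · simp
        · intro h
          have := congrArg Fin.val h
          simp at this
          omega
  have h3 := Arrow.signprod K t.val (fun j => 2 * (t.val : ℝ) - (2 * (j : ℝ) + 1)) (by omega)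
    (by
      intro i _ hi
      have : (i : ℝ) + 1 ≤ t.val := by exact_mod_cast hi
      linarith) (by
      intro i _ hi
      have : (t.val : ℝ) ≤ i := by exact_mod_cast hi
      linarith)
  have h4 := Arrow.signprod (n + 2) (t.val + 1)
    (fun s => if s = t.val then (1 : ℝ) else (2 * (t.val : ℝ) - 2 * (s : ℝ))) (by omega)
    (by
      intro i _ hi
      by_cases h : i = t.val
      · rw [if_pos h]; exact one_pos
      · rw [if_neg h]
        have : (i : ℝ) + 1 ≤ t.val := by exact_mod_cast (by omega : i + 1 ≤ t.val)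
        linarith) (by
      intro i _ hi
      rw [if_neg (by omega)]
      have : (t.val : ℝ) + 1 ≤ i := by exact_mod_cast hi
      linarith)
  rw [h1, h2]
  have h5 := mul_pos h3 h4
  have h6 : (-1 : ℝ) ^ (K + n + 1) = (-1 : ℝ) ^ (K - t.val) * (-1 : ℝ) ^ (n + 2 - (t.val + 1)) := by
    have : K + n + 1 = (K - t.val) + (n + 2 - (t.val + 1)) + 2 * t.val := by omega
    rw [this, pow_add, pow_add, pow_mul]
    norm_num
  rw [h6]
  calc (0 : ℝ) < _ := h5
    _ = _ := by ring

/-- **The construction.** -/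
theorem neg_aux (n K : ℕ) (hn : 1 ≤ n) (hK : n + 1 ≤ K) :
    ¬ GSSP (tadpole (K + (n + 2) + 1) n) := by
  classical
  obtain ⟨a, c, hcpos, harrow⟩ := Arrow.arrow (K + n)
  set δ : Fin (K + (n + 2)) → ℝ := fun j => Fin.addCases (fun j : Fin K => 2 * (j.val : ℝ) + 1)
        (fun s : Fin (n + 2) => 2 * (s.val : ℝ)) j with hδ
  set w : Fin (K + (n + 2)) → ℝ := fun j => Fin.addCases (fun j : Fin K => Real.sqrt (c j.val))
        (fun s : Fin (n + 2) => 0) j with hw
  have hδ1 : ∀ j : Fin K, δ (Fin.castAdd (n + 2) j) = 2 * (j.val : ℝ) + 1 := by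
    intro j; simp [hδ]
  have hδ2 : ∀ s : Fin (n + 2), δ (Fin.natAdd K s) = 2 * (s.val : ℝ) := by
    intro j; simp [hδ]
  have hw1 : ∀ j : Fin K, w (Fin.castAdd (n + 2) j) = Real.sqrt (c j.val) := by
    intro j; simp [hw]
  have hw2 : ∀ s : Fin (n + 2), w (Fin.natAdd K s) = 0 := by
    intro j; simp [hw]
  have hδinj : Function.Injective δ := by
    intro i j
    refine Fin.addCases (fun i => ?_) (fun i => ?_) i
    · refine Fin.addCases (fun j => ?_) (fun j => ?_) j
      · intro h
        rw [hδ1, hδ1] at h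
        have : (i.val : ℝ) = j.val := by linarith
        have h2 : i.val = j.val := by exact_mod_cast this
        rw [Fin.ext h2]
      · intro h
        rw [hδ1, hδ2] at h
        have : 2 * i.val + 1 = 2 * j.val := by exact_mod_cast h
        omega
    · refine Fin.addCases (fun j => ?_) (fun j => ?_) j
      · intro h
        rw [hδ1, hδ2] at h
        have : 2 * i.val = 2 * j.val + 1 := by exact_mod_cast h
        omega
      · intro h
        rw [hδ2, hδ2] at h
        have : (i.val : ℝ) = j.val := by linarith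
        have h2 : i.val = j.val := by exact_mod_cast this
        rw [Fin.ext h2]
  set Dl : Fin (K + (n + 2)) → ℝ := fun k => ∏ j ∈ univ.erase k, (δ k - δ j) with hDl
  have hDne : ∀ k, Dl k ≠ 0 := by
    intro k
    rw [hDl]
    simp only
    rw [Finset.prod_ne_zero_iff]
    intro j hj
    rw [sub_ne_zero]
    intro h
    exact (Finset.mem_erase.1 hj).1 (hδinj h).symm
  set ε : ℝ := (-1 : ℝ) ^ (K + n + 1) with hε
  have hε2 : ε * ε = 1 := by
    rw [hε, ← mul_pow]; norm_num
  have hsign : ∀ t : Fin (n + 2), 0 < ε * Dl (Fin.natAdd K t) := by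
    intro t
    have h := delta_sign K n hK t
    rw [hDl]
    simp only [hδ2]
    exact h
  -- smallness
  obtain ⟨σ, hσ0, hσ⟩ : ∃ σ : ℝ, 0 < σ ∧ ∀ j : Fin K,
      4 * σ ≤ c j.val * |Dl (Fin.castAdd (n + 2) j)| := by
    obtain ⟨j0, _, hj0⟩ := Finset.exists_min_image (univ : Finset (Fin K))
      (fun j => c j.val * |Dl (Fin.castAdd (n + 2) j)|) ⟨⟨0, by omega⟩, Finset.mem_univ _⟩
    refine ⟨c j0.val * |Dl (Fin.castAdd (n + 2) j0)| / 4, ?_, ?_⟩
    · have h1 := hcpos j0.val (by have := j0.isLt; omega)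
      have h2 : 0 < |Dl (Fin.castAdd (n + 2) j0)| := abs_pos.2 (hDne _)
      positivity
    · intro j
      have := hj0 j (Finset.mem_univ _)
      linarith
  set S : ℝ := - (σ * ε) with hS
  have hε0 : ε ≠ 0 := by
    intro h
    rw [h, mul_zero] at hε2
    exact zero_ne_one hε2
  have hS0 : S ≠ 0 := by
    rw [hS]
    exact neg_ne_zero.2 (mul_ne_zero hσ0.ne' hε0)
  have habsε : |ε| = 1 := by
    rw [hε, abs_pow, abs_neg, abs_one, one_pow]
  have hcond : ∀ k, 4 * (S / Dl k) ≤ w k ^ 2 := by
    intro k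
    refine Fin.addCases (fun j => ?_) (fun t => ?_) k
    · rw [hw1, Real.sq_sqrt (hcpos j.val (by have := j.isLt; omega)).le]
      have h1 : 4 * (S / Dl (Fin.castAdd (n + 2) j)) ≤
          4 * (σ / |Dl (Fin.castAdd (n + 2) j)|) := by
        have h2 : S / Dl (Fin.castAdd (n + 2) j) ≤ |S / Dl (Fin.castAdd (n + 2) j)| := le_abs_self _
        rw [abs_div, hS, abs_neg, abs_mul, habsε, mul_one, abs_of_pos hσ0] at h2
        rw [hS]
        linarith
      refine h1.trans ?_
      have h3 : 0 < |Dl (Fin.castAdd (n + 2) j)| := abs_pos.2 (hDne _)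
      rw [← mul_div_assoc, div_le_iff₀ h3]
      exact hσ j
    · rw [hw2]
      have h1 := hsign t
      have h2 : S / Dl (Fin.natAdd K t) = - (σ / (ε * Dl (Fin.natAdd K t))) := by
        rw [hS, neg_div, neg_inj, div_eq_div_iff (hDne _) h1.ne']
        linear_combination (σ * Dl (Fin.natAdd K t)) * hε2
      rw [h2]
      have h3 : 0 < σ / (ε * Dl (Fin.natAdd K t)) := div_pos hσ0 h1
      have h4 : (0 : ℝ) ^ 2 = 0 := by norm_num
      rw [h4]
      linarith
  obtain ⟨U2, hU2a, hU2b, hU2c, hU2d, hU2e, hU2f⟩ :=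
    corner (M := K + (n + 2)) (by omega) hδinj hS0 hcond
  -- the path part
  set μ : Fin n → ℝ := fun i => 2 * ((K : ℝ) + (i.val : ℝ)) + 1 with hμ
  set z : Fin n → ℝ := fun i => Real.sqrt (c (K + i.val)) with hz
  have hμinj : Function.Injective μ := by
    intro i j h
    simp only [hμ] at h
    have : (i.val : ℝ) = j.val := by linarith
    have h2 : i.val = j.val := by exact_mod_cast this
    exact Fin.ext h2
  have hz0 : ∀ k, z k ≠ 0 := by
    intro k
    have := k.isLt
    exact (Real.sqrt_pos.2 (hcpos (K + k.val) (by omega))).ne'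
  obtain ⟨U1, hU1b, hU1a, hU1c, hU1d, hU1e, _⟩ := Lanczos.lanczos hμinj hz0
  set B := blk (fun i j => ∑ k, U1 i k * (μ k * U1 j k)) (fun i => ∑ k, U1 i k * z k) a
      (fun i => ∑ k, U2 i k * w k) (fun i j => ∑ k, U2 i k * (δ k * U2 j k)) with hB
  have hBin : InS (tadpole (K + (n + 2) + 1) n) B := by
    rw [hB]
    apply blk_inS _ _ _ _ _ (by omega)
    · intro i j
      apply Finset.sum_congr rfl
      intro k _
      ring
    · intro i j
      apply Finset.sum_congr rfl
      intro k _
      ring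
    · exact hU1d
    · exact hU1e
    · exact hU2c
    · exact hU2d
    · exact hU1c
    · intro i hi
      exact first_ne hU1a hU1c hz0 i hi
    · exact hU2e
    · exact hU2f
  set lam : Fin (n + 2) → ℝ := fun t => 2 * (t.val : ℝ) with hlam
  have hlaminj : Function.Injective lam := by
    intro i j h
    simp only [hlam] at h
    have : (i.val : ℝ) = j.val := by linarith
    have h2 : i.val = j.val := by exact_mod_cast this
    exact Fin.ext h2
  set yφ : Fin (n + 2) → Fin (K + (n + 2)) → ℝ := fun t l => if l = Fin.natAdd K t then 1 else 0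
    with hyφ
  set yψ : Fin (n + 2) → Fin (K + (n + 2)) → ℝ := fun t l =>
    w l / (2 * (t.val : ℝ) - δ l) with hyψ
  set ζψ : Fin (n + 2) → Fin n → ℝ := fun t l => z l / (2 * (t.val : ℝ) - μ l) with hζψ
  refine fail_of_doubles (by omega) hBin hlaminj
    (φ := fun t => vec (fun i => ∑ k, U1 i k * 0) 0 (fun i => ∑ k, U2 i k * yφ t k))
    (ψ := fun t => vec (fun i => ∑ k, U1 i k * ζψ t k) 1 (fun i => ∑ k, U2 i k * yψ t k))
    ?_ ?_ ?_ ?_ ?_
  · intro t x
    apply eig_of hU1a hU2a
    · intro k; ring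
    · have : ∑ k, w k * yφ t k = w (Fin.natAdd K t) := by
        simp [hyφ]
      rw [this, hw2]
      simp
    · intro k
      by_cases hk : k = Fin.natAdd K t
      · simp only [hyφ, hk, if_true, hδ2, hlam]
        ring
      · simp only [hyφ, if_neg hk]
        ring
  · intro t x
    have ht := t.isLt
    have hne1 : ∀ k : Fin n, 2 * (t.val : ℝ) - μ k ≠ 0 := by
      intro k h
      simp only [hμ] at h
      have h1 : (2 * (t.val : ℤ)) = 2 * ((K : ℤ) + k.val) + 1 := by
        have : 2 * (t.val : ℝ) = 2 * ((K : ℝ) + (k.val : ℝ)) + 1 := by linarith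
        exact_mod_cast this
      omega
    have hne2 : ∀ k : Fin K, 2 * (t.val : ℝ) - (2 * (k.val : ℝ) + 1) ≠ 0 := by
      intro k h
      have h1 : (2 * (t.val : ℤ)) = 2 * (k.val : ℤ) + 1 := by
        have : 2 * (t.val : ℝ) = 2 * (k.val : ℝ) + 1 := by linarith
        exact_mod_cast this
      omega
    apply eig_of hU1a hU2a
    · intro k
      have := hne1 k
      simp only [hζψ, hlam]
      field_simp
      ring
    · have h1 : ∑ k, z k * ζψ t k = ∑ i ∈ range n,
          c (K + i) / (2 * (t.val : ℝ) - (2 * ((K + i : ℕ) : ℝ) + 1)) := by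
        rw [Finset.sum_range]
        apply Finset.sum_congr rfl
        intro k _
        have hk := k.isLt
        have h2 : Real.sqrt (c (K + k.val)) * Real.sqrt (c (K + k.val)) = c (K + k.val) :=
          Real.mul_self_sqrt (hcpos (K + k.val) (by omega)).le
        simp only [hζψ, hz, hμ]
        rw [← mul_div_assoc, h2]
        push_cast
        ring
      have h3 : ∑ k, w k * yψ t k = ∑ j ∈ range K,
          c j / (2 * (t.val : ℝ) - (2 * (j : ℝ) + 1)) := by
        rw [Fin.sum_univ_add, Finset.sum_range]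
        have : ∑ i : Fin (n + 2), w (Fin.natAdd K i) * yψ t (Fin.natAdd K i) = 0 := by
          apply Finset.sum_eq_zero
          intro i _
          rw [hw2, zero_mul]
        rw [this, add_zero]
        apply Finset.sum_congr rfl
        intro k _
        have hk := k.isLt
        have h2 : Real.sqrt (c k.val) * Real.sqrt (c k.val) = c k.val :=
          Real.mul_self_sqrt (hcpos k.val (by omega)).le
        simp only [hyψ, hw1, hδ1]
        rw [← mul_div_assoc, h2]
      have h4 := harrow t.val (by omega)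
      rw [Finset.sum_range_add] at h4
      rw [h1, h3]
      simp only [hlam]
      linarith
    · intro k
      refine Fin.addCases (fun j => ?_) (fun s => ?_) k
      · have := hne2 j
        simp only [hyψ, hlam, hδ1]
        field_simp
        ring
      · simp only [hyψ, hw2, zero_div]
        ring
  · intro t i hi
    revert i
    apply vcases
    · intro i _
      rw [vec_1]
      simp
    · intro _
      rw [vec_2]
    · intro i hi
      simp only [Fin.val_natAdd, Fin.val_succ] at hi
      omega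
  · intro t h0
    have h1 : ∀ i, ∑ k, U2 i k * yφ t k = 0 := by
      intro i
      have := congrFun h0 (Fin.natAdd n i.succ)
      rw [vec_3] at this
      exact this
    have h2 := s_mul hU2a (yφ t) (yφ t)
    simp only [h1] at h2
    simp [hyφ] at h2
  · intro t i
    revert i
    apply vcases
    · intro i hi
      simp only [Fin.val_castAdd] at hi
      have := i.isLt
      omega
    · intro _
      rw [vec_2]
      exact one_ne_zero
    · intro i hi
      simp only [Fin.val_natAdd, Fin.val_succ] at hi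
      omega

/-- **The tadpoles `T_{m,n}` with `m ≥ 2 n + 4` and `n ≥ 1` are not in `𝒢^SSP`.** -/
theorem tadpole_not_GSSP (m n : ℕ) (hn : 1 ≤ n) (hm : 2 * n + 4 ≤ m) : ¬ GSSP (tadpole m n) := by
  obtain ⟨K, hK⟩ : ∃ K, m = K + (n + 2) + 1 := ⟨m - (n + 2) - 1, by omega⟩
  subst hK
  exact neg_aux n K hn (by omega)

end Build

end Pool.Agent.Q104.SSP
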