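import Pool.Agent.Q104.SSPDef

/-!
# Tadpoles `T_{m,n}` with `3 ≤ m ≤ 2 n + 3` are in `𝒢^SSP`
-/

set_option autoImplicit false
set_option linter.unusedVariables false
set_option linter.unusedSectionVars false

namespace Pool.Agent.Q104.SSP

open Finset Matrix

variable {m n : ℕ}

/-- the relation on indices -/
def Rel (m n i j : ℕ) : Prop :=
  i + 1 = j ∨ j + 1 = i ∨ (i = n ∧ j + 1 = n + m) ∨ (j = n ∧ i + 1 = n + m)

lemma InS.rel {A : Matrix (Fin (n + m)) (Fin (n + m)) ℝ} (hA : InS (tadpole m n) A)
    {i j : Fin (n + m)} (h : A i j ≠ 0) : i = j ∨ Rel m n i.val j.val := by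
  by_cases hij : i = j
  · exact Or.inl hij
  · exact Or.inr ((hA.2 i j hij).1 h).2

lemma InS.ne {A : Matrix (Fin (n + m)) (Fin (n + m)) ℝ} (hA : InS (tadpole m n) A)
    {i j : Fin (n + m)} (hij : i ≠ j) (h : Rel m n i.val j.val) : A i j ≠ 0 :=
  (hA.2 i j hij).2 ⟨hij, h⟩

/-- sign flip of the edge `{n, n+m-1}` -/
def flipA (A : Matrix (Fin (n + m)) (Fin (n + m)) ℝ) : Matrix (Fin (n + m)) (Fin (n + m)) ℝ :=
  fun i j => if (i.val = n ∧ j.val + 1 = n + m) ∨ (j.val = n ∧ i.val + 1 = n + m) then - A i j
    else A i j

/-- sign twist below the diagonal -/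
def tw (Z : Matrix (Fin (n + m)) (Fin (n + m)) ℝ) : Matrix (Fin (n + m)) (Fin (n + m)) ℝ :=
  fun i j => if i.val ≤ j.val then Z i j else - Z i j

lemma tw_zero {Z : Matrix (Fin (n + m)) (Fin (n + m)) ℝ} {i j : Fin (n + m)} (h : Z i j = 0) :
    tw Z i j = 0 := by
  unfold tw
  split_ifs <;> simp [h]

lemma flip_zero {A : Matrix (Fin (n + m)) (Fin (n + m)) ℝ} {i j : Fin (n + m)} (h : A i j = 0) :
    flipA A i j = 0 := by
  unfold flipA
  split_ifs <;> simp [h]

lemma twist_left (hm : 3 ≤ m) {A Z : Matrix (Fin (n + m)) (Fin (n + m)) ℝ}
    (hA : InS (tadpole m n) A) (hZ : ∀ i j, (i = j ∨ Rel m n i.val j.val) → Z i j = 0)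
    {u v : Fin (n + m)} (huv : u.val < v.val) :
    (flipA A * tw Z) u v = (A * Z) u v := by
  rw [Matrix.mul_apply, Matrix.mul_apply]
  apply Finset.sum_congr rfl
  intro k _
  have hv := v.isLt
  have hk := k.isLt
  have hu := u.isLt
  by_cases h0 : A u k = 0
  · rw [h0, flip_zero h0]; ring
  rcases hA.rel h0 with h | h
  · subst h
    unfold flipA tw
    rw [if_neg (by omega), if_pos (by omega)]
  · rcases h with h | h | h | h
    · unfold flipA tw
      rw [if_neg (by omega), if_pos (by omega)]
    · unfold flipA tw
      rw [if_neg (by omega), if_pos (by omega)]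
    · by_cases hkv : k = v
      · have : Z k v = 0 := hZ k v (Or.inl hkv)
        rw [this, tw_zero this]; ring
      · have hkv' : k.val ≠ v.val := fun h => hkv (Fin.ext h)
        unfold flipA tw
        rw [if_pos (by omega), if_neg (by omega)]
        ring
    · omega

lemma twist_right (hm : 3 ≤ m) {A Z : Matrix (Fin (n + m)) (Fin (n + m)) ℝ}
    (hA : InS (tadpole m n) A) (hZ : ∀ i j, (i = j ∨ Rel m n i.val j.val) → Z i j = 0)
    (hb : ∀ i j : Fin (n + m), i.val ≤ n → j.val = n → Z i j = 0)
    {u v : Fin (n + m)} (huv : u.val < v.val) (hvn : v.val ≠ n) :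
    (tw Z * flipA A) u v = (Z * A) u v := by
  rw [Matrix.mul_apply, Matrix.mul_apply]
  apply Finset.sum_congr rfl
  intro k _
  have hv := v.isLt
  have hk := k.isLt
  have hu := u.isLt
  by_cases h0 : A k v = 0
  · rw [h0, flip_zero h0]; ring
  rcases hA.rel h0 with h | h
  · subst h
    unfold flipA tw
    rw [if_pos (by omega), if_neg (by omega)]
  · rcases h with h | h | h | h
    · unfold flipA tw
      rw [if_pos (by omega), if_neg (by omega)]
    · unfold flipA tw
      rw [if_pos (by omega), if_neg (by omega)]
    · by_cases hun : u.val ≤ n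
      · have : Z u k = 0 := hb u k hun h.1
        rw [this, tw_zero this]; ring
      · unfold flipA tw
        rw [if_neg (by omega), if_pos (by omega)]
        ring
    · omega

section Positive

variable (hm : 3 ≤ m) {A X : Matrix (Fin (n + m)) (Fin (n + m)) ℝ}
  (hA : InS (tadpole m n) A) (hXs : ∀ i j, X i j = X j i)
  (hX : ∀ i j, (i = j ∨ Rel m n i.val j.val) → X i j = 0) (hc : A * X = X * A)

include hm hA hXs hX hc

lemma block : ∀ s : ℕ, ∀ i j : Fin (n + m), i.val + j.val ≤ s → i.val ≤ n → j.val ≤ n →
    X i j = 0 := by
  intro s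
  induction s with
  | zero =>
    intro i j h _ _
    exact hX i j (Or.inl (Fin.ext (by omega)))
  | succ s ih =>
    have key : ∀ d : ℕ, ∀ i j : Fin (n + m), i.val ≤ j.val → j.val - i.val ≤ d →
        i.val + j.val = s + 1 → j.val ≤ n → X i j = 0 := by
      intro d
      induction d with
      | zero =>
        intro i j h1 h2 _ _
        exact hX i j (Or.inl (Fin.ext (by omega)))
      | succ d ihd =>
        intro i j h1 h2 h3 h4
        by_cases h5 : j.val - i.val ≤ d
        · exact ihd i j h1 h5 h3 h4
        by_cases h6 : j.val ≤ i.val + 1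
        · exact hX i j (Or.inr (Or.inl (by omega)))
        have hj := j.isLt
        obtain ⟨j', hj'⟩ : ∃ j' : Fin (n + m), j'.val + 1 = j.val :=
          ⟨⟨j.val - 1, by omega⟩, by simp only; omega⟩
        have e := congrFun (congrFun hc i) j'
        rw [Matrix.mul_apply, Matrix.mul_apply] at e
        have hL : ∑ k, A i k * X k j' = 0 := by
          apply Finset.sum_eq_zero
          intro k _
          by_cases h0 : A i k = 0
          · rw [h0]; ring
          have hk : k.val ≤ i.val + 1 := by
            rcases hA.rel h0 with h | h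
            · omega
            · unfold Rel at h; omega
          by_cases hk' : k.val = i.val + 1
          · rw [ihd k j' (by omega) (by omega) (by omega) (by omega)]; ring
          · rw [ih k j' (by omega) (by omega) (by omega)]; ring
        have hR : ∑ k, X i k * A k j' = X i j * A j j' := by
          apply Finset.sum_eq_single j
          · intro k _ hkj
            have hkj' : k.val ≠ j.val := fun h => hkj (Fin.ext h)
            by_cases h0 : A k j' = 0
            · rw [h0]; ring
            have hk : k.val ≤ j'.val := by
              rcases hA.rel h0 with h | h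
              · omega
              · unfold Rel at h; omega
            rw [ih i k (by omega) (by omega) (by omega)]; ring
          · intro h; exact absurd (Finset.mem_univ j) h
        rw [hL, hR] at e
        have hne : A j j' ≠ 0 := hA.ne (fun h => by rw [h] at hj'; omega) (Or.inr (Or.inl hj'))
        rcases mul_eq_zero.1 e.symm with h | h
        · exact h
        · exact absurd h hne
    intro i j h1 h2 h3
    by_cases h4 : i.val + j.val ≤ s
    · exact ih i j h4 h2 h3
    · rcases le_total i.val j.val with h5 | h5
      · exact key (j.val - i.val) i j h5 le_rfl (by omega) h3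
      · rw [hXs]
        exact key (i.val - j.val) j i h5 le_rfl (by omega) h2

lemma block' (i j : Fin (n + m)) (hi : i.val ≤ n) (hj : j.val ≤ n) : X i j = 0 :=
  block hm hA hXs hX hc (i.val + j.val) i j le_rfl hi hj

lemma tw_skew (i j : Fin (n + m)) : tw X j i = - tw X i j := by
  unfold tw
  rcases lt_trichotomy i.val j.val with h | h | h
  · rw [if_neg (by omega), if_pos (by omega), hXs j i]
  · have hij : i = j := Fin.ext h
    subst hij
    have : X i i = 0 := hX i i (Or.inl rfl)
    rw [if_pos le_rfl, this]; ring
  · rw [if_pos (by omega), if_neg (by omega), hXs j i]; ring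

lemma flip_symm (i j : Fin (n + m)) : flipA A j i = flipA A i j := by
  unfold flipA
  rw [hA.1 j i]
  by_cases h : (i.val = n ∧ j.val + 1 = n + m) ∨ (j.val = n ∧ i.val + 1 = n + m)
  · rw [if_pos h, if_pos h.symm]
  · rw [if_neg h, if_neg (fun h' => h h'.symm)]

/-- the commutator of the twisted matrices vanishes except on column and row `n` -/
lemma D_zero_lt {u v : Fin (n + m)} (huv : u.val < v.val) (hvn : v.val ≠ n) :
    (flipA A * tw X - tw X * flipA A) u v = 0 := by
  rw [Matrix.sub_apply, twist_left hm hA hX huv,
    twist_right hm hA hX (fun i j hi hj => block' hm hA hXs hX hc i j hi hj.le) huv hvn, hc]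
  ring

lemma D_symm (u v : Fin (n + m)) :
    (flipA A * tw X - tw X * flipA A) v u = (flipA A * tw X - tw X * flipA A) u v := by
  rw [Matrix.sub_apply, Matrix.sub_apply, Matrix.mul_apply, Matrix.mul_apply, Matrix.mul_apply,
    Matrix.mul_apply]
  have h1 : ∑ j, flipA A v j * tw X j u = - ∑ j, tw X u j * flipA A j v := by
    rw [← Finset.sum_neg_distrib]
    apply Finset.sum_congr rfl
    intro k _
    rw [tw_skew hm hA hXs hX hc u k, flip_symm hm hA hXs hX hc k v]; ring
  have h2 : ∑ j, tw X v j * flipA A j u = - ∑ j, flipA A u j * tw X j v := by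
    rw [← Finset.sum_neg_distrib]
    apply Finset.sum_congr rfl
    intro k _
    rw [tw_skew hm hA hXs hX hc k v, flip_symm hm hA hXs hX hc u k]; ring
  rw [h1, h2]; ring

lemma D_diag (u : Fin (n + m)) : (flipA A * tw X - tw X * flipA A) u u = 0 := by
  have h1 : (flipA A * tw X) u u = 0 := by
    rw [Matrix.mul_apply]
    apply Finset.sum_eq_zero
    intro k _
    by_cases h0 : A u k = 0
    · rw [flip_zero h0]; ring
    · have : X k u = 0 := by
        rw [hXs]
        exact hX u k (hA.rel h0)
      rw [tw_zero this]; ring
  have h2 : (tw X * flipA A) u u = 0 := by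
    rw [Matrix.mul_apply]
    apply Finset.sum_eq_zero
    intro k _
    by_cases h0 : A k u = 0
    · rw [flip_zero h0]; ring
    · have : X u k = 0 := by
        rw [hXs]
        exact hX k u (hA.rel h0)
      rw [tw_zero this]; ring
  rw [Matrix.sub_apply, h1, h2]; ring

/-- nonzero entries of the commutator lie in row or column `n` -/
lemma D_supp (u v : Fin (n + m)) (h : (flipA A * tw X - tw X * flipA A) u v ≠ 0) :
    (u.val < n ∧ v.val = n) ∨ (u.val = n ∧ v.val < n) := by
  rcases lt_trichotomy u.val v.val with h1 | h1 | h1
  · by_cases h2 : v.val = n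
    · left; omega
    · exact absurd (D_zero_lt hm hA hXs hX hc h1 h2) h
  · exfalso
    have : u = v := Fin.ext h1
    subst this
    exact h (D_diag hm hA hXs hX hc u)
  · by_cases h2 : u.val = n
    · right; omega
    · rw [← D_symm hm hA hXs hX hc u v] at h
      exact absurd (D_zero_lt hm hA hXs hX hc h1 h2) h

/-- powers of a tadpole matrix: light cone -/
lemma pow_cone (nn : Fin (n + m)) (hnn : nn.val = n) : ∀ k : ℕ, ∀ i : Fin (n + m), i.val ≤ n →
    (i.val + k < n → (flipA A ^ k) i nn = 0) ∧ (i.val + k = n → (flipA A ^ k) i nn ≠ 0) := by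
  intro k
  induction k with
  | zero =>
    intro i hi
    constructor
    · intro h
      rw [pow_zero, Matrix.one_apply_ne (fun h' => by rw [h'] at h; omega)]
    · intro h
      have : i = nn := Fin.ext (by omega)
      rw [this, pow_zero, Matrix.one_apply_eq]
      exact one_ne_zero
  | succ k ih =>
    intro i hi
    rw [pow_succ', Matrix.mul_apply]
    have hcase : ∀ j : Fin (n + m), i.val < n → flipA A i j ≠ 0 → j.val ≤ i.val + 1 := by
      intro j hi' hj
      have h0 : A i j ≠ 0 := fun h => hj (flip_zero h)
      have hjl := j.isLt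
      rcases hA.rel h0 with h | h
      · omega
      · unfold Rel at h; omega
    constructor
    · intro h
      apply Finset.sum_eq_zero
      intro j _
      by_cases h0 : flipA A i j = 0
      · rw [h0]; ring
      · have h1 := hcase j (by omega) h0
        rw [(ih j (by omega)).1 (by omega)]; ring
    · intro h
      have hi' : i.val < n := by omega
      obtain ⟨i', hi''⟩ : ∃ i' : Fin (n + m), i'.val = i.val + 1 := ⟨⟨i.val + 1, by omega⟩, rfl⟩
      rw [Finset.sum_eq_single i']
      · apply mul_ne_zero
        · have h1 : A i i' ≠ 0 := hA.ne (fun h => by rw [← h] at hi''; omega) (Or.inl hi''.symm)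
          unfold flipA
          split_ifs
          · exact neg_ne_zero.2 h1
          · exact h1
        · exact (ih i' (by omega)).2 (by omega)
      · intro j _ hj
        by_cases h0 : flipA A i j = 0
        · rw [h0]; ring
        · have h1 := hcase j hi' h0
          have h2 : j.val ≠ i'.val := fun h => hj (Fin.ext h)
          rw [(ih j (by omega)).1 (by omega)]; ring
      · intro h; exact absurd (Finset.mem_univ _) h

lemma trace_zero (k : ℕ) :
    Matrix.trace ((flipA A * tw X - tw X * flipA A) * flipA A ^ k) = 0 := by
  rw [Matrix.sub_mul, Matrix.trace_sub]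
  have h1 : Matrix.trace (flipA A * tw X * flipA A ^ k) =
      Matrix.trace (tw X * flipA A ^ k * flipA A) := by
    rw [Matrix.mul_assoc, Matrix.trace_mul_comm]
  have h2 : tw X * flipA A * flipA A ^ k = tw X * flipA A ^ k * flipA A := by
    rw [Matrix.mul_assoc, Matrix.mul_assoc, ← pow_succ', pow_succ]
  rw [h1, h2]; ring

lemma pow_symm (k : ℕ) (i j : Fin (n + m)) : (flipA A ^ k) i j = (flipA A ^ k) j i := by
  have h : (flipA A)ᵀ = flipA A := by
    ext i j
    rw [Matrix.transpose_apply, flip_symm hm hA hXs hX hc]
  have h2 : (flipA A ^ k)ᵀ = flipA A ^ k := by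
    rw [Matrix.transpose_pow, h]
  calc (flipA A ^ k) i j = (flipA A ^ k)ᵀ j i := rfl
    _ = (flipA A ^ k) j i := by rw [h2]

/-- the commutator vanishes on column `n` -/
lemma D_col (nn : Fin (n + m)) (hnn : nn.val = n) : ∀ d : ℕ, ∀ u : Fin (n + m), u.val < n →
    n - u.val ≤ d → (flipA A * tw X - tw X * flipA A) u nn = 0 := by
  intro d
  induction d with
  | zero => intro u hu h; omega
  | succ d ih =>
    intro u hu hd
    by_cases hd' : n - u.val ≤ d
    · exact ih u hu hd'
    set D := flipA A * tw X - tw X * flipA A with hD
    have hDs : ∀ u v, D v u = D u v := fun u v => D_symm hm hA hXs hX hc u v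
    have hDsupp : ∀ u v, D u v ≠ 0 → (u.val < n ∧ v.val = n) ∨ (u.val = n ∧ v.val < n) :=
      fun u v => D_supp hm hA hXs hX hc u v
    set k := n - u.val with hk
    have htr := trace_zero hm hA hXs hX hc k
    rw [← hD] at htr
    have hne : u ≠ nn := fun h => by rw [h] at hu; omega
    have hdu : (D * flipA A ^ k) u u = D u nn * (flipA A ^ k) u nn := by
      rw [Matrix.mul_apply, Finset.sum_eq_single nn]
      · rw [pow_symm hm hA hXs hX hc k nn u]
      · intro v _ hv
        by_cases h0 : D u v = 0
        · rw [h0]; ring
        · exfalso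
          rcases hDsupp u v h0 with h | h
          · exact hv (Fin.ext (by omega))
          · omega
      · intro h; exact absurd (Finset.mem_univ _) h
    have hdn : (D * flipA A ^ k) nn nn = D u nn * (flipA A ^ k) u nn := by
      rw [Matrix.mul_apply, Finset.sum_eq_single u]
      · rw [hDs u nn]
      · intro v _ hv
        by_cases h0 : D nn v = 0
        · rw [h0]; ring
        have hv' : v.val ≠ u.val := fun h => hv (Fin.ext h)
        rcases hDsupp nn v h0 with h | h
        · omega
        · rcases lt_or_gt_of_ne hv' with h1 | h1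
          · rw [(pow_cone hm hA hXs hX hc nn hnn k v (by omega)).1 (by omega)]; ring
          · exfalso
            apply h0
            rw [hDs v nn]
            exact ih v (by omega) (by omega)
      · intro h; exact absurd (Finset.mem_univ _) h
    have hoth : ∀ v : Fin (n + m), v ≠ u ∧ v ≠ nn → (D * flipA A ^ k) v v = 0 := by
      intro v hv
      rw [Matrix.mul_apply]
      apply Finset.sum_eq_zero
      intro w _
      by_cases h0 : D v w = 0
      · rw [h0]; ring
      have hv1 : v.val ≠ u.val := fun h => hv.1 (Fin.ext h)
      have hv2 : v.val ≠ n := fun h => hv.2 (Fin.ext (by omega))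
      rcases hDsupp v w h0 with h | h
      · have hw : w = nn := Fin.ext (by omega)
        subst hw
        rcases lt_or_gt_of_ne hv1 with h1 | h1
        · rw [pow_symm hm hA hXs hX hc, (pow_cone hm hA hXs hX hc w hnn k v (by omega)).1 (by omega)]
          ring
        · exfalso
          exact h0 (ih v (by omega) (by omega))
      · omega
    have hsum : Matrix.trace (D * flipA A ^ k) = 2 * (D u nn * (flipA A ^ k) u nn) := by
      unfold Matrix.trace
      simp only [Matrix.diag_apply]
      rw [Finset.sum_eq_add u nn hne]
      · rw [hdu, hdn]; ring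
      · intro v _ hv; exact hoth v hv
      · intro h; exact absurd (Finset.mem_univ _) h
      · intro h; exact absurd (Finset.mem_univ _) h
    rw [hsum] at htr
    have hpow := (pow_cone hm hA hXs hX hc nn hnn k u (by omega)).2 (by omega)
    rcases mul_eq_zero.1 htr with h | h
    · norm_num at h
    · rcases mul_eq_zero.1 h with h | h
      · exact h
      · exact absurd h hpow

/-- both neighbours of `c_0` on the cycle -/
lemma col1 (i : Fin (n + m)) (hi : i.val ≤ n) (p : Fin (n + m))
    (hp : p.val = n + 1 ∨ p.val + 1 = n + m) : X i p = 0 := by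
  obtain ⟨nn, hnn⟩ : ∃ nn : Fin (n + m), nn.val = n := ⟨⟨n, by omega⟩, rfl⟩
  obtain ⟨p1, hp1⟩ : ∃ p : Fin (n + m), p.val = n + 1 := ⟨⟨n + 1, by omega⟩, rfl⟩
  obtain ⟨q1, hq1⟩ : ∃ q : Fin (n + m), q.val + 1 = n + m :=
    ⟨⟨n + m - 1, by omega⟩, by simp only; omega⟩
  have hpq : p1 ≠ q1 := fun h => by rw [h] at hp1; omega
  have main : X i p1 = 0 ∧ X i q1 = 0 := by
    by_cases hin : i.val = n
    · exact ⟨hX i p1 (Or.inr (Or.inl (by omega))),
        hX i q1 (Or.inr (Or.inr (Or.inr (Or.inl ⟨hin, hq1⟩))))⟩
    have hin' : i.val < n := by omega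
    have hA1 : A p1 nn ≠ 0 := hA.ne (fun h => by rw [h] at hp1; omega)
      (Or.inr (Or.inl (by omega)))
    have hA2 : A q1 nn ≠ 0 := hA.ne (fun h => by rw [h] at hq1; omega)
      (Or.inr (Or.inr (Or.inr ⟨hnn, hq1⟩)))
    have hkle : ∀ k, A i k ≠ 0 → k.val ≤ n := by
      intro k h0
      have := k.isLt
      rcases hA.rel h0 with h | h
      · omega
      · unfold Rel at h; omega
    have hkn : ∀ k, A k nn ≠ 0 → k ≠ p1 ∧ k ≠ q1 → k.val ≤ n := by
      intro k h0 h1
      have h2 : k.val ≠ p1.val := fun h => h1.1 (Fin.ext h)
      have h3 : k.val ≠ q1.val := fun h => h1.2 (Fin.ext h)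
      rcases hA.rel h0 with h | h
      · omega
      · unfold Rel at h; omega
    have e := congrFun (congrFun hc i) nn
    rw [Matrix.mul_apply, Matrix.mul_apply] at e
    have hL : ∑ k, A i k * X k nn = 0 := by
      apply Finset.sum_eq_zero
      intro k _
      by_cases h0 : A i k = 0
      · rw [h0]; ring
      · rw [block' hm hA hXs hX hc k nn (hkle k h0) hnn.le]; ring
    have hR : ∑ k, X i k * A k nn = X i p1 * A p1 nn + X i q1 * A q1 nn := by
      apply Finset.sum_eq_add p1 q1 hpq
      · intro k _ hk
        by_cases h0 : A k nn = 0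
        · rw [h0]; ring
        · rw [block' hm hA hXs hX hc i k hi (hkn k h0 hk)]; ring
      · intro h; exact absurd (Finset.mem_univ _) h
      · intro h; exact absurd (Finset.mem_univ _) h
    have e2 := D_col hm hA hXs hX hc nn hnn n i hin' (by omega)
    rw [Matrix.sub_apply, Matrix.mul_apply, Matrix.mul_apply] at e2
    have hL2 : ∑ k, flipA A i k * tw X k nn = 0 := by
      apply Finset.sum_eq_zero
      intro k _
      by_cases h0 : A i k = 0
      · rw [flip_zero h0]; ring
      · rw [tw_zero (block' hm hA hXs hX hc k nn (hkle k h0) hnn.le)]; ring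
    have hR2 : ∑ k, tw X i k * flipA A k nn = X i p1 * A p1 nn + X i q1 * (- A q1 nn) := by
      rw [Finset.sum_eq_add p1 q1 hpq]
      · unfold tw flipA
        rw [if_pos (by omega), if_neg (by omega), if_pos (by omega), if_pos (by omega)]
      · intro k _ hk
        by_cases h0 : A k nn = 0
        · rw [flip_zero h0]; ring
        · rw [tw_zero (block' hm hA hXs hX hc i k hi (hkn k h0 hk))]; ring
      · intro h; exact absurd (Finset.mem_univ _) h
      · intro h; exact absurd (Finset.mem_univ _) h
    rw [hL, hR] at e
    rw [hL2, hR2] at e2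
    constructor
    · have : X i p1 * A p1 nn = 0 := by linarith
      rcases mul_eq_zero.1 this with h | h
      · exact h
      · exact absurd h hA1
    · have : X i q1 * A q1 nn = 0 := by linarith
      rcases mul_eq_zero.1 this with h | h
      · exact h
      · exact absurd h hA2
  rcases hp with h | h
  · rw [show p = p1 from Fin.ext (by omega)]; exact main.1
  · rw [show p = q1 from Fin.ext (by omega)]; exact main.2

lemma right_cone : ∀ j : ℕ, ∀ i v : Fin (n + m), i.val + j ≤ n → v.val = n + 1 + j →
    X i v = 0 := by
  intro j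
  induction j using Nat.strong_induction_on with
  | _ j ih =>
    intro i v h1 h2
    rcases Nat.eq_zero_or_pos j with hj | hj
    · exact col1 hm hA hXs hX hc i (by omega) v (Or.inl (by omega))
    have hv := v.isLt
    obtain ⟨v', hv'⟩ : ∃ v' : Fin (n + m), v'.val + 1 = v.val :=
      ⟨⟨v.val - 1, by omega⟩, by simp only; omega⟩
    have e := congrFun (congrFun hc i) v'
    rw [Matrix.mul_apply, Matrix.mul_apply] at e
    have hL : ∑ k, A i k * X k v' = 0 := by
      apply Finset.sum_eq_zero
      intro k _
      by_cases h0 : A i k = 0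
      · rw [h0]; ring
      have hk : k.val ≤ i.val + 1 := by
        have := k.isLt
        rcases hA.rel h0 with h | h
        · omega
        · unfold Rel at h; omega
      rw [ih (j - 1) (by omega) k v' (by omega) (by omega)]; ring
    have hR : ∑ k, X i k * A k v' = X i v * A v v' := by
      apply Finset.sum_eq_single v
      · intro k _ hkj
        have hkj' : k.val ≠ v.val := fun h => hkj (Fin.ext h)
        by_cases h0 : A k v' = 0
        · rw [h0]; ring
        have hk : k.val = v'.val ∨ k.val + 1 = v'.val := by
          rcases hA.rel h0 with h | h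
          · left; omega
          · unfold Rel at h; omega
        rcases hk with hk | hk
        · rw [ih (j - 1) (by omega) i k (by omega) (by omega)]; ring
        · by_cases hj1 : j = 1
          · rw [block' hm hA hXs hX hc i k (by omega) (by omega)]; ring
          · rw [ih (j - 2) (by omega) i k (by omega) (by omega)]; ring
      · intro h; exact absurd (Finset.mem_univ _) h
    rw [hL, hR] at e
    have hne : A v v' ≠ 0 := hA.ne (fun h => by rw [h] at hv'; omega) (Or.inr (Or.inl hv'))
    rcases mul_eq_zero.1 e.symm with h | h
    · exact h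
    · exact absurd h hne

lemma left_cone : ∀ j : ℕ, ∀ i v : Fin (n + m), i.val + j ≤ n → v.val + 1 + j = n + m →
    X i v = 0 := by
  intro j
  induction j using Nat.strong_induction_on with
  | _ j ih =>
    intro i v h1 h2
    by_cases hvn : v.val ≤ n
    · exact block' hm hA hXs hX hc i v (by omega) hvn
    rcases Nat.eq_zero_or_pos j with hj | hj
    · exact col1 hm hA hXs hX hc i (by omega) v (Or.inr (by omega))
    have hv := v.isLt
    obtain ⟨v', hv'⟩ : ∃ v' : Fin (n + m), v'.val = v.val + 1 :=
      ⟨⟨v.val + 1, by omega⟩, rfl⟩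
    have e := congrFun (congrFun hc i) v'
    rw [Matrix.mul_apply, Matrix.mul_apply] at e
    have hL : ∑ k, A i k * X k v' = 0 := by
      apply Finset.sum_eq_zero
      intro k _
      by_cases h0 : A i k = 0
      · rw [h0]; ring
      have hk : k.val ≤ i.val + 1 := by
        have := k.isLt
        rcases hA.rel h0 with h | h
        · omega
        · unfold Rel at h; omega
      rw [ih (j - 1) (by omega) k v' (by omega) (by omega)]; ring
    have hR : ∑ k, X i k * A k v' = X i v * A v v' := by
      apply Finset.sum_eq_single v
      · intro k _ hkj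
        have hkj' : k.val ≠ v.val := fun h => hkj (Fin.ext h)
        by_cases h0 : A k v' = 0
        · rw [h0]; ring
        have hk : k.val = v'.val ∨ k.val = v'.val + 1 ∨ (k.val = n ∧ v'.val + 1 = n + m) := by
          rcases hA.rel h0 with h | h
          · left; omega
          · unfold Rel at h; omega
        rcases hk with hk | hk | hk
        · rw [ih (j - 1) (by omega) i k (by omega) (by omega)]; ring
        · have := k.isLt
          rw [ih (j - 2) (by omega) i k (by omega) (by omega)]; ring
        · rw [block' hm hA hXs hX hc i k (by omega) (by omega)]; ring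
      · intro h; exact absurd (Finset.mem_univ _) h
    rw [hL, hR] at e
    have hne : A v v' ≠ 0 := hA.ne (fun h => by rw [h] at hv'; omega) (Or.inl hv'.symm)
    rcases mul_eq_zero.1 e.symm with h | h
    · exact h
    · exact absurd h hne

/-- all rows up to `n` vanish -/
lemma rows (hmn : m ≤ 2 * n + 3) : ∀ i v : Fin (n + m), i.val ≤ n → X i v = 0 := by
  have h0 : ∀ i v : Fin (n + m), i.val = 0 → X i v = 0 := by
    intro i v hi
    have hv := v.isLt
    by_cases h1 : v.val ≤ n
    · exact block' hm hA hXs hX hc i v (by omega) h1
    by_cases h2 : v.val ≤ 2 * n + 1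
    · exact right_cone hm hA hXs hX hc (v.val - n - 1) i v (by omega) (by omega)
    · exact left_cone hm hA hXs hX hc (n + m - 1 - v.val) i v (by omega) (by omega)
  have key : ∀ a : ℕ, ∀ i v : Fin (n + m), i.val = a → i.val ≤ n → X i v = 0 := by
    intro a
    induction a using Nat.strong_induction_on with
    | _ a ih =>
      intro i v hi hin
      rcases Nat.eq_zero_or_pos a with ha | ha
      · exact h0 i v (by omega)
      obtain ⟨i', hi'⟩ : ∃ i' : Fin (n + m), i'.val + 1 = i.val :=
        ⟨⟨i.val - 1, by omega⟩, by simp only; omega⟩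
      have e := congrFun (congrFun hc i') v
      rw [Matrix.mul_apply, Matrix.mul_apply] at e
      have hR : ∑ k, X i' k * A k v = 0 := by
        apply Finset.sum_eq_zero
        intro k _
        rw [ih (a - 1) (by omega) i' k (by omega) (by omega)]; ring
      have hL : ∑ k, A i' k * X k v = A i' i * X i v := by
        apply Finset.sum_eq_single i
        · intro k _ hki
          have hki' : k.val ≠ i.val := fun h => hki (Fin.ext h)
          by_cases h0 : A i' k = 0
          · rw [h0]; ring
          have hk : k.val < i.val := by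
            have := k.isLt
            rcases hA.rel h0 with h | h
            · omega
            · unfold Rel at h; omega
          rw [ih k.val (by omega) k v rfl (by omega)]; ring
        · intro h; exact absurd (Finset.mem_univ _) h
      rw [hL, hR] at e
      have hne : A i' i ≠ 0 := hA.ne (fun h => by rw [h] at hi'; omega) (Or.inl hi')
      rcases mul_eq_zero.1 e with h | h
      · exact absurd h hne
      · exact h
  intro i v hi
  exact key i.val i v rfl hi

/-- all entries vanish, one diagonal after the other -/
lemma diags (hmn : m ≤ 2 * n + 3) : ∀ l : ℕ, ∀ a : ℕ, ∀ i j : Fin (n + m), i.val = a →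
    j.val = i.val + l → X i j = 0 := by
  intro l
  induction l using Nat.strong_induction_on with
  | _ l ihl =>
    intro a
    induction a using Nat.strong_induction_on with
    | _ a iha =>
      intro i j hi hj
      by_cases hin : i.val ≤ n
      · exact rows hm hA hXs hX hc hmn i j hin
      by_cases hl0 : l = 0
      · exact hX i j (Or.inl (Fin.ext (by omega)))
      by_cases hl1 : l = 1
      · exact hX i j (Or.inr (Or.inl (by omega)))
      have hjl := j.isLt
      obtain ⟨v, hv⟩ : ∃ v : Fin (n + m), v.val + 1 = j.val :=
        ⟨⟨j.val - 1, by omega⟩, by simp only; omega⟩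
      have e := congrFun (congrFun hc i) v
      rw [Matrix.mul_apply, Matrix.mul_apply] at e
      have hL : ∑ k, A i k * X k v = 0 := by
        apply Finset.sum_eq_zero
        intro k _
        by_cases h0 : A i k = 0
        · rw [h0]; ring
        have hk : k.val = i.val ∨ k.val + 1 = i.val ∨ k.val = i.val + 1 ∨ k.val = n := by
          rcases hA.rel h0 with h | h
          · left; omega
          · unfold Rel at h; omega
        rcases hk with hk | hk | hk | hk
        · rw [ihl (l - 1) (by omega) k.val k v rfl (by omega)]; ring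
        · rw [iha k.val (by omega) k v rfl (by omega)]; ring
        · rw [ihl (l - 2) (by omega) k.val k v rfl (by omega)]; ring
        · rw [rows hm hA hXs hX hc hmn k v (by omega)]; ring
      have hR : ∑ k, X i k * A k v = X i j * A j v := by
        apply Finset.sum_eq_single j
        · intro k _ hkj
          have hkj' : k.val ≠ j.val := fun h => hkj (Fin.ext h)
          by_cases h0 : A k v = 0
          · rw [h0]; ring
          have hk : k.val = v.val ∨ k.val + 1 = v.val := by
            rcases hA.rel h0 with h | h
            · left; omega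
            · unfold Rel at h; omega
          rcases hk with hk | hk
          · rw [ihl (l - 1) (by omega) i.val i k rfl (by omega)]; ring
          · rw [ihl (l - 2) (by omega) i.val i k rfl (by omega)]; ring
        · intro h; exact absurd (Finset.mem_univ _) h
      rw [hL, hR] at e
      have hne : A j v ≠ 0 := hA.ne (fun h => by rw [h] at hv; omega) (Or.inr (Or.inl hv))
      rcases mul_eq_zero.1 e.symm with h | h
      · exact h
      · exact absurd h hne

end Positive

/-- **The tadpoles `T_{m,n}` with `3 ≤ m ≤ 2 n + 3` are in `𝒢^SSP`.** -/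
theorem tadpole_GSSP (hm : 3 ≤ m) (hmn : m ≤ 2 * n + 3) : GSSP (tadpole m n) := by
  intro A hA X hXs hAX hX0 hc
  have hX : ∀ i j, (i = j ∨ Rel m n i.val j.val) → X i j = 0 := by
    intro i j h
    by_cases hij : i = j
    · rw [hij]; exact hX0 j
    · have hr : Rel m n i.val j.val := by
        rcases h with h | h
        · exact absurd h hij
        · exact h
      rcases mul_eq_zero.1 (hAX i j) with h | h
      · exact absurd h (hA.ne hij hr)
      · exact h
  ext i j
  rw [Matrix.zero_apply]
  rcases le_total i.val j.val with h | h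
  · exact diags hm hA hXs hX hc hmn (j.val - i.val) i.val i j rfl (by omega)
  · rw [hXs]
    exact diags hm hA hXs hX hc hmn (i.val - j.val) j.val j i rfl (by omega)

end Pool.Agent.Q104.SSP
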