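import Pool.Agent.Q104.TadPos

/-!
# A tadpole matrix with `n + 2` double eigenvalues yields a matrix without the SSP
-/

set_option autoImplicit false
set_option linter.unusedVariables false
set_option linter.unusedSectionVars false

namespace Pool.Agent.Q104.SSP

open Finset Matrix

variable {m n : ℕ}

/-- an eigenvector vanishing at the leaf vanishes on the path and at `c_0` -/
lemma eig_zero (hm : 3 ≤ m) {B : Matrix (Fin (n + m)) (Fin (n + m)) ℝ}
    (hB : InS (tadpole m n) B) {l : ℝ} {f : Fin (n + m) → ℝ}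
    (hf : ∀ i, ∑ k, B i k * f k = l * f i) (h0 : ∀ i : Fin (n + m), i.val = 0 → f i = 0) :
    ∀ i : Fin (n + m), i.val ≤ n → f i = 0 := by
  have key : ∀ a : ℕ, ∀ i : Fin (n + m), i.val = a → i.val ≤ n → f i = 0 := by
    intro a
    induction a using Nat.strong_induction_on with
    | _ a ih =>
      intro i hi hin
      rcases Nat.eq_zero_or_pos a with ha | ha
      · exact h0 i (by omega)
      obtain ⟨i', hi'⟩ : ∃ i' : Fin (n + m), i'.val + 1 = i.val :=
        ⟨⟨i.val - 1, by omega⟩, by simp only; omega⟩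
      have e := hf i'
      have hL : ∑ k, B i' k * f k = B i' i * f i := by
        apply Finset.sum_eq_single i
        · intro k _ hki
          have hki' : k.val ≠ i.val := fun h => hki (Fin.ext h)
          by_cases h0 : B i' k = 0
          · rw [h0]; ring
          have hk : k.val < i.val := by
            have := k.isLt
            rcases hB.rel h0 with h | h
            · omega
            · unfold Rel at h; omega
          rw [ih k.val (by omega) k rfl (by omega)]; ring
        · intro h; exact absurd (Finset.mem_univ _) h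
      rw [hL, ih (a - 1) (by omega) i' (by omega) (by omega)] at e
      have hne : B i' i ≠ 0 := hB.ne (fun h => by rw [h] at hi'; omega) (Or.inl hi')
      rcases mul_eq_zero.1 (e.trans (mul_zero l)) with h | h
      · exact absurd h hne
      · exact h
  intro i hi
  exact key i.val i rfl hi

/-- an eigenvector vanishing on the path, at `c_0` and at `c_1` is zero -/
lemma eig_zero' (hm : 3 ≤ m) {B : Matrix (Fin (n + m)) (Fin (n + m)) ℝ}
    (hB : InS (tadpole m n) B) {l : ℝ} {f : Fin (n + m) → ℝ}
    (hf : ∀ i, ∑ k, B i k * f k = l * f i)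
    (h0 : ∀ i : Fin (n + m), i.val ≤ n + 1 → f i = 0) : f = 0 := by
  have key : ∀ a : ℕ, ∀ i : Fin (n + m), i.val = a → f i = 0 := by
    intro a
    induction a using Nat.strong_induction_on with
    | _ a ih =>
      intro i hi
      by_cases hin : i.val ≤ n + 1
      · exact h0 i hin
      obtain ⟨i', hi'⟩ : ∃ i' : Fin (n + m), i'.val + 1 = i.val :=
        ⟨⟨i.val - 1, by omega⟩, by simp only; omega⟩
      have e := hf i'
      have hL : ∑ k, B i' k * f k = B i' i * f i := by
        apply Finset.sum_eq_single i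
        · intro k _ hki
          have hki' : k.val ≠ i.val := fun h => hki (Fin.ext h)
          by_cases h0 : B i' k = 0
          · rw [h0]; ring
          have hk : k.val < i.val := by
            have := k.isLt
            have := i.isLt
            rcases hB.rel h0 with h | h
            · omega
            · unfold Rel at h; omega
          rw [ih k.val (by omega) k rfl]; ring
        · intro h; exact absurd (Finset.mem_univ _) h
      rw [hL, ih (a - 1) (by omega) i' (by omega)] at e
      have hne : B i' i ≠ 0 := hB.ne (fun h => by rw [h] at hi'; omega) (Or.inl hi')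
      rcases mul_eq_zero.1 (e.trans (mul_zero l)) with h | h
      · exact absurd h hne
      · exact h
  funext i
  exact key i.val i rfl

lemma exists_coeff (r : ℕ) (lam : Fin (r + 1) → ℝ) : ∃ y : Fin (r + 1) → ℝ, y ≠ 0 ∧
    ∀ k : ℕ, k < r → ∑ t, y t * lam t ^ k = 0 := by
  set L : (Fin (r + 1) → ℝ) →ₗ[ℝ] (Fin r → ℝ) :=
    { toFun := fun y k => ∑ t, y t * lam t ^ (k : ℕ)
      map_add' := by
        intro y z
        funext k
        simp only [Pi.add_apply, add_mul, Finset.sum_add_distrib]
      map_smul' := by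
        intro c y
        funext k
        simp only [Pi.smul_apply, smul_eq_mul, RingHom.id_apply, Finset.mul_sum, mul_assoc] } with hL
  have hker : LinearMap.ker L ≠ ⊥ := LinearMap.ker_ne_bot_of_finrank_lt (by simp)
  obtain ⟨y, hy, hy0⟩ := (Submodule.ne_bot_iff _).1 hker
  refine ⟨y, hy0, ?_⟩
  intro k hk
  exact congrFun (LinearMap.mem_ker.1 hy) ⟨k, hk⟩

section Doubles

variable (hm : 3 ≤ m) {B : Matrix (Fin (n + m)) (Fin (n + m)) ℝ} (hB : InS (tadpole m n) B)
  {lam : Fin (n + 2) → ℝ} {φ ψ : Fin (n + 2) → Fin (n + m) → ℝ}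
  (hφ : ∀ t i, ∑ k, B i k * φ t k = lam t * φ t i)
  (hψ : ∀ t i, ∑ k, B i k * ψ t k = lam t * ψ t i)
  (hφ0 : ∀ t, ∀ i : Fin (n + m), i.val ≤ n → φ t i = 0)
  (hφ1 : ∀ t, ∀ i : Fin (n + m), i.val = n + 1 → φ t i = 1)
  (hψ0 : ∀ t, ∀ i : Fin (n + m), i.val = 0 → ψ t i = 1)
  {y : Fin (n + 2) → ℝ} (hy : ∀ k : ℕ, k < n + 1 → ∑ t, y t * lam t ^ k = 0)

/-- the skew matrix commuting with `B` -/
def YY (φ ψ : Fin (n + 2) → Fin (n + m) → ℝ) (y : Fin (n + 2) → ℝ) :
    Matrix (Fin (n + m)) (Fin (n + m)) ℝ :=
  fun i j => ∑ t, y t * (φ t i * ψ t j - ψ t i * φ t j)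

lemma YY_skew (i j : Fin (n + m)) : YY φ ψ y j i = - YY φ ψ y i j := by
  unfold YY
  rw [← Finset.sum_neg_distrib]
  apply Finset.sum_congr rfl
  intro t _
  ring

include hφ hψ in
lemma YY_left (i j : Fin (n + m)) : (B * YY φ ψ y) i j =
    ∑ t, y t * (lam t * (φ t i * ψ t j - ψ t i * φ t j)) := by
  rw [Matrix.mul_apply]
  unfold YY
  calc ∑ k, B i k * ∑ t, y t * (φ t k * ψ t j - ψ t k * φ t j)
      = ∑ k, ∑ t, (y t * ψ t j * (B i k * φ t k) - y t * φ t j * (B i k * ψ t k)) := by
        apply Finset.sum_congr rfl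
        intro k _
        rw [Finset.mul_sum]
        apply Finset.sum_congr rfl
        intro t _
        ring
    _ = ∑ t, ∑ k, (y t * ψ t j * (B i k * φ t k) - y t * φ t j * (B i k * ψ t k)) :=
        Finset.sum_comm
    _ = _ := by
        apply Finset.sum_congr rfl
        intro t _
        rw [Finset.sum_sub_distrib, ← Finset.mul_sum, ← Finset.mul_sum, hφ, hψ]
        ring

include hB hφ hψ in
lemma YY_comm : B * YY φ ψ y = YY φ ψ y * B := by
  ext i j
  rw [YY_left hφ hψ]
  have h : (YY φ ψ y * B) i j = - (B * YY φ ψ y) j i := by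
    rw [Matrix.mul_apply, Matrix.mul_apply, ← Finset.sum_neg_distrib]
    apply Finset.sum_congr rfl
    intro k _
    rw [YY_skew k i, hB.1 k j]; ring
  rw [h, YY_left hφ hψ, ← Finset.sum_neg_distrib]
  apply Finset.sum_congr rfl
  intro t _
  ring

include hm hB hψ hψ0 hy in
/-- the moments `∑ y λ^k ψ(i)` vanish for `k + i ≤ n` -/
lemma moments : ∀ a : ℕ, ∀ k : ℕ, ∀ i : Fin (n + m), i.val = a → k + i.val ≤ n →
    ∑ t, y t * lam t ^ k * ψ t i = 0 := by
  intro a
  induction a using Nat.strong_induction_on with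
  | _ a ih =>
    intro k i hi hin
    rcases Nat.eq_zero_or_pos a with ha | ha
    · rw [← hy k (by omega)]
      apply Finset.sum_congr rfl
      intro t _
      rw [hψ0 t i (by omega)]; ring
    obtain ⟨i', hi'⟩ : ∃ i' : Fin (n + m), i'.val + 1 = i.val :=
      ⟨⟨i.val - 1, by omega⟩, by simp only; omega⟩
    have hL : ∑ t, y t * lam t ^ k * ∑ v, B i' v * ψ t v =
        B i' i * ∑ t, y t * lam t ^ k * ψ t i := by
      calc ∑ t, y t * lam t ^ k * ∑ v, B i' v * ψ t v
          = ∑ v, B i' v * ∑ t, y t * lam t ^ k * ψ t v := by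
            simp only [Finset.mul_sum]
            rw [Finset.sum_comm]
            apply Finset.sum_congr rfl
            intro v _
            apply Finset.sum_congr rfl
            intro t _
            ring
        _ = B i' i * ∑ t, y t * lam t ^ k * ψ t i := by
            apply Finset.sum_eq_single i
            · intro v _ hvi
              have hvi' : v.val ≠ i.val := fun h => hvi (Fin.ext h)
              by_cases h0 : B i' v = 0
              · rw [h0]; ring
              have hv : v.val < i.val := by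
                have := v.isLt
                rcases hB.rel h0 with h | h
                · omega
                · unfold Rel at h; omega
              rw [ih v.val (by omega) k v rfl (by omega)]; ring
            · intro h; exact absurd (Finset.mem_univ _) h
    have hR : ∑ t, y t * lam t ^ k * ∑ v, B i' v * ψ t v = 0 := by
      rw [← ih (a - 1) (by omega) (k + 1) i' (by omega) (by omega)]
      apply Finset.sum_congr rfl
      intro t _
      rw [hψ, pow_succ]; ring
    rw [hR] at hL
    have hne : B i' i ≠ 0 := hB.ne (fun h => by rw [h] at hi'; omega) (Or.inl hi')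
    rcases mul_eq_zero.1 hL.symm with h | h
    · exact absurd h hne
    · exact h

include hφ0 in
lemma YY_block (i j : Fin (n + m)) (hi : i.val ≤ n) (hj : j.val ≤ n) : YY φ ψ y i j = 0 := by
  unfold YY
  apply Finset.sum_eq_zero
  intro t _
  rw [hφ0 t i hi, hφ0 t j hj]; ring

include hm hB hφ hψ hφ0 hφ1 hψ0 hy in
lemma YY_col (i p : Fin (n + m)) (hi : i.val ≤ n) (hp : p.val = n + 1 ∨ p.val + 1 = n + m) :
    YY φ ψ y i p = 0 := by
  -- value of `φ` at `p` is independent of `t`
  obtain ⟨c, hc⟩ : ∃ c : ℝ, ∀ t, φ t p = c := by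
    rcases hp with hp | hp
    · exact ⟨1, fun t => hφ1 t p hp⟩
    · obtain ⟨nn, hnn⟩ : ∃ nn : Fin (n + m), nn.val = n := ⟨⟨n, by omega⟩, rfl⟩
      obtain ⟨p1, hp1⟩ : ∃ p : Fin (n + m), p.val = n + 1 := ⟨⟨n + 1, by omega⟩, rfl⟩
      have hpq : p1 ≠ p := fun h => by rw [h] at hp1; omega
      have hB2 : B nn p ≠ 0 := hB.ne (fun h => by rw [h] at hnn; omega)
        (Or.inr (Or.inr (Or.inl ⟨hnn, hp⟩)))
      refine ⟨- B nn p1 / B nn p, ?_⟩
      intro t
      have e := hφ t nn
      rw [Finset.sum_eq_add p1 p hpq, hφ0 t nn hnn.le, hφ1 t p1 hp1] at e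
      · rw [eq_div_iff hB2]; linarith
      · intro k _ hk
        have h2 : k.val ≠ p1.val := fun h => hk.1 (Fin.ext h)
        have h3 : k.val ≠ p.val := fun h => hk.2 (Fin.ext h)
        by_cases h0 : B nn k = 0
        · rw [h0]; ring
        · rw [hφ0 t k]
          · ring
          · have := k.isLt
            rcases hB.rel h0 with h | h
            · omega
            · unfold Rel at h; omega
      · intro h; exact absurd (Finset.mem_univ _) h
      · intro h; exact absurd (Finset.mem_univ _) h
  have hmom := moments hm hB hψ hψ0 hy i.val 0 i rfl (by omega)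
  unfold YY
  have : ∑ t, y t * (φ t i * ψ t p - ψ t i * φ t p) =
      - c * ∑ t, y t * lam t ^ 0 * ψ t i := by
    rw [Finset.mul_sum]
    apply Finset.sum_congr rfl
    intro t _
    rw [hφ0 t i hi, hc t, pow_zero]; ring
  rw [this, hmom]; ring

include hm hB hφ hψ hφ0 hφ1 hψ0 hy in
lemma YY_succ : ∀ a : ℕ, ∀ i j : Fin (n + m), i.val = a → i.val + 1 = j.val →
    YY φ ψ y i j = 0 := by
  intro a
  induction a using Nat.strong_induction_on with
  | _ a ih =>
    intro i j hi hj
    have hjl := j.isLt
    by_cases h1 : i.val ≤ n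
    · by_cases h2 : i.val = n
      · exact YY_col hm hB hφ hψ hφ0 hφ1 hψ0 hy i j h1 (Or.inl (by omega))
      · exact YY_block hφ0 i j h1 (by omega)
    obtain ⟨i', hi'⟩ : ∃ i' : Fin (n + m), i'.val + 1 = i.val :=
      ⟨⟨i.val - 1, by omega⟩, by simp only; omega⟩
    have hc := congrFun (congrFun (YY_comm (y := y) hB hφ hψ) i) i
    have h2 : (YY φ ψ y * B) i i = - (B * YY φ ψ y) i i := by
      rw [Matrix.mul_apply, Matrix.mul_apply, ← Finset.sum_neg_distrib]
      apply Finset.sum_congr rfl
      intro k _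
      rw [YY_skew k i, hB.1 k i]; ring
    have h3 : (B * YY φ ψ y) i i = 0 := by linarith
    rw [Matrix.mul_apply, Finset.sum_eq_single j] at h3
    · have hne : B i j ≠ 0 := hB.ne (fun h => by rw [h] at hj; omega) (Or.inl hj)
      rcases mul_eq_zero.1 h3 with h | h
      · exact absurd h hne
      · rw [YY_skew j i, h]; ring
    · intro k _ hkj
      have hkj' : k.val ≠ j.val := fun h => hkj (Fin.ext h)
      by_cases h0 : B i k = 0
      · rw [h0]; ring
      have hk : k = i ∨ k.val + 1 = i.val := by
        have := k.isLt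
        rcases hB.rel h0 with h | h
        · left; exact h.symm
        · unfold Rel at h; right; omega
      rcases hk with hk | hk
      · subst hk
        have : YY φ ψ y k k = 0 := by
          have := YY_skew (φ := φ) (ψ := ψ) (y := y) k k
          linarith
        rw [this]; ring
      · rw [ih k.val (by omega) k i rfl hk]; ring
    · intro h; exact absurd (Finset.mem_univ _) h

include hm hB hφ hψ hφ0 hφ1 hψ0 hy in
lemma YY_edge (i j : Fin (n + m)) (h : i = j ∨ Rel m n i.val j.val) : YY φ ψ y i j = 0 := by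
  rcases h with h | h | h | h | h
  · subst h
    have := YY_skew (φ := φ) (ψ := ψ) (y := y) i i
    linarith
  · exact YY_succ hm hB hφ hψ hφ0 hφ1 hψ0 hy i.val i j rfl h
  · rw [YY_skew j i, YY_succ hm hB hφ hψ hφ0 hφ1 hψ0 hy j.val j i rfl h]; ring
  · exact YY_col hm hB hφ hψ hφ0 hφ1 hψ0 hy i j h.1.le (Or.inr h.2)
  · rw [YY_skew j i, YY_col hm hB hφ hψ hφ0 hφ1 hψ0 hy j i h.1.le (Or.inr h.2)]; ring

include hm hφ hφ0 hφ1 hψ0 in
/-- the skew matrix is nonzero if `y` is -/
lemma YY_ne (hlam : Function.Injective lam) (hy0 : y ≠ 0) : YY φ ψ y ≠ 0 := by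
  intro hY
  obtain ⟨z0, hz0⟩ : ∃ z : Fin (n + m), z.val = 0 := ⟨⟨0, by omega⟩, rfl⟩
  obtain ⟨p1, hp1⟩ : ∃ p : Fin (n + m), p.val = n + 1 := ⟨⟨n + 1, by omega⟩, rfl⟩
  have h0 : ∀ v, ∑ t, y t * φ t v = 0 := by
    intro v
    have := congrFun (congrFun hY v) z0
    rw [Matrix.zero_apply] at this
    rw [← this]
    unfold YY
    apply Finset.sum_congr rfl
    intro t _
    rw [hψ0 t z0 hz0, hφ0 t z0 (by omega)]; ring
  have hk : ∀ k : ℕ, ∀ v, ∑ t, y t * lam t ^ k * φ t v = 0 := by
    intro k
    induction k with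
    | zero =>
      intro v
      rw [← h0 v]
      apply Finset.sum_congr rfl
      intro t _
      ring
    | succ k ih =>
      intro v
      have : ∑ u, B v u * ∑ t, y t * lam t ^ k * φ t u = 0 := by
        apply Finset.sum_eq_zero
        intro u _
        rw [ih u]; ring
      rw [← this]
      simp only [Finset.mul_sum]
      rw [Finset.sum_comm]
      apply Finset.sum_congr rfl
      intro t _
      have e := hφ t v
      calc y t * lam t ^ (k + 1) * φ t v = y t * lam t ^ k * (lam t * φ t v) := by
            rw [pow_succ]; ring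
        _ = y t * lam t ^ k * ∑ u, B v u * φ t u := by rw [e]
        _ = _ := by
            rw [Finset.mul_sum]
            apply Finset.sum_congr rfl
            intro u _
            ring
  apply hy0
  apply Matrix.eq_zero_of_forall_pow_sum_mul_pow_eq_zero hlam
  intro k
  rw [← hk k p1]
  apply Finset.sum_congr rfl
  intro t _
  rw [hφ1 t p1 hp1]; ring

include hm hB hφ hψ hφ0 hφ1 hψ0 in
lemma fail_aux (hlam : Function.Injective lam) : ¬ GSSP (tadpole m n) := by
  intro hG
  obtain ⟨y, hy0, hy⟩ := exists_coeff (n + 1) lam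
  set Y := YY φ ψ y with hY
  have hYskew : ∀ i j, Y j i = - Y i j := fun i j => YY_skew i j
  have hYedge : ∀ i j, (i = j ∨ Rel m n i.val j.val) → Y i j = 0 :=
    fun i j h => YY_edge hm hB hφ hψ hφ0 hφ1 hψ0 hy i j h
  have hYblock : ∀ i j : Fin (n + m), i.val ≤ n → j.val ≤ n → Y i j = 0 :=
    fun i j hi hj => YY_block hφ0 i j hi hj
  have hYcol : ∀ i p : Fin (n + m), i.val ≤ n → (p.val = n + 1 ∨ p.val + 1 = n + m) → Y i p = 0 :=
    fun i p hi hp => YY_col hm hB hφ hψ hφ0 hφ1 hψ0 hy i p hi hp
  have hYc : B * Y = Y * B := YY_comm hB hφ hψ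
  have hXs : ∀ i j, tw Y i j = tw Y j i := by
    intro i j
    unfold tw
    rcases lt_trichotomy i.val j.val with h | h | h
    · rw [if_pos (by omega), if_neg (by omega), hYskew i j]; ring
    · have : i = j := Fin.ext h
      rw [this]
    · rw [if_neg (by omega), if_pos (by omega), hYskew j i]; ring
  have hAs : ∀ i j, flipA B i j = flipA B j i := by
    intro i j
    unfold flipA
    rw [hB.1 j i]
    by_cases h : (i.val = n ∧ j.val + 1 = n + m) ∨ (j.val = n ∧ i.val + 1 = n + m)
    · rw [if_pos h, if_pos h.symm]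
    · rw [if_neg h, if_neg (fun h' => h h'.symm)]
  have hAin : InS (tadpole m n) (flipA B) := by
    refine ⟨hAs, ?_⟩
    intro i j hij
    rw [← hB.2 i j hij]
    unfold flipA
    split_ifs
    · exact neg_ne_zero
    · exact Iff.rfl
  have hlt : ∀ u v : Fin (n + m), u.val < v.val → (flipA B * tw Y) u v = (tw Y * flipA B) u v := by
    intro u v huv
    by_cases hvn : v.val = n
    · have h1 : (flipA B * tw Y) u v = 0 := by
        rw [Matrix.mul_apply]
        apply Finset.sum_eq_zero
        intro k _
        by_cases h0 : B u k = 0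
        · rw [flip_zero h0]; ring
        · have hk : k.val ≤ n := by
            have := k.isLt
            rcases hB.rel h0 with h | h
            · omega
            · unfold Rel at h; omega
          rw [tw_zero (hYblock k v hk hvn.le)]; ring
      have h2 : (tw Y * flipA B) u v = 0 := by
        rw [Matrix.mul_apply]
        apply Finset.sum_eq_zero
        intro k _
        by_cases h0 : B k v = 0
        · rw [flip_zero h0]; ring
        · have hk : k.val ≤ n ∨ (k.val = n + 1 ∨ k.val + 1 = n + m) := by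
            have := k.isLt
            rcases hB.rel h0 with h | h
            · left; omega
            · unfold Rel at h; omega
          rcases hk with hk | hk
          · rw [tw_zero (hYblock u k (by omega) hk)]; ring
          · rw [tw_zero (hYcol u k (by omega) hk)]; ring
      rw [h1, h2]
    · rw [twist_left hm hB hYedge huv,
        twist_right hm hB hYedge (fun i j hi hj => hYblock i j hi hj.le) huv hvn, hYc]
  have hflip : ∀ u v : Fin (n + m), (flipA B * tw Y) u v = (tw Y * flipA B) v u := by
    intro u v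
    rw [Matrix.mul_apply, Matrix.mul_apply]
    apply Finset.sum_congr rfl
    intro k _
    rw [hXs k v, hAs u k]; ring
  have hXc : flipA B * tw Y = tw Y * flipA B := by
    ext u v
    rcases lt_trichotomy u.val v.val with h | h | h
    · exact hlt u v h
    · have : u = v := Fin.ext h
      rw [this]
      exact hflip v v
    · rw [hflip u v, ← hlt v u h, hflip v u]
  have hres := hG (flipA B) hAin (tw Y) hXs (by
    intro i j
    by_cases h0 : B i j = 0
    · rw [flip_zero h0]; ring
    · rw [tw_zero (hYedge i j (hB.rel h0))]; ring) (by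
    intro i
    exact tw_zero (hYedge i i (Or.inl rfl))) hXc
  apply YY_ne (y := y) (ψ := ψ) hm hφ hφ0 hφ1 hψ0 hlam hy0
  rw [← hY]
  ext i j
  have := congrFun (congrFun hres i) j
  rw [Matrix.zero_apply] at this ⊢
  unfold tw at this
  split_ifs at this
  · exact this
  · linarith

end Doubles

/-- **A matrix of `𝒮(T_{m,n})` with `n+2` double eigenvalues produces one without the SSP.** -/
theorem fail_of_doubles (hm : 3 ≤ m) {B : Matrix (Fin (n + m)) (Fin (n + m)) ℝ}
    (hB : InS (tadpole m n) B) {lam : Fin (n + 2) → ℝ} (hlam : Function.Injective lam)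
    {φ ψ : Fin (n + 2) → Fin (n + m) → ℝ}
    (hφ : ∀ t i, ∑ k, B i k * φ t k = lam t * φ t i)
    (hψ : ∀ t i, ∑ k, B i k * ψ t k = lam t * ψ t i)
    (hφ0 : ∀ t, ∀ i : Fin (n + m), i.val = 0 → φ t i = 0)
    (hφne : ∀ t, φ t ≠ 0)
    (hψne : ∀ t, ∀ i : Fin (n + m), i.val = n → ψ t i ≠ 0) : ¬ GSSP (tadpole m n) := by
  obtain ⟨z0, hz0⟩ : ∃ z : Fin (n + m), z.val = 0 := ⟨⟨0, by omega⟩, rfl⟩
  obtain ⟨nn, hnn⟩ : ∃ z : Fin (n + m), z.val = n := ⟨⟨n, by omega⟩, rfl⟩
  obtain ⟨p1, hp1⟩ : ∃ p : Fin (n + m), p.val = n + 1 := ⟨⟨n + 1, by omega⟩, rfl⟩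
  have hφ00 : ∀ t, ∀ i : Fin (n + m), i.val ≤ n → φ t i = 0 :=
    fun t => eig_zero hm hB (hφ t) (hφ0 t)
  have h1 : ∀ t, φ t p1 ≠ 0 := by
    intro t h
    apply hφne t
    apply eig_zero' hm hB (hφ t)
    intro i hi
    by_cases hi' : i.val ≤ n
    · exact hφ00 t i hi'
    · rw [show i = p1 from Fin.ext (by omega)]; exact h
  have h2 : ∀ t, ψ t z0 ≠ 0 := by
    intro t h
    apply hψne t nn hnn
    apply eig_zero hm hB (hψ t) _ nn hnn.le
    intro i hi
    rw [show i = z0 from Fin.ext (by omega)]; exact h
  refine fail_aux (φ := fun t i => φ t i / φ t p1) (ψ := fun t i => ψ t i / ψ t z0) (lam := lam)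
    hm hB ?_ ?_ ?_ ?_ ?_ hlam
  · intro t i
    have e := hφ t i
    calc ∑ k, B i k * (φ t k / φ t p1) = (∑ k, B i k * φ t k) / φ t p1 := by
          rw [Finset.sum_div]
          apply Finset.sum_congr rfl
          intro k _
          ring
      _ = _ := by rw [e]; ring
  · intro t i
    have e := hψ t i
    calc ∑ k, B i k * (ψ t k / ψ t z0) = (∑ k, B i k * ψ t k) / ψ t z0 := by
          rw [Finset.sum_div]
          apply Finset.sum_congr rfl
          intro k _
          ring
      _ = _ := by rw [e]; ring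
  · intro t i hi
    simp only [hφ00 t i hi, zero_div]
  · intro t i hi
    rw [show i = p1 from Fin.ext (by omega)]
    exact div_self (h1 t)
  · intro t i hi
    rw [show i = z0 from Fin.ext (by omega)]
    exact div_self (h2 t)

end Pool.Agent.Q104.SSP
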