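import Pool.Agent.Helper827.Brou.Spec
import Pool.Agent.Q104.Spec

/-!
# Brouwer's inequality for arbitrary nonnegative weights
-/

set_option autoImplicit false

namespace Q104.WBrou

open Matrix Finset Q104.Spec

/-- the Laplacian of a weighted graph -/
def wlap {n : ℕ} (W : Matrix (Fin n) (Fin n) ℝ) : Matrix (Fin n) (Fin n) ℝ :=
  Matrix.diagonal (fun i => ∑ j, W i j) - W

/-- eigenvalues in nonincreasing order -/
noncomputable def spec {n : ℕ} {L : Matrix (Fin n) (Fin n) ℝ} (hL : L.IsHermitian) : Fin n → ℝ :=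
  fun k => hL.eigenvalues₀ (Fin.cast (Fintype.card_fin n).symm k)

/-- the sum of the first `i` coordinates -/
noncomputable def psum {n : ℕ} (x : Fin n → ℝ) (i : ℕ) : ℝ :=
  ∑ a : Fin n, if (a : ℕ) < i then x a else 0

theorem wlap_hermitian {n : ℕ} (W : Matrix (Fin n) (Fin n) ℝ) (hW : ∀ i j, W i j = W j i) :
    (wlap W).IsHermitian := by
  have h : Wᵀ = W := by ext i j; exact hW j i
  rw [Matrix.IsHermitian, Matrix.conjTranspose_eq_transpose_of_trivial, wlap,
    Matrix.transpose_sub, Matrix.diagonal_transpose, h]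

theorem wlap_apply {n : ℕ} (W : Matrix (Fin n) (Fin n) ℝ) (x : Fin n → ℝ) (v : Fin n) :
    (wlap W).mulVec x v = ∑ u, W v u * (x v - x u) := by
  rw [wlap, Matrix.sub_mulVec, Pi.sub_apply, Matrix.mulVec_diagonal, Matrix.mulVec, dotProduct,
    Finset.sum_mul, ← Finset.sum_sub_distrib]
  exact Finset.sum_congr rfl fun u _ => by ring

theorem wlap_quad {n : ℕ} (W : Matrix (Fin n) (Fin n) ℝ) (hW : ∀ i j, W i j = W j i)
    (x : Fin n → ℝ) : 2 * (x ⬝ᵥ ((wlap W) *ᵥ x)) = ∑ v, ∑ u, W v u * (x v - x u) ^ 2 := by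
  have h1 : x ⬝ᵥ ((wlap W) *ᵥ x) = ∑ v, ∑ u, W v u * (x v * (x v - x u)) := by
    rw [dotProduct]
    refine Finset.sum_congr rfl fun v _ => ?_
    rw [wlap_apply, Finset.mul_sum]
    exact Finset.sum_congr rfl fun u _ => by ring
  have h2 : x ⬝ᵥ ((wlap W) *ᵥ x) = ∑ v, ∑ u, W v u * (x u * (x u - x v)) := by
    rw [h1, Finset.sum_comm]
    exact Finset.sum_congr rfl fun v _ => Finset.sum_congr rfl fun u _ => by rw [hW u v]
  rw [two_mul]
  conv_lhs =>
    congr
    · rw [h1]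
    · rw [h2]
  rw [← Finset.sum_add_distrib]
  refine Finset.sum_congr rfl fun v _ => ?_
  rw [← Finset.sum_add_distrib]
  exact Finset.sum_congr rfl fun u _ => by ring

theorem wlap_quad_nonneg {n : ℕ} (W : Matrix (Fin n) (Fin n) ℝ) (hW : ∀ i j, W i j = W j i)
    (h0 : ∀ i j, 0 ≤ W i j) (x : Fin n → ℝ) : 0 ≤ x ⬝ᵥ ((wlap W) *ᵥ x) := by
  have h := wlap_quad W hW x
  have h4 : 0 ≤ ∑ v, ∑ u, W v u * (x v - x u) ^ 2 :=
    Finset.sum_nonneg fun v _ => Finset.sum_nonneg fun u _ => mul_nonneg (h0 v u) (sq_nonneg _)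
  linarith

theorem spec_antitone {n : ℕ} {L : Matrix (Fin n) (Fin n) ℝ} (hL : L.IsHermitian) :
    Antitone (spec hL) := by
  intro a b hab
  unfold spec
  exact Matrix.IsHermitian.eigenvalues₀_antitone _ hab

/-- the reindexing of the eigenvalues -/
noncomputable def ix (n : ℕ) : Fin n ≃ Fin n :=
  (finCongr (Fintype.card_fin n).symm).trans (Fintype.equivOfCardEq (Fintype.card_fin _))

theorem spec_eq {n : ℕ} {L : Matrix (Fin n) (Fin n) ℝ} (hL : L.IsHermitian) (a : Fin n) :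
    spec hL a = hL.eigenvalues (ix n a) := by
  unfold Matrix.IsHermitian.eigenvalues ix spec
  simp

theorem eig_nonneg {n : ℕ} {L : Matrix (Fin n) (Fin n) ℝ} (hL : L.IsHermitian)
    (h : ∀ x : Fin n → ℝ, 0 ≤ x ⬝ᵥ (L *ᵥ x)) (a : Fin n) : 0 ≤ hL.eigenvalues a := by
  have h1 := h (ev hL a)
  rw [mulVec_ev, dotProduct_smul, ev_dot, if_pos rfl] at h1
  simpa using h1

theorem sum_spec {n : ℕ} {L : Matrix (Fin n) (Fin n) ℝ} (hL : L.IsHermitian) :
    ∑ a, spec hL a = L.trace := by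
  rw [hL.trace_eq_sum_eigenvalues]
  simp only [spec_eq, RCLike.ofReal_real_eq_id, id_eq]
  exact Equiv.sum_comp (ix n) _

theorem trace_wlap {n : ℕ} (W : Matrix (Fin n) (Fin n) ℝ) (hd : ∀ i, W i i = 0) :
    (wlap W).trace = ∑ v, ∑ u, W v u := by
  rw [wlap, Matrix.trace_sub, Matrix.trace_diagonal]
  have : W.trace = 0 := by
    rw [Matrix.trace]
    exact Finset.sum_eq_zero fun i _ => hd i
  rw [this, sub_zero]

theorem weighted_core {n : ℕ} (W : Matrix (Fin n) (Fin n) ℝ) (hW : ∀ i j, W i j = W j i)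
    (hd : ∀ i, W i i = 0) (h0 : ∀ i j, 0 ≤ W i j) (h1 : ∀ i j, W i j ≤ 1)
    (hL : (wlap W).IsHermitian) (i j : ℕ) (hij : i ≤ j) (hj : j < n) :
    psum (spec hL) i + psum (spec hL) j ≤ (∑ v, ∑ u, W v u) + (i : ℝ) * ((j : ℝ) + 1) := by
  refine Pool.Agent.Helper827.Brou.basisForm n (Fintype.card_fin n) (fun v u => W v u) h0 h1 hW hd
    (fun i => ev hL (ix n i)) ?_ (spec hL) (spec_antitone hL)
    (fun a => ?_) ?_ (by rw [sum_spec, trace_wlap W hd]) i j hij (by omega)
  · rw [Fintype.linearIndependent_iff]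
    intro g hg m
    have h2 := congrArg (fun z => ev hL (ix n m) ⬝ᵥ z) hg
    simp only [dotProduct_sum, dotProduct_smul, ev_dot, smul_eq_mul, dotProduct_zero] at h2
    rw [Finset.sum_eq_single m] at h2
    · simpa using h2
    · intro b _ hb
      rw [if_neg, mul_zero]
      intro h3
      exact hb ((ix n).injective h3.symm)
    · simp
  · rw [spec_eq]
    exact eig_nonneg hL (wlap_quad_nonneg W hW h0) _
  · intro i v
    have h1 := mulVec_ev hL (ix n i)
    have h2 := congrFun h1 v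
    rw [wlap_apply] at h2
    refine h2.trans ?_
    rw [spec_eq]
    rfl

theorem sum_weights (N k : ℕ) (hk : k ≤ N) (μ w : Fin N → ℝ) (hμ : Antitone μ)
    (hw0 : ∀ j, 0 ≤ w j) (hw1 : ∀ j, w j ≤ 1) (hw : ∑ j, w j = k) :
    ∑ j, μ j * w j ≤ ∑ j : Fin N, if (j : ℕ) < k then μ j else 0 := by
  rcases Nat.eq_zero_or_pos k with h0 | h0
  · subst h0
    have hz : ∀ j, w j = 0 := by
      intro j
      have := (Finset.sum_eq_zero_iff_of_nonneg (fun j _ => hw0 j)).1 (by simpa using hw) j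
        (Finset.mem_univ _)
      exact this
    simp [hz]
  · set c := μ ⟨k - 1, by omega⟩ with hc
    have hcard : (∑ j : Fin N, if (j : ℕ) < k then (1 : ℝ) else 0) = k := by
      rw [Finset.sum_ite, Finset.sum_const_zero, add_zero, Finset.sum_const, nsmul_eq_mul, mul_one]
      congr 1
      have : (Finset.univ.filter fun j : Fin N => (j : ℕ) < k) =
          (Finset.univ : Finset (Fin k)).map (Fin.castLEEmb hk) := by
        ext j
        simp only [Finset.mem_filter, Finset.mem_univ, true_and, Finset.mem_map]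
        constructor
        · intro h; exact ⟨⟨j, h⟩, by ext; rfl⟩
        · rintro ⟨i, rfl⟩; exact i.2
      rw [this]; simp
    have hterm : ∀ j : Fin N, μ j * w j ≤ (if (j : ℕ) < k then μ j else 0) + c * w j -
        c * (if (j : ℕ) < k then (1 : ℝ) else 0) := by
      intro j
      split_ifs with h
      · have : c ≤ μ j := hμ (by rw [Fin.le_def]; simp only; omega)
        nlinarith [hw1 j]
      · have : μ j ≤ c := hμ (by rw [Fin.le_def]; simp only; omega)
        nlinarith [hw0 j]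
    calc ∑ j, μ j * w j ≤ ∑ j : Fin N, ((if (j : ℕ) < k then μ j else 0) + c * w j -
        c * (if (j : ℕ) < k then (1 : ℝ) else 0)) := Finset.sum_le_sum fun j _ => hterm j
      _ = _ := by
        rw [Finset.sum_sub_distrib, Finset.sum_add_distrib, ← Finset.mul_sum, ← Finset.mul_sum,
          hw, hcard]
        ring

/-- Ky Fan's principle for the eigenvectors of another matrix -/
theorem ky {n : ℕ} {L H : Matrix (Fin n) (Fin n) ℝ} (hL : L.IsHermitian) (hH : H.IsHermitian)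
    (s : Finset (Fin n)) :
    ∑ i ∈ s, ev hL i ⬝ᵥ (H *ᵥ ev hL i) ≤ psum (spec hH) s.card := by
  have hk : s.card ≤ n := by
    have := s.card_le_univ
    simpa using this
  have h1 : ∑ i ∈ s, ev hL i ⬝ᵥ (H *ᵥ ev hL i)
      = ∑ j, spec hH j * ∑ i ∈ s, (ev hH (ix n j) ⬝ᵥ ev hL i) ^ 2 := by
    rw [← Equiv.sum_comp (ix n).symm]
    simp only [spec_eq, Equiv.apply_symm_apply]
    rw [Finset.sum_congr rfl fun i _ => quad_expand hH (ev hL i), Finset.sum_comm]
    exact Finset.sum_congr rfl fun j _ => by rw [Finset.mul_sum]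
  rw [h1]
  refine sum_weights n s.card hk _ _ (spec_antitone hH) ?_ ?_ ?_
  · exact fun j => Finset.sum_nonneg fun i _ => sq_nonneg _
  · intro j
    have h2 := sq_expand hL (ev hH (ix n j))
    rw [ev_dot, if_pos rfl] at h2
    rw [h2]
    have h3 : ∑ i ∈ s, (ev hH (ix n j) ⬝ᵥ ev hL i) ^ 2 = ∑ i ∈ s, (ev hL i ⬝ᵥ ev hH (ix n j)) ^ 2 :=
      Finset.sum_congr rfl fun i _ => by rw [dotProduct_comm]
    rw [h3]
    exact Finset.sum_le_univ_sum_of_nonneg fun i => sq_nonneg _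
  · rw [Finset.sum_comm]
    have h4 : ∀ i ∈ s, ∑ j, (ev hH (ix n j) ⬝ᵥ ev hL i) ^ 2 = 1 := by
      intro i _
      rw [Equiv.sum_comp (ix n) (fun j => (ev hH j ⬝ᵥ ev hL i) ^ 2), ← sq_expand hH, ev_dot,
        if_pos rfl]
    rw [Finset.sum_congr rfl h4]
    simp

/-- for a nonnegative form, part of the trace is at most the trace -/
theorem part_trace {n : ℕ} {L H : Matrix (Fin n) (Fin n) ℝ} (hL : L.IsHermitian)
    (hH : H.IsHermitian) (h0 : ∀ x : Fin n → ℝ, 0 ≤ x ⬝ᵥ (H *ᵥ x)) (s : Finset (Fin n)) :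
    ∑ i ∈ s, ev hL i ⬝ᵥ (H *ᵥ ev hL i) ≤ H.trace := by
  refine (Finset.sum_le_univ_sum_of_nonneg fun i => h0 _).trans (le_of_eq ?_)
  rw [Finset.sum_congr rfl fun i _ => quad_expand hH (ev hL i), Finset.sum_comm]
  rw [hH.trace_eq_sum_eigenvalues]
  refine Finset.sum_congr rfl fun j _ => ?_
  rw [← Finset.mul_sum]
  have h3 : ∑ i, (ev hH j ⬝ᵥ ev hL i) ^ 2 = ∑ i, (ev hL i ⬝ᵥ ev hH j) ^ 2 :=
    Finset.sum_congr rfl fun i _ => by rw [dotProduct_comm]
  rw [h3, ← sq_expand hL, ev_dot, if_pos rfl]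
  simp

/-- the `M` largest elements of a finite set -/
theorem exists_top {α : Type*} [DecidableEq α] (f : α → ℝ) (T : Finset α) (M : ℕ)
    (hM : M ≤ T.card) :
    ∃ P ⊆ T, P.card = M ∧ ∀ p ∈ P, ∀ q ∈ T \ P, f q ≤ f p := by
  induction M with
  | zero => exact ⟨∅, Finset.empty_subset _, rfl, by simp⟩
  | succ M ih =>
    obtain ⟨P, hP, hc, hf⟩ := ih (by omega)
    have hne : (T \ P).Nonempty := by
      rw [← Finset.card_pos, Finset.card_sdiff_of_subset hP]
      omega
    obtain ⟨q, hq, hqm⟩ := Finset.exists_max_image (T \ P) f hne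
    rw [Finset.mem_sdiff] at hq
    refine ⟨insert q P, ?_, ?_, ?_⟩
    · exact Finset.insert_subset hq.1 hP
    · rw [Finset.card_insert_of_notMem hq.2, hc]
    · intro p hp r hr
      have hr' : r ∈ T \ P := by
        rw [Finset.mem_sdiff] at hr ⊢
        exact ⟨hr.1, fun h => hr.2 (Finset.mem_insert_of_mem h)⟩
      rcases Finset.mem_insert.mp hp with rfl | hp
      · exact hqm r hr'
      · exact hf p hp r hr'

theorem wlap_add {n : ℕ} (A B : Matrix (Fin n) (Fin n) ℝ) : wlap (A + B) = wlap A + wlap B := by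
  ext i j
  simp only [wlap, Matrix.sub_apply, Matrix.add_apply, Matrix.diagonal_apply,
    Finset.sum_add_distrib]
  split_ifs <;> ring

theorem wlap_smul {n : ℕ} (c : ℝ) (A : Matrix (Fin n) (Fin n) ℝ) : wlap (c • A) = c • wlap A := by
  ext i j
  simp only [wlap, Matrix.sub_apply, Matrix.smul_apply, Matrix.diagonal_apply, smul_eq_mul,
    ← Finset.mul_sum]
  split_ifs <;> ring

/-- the pairs `i < j` -/
def pairs (n : ℕ) : Finset (Fin n × Fin n) := Finset.univ.filter fun p => p.1 < p.2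

theorem card_pairs (n : ℕ) : (pairs n).card = n.choose 2 := by
  have h := Finset.card_powersetCard 2 (Finset.univ : Finset (Fin n))
  rw [Finset.card_univ, Fintype.card_fin] at h
  rw [← h]
  refine Finset.card_bij (fun p _ => {p.1, p.2}) ?_ ?_ ?_
  · intro p hp
    simp only [pairs, Finset.mem_filter, Finset.mem_univ, true_and] at hp
    rw [Finset.mem_powersetCard]
    exact ⟨Finset.subset_univ _, Finset.card_pair hp.ne⟩
  · intro p hp q hq h
    simp only [pairs, Finset.mem_filter, Finset.mem_univ, true_and] at hp hq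
    have h1 : p.1 ∈ ({q.1, q.2} : Finset (Fin n)) := by rw [← h]; simp
    have h2 : p.2 ∈ ({q.1, q.2} : Finset (Fin n)) := by rw [← h]; simp
    simp only [Finset.mem_insert, Finset.mem_singleton] at h1 h2
    rcases h1 with h1 | h1 <;> rcases h2 with h2 | h2
    · rw [h1, h2] at hp; exact absurd hp (lt_irrefl _)
    · exact Prod.ext h1 h2
    · rw [h1, h2] at hp; exact absurd hp (not_lt.mpr hq.le)
    · rw [h1, h2] at hp; exact absurd hp (lt_irrefl _)
  · intro t ht
    rw [Finset.mem_powersetCard] at ht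
    obtain ⟨a, b, hab, rfl⟩ := Finset.card_eq_two.mp ht.2
    rcases lt_or_gt_of_ne hab with h1 | h1
    · exact ⟨(a, b), by simp [pairs, h1], rfl⟩
    · exact ⟨(b, a), by simp [pairs, h1], Finset.pair_comm _ _⟩

theorem sum_pairs {n : ℕ} (A : Matrix (Fin n) (Fin n) ℝ) :
    (∑ i, ∑ j, if i < j then A i j else 0) = ∑ p ∈ pairs n, A p.1 p.2 := by
  rw [pairs, Finset.sum_filter, ← Finset.univ_product_univ, Finset.sum_product]

theorem sum_all {n : ℕ} (A : Matrix (Fin n) (Fin n) ℝ) (hs : ∀ i j, A i j = A j i)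
    (hd : ∀ i, A i i = 0) :
    ∑ i, ∑ j, A i j = 2 * ∑ p ∈ pairs n, A p.1 p.2 := by
  rw [← sum_pairs, two_mul]
  have h2 : (∑ i, ∑ j, if i < j then A i j else 0) = ∑ i, ∑ j, if j < i then A i j else 0 := by
    rw [Finset.sum_comm]
    refine Finset.sum_congr rfl fun i _ => Finset.sum_congr rfl fun j _ => ?_
    rw [hs j i]
  conv_rhs =>
    congr
    · skip
    · rw [h2]
  rw [← Finset.sum_add_distrib]
  refine Finset.sum_congr rfl fun i _ => ?_
  rw [← Finset.sum_add_distrib]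
  refine Finset.sum_congr rfl fun j _ => ?_
  rcases lt_trichotomy i j with h | h | h
  · rw [if_pos h, if_neg (not_lt.mpr h.le), add_zero]
  · subst h
    simp [hd]
  · rw [if_neg (not_lt.mpr h.le), if_pos h, zero_add]

/-- weights in `[0, c]` -/
theorem capped {n : ℕ} (W : Matrix (Fin n) (Fin n) ℝ) (hs : ∀ i j, W i j = W j i)
    (hd : ∀ i, W i i = 0) (h0 : ∀ i j, 0 ≤ W i j) (c : ℝ) (h1 : ∀ i j, W i j ≤ c) (hc0 : 0 ≤ c)
    {L : Matrix (Fin n) (Fin n) ℝ} (hL : L.IsHermitian) (s : Finset (Fin n))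
    (hk : s.card < n) :
    ∑ i ∈ s, ev hL i ⬝ᵥ (wlap W *ᵥ ev hL i) ≤
      (∑ p ∈ pairs n, W p.1 p.2) + c * ((s.card + 1).choose 2 : ℕ) := by
  rcases hc0.eq_or_lt with h | h
  · have hz : W = 0 := by
      ext i j
      exact le_antisymm ((h1 i j).trans (le_of_eq h.symm)) (h0 i j)
    have hz2 : wlap W = 0 := by
      rw [hz]
      ext i j
      simp [wlap]
    rw [hz2, hz, ← h]
    simp
  · set W' : Matrix (Fin n) (Fin n) ℝ := c⁻¹ • W with hW'
    have hWW : W = c • W' := by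
      rw [hW', smul_smul, mul_inv_cancel₀ h.ne', one_smul]
    have e1 : ∀ i j, W' i j = c⁻¹ * W i j := fun i j => rfl
    have hs' : ∀ i j, W' i j = W' j i := fun i j => by rw [e1, e1, hs]
    have hd' : ∀ i, W' i i = 0 := fun i => by rw [e1, hd, mul_zero]
    have h0' : ∀ i j, 0 ≤ W' i j := fun i j => by
      rw [e1]; exact mul_nonneg (inv_nonneg.mpr h.le) (h0 i j)
    have h1' : ∀ i j, W' i j ≤ 1 := fun i j => by
      rw [e1, inv_mul_le_iff₀ h, mul_one]; exact h1 i j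
    have hH := wlap_hermitian W' hs'
    have k1 := ky hL hH s
    have k2 := weighted_core W' hs' hd' h0' h1' hH s.card s.card le_rfl hk
    rw [sum_all W' hs' hd'] at k2
    have k3 : (((s.card + 1).choose 2 : ℕ) : ℝ) = (s.card : ℝ) * ((s.card : ℝ) + 1) / 2 := by
      rw [Nat.cast_choose_two]
      push_cast
      ring
    have k4 : ∑ i ∈ s, ev hL i ⬝ᵥ (wlap W *ᵥ ev hL i)
        = c * ∑ i ∈ s, ev hL i ⬝ᵥ (wlap W' *ᵥ ev hL i) := by
      rw [hWW, wlap_smul, Finset.mul_sum]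
      refine Finset.sum_congr rfl fun i _ => ?_
      rw [smul_mulVec, dotProduct_smul, smul_eq_mul]
    have k5 : ∑ p ∈ pairs n, W p.1 p.2 = c * ∑ p ∈ pairs n, W' p.1 p.2 := by
      rw [Finset.mul_sum]
      refine Finset.sum_congr rfl fun p _ => ?_
      rw [e1, ← mul_assoc, mul_inv_cancel₀ h.ne', one_mul]
    rw [k4, k5, ← mul_add]
    refine mul_le_mul_of_nonneg_left ?_ h.le
    rw [k3]
    linarith

/-- **Brouwer's inequality for arbitrary nonnegative weights.** -/
theorem main {n : ℕ} (A : Matrix (Fin n) (Fin n) ℝ) (hs : ∀ i j, A i j = A j i)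
    (h0 : ∀ i j, 0 ≤ A i j) (hd : ∀ i, A i i = 0) (hL : (wlap A).IsHermitian)
    (s : Finset (Fin n)) (hk1 : 1 ≤ s.card) (hk : s.card < n) :
    ∃ P : Finset (Fin n × Fin n), P.card = (s.card + 1).choose 2 ∧ (∀ p ∈ P, p.1 < p.2) ∧
      ∑ i ∈ s, hL.eigenvalues i ≤
        (∑ i, ∑ j, if i < j then A i j else 0) + ∑ p ∈ P, A p.1 p.2 := by
  obtain ⟨P, hP, hPc, hPf⟩ := exists_top (fun p : Fin n × Fin n => A p.1 p.2) (pairs n)
    ((s.card + 1).choose 2) (by
      rw [card_pairs]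
      exact Nat.choose_le_choose 2 (by omega))
  have hPne : P.Nonempty := by
    rw [← Finset.card_pos, hPc]
    exact Nat.choose_pos (by omega)
  refine ⟨P, hPc, fun p hp => ?_, ?_⟩
  · have := hP hp
    simpa [pairs] using this
  obtain ⟨p0, hp0, hmin⟩ := Finset.exists_min_image P (fun p : Fin n × Fin n => A p.1 p.2) hPne
  set c := A p0.1 p0.2 with hc
  have hc0 : 0 ≤ c := h0 _ _
  have hcout : ∀ q ∈ pairs n, q ∉ P → A q.1 q.2 ≤ c := fun q hq hqP =>
    hPf p0 hp0 q (Finset.mem_sdiff.mpr ⟨hq, hqP⟩)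
  set W : Matrix (Fin n) (Fin n) ℝ := Matrix.of fun i j => min (A i j) c with hWdef
  set B : Matrix (Fin n) (Fin n) ℝ := Matrix.of fun i j => A i j - min (A i j) c with hBdef
  have eW : ∀ i j, W i j = min (A i j) c := fun _ _ => rfl
  have eB : ∀ i j, B i j = A i j - min (A i j) c := fun _ _ => rfl
  have hAWB : A = W + B := by
    ext i j
    rw [Matrix.add_apply, eW, eB]
    ring
  have hsW : ∀ i j, W i j = W j i := fun i j => by rw [eW, eW, hs]
  have hsB : ∀ i j, B i j = B j i := fun i j => by rw [eB, eB, hs]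
  have hdW : ∀ i, W i i = 0 := fun i => by rw [eW, hd, min_eq_left hc0]
  have hdB : ∀ i, B i i = 0 := fun i => by rw [eB, hd, min_eq_left hc0, sub_zero]
  have h0W : ∀ i j, 0 ≤ W i j := fun i j => by rw [eW]; exact le_min (h0 i j) hc0
  have h0B : ∀ i j, 0 ≤ B i j := fun i j => by
    rw [eB]; exact sub_nonneg.mpr (min_le_left _ _)
  have h1W : ∀ i j, W i j ≤ c := fun i j => by rw [eW]; exact min_le_right _ _
  have k1 := capped W hsW hdW h0W c h1W hc0 hL s hk
  have hHB := wlap_hermitian B hsB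
  have k2 := part_trace hL hHB (wlap_quad_nonneg B hsB h0B) s
  rw [trace_wlap B hdB, sum_all B hsB hdB] at k2
  have k3 : ∑ i ∈ s, hL.eigenvalues i
      = ∑ i ∈ s, ev hL i ⬝ᵥ (wlap W *ᵥ ev hL i) + ∑ i ∈ s, ev hL i ⬝ᵥ (wlap B *ᵥ ev hL i) := by
    rw [← Finset.sum_add_distrib]
    refine Finset.sum_congr rfl fun i _ => ?_
    rw [← dotProduct_add, ← add_mulVec, ← wlap_add, ← hAWB, mulVec_ev, dotProduct_smul, ev_dot,
      if_pos rfl]
    simp
  have k4 : ∑ p ∈ pairs n, B p.1 p.2 = ∑ p ∈ P, (A p.1 p.2 - c) := by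
    rw [← Finset.sum_subset hP]
    · refine Finset.sum_congr rfl fun p hp => ?_
      rw [eB, min_eq_right (hmin p hp)]
    · intro q hq hqP
      rw [eB, min_eq_left (hcout q hq hqP), sub_self]
  have k5 : ∑ p ∈ P, (A p.1 p.2 - c) = ∑ p ∈ P, A p.1 p.2 - c * ((s.card + 1).choose 2 : ℕ) := by
    rw [Finset.sum_sub_distrib, Finset.sum_const, nsmul_eq_mul, hPc]
    ring
  have k6 : ∑ p ∈ pairs n, A p.1 p.2 = ∑ p ∈ pairs n, W p.1 p.2 + ∑ p ∈ pairs n, B p.1 p.2 := by
    rw [← Finset.sum_add_distrib]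
    refine Finset.sum_congr rfl fun p _ => ?_
    rw [eW, eB]
    ring
  rw [sum_pairs, k3]
  linarith

end Q104.WBrou
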